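import Mathlib

/-! Definitions used in the statement: metrics on the unit ball of a Hermitian space, ball
quotients, geodesic flow, Liouville measure, measure-theoretic and topological entropy. -/

set_option autoImplicit false

open MeasureTheory Set Filter Topology Metric
open scoped ContDiff ENNReal

namespace Pool.Agent.Lib.MP_235f17_gt.K

variable {E : Type} [NormedAddCommGroup E] [InnerProductSpace ℝ E]

/-- the value `g_x(u, v)` of the metric whose matrix at `x` is `G x` -/
def gm (G : E → E →L[ℝ] E) (x u v : E) : ℝ := inner ℝ (G x u) v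

/-- `J` is an orthogonal complex structure -/
def IsCx (J : E →L[ℝ] E) : Prop :=
  (∀ v, J (J v) = -v) ∧ ∀ u v, inner ℝ (J u) (J v) = inner ℝ u v

/-- the Bergman metric of the unit ball (holomorphic curvature `-4`) -/
noncomputable def berg (J : E →L[ℝ] E) (z : E) : E →L[ℝ] E :=
  (1 - ‖z‖ ^ 2)⁻¹ • ContinuousLinearMap.id ℝ E +
    (1 - ‖z‖ ^ 2)⁻¹ ^ 2 • ((innerSL ℝ z).smulRight z + (innerSL ℝ (J z)).smulRight (J z))

/-- a smooth Riemannian metric on the unit ball -/
structure IsMetric (G : E → E →L[ℝ] E) : Prop where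
  smooth : ContDiffOn ℝ ∞ G (ball 0 1)
  symm : ∀ x ∈ ball (0 : E) 1, ∀ u v, gm G x u v = gm G x v u
  pos : ∀ x ∈ ball (0 : E) 1, ∀ v, v ≠ 0 → 0 < gm G x v v

/-- `φ` preserves the metric `G` -/
def Preserves (G : E → E →L[ℝ] E) (φ : E → E) : Prop :=
  ∀ x ∈ ball (0 : E) 1, ∀ u v, gm G (φ x) (fderiv ℝ φ x u) (fderiv ℝ φ x v) = gm G x u v

/-- a free, properly discontinuous, cocompact action on the ball by holomorphic isometries of the
Bergman metric -/
structure IsLattice (J : E →L[ℝ] E) {Γ : Type} [Group Γ] (a : Γ → E → E) : Prop where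
  maps : ∀ γ, MapsTo (a γ) (ball 0 1) (ball 0 1)
  smooth : ∀ γ, ContDiffOn ℝ ∞ (a γ) (ball 0 1)
  hol : ∀ γ, ∀ x ∈ ball (0 : E) 1, ∀ v, fderiv ℝ (a γ) x (J v) = J (fderiv ℝ (a γ) x v)
  iso : ∀ γ, Preserves (berg J) (a γ)
  one : ∀ x ∈ ball (0 : E) 1, a 1 x = x
  mul : ∀ γ δ, ∀ x ∈ ball (0 : E) 1, a (γ * δ) x = a γ (a δ x)
  free : ∀ γ, ∀ x ∈ ball (0 : E) 1, a γ x = x → γ = 1
  disc : ∀ r < 1, {γ | ∃ x ∈ closedBall (0 : E) r, a γ x ∈ closedBall (0 : E) r}.Finite
  cocpt : ∃ r < 1, ∀ x ∈ ball (0 : E) 1, ∃ γ, a γ x ∈ closedBall (0 : E) r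

/-- the tangent map -/
noncomputable def tg (φ : E → E) (p : E × E) : E × E := (φ p.1, fderiv ℝ φ p.1 p.2)

/-- the unit tangent bundle of the ball -/
def SB (G : E → E →L[ℝ] E) : Set (E × E) := {p | p.1 ∈ ball (0 : E) 1 ∧ gm G p.1 p.2 p.2 = 1}

/-- the unit tangent bundle of the quotient -/
def SM {Γ : Type} (a : Γ → E → E) (G : E → E →L[ℝ] E) : Type :=
  Quot fun p q : SB G => ∃ γ, q.1 = tg (a γ) p.1

instance {Γ : Type} (a : Γ → E → E) (G : E → E →L[ℝ] E) : TopologicalSpace (SM a G) :=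
  inferInstanceAs (TopologicalSpace (Quot _))

instance {Γ : Type} (a : Γ → E → E) (G : E → E →L[ℝ] E) : MeasurableSpace (SM a G) := borel _

/-- the projection to the quotient -/
def prj {Γ : Type} (a : Γ → E → E) (G : E → E →L[ℝ] E) (p : SB G) : SM a G := Quot.mk _ p

variable [FiniteDimensional ℝ E]

/-- the Christoffel symbols `Γ_x(u, v)` of the Levi-Civita connection -/
noncomputable def chr (G : E → E →L[ℝ] E) (x u v : E) : E :=
  (G x).inverse ((1 / 2 : ℝ) •
    (fderiv ℝ G x u v + fderiv ℝ G x v u - gradient (fun y => gm G y u v) x))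

/-- the curvature tensor `R(u, v) w` -/
noncomputable def curv (G : E → E →L[ℝ] E) (x u v w : E) : E :=
  fderiv ℝ (fun y => chr G y v w) x u - fderiv ℝ (fun y => chr G y u w) x v +
    chr G x u (chr G x v w) - chr G x v (chr G x u w)

/-- `Φ` is the geodesic flow on the unit tangent bundle of the ball -/
def IsGeodFlow (G : E → E →L[ℝ] E) (Φ : ℝ → SB G → SB G) : Prop :=
  ∀ p, Φ 0 p = p ∧ ∀ t, HasDerivAt (fun s => (Φ s p).1)
    ((Φ t p).1.2, -chr G (Φ t p).1.1 (Φ t p).1.2 (Φ t p).1.2) t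

variable [MeasurableSpace E] [BorelSpace E]

/-- the Riemannian volume `det G dx dv` on the open unit disc bundle, pushed radially to the unit
tangent bundle -/
noncomputable def liou (G : E → E →L[ℝ] E) : Measure (E × E) :=
  ((volume.restrict {p : E × E | p.1 ∈ ball (0 : E) 1 ∧ gm G p.1 p.2 p.2 < 1}).withDensity
    fun p => ENNReal.ofReal (G p.1).det).map fun p => (p.1, (√(gm G p.1 p.2 p.2))⁻¹ • p.2)

/-- the normalised Liouville measure of the quotient, through a fundamental domain `F` -/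
noncomputable def liouQ {Γ : Type} (a : Γ → E → E) (G : E → E →L[ℝ] E) (F : Set E) :
    Measure (SM a G) :=
  (liou G (F ×ˢ univ))⁻¹ •
    (((liou G).restrict (F ×ˢ univ)).comap (Subtype.val : SB G → E × E)).map (prj a G)

/-- the Shannon entropy of a finite partition -/
noncomputable def ent {X ι : Type} [MeasurableSpace X] [Fintype ι] (μ : Measure X) (W : X → ι) :
    ℝ := ∑ w, Real.negMulLog (μ.real (W ⁻¹' {w}))

/-- the Kolmogorov-Sinai entropy -/
noncomputable def hKS {X : Type} [MeasurableSpace X] (μ : Measure X) (T : X → X) : EReal :=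
  ⨆ (k : ℕ) (P : X → Fin k) (_ : Measurable P),
    limsup (fun n : ℕ => ((ent μ (fun x (i : Fin n) => P (T^[i] x)) / n : ℝ) : EReal)) atTop

/-- the topological entropy (Bowen-Dinaburg) of a map of a compact Hausdorff space -/
noncomputable def hTop {X : Type} [TopologicalSpace X] (T : X → X) : EReal :=
  ⨆ U ∈ 𝓝ˢ (diagonal X), Dynamics.coverEntropyEntourage T univ U

end Pool.Agent.Lib.MP_235f17_gt.K
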