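import Mathlib
import Pool.Agent.Lib.MP_235f17_gt.K.Defs

-- part Pool.Agent.Lib.MP_235f17_gt.K.Flow0
section

/-! Smooth dependence of flows on the initial point and on a linear parameter (copied from the
library of another problem). -/

set_option autoImplicit false

open Set Filter Topology Metric
open scoped ContDiff NNReal

namespace Pool.Agent.Lib.MP_235f17_gt.K

/-- smooth flows of compactly supported fields depending linearly on a parameter -/
def FlowStmt : Prop :=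
  ∀ (V P : Type) [NormedAddCommGroup V] [NormedSpace ℝ V] [FiniteDimensional ℝ V]
    [NormedAddCommGroup P] [NormedSpace ℝ P] [FiniteDimensional ℝ P] (X : V → P →L[ℝ] V),
    ContDiff ℝ ∞ X → HasCompactSupport X →
    ∃ Φ : V → P → V, ContDiff ℝ ∞ (fun z : V × P => Φ z.1 z.2) ∧ (∀ u, Φ u 0 = u) ∧
      ∀ u p (s : ℝ), HasDerivAt (fun s : ℝ => Φ u (s • p)) (X (Φ u (s • p)) p) s

namespace Flow

section Nem

variable {K : Type} [TopologicalSpace K] [CompactSpace K]
  {E : Type} [NormedAddCommGroup E] [NormedSpace ℝ E]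

/-- pointwise application -/
noncomputable def app (K E W : Type) [TopologicalSpace K] [CompactSpace K] [NormedAddCommGroup E]
    [NormedSpace ℝ E] [NormedAddCommGroup W] [NormedSpace ℝ W] :
    C(K, E →L[ℝ] W) →L[ℝ] C(K, E) →L[ℝ] C(K, W) :=
  LinearMap.mkContinuous₂ (E := C(K, E →L[ℝ] W)) (F := C(K, E)) (G := C(K, W))
    (LinearMap.mk₂ ℝ (fun A h => ⟨fun t => A t (h t), A.continuous.clm_apply h.continuous⟩)
      (fun _ _ _ => by ext; simp) (fun _ _ _ => by ext; simp) (fun _ _ _ => by ext; simp)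
      (fun _ _ _ => by ext; simp)) 1
    fun A h => (ContinuousMap.norm_le _ (by positivity)).2 fun t => by
      rw [one_mul]
      exact (A t).le_of_opNorm_le_of_le (A.norm_coe_le_norm t) (h.norm_coe_le_norm t)

theorem app_apply {W : Type} [NormedAddCommGroup W] [NormedSpace ℝ W] (A : C(K, E →L[ℝ] W))
    (h : C(K, E)) (t : K) : app K E W A h t = A t (h t) := rfl

/-- composition with a smooth map is smooth -/
theorem nem (n : ℕ) : ∀ (W : Type) [NormedAddCommGroup W] [NormedSpace ℝ W] (G : C(E, W)),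
    ContDiff ℝ n G → ContDiff ℝ n fun γ : C(K, E) => G.comp γ := by
  induction n with
  | zero => exact fun W _ _ G _ => contDiff_zero.2 G.continuous_postcomp
  | succ n ih =>
    intro W _ _ G hG
    obtain ⟨D, hD, hGD⟩ := contDiff_succ_iff_hasFDerivAt.1 (by exact_mod_cast hG)
    let D' : C(E, E →L[ℝ] W) := ⟨D, hD.continuous⟩
    have h0 := (app K E W).contDiff.comp (ih _ D' hD)
    rw [Nat.cast_succ]
    refine contDiff_succ_iff_hasFDerivAt.2 ⟨fun γ => app K E W (D'.comp γ), h0, fun γ => ?_⟩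
    rw [hasFDerivAt_iff_isLittleO_nhds_zero, Asymptotics.isLittleO_iff]
    intro ε hε
    obtain ⟨δ, hδ, hc⟩ := (Metric.continuous_iff (α := C(K, E)) (β := C(K, E →L[ℝ] W))).1
      (D'.continuous_postcomp (X := K)) γ ε hε
    filter_upwards [ball_mem_nhds 0 hδ] with h hh
    rw [mem_ball_zero_iff] at hh
    refine (ContinuousMap.norm_le _ (by positivity)).2 fun t => ?_
    have h1 := h.norm_coe_le_norm t
    have := (convex_ball (γ t) δ).norm_image_sub_le_of_norm_hasFDerivWithin_le' (φ := D (γ t))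
      (C := ε) (fun x _ => (hGD x).hasFDerivWithinAt) (fun x hx => by
        have h2 := hc (γ + .const K (x - γ t)) (by
          rw [dist_eq_norm, add_sub_cancel_left]
          exact ((ContinuousMap.norm_le _ (norm_nonneg _)).2 fun _ => le_rfl).trans_lt
            (mem_ball_iff_norm.1 hx))
        have h3 := (ContinuousMap.dist_apply_le_dist t).trans h2.le
        simpa [D', dist_eq_norm] using h3)
      (mem_ball_self hδ) (y := γ t + h t) (by simpa using h1.trans_lt hh)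
    rw [add_sub_cancel_left] at this
    exact this.trans (mul_le_mul_of_nonneg_left h1 hε.le)

end Nem

/-- fixed points of a smooth family of contractions depend smoothly on the parameter -/
theorem fix_smooth {Z B : Type} [NormedAddCommGroup Z] [NormedSpace ℝ Z] [CompleteSpace Z]
    [NormedAddCommGroup B] [NormedSpace ℝ B] [CompleteSpace B] {T : Z × B → B}
    (hT : ContDiff ℝ ∞ T) {g : Z → B} (hg : ∀ z, T (z, g z) = g z) {z₀ : Z} {κ : ℝ≥0} (hκ : κ < 1)
    (hL : ∀ᶠ z in 𝓝 z₀, LipschitzWith κ fun b => T (z, b)) : ContDiffAt ℝ ∞ g z₀ := by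
  have cdf : ContDiffAt ℝ ∞ (fun u : Z × B => u.2 - T u) (z₀, g z₀) :=
    (contDiff_snd.sub hT).contDiffAt
  have hd : DifferentiableAt ℝ (fun b => T (z₀, b)) (g z₀) :=
    (hT.comp (contDiff_const.prodMk contDiff_id)).differentiable (by simp) _
  have hn : ‖fderiv ℝ (fun b => T (z₀, b)) (g z₀)‖ < 1 :=
    (norm_fderiv_le_of_lipschitz ℝ hL.self_of_nhds).trans_lt (mod_cast hκ)
  have h1 : HasFDerivAt (fun b => b - T (z₀, b))
      (fderiv ℝ (fun u : Z × B => u.2 - T u) (z₀, g z₀) ∘L .inr ℝ Z B) (g z₀) :=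
    (cdf.differentiableAt (by simp)).hasFDerivAt.comp (g z₀) (hasFDerivAt_prodMk_right z₀ (g z₀))
  have hi : (fderiv ℝ (fun u : Z × B => u.2 - T u) (z₀, g z₀) ∘L .inr ℝ Z B).IsInvertible := by
    rw [h1.unique ((hasFDerivAt_id _).sub hd.hasFDerivAt)]
    exact ⟨.ofUnit (Units.oneSub _ hn), rfl⟩
  refine (cdf.contDiffAt_implicitFunction (by simp) hi).congr_of_eventuallyEq ?_
  filter_upwards [cdf.eventually_apply_implicitFunction (by simp) hi, hL] with z h2 h3
  simp only [hg, sub_self, sub_eq_zero] at h2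
  have h4 := h3.dist_le_mul (g z) (cdf.implicitFunction (by simp) hi z)
  simp only [hg, ← h2] at h4
  have h5 : (κ : ℝ) < 1 := mod_cast hκ
  have h6 : 0 ≤ dist (g z) (cdf.implicitFunction (by simp) hi z) := dist_nonneg
  exact dist_le_zero.1 (by nlinarith)

variable {V : Type} [NormedAddCommGroup V] [NormedSpace ℝ V] [CompleteSpace V]

omit [NormedSpace ℝ V] [CompleteSpace V] in
theorem cont_ext (γ : C(Icc (0 : ℝ) 1, V)) : Continuous fun s => γ (projIcc 0 1 zero_le_one s) :=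
  γ.continuous.comp continuous_projIcc

/-- the primitive -/
noncomputable def prim (V : Type) [NormedAddCommGroup V] [NormedSpace ℝ V] [CompleteSpace V] :
    C(Icc (0 : ℝ) 1, V) →L[ℝ] C(Icc (0 : ℝ) 1, V) :=
  LinearMap.mkContinuous
    { toFun := fun γ => ⟨fun t => ∫ s in (0 : ℝ)..t, γ (projIcc 0 1 zero_le_one s),
        (intervalIntegral.continuous_primitive
          (fun a b => (cont_ext γ).intervalIntegrable a b) 0).comp continuous_subtype_val⟩
      map_add' := fun γ γ' => by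
        ext t
        exact intervalIntegral.integral_add ((cont_ext γ).intervalIntegrable _ _)
          ((cont_ext γ').intervalIntegrable _ _)
      map_smul' := fun c γ => by
        ext t
        exact intervalIntegral.integral_smul c _ } 1
    fun γ => (ContinuousMap.norm_le _ (by positivity)).2 fun t => by
      refine (intervalIntegral.norm_integral_le_of_norm_le_const
        fun s _ => γ.norm_coe_le_norm _).trans ?_
      rw [sub_zero, abs_of_nonneg t.2.1, mul_comm]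
      exact mul_le_mul_of_nonneg_right t.2.2 (norm_nonneg _)

theorem prim_apply (γ : C(Icc (0 : ℝ) 1, V)) (t : Icc (0 : ℝ) 1) :
    prim V γ t = ∫ s in (0 : ℝ)..t, γ (projIcc 0 1 zero_le_one s) := rfl

theorem norm_prim (γ : C(Icc (0 : ℝ) 1, V)) : ‖prim V γ‖ ≤ ‖γ‖ :=
  ((prim V).le_of_opNorm_le (LinearMap.mkContinuous_norm_le _ zero_le_one _) γ).trans_eq
    (one_mul _)

theorem exists_global {Z : V → V} {K L : ℝ≥0} (hK : LipschitzWith K Z) (hL : ∀ y, ‖Z y‖ ≤ L)
    (x : V) : ∃ α : ℝ → V, α 0 = x ∧ ∀ t, HasDerivAt α (Z (α t)) t := by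
  have h1 : ∀ n : ℕ, ∃ α : ℝ → V, α 0 = x ∧
      ∀ t ∈ Ioo (-((n:ℝ) + 1)) (n + 1), HasDerivAt α (Z (α t)) t := by
    intro n
    have hn : (0:ℝ) < n + 1 := by positivity
    have hpl : IsPicardLindelof (fun _ => Z) (tmin := -((n:ℝ) + 1)) (tmax := n + 1)
        ⟨0, by constructor <;> linarith⟩ x (L * (n + 1)) 0 L K :=
      ⟨fun _ _ => hK.lipschitzOnWith, fun _ _ => continuousOn_const, fun _ _ y _ => hL y, by
        simp⟩
    obtain ⟨α, h0, hα⟩ := hpl.exists_eq_forall_mem_Icc_hasDerivWithinAt₀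
    exact ⟨α, h0, fun t ht =>
      (hα t (Ioo_subset_Icc_self ht)).hasDerivAt (Icc_mem_nhds ht.1 ht.2)⟩
  choose α h0 hα using h1
  have h2 : ∀ m n : ℕ, m ≤ n → EqOn (α m) (α n) (Ioo (-((m:ℝ) + 1)) (m + 1)) := by
    intro m n hmn
    have hm : (0:ℝ) < m + 1 := by positivity
    have hmn' : (m:ℝ) ≤ n := by exact_mod_cast hmn
    refine ODE_solution_unique_of_mem_Ioo (v := fun _ => Z) (s := fun _ => univ) (K := K)
      (t₀ := 0) (fun _ _ => hK.lipschitzOnWith) ⟨by linarith, hm⟩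
      (fun t ht => ⟨hα m t ht, trivial⟩)
      (fun t ht => ⟨hα n t ⟨by linarith [ht.1], by linarith [ht.2]⟩, trivial⟩) ?_
    rw [h0, h0]
  have h3 : ∀ t : ℝ, t ∈ Ioo (-((⌈|t|⌉₊:ℝ) + 1)) (⌈|t|⌉₊ + 1) := fun t => by
    have := Nat.le_ceil |t|
    constructor <;> linarith [le_abs_self t, neg_abs_le t]
  have h4 : ∀ (n : ℕ) (t : ℝ), t ∈ Ioo (-((n:ℝ) + 1)) (n + 1) → α ⌈|t|⌉₊ t = α n t := by
    intro n t ht
    rcases le_total ⌈|t|⌉₊ n with h | h
    · exact h2 _ _ h (h3 t)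
    · exact (h2 _ _ h ht).symm
  refine ⟨fun t => α ⌈|t|⌉₊ t, h0 _, fun t => ?_⟩
  refine (hα _ t (h3 t)).congr_of_eventuallyEq ?_
  filter_upwards [Ioo_mem_nhds (h3 t).1 (h3 t).2] with s hs
  exact h4 _ s hs

variable {P : Type} [NormedAddCommGroup P] [NormedSpace ℝ P] {X : V → P →L[ℝ] V} {L : ℝ≥0}

omit [CompleteSpace V] in
theorem lip (hL : LipschitzWith L X) (p : P) : LipschitzWith (L * ‖p‖₊) fun v => X v p :=
  .of_dist_le_mul fun v w => by
    rw [dist_eq_norm, ← sub_apply, NNReal.coe_mul, mul_right_comm]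
    exact (X v - X w).le_of_opNorm_le (by rw [← dist_eq_norm]; exact hL.dist_le_mul v w) p

/-- smoothness for small parameters -/
theorem small [CompleteSpace P] (hX : ContDiff ℝ ∞ X) (hL : LipschitzWith L X)
    {α : V → P → ℝ → V} (h0 : ∀ u p, α u p 0 = u)
    (hα : ∀ u p t, HasDerivAt (α u p) (X (α u p t) p) t) {z₀ : V × P}
    (hz : ‖z₀.2‖ < 1 / (2 * (L + 1))) : ContDiffAt ℝ ∞ (fun z : V × P => α z.1 z.2 1) z₀ := by
  let X' : C(V, P →L[ℝ] V) := ⟨X, hX.continuous⟩
  have hc : ∀ u p, Continuous (α u p) := fun u p =>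
    continuous_iff_continuousAt.2 fun t => (hα u p t).continuousAt
  let g : V × P → C(Icc (0 : ℝ) 1, V) := fun z =>
    ⟨fun t => α z.1 z.2 t, (hc _ _).comp continuous_subtype_val⟩
  let T : (V × P) × C(Icc (0 : ℝ) 1, V) → C(Icc (0 : ℝ) 1, V) := fun w =>
    ContinuousLinearMap.const ℝ _ w.1.1 +
      prim V (app _ P V (X'.comp w.2) (ContinuousLinearMap.const ℝ _ w.1.2))
  have hN : ContDiff ℝ ∞ fun γ : C(Icc (0 : ℝ) 1, V) => X'.comp γ :=
    contDiff_infty.2 fun n => nem n _ X' (contDiff_infty.1 hX n)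
  have hT : ContDiff ℝ ∞ T :=
    ((ContinuousLinearMap.contDiff _).comp contDiff_fst.fst).add ((prim V).contDiff.comp
      (((app _ P V).contDiff.comp (hN.comp contDiff_snd)).clm_apply
        ((ContinuousLinearMap.contDiff _).comp contDiff_fst.snd)))
  have hg : ∀ z, T (z, g z) = g z := fun z => by
    ext t
    change z.1 + ∫ s in (0 : ℝ)..t, X (α z.1 z.2 (projIcc 0 1 zero_le_one s : Icc (0 : ℝ) 1)) z.2
      = α z.1 z.2 t
    rw [intervalIntegral.integral_congr (g := fun s => X (α z.1 z.2 s) z.2) (fun s hs => by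
      rw [uIcc_of_le t.2.1] at hs
      simp only [projIcc_of_mem zero_le_one ⟨hs.1, hs.2.trans t.2.2⟩]),
      intervalIntegral.integral_eq_sub_of_hasDerivAt (fun s _ => hα _ _ s)
        (((hX.continuous.comp (hc _ _)).clm_apply continuous_const).intervalIntegrable _ _), h0,
      add_sub_cancel]
  have hs := fix_smooth hT hg (z₀ := z₀) (κ := 1 / 2) (by norm_num) (by
    filter_upwards [(continuous_snd.norm.tendsto z₀).eventually (gt_mem_nhds hz)] with z h1
    refine .of_dist_le_mul fun b c => ?_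
    simp only [T]
    rw [dist_add_left, dist_eq_norm, ← map_sub]
    refine (norm_prim _).trans ((ContinuousMap.norm_le _ (by positivity)).2 fun t => ?_)
    have h2 := (lip hL z.2).dist_le_mul (b t) (c t)
    rw [dist_eq_norm] at h2
    refine h2.trans (mul_le_mul ?_ (ContinuousMap.dist_apply_le_dist t) dist_nonneg (by positivity))
    rw [lt_div_iff₀ (by positivity)] at h1
    push_cast
    nlinarith [norm_nonneg z.2])
  exact (ContinuousMap.evalCLM ℝ (⟨1, zero_le_one, le_rfl⟩ : Icc (0 : ℝ) 1)).contDiff.contDiffAt.comp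
    z₀ hs

end Flow

open Pool.Agent.Lib.MP_235f17_gt.K.Flow in
theorem flow_holds : FlowStmt := by
  intro V P _ _ _ _ _ _ X hX hc
  have := FiniteDimensional.complete ℝ V
  have := FiniteDimensional.complete ℝ P
  obtain ⟨L, hL⟩ := hX.lipschitzWith_of_hasCompactSupport hc (by simp)
  obtain ⟨C, hC⟩ := hc.exists_bound_of_continuous hX.continuous
  have hC0 : 0 ≤ C := (norm_nonneg _).trans (hC 0)
  choose α h0 hα using fun (u : V) (p : P) => exists_global (lip hL p)
    (L := ⟨C * ‖p‖, by positivity⟩) (fun y => (X y).le_of_opNorm_le (hC y) p) u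
  have uq : ∀ (p : P) (f g : ℝ → V), (∀ t, HasDerivAt f (X (f t) p) t) →
      (∀ t, HasDerivAt g (X (g t) p) t) → f 0 = g 0 → f = g := fun p f g hf hg h =>
    ODE_solution_unique_univ (v := fun _ v => X v p) (s := fun _ => univ)
      (fun _ => (lip hL p).lipschitzOnWith) (fun t => ⟨hf t, trivial⟩)
      (fun t => ⟨hg t, trivial⟩) h
  have sc : ∀ u p (s : ℝ), α u (s • p) 1 = α u p s := fun u p s => by
    have := uq (s • p) _ (fun t => α u p (s * t)) (hα u _) (fun t => by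
      have := (hα u p (s * t)).scomp t ((hasDerivAt_id t).const_mul s)
      simpa [Function.comp_def] using this) (by simp [h0])
    simpa using congrFun this 1
  have sg : ∀ u p, α u p 1 = α (α u ((1 / 2 : ℝ) • p) 1) ((1 / 2 : ℝ) • p) 1 := fun u p => by
    rw [sc, sc]
    have := uq p (fun t => α u p (t + 1 / 2)) _ (fun t => (hα u p _).comp_add_const t _)
      (hα (α u p (1 / 2)) p) (by simp [h0])
    rw [← this]
    norm_num
  have key : ∀ (n : ℕ) (z : V × P), ‖z.2‖ < 2 ^ n * (1 / (2 * (L + 1))) →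
      ContDiffAt ℝ ∞ (fun z : V × P => α z.1 z.2 1) z := by
    intro n
    induction n with
    | zero => exact fun z hz => small hX hL h0 hα (by simpa using hz)
    | succ n ih =>
      intro z hz
      have h1 : ‖(1 / 2 : ℝ) • z.2‖ < 2 ^ n * (1 / (2 * (L + 1))) := by
        rw [norm_smul, Real.norm_of_nonneg (by norm_num)]
        rw [pow_succ] at hz
        linarith
      have h2 : ContDiffAt ℝ ∞ (fun z : V × P => (1 / 2 : ℝ) • z.2) z := by fun_prop
      have h3 := (ih (z.1, (1 / 2 : ℝ) • z.2) h1).comp z (contDiffAt_fst.prodMk h2)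
      have h4 := (ih (α z.1 ((1 / 2 : ℝ) • z.2) 1, (1 / 2 : ℝ) • z.2) h1).comp z (h3.prodMk h2)
      exact h4.congr_of_eventuallyEq (.of_forall fun w => sg w.1 w.2)
  refine ⟨fun u p => α u p 1, contDiff_iff_contDiffAt.2 fun z => ?_, fun u => ?_,
    fun u p s => ?_⟩
  · obtain ⟨n, hn⟩ := pow_unbounded_of_one_lt (‖z.2‖ / (1 / (2 * (L + 1)))) (one_lt_two (α := ℝ))
    exact key n z ((div_lt_iff₀ (by positivity)).1 hn)
  · simpa [h0] using sc u 0 0
  · simp only [sc]
    exact hα u p s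

/-- the smooth global flow of a smooth compactly supported field -/
theorem exists_smooth_flow {W : Type} [NormedAddCommGroup W] [NormedSpace ℝ W]
    [FiniteDimensional ℝ W] {Z : W → W} (hZ : ContDiff ℝ ∞ Z) (hc : HasCompactSupport Z) :
    ∃ ψ : ℝ → W → W, ContDiff ℝ ∞ (fun q : ℝ × W => ψ q.1 q.2) ∧ (∀ p, ψ 0 p = p) ∧
      ∀ p t, HasDerivAt (fun s => ψ s p) (Z (ψ t p)) t := by
  let L : W →L[ℝ] ℝ →L[ℝ] W := ContinuousLinearMap.smulRightL ℝ ℝ W (ContinuousLinearMap.id ℝ ℝ)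
  obtain ⟨Φ, h1, h2, h3⟩ := flow_holds W ℝ (fun w => L (Z w)) (L.contDiff.comp hZ)
    (hc.comp_left (g := fun w => L w) (map_zero L))
  refine ⟨fun s p => Φ p s, h1.comp (contDiff_snd.prodMk contDiff_fst), h2, fun p t => ?_⟩
  simpa [L] using h3 p 1 t

end Pool.Agent.Lib.MP_235f17_gt.K
end

-- part Pool.Agent.Lib.MP_235f17_gt.K.Gibbs
section

/-! Gibbs inequality and the abstract entropy bound. -/

set_option autoImplicit false
set_option linter.unusedSectionVars false

open MeasureTheory Set Filter Topology Metric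
open scoped ContDiff ENNReal RealInnerProductSpace

namespace Pool.Agent.Lib.MP_235f17_gt.K

variable {Y : Type} [MeasurableSpace Y] {ν : Measure Y} [IsProbabilityMeasure ν]

theorem gibbs {ι β : Type} [Fintype ι] {W : Y → ι} (hW : ∀ w, MeasurableSet (W ⁻¹' {w}))
    (Z : Y → β) (q : β → ℝ) (hq0 : ∀ b, 0 ≤ q b) (hq : ∀ s : Finset β, ∑ b ∈ s, q b ≤ 1)
    {Y0 : Set Y} (h0 : ∀ᵐ y ∂ν, y ∈ Y0) (hZ : ∀ y ∈ Y0, ∀ y' ∈ Y0, Z y = Z y' → W y = W y')
    {φ : Y → ℝ} (hφ : Integrable φ ν) (hb : ∀ y ∈ Y0, 0 < q (Z y) ∧ -Real.log (q (Z y)) ≤ φ y) :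
    ent ν W ≤ ∫ y, φ y ∂ν := by
  classical
  have : Nonempty Y := nonempty_of_isProbabilityMeasure ν
  have key : ∀ w, ν.real (W ⁻¹' {w}) ≠ 0 → ∃ y, y ∈ Y0 ∧ W y = w ∧
      ν.real (W ⁻¹' {w}) * φ y ≤ ∫ y in W ⁻¹' {w}, φ y ∂ν := by
    intro w hw
    have h1 : ν.restrict (W ⁻¹' {w}) ≠ 0 := fun e => hw (by
      rw [Measure.restrict_eq_zero] at e
      rw [measureReal_def, e, ENNReal.toReal_zero])
    have h2 : ∀ᵐ y ∂ν.restrict (W ⁻¹' {w}), y ∈ Y0 ∧ y ∈ W ⁻¹' {w} :=
      (ae_restrict_of_ae h0).and (ae_restrict_mem (hW w))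
    obtain ⟨y, h3, h4⟩ := exists_notMem_null_le_average h1 hφ.integrableOn (ae_iff.1 h2)
    have h5 : y ∈ Y0 ∧ y ∈ W ⁻¹' {w} := not_not.1 h3
    refine ⟨y, h5.1, h5.2, ?_⟩
    rw [setAverage_eq, smul_eq_mul] at h4
    have := mul_le_mul_of_nonneg_left h4 (measureReal_nonneg (μ := ν) (s := W ⁻¹' {w}))
    rwa [← mul_assoc, mul_inv_cancel₀ hw, one_mul] at this
  choose! y hy using key
  obtain ⟨T, hT⟩ : ∃ T : Finset ι, T = Finset.univ.filter fun w => ν.real (W ⁻¹' {w}) ≠ 0 :=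
    ⟨_, rfl⟩
  have mT : ∀ w, w ∈ T ↔ ν.real (W ⁻¹' {w}) ≠ 0 := fun w => by simp [hT]
  have s1 : ∑ w, ∫ y in W ⁻¹' {w}, φ y ∂ν = ∫ y, φ y ∂ν := by
    rw [← integral_iUnion_fintype hW (fun a b h => Disjoint.preimage _ (disjoint_singleton.2 h))
      fun _ => hφ.integrableOn, ← preimage_iUnion, iUnion_of_singleton, preimage_univ,
      Measure.restrict_univ]
  have s2 : ∑ w, ν.real (W ⁻¹' {w}) = 1 := by
    rw [sum_measureReal_preimage_singleton _ fun w _ => hW w]
    simp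
  have s3 : ∑ w, (if w ∈ T then q (Z (y w)) else 0) ≤ 1 := by
    rw [Finset.sum_ite_mem, Finset.univ_inter, ← Finset.sum_image (g := fun w => Z (y w)) ?_]
    · exact hq _
    · intro a ha b hb e
      have h1 := hy a ((mT a).1 ha)
      have h2 := hy b ((mT b).1 hb)
      rw [← h1.2.1, ← h2.2.1]
      exact hZ _ h1.1 _ h2.1 e
  have s4 : ∀ w, Real.negMulLog (ν.real (W ⁻¹' {w})) ≤ ∫ y in W ⁻¹' {w}, φ y ∂ν +
      ((if w ∈ T then q (Z (y w)) else 0) - ν.real (W ⁻¹' {w})) := by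
    intro w
    by_cases hw : ν.real (W ⁻¹' {w}) = 0
    · have h1 : ν (W ⁻¹' {w}) = 0 := (measureReal_eq_zero_iff (by finiteness)).1 hw
      rw [if_neg fun h => (mT w).1 h hw, hw, setIntegral_measure_zero _ h1]
      simp
    · obtain ⟨h1, -, h3⟩ := hy w hw
      obtain ⟨h4, h5⟩ := hb _ h1
      rw [if_pos ((mT w).2 hw)]
      have hp : 0 < ν.real (W ⁻¹' {w}) := lt_of_le_of_ne measureReal_nonneg (Ne.symm hw)
      generalize ν.real (W ⁻¹' {w}) = p at *
      have h6 := Real.log_le_sub_one_of_pos (div_pos h4 hp)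
      rw [Real.log_div h4.ne' hp.ne'] at h6
      have h7 := mul_le_mul_of_nonneg_left h6 hp.le
      have h8 := mul_le_mul_of_nonneg_left h5 hp.le
      rw [mul_sub p (_ / _), mul_div_cancel₀ _ hp.ne'] at h7
      rw [Real.negMulLog]
      linarith
  have := Finset.sum_le_sum fun w (_ : w ∈ Finset.univ) => s4 w
  rw [Finset.sum_add_distrib, Finset.sum_sub_distrib, s1, s2] at this
  rw [ent]
  linarith

namespace GibbsAux

/-- the weight of an optional block -/
noncomputable def wt {α : Type} [Fintype α] : Option α → ℝ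
  | none => 1 / 2
  | some _ => 1 / (2 * Fintype.card α)

theorem wt_pos {α : Type} [Fintype α] [Nonempty α] (o : Option α) : 0 < wt o := by
  have : (0 : ℝ) < Fintype.card α := Nat.cast_pos.2 Fintype.card_pos
  cases o <;> simp only [wt] <;> positivity

theorem wt_sum {α : Type} [Fintype α] [Nonempty α] : ∑ o : Option α, wt o = 1 := by
  have : (0 : ℝ) < Fintype.card α := Nat.cast_pos.2 Fintype.card_pos
  rw [Fintype.sum_option]
  simp only [wt, Finset.sum_const, Finset.card_univ, nsmul_eq_mul]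
  field_simp
  norm_num

theorem sum_le {α β : Type} [Fintype α] [Nonempty α] {m : ℕ} {q : β → ℝ} (hq0 : ∀ b, 0 ≤ q b)
    (hq : ∀ s : Finset β, ∑ b ∈ s, q b ≤ 1) (s : Finset (β × (Fin m → Option α))) :
    ∑ x ∈ s, q x.1 * ∏ j, wt (x.2 j) ≤ 1 := by
  classical
  have h1 : s ⊆ s.image Prod.fst ×ˢ Finset.univ := fun x hx =>
    Finset.mem_product.2 ⟨Finset.mem_image_of_mem _ hx, Finset.mem_univ _⟩
  refine (Finset.sum_le_sum_of_subset_of_nonneg h1 fun x _ _ =>
    mul_nonneg (hq0 _) (Finset.prod_nonneg fun j _ => (wt_pos _).le)).trans ?_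
  rw [Finset.sum_product]
  have h2 : ∑ v : Fin m → Option α, ∏ j, wt (v j) = 1 := by
    rw [← Fintype.prod_sum fun (_ : Fin m) (o : Option α) => wt o]
    simp only [wt_sum, Finset.prod_const_one]
  simp only [← Finset.mul_sum, h2, mul_one]
  exact hq _

theorem block {k : ℕ} {β : Type} (P : ℕ → Y → Fin k) (hP : ∀ i, Measurable (P i)) {l : ℕ}
    (hl : 0 < l) {Bd : ℕ → Set Y}
    (hB : ∀ j, MeasurableSet (Bd j) ∧
      ν.real (Bd j) ≤ 1 / (Real.log (Fintype.card (Fin l → Fin k)) + 1))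
    (n : ℕ) {e : Y → β} {q : β → ℝ} {φ : Y → ℝ} {Y0 : Set Y} (hq0 : ∀ b, 0 ≤ q b)
    (hq : ∀ s : Finset β, ∑ b ∈ s, q b ≤ 1) (h0 : ∀ᵐ y ∂ν, y ∈ Y0) (hφ : Integrable φ ν)
    (hb : ∀ y ∈ Y0, 0 < q (e y) ∧ -Real.log (q (e y)) ≤ φ y)
    (he : ∀ y ∈ Y0, ∀ y' ∈ Y0, e y = e y' → ∀ j < n / l + 1, y ∉ Bd j → y' ∉ Bd j →
      ∀ i < l, P (l * j + i) y = P (l * j + i) y') :
    ent ν (fun y (i : Fin n) => P i y) ≤ ∫ y, φ y ∂ν + (n / l + 1 : ℕ) * 2 := by
  classical
  obtain ⟨y0⟩ : Nonempty Y := nonempty_of_isProbabilityMeasure ν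
  have : Nonempty (Fin l → Fin k) := ⟨fun _ => P 0 y0⟩
  obtain ⟨R, hR⟩ : ∃ R : ℝ, R = Fintype.card (Fin l → Fin k) := ⟨_, rfl⟩
  have R1 : 1 ≤ R := by
    rw [hR]
    exact Nat.one_le_cast.2 Fintype.card_pos
  have L0 : 0 ≤ Real.log R := Real.log_nonneg R1
  rw [← hR] at hB
  have hi : ∀ j : Fin (n / l + 1), Integrable
      (fun y => Real.log 2 + (Bd j).indicator (fun _ => Real.log R) y) ν := fun j =>
    (integrable_const _).add ((integrable_const _).indicator (hB j).1)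
  refine (gibbs (β := β × (Fin (n / l + 1) → Option (Fin l → Fin k))) (fun w => ?_)
    (fun y => (e y, fun j => if y ∈ Bd j then some (fun i => P (l * j + i) y) else none))
    (fun x => q x.1 * ∏ j, wt (x.2 j))
    (fun x => mul_nonneg (hq0 _) (Finset.prod_nonneg fun j _ => (wt_pos _).le)) (sum_le hq0 hq) h0
    (fun y hy y' hy' h => ?_)
    (φ := fun y => φ y + ∑ j : Fin (n / l + 1),
      (Real.log 2 + (Bd j).indicator (fun _ => Real.log R) y))
    (hφ.add (integrable_finsetSum _ fun j _ => hi j)) fun y hy => ⟨?_, ?_⟩).trans ?_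
  · have hm : Measurable (fun y (i : Fin n) => P i y) := measurable_pi_lambda _ fun i => hP i
    exact hm (measurableSet_singleton w)
  · obtain ⟨h1, h2⟩ := Prod.mk.inj h
    funext i
    have hj : (i : ℕ) / l < n / l + 1 := Nat.lt_succ_of_le (Nat.div_le_div_right i.2.le)
    have h3 := congrFun h2 ⟨i / l, hj⟩
    rw [← Nat.div_add_mod i l]
    by_cases h4 : y ∈ Bd (i / l) <;> by_cases h5 : y' ∈ Bd (i / l)
    · simp only [h4, h5, if_true, Option.some.injEq] at h3
      exact congrFun h3 ⟨i % l, Nat.mod_lt _ hl⟩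
    · simp [h4, h5] at h3
    · simp [h4, h5] at h3
    · exact he y hy y' hy' h1 _ hj h4 h5 _ (Nat.mod_lt _ hl)
  · exact mul_pos (hb y hy).1 (Finset.prod_pos fun j _ => wt_pos _)
  · rw [Real.log_mul (hb y hy).1.ne' (Finset.prod_pos fun j _ => wt_pos _).ne',
      Real.log_prod fun j _ => (wt_pos _).ne', neg_add, ← Finset.sum_neg_distrib]
    refine add_le_add (hb y hy).2 (Finset.sum_le_sum fun j _ => le_of_eq ?_)
    by_cases h : y ∈ Bd j
    · simp only [h, if_true, wt, indicator_of_mem, ← hR]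
      rw [one_div, Real.log_inv, neg_neg, Real.log_mul two_ne_zero (by positivity)]
    · simp only [h, if_false, wt, indicator_of_notMem, not_false_eq_true]
      rw [one_div, Real.log_inv, neg_neg, add_zero]
  · rw [integral_add hφ (integrable_finsetSum _ fun j _ => hi j),
      integral_finsetSum _ fun j _ => hi j]
    refine add_le_add le_rfl ?_
    refine (Finset.sum_le_card_nsmul _ _ 2 fun j _ => ?_).trans (by simp)
    rw [integral_add (integrable_const _) ((integrable_const _).indicator (hB j).1),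
      integral_indicator (hB j).1, integral_const, setIntegral_const, probReal_univ, one_smul,
      smul_eq_mul]
    have h1 := (le_div_iff₀ (by positivity)).1 (hB j).2
    have h2 := Real.log_le_sub_one_of_pos (two_pos : (0 : ℝ) < 2)
    have h3 : 0 ≤ ν.real (Bd j) := measureReal_nonneg
    nlinarith

end GibbsAux

theorem ks_abstract {k : ℕ} {β : Type} (P : ℕ → Y → Fin k) (hP : ∀ i, Measurable (P i)) {A : ℝ}
    (hA : 0 ≤ A) (h : ∀ l : ℕ, 0 < l → ∀ η > (0 : ℝ), ∃ (Bd : ℕ → Set Y) (C : ℝ),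
      (∀ j, MeasurableSet (Bd j) ∧ ν.real (Bd j) ≤ η) ∧ ∀ n : ℕ,
        ∃ (e : Y → β) (q : β → ℝ) (φ : Y → ℝ) (Y0 : Set Y), (∀ b, 0 ≤ q b) ∧
          (∀ s : Finset β, ∑ b ∈ s, q b ≤ 1) ∧ (∀ᵐ y ∂ν, y ∈ Y0) ∧ Integrable φ ν ∧
          (∀ y ∈ Y0, 0 < q (e y) ∧ -Real.log (q (e y)) ≤ φ y) ∧
          ∫ y, φ y ∂ν ≤ n * l * A + C ∧
          ∀ y ∈ Y0, ∀ y' ∈ Y0, e y = e y' → ∀ j < n, y ∉ Bd j → y' ∉ Bd j →
            ∀ i < l, P (l * j + i) y = P (l * j + i) y') :
    limsup (fun n : ℕ => ((ent ν (fun y (i : Fin n) => P i y) / n : ℝ) : EReal)) atTop ≤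
      (A : EReal) := by
  by_contra hc
  obtain ⟨x, h1, h2⟩ := EReal.lt_iff_exists_real_btwn.1 (not_le.1 hc)
  have hx : 0 < x - A := sub_pos.2 (EReal.coe_lt_coe_iff.1 h1)
  obtain ⟨l, hl⟩ := exists_nat_gt (4 / (x - A))
  have l0 : (0 : ℝ) < l := lt_trans (by positivity) hl
  have l1 : 0 < l := Nat.cast_pos.1 l0
  obtain ⟨Bd, C, hB, h⟩ := h l l1 (1 / (Real.log (Fintype.card (Fin l → Fin k)) + 1)) (by
    have := Real.log_natCast_nonneg (Fintype.card (Fin l → Fin k))
    positivity)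
  refine h2.not_ge (limsup_le_of_le (h := ?_))
  have ht : Tendsto (fun n : ℕ => (l * A + 2 + C) / n) atTop (𝓝 0) :=
    tendsto_const_div_atTop_nhds_zero_nat _
  filter_upwards [ht.eventually (gt_mem_nhds (half_pos hx)), eventually_gt_atTop 0] with n a1 a2
  obtain ⟨e, q, φ, Y0, b1, b2, b3, b4, b5, b6, b7⟩ := h (n / l + 1)
  have c1 := GibbsAux.block P hP l1 hB n b1 b2 b3 b4 b5 b7
  have n0 : (0 : ℝ) < n := Nat.cast_pos.2 a2
  have c2 : ((n / l + 1 : ℕ) : ℝ) ≤ n / l + 1 := by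
    rw [Nat.cast_add, Nat.cast_one]
    exact add_le_add Nat.cast_div_le le_rfl
  have c3 : ((n / l + 1 : ℕ) : ℝ) * (l * A + 2) ≤ (n / l + 1) * (l * A + 2) :=
    mul_le_mul_of_nonneg_right c2 (by positivity)
  have c4 : ((n : ℝ) / l + 1) * (l * A + 2) = n * A + n * (2 / l) + (l * A + 2) := by
    field_simp
  have c5 : (2 : ℝ) / l ≤ (x - A) / 2 := by
    rw [div_lt_iff₀ hx] at hl
    rw [div_le_iff₀ l0]
    linarith
  have c6 := mul_le_mul_of_nonneg_left c5 n0.le
  rw [div_lt_iff₀ n0] at a1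
  rw [EReal.coe_le_coe_iff, div_le_iff₀ n0]
  nlinarith

end Pool.Agent.Lib.MP_235f17_gt.K
end
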