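import Pool.Agent.Lib.MP_235f17_gt.K.Defs
import Pool.Agent.Lib.MP_235f17_gt.K.Gibbs

-- part Pool.Agent.Lib.MP_235f17_gt.K.Base
section

/-! Internal definitions and basic lemmas. -/

set_option autoImplicit false
set_option linter.unusedSectionVars false

open MeasureTheory Set Filter Topology Metric
open scoped ContDiff ENNReal RealInnerProductSpace

namespace Pool.Agent.Lib.MP_235f17_gt.K

section General

variable {W : Type} [NormedAddCommGroup W] [NormedSpace ℝ W]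

/-- `Ψ` is the complete flow of `Y` on `U`, and the identity outside `U` -/
structure IsFlowOn (U : Set W) (Y : W → W) (Ψ : ℝ → W → W) : Prop where
  zero : ∀ p, Ψ 0 p = p
  mem : ∀ p ∈ U, ∀ t, Ψ t p ∈ U
  ode : ∀ p ∈ U, ∀ t, HasDerivAt (fun s => Ψ s p) (Y (Ψ t p)) t
  out : ∀ p, p ∉ U → ∀ t, Ψ t p = p

/-- the trace -/
noncomputable def tr (A : W →L[ℝ] W) : ℝ := LinearMap.trace ℝ W (A : W →ₗ[ℝ] W)

theorem tr_add (A B : W →L[ℝ] W) : tr (A + B) = tr A + tr B := by simp [tr]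

theorem tr_sub (A B : W →L[ℝ] W) : tr (A - B) = tr A - tr B := by simp [tr]

theorem tr_neg (A : W →L[ℝ] W) : tr (-A) = -tr A := by simp [tr]

theorem tr_smul (c : ℝ) (A : W →L[ℝ] W) : tr (c • A) = c * tr A := by simp [tr]

theorem tr_comm [FiniteDimensional ℝ W] {V : Type} [NormedAddCommGroup V] [NormedSpace ℝ V]
    [FiniteDimensional ℝ V] (A : W →L[ℝ] V) (B : V →L[ℝ] W) : tr (A ∘L B) = tr (B ∘L A) :=
  LinearMap.trace_comp_comm' (B : V →ₗ[ℝ] W) (A : W →ₗ[ℝ] V)

theorem tr_id [FiniteDimensional ℝ W] : tr (ContinuousLinearMap.id ℝ W) = Module.finrank ℝ W := by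
  simp [tr]

theorem tr_smulRight [FiniteDimensional ℝ W] (f : W →L[ℝ] ℝ) (v : W) :
    tr (f.smulRight v) = f v := LinearMap.trace_smulRight (f : W →ₗ[ℝ] ℝ) v

/-- the trace as a continuous linear map -/
noncomputable def trL (W : Type) [NormedAddCommGroup W] [NormedSpace ℝ W] [FiniteDimensional ℝ W] :
    (W →L[ℝ] W) →L[ℝ] ℝ :=
  LinearMap.toContinuousLinearMap ((LinearMap.trace ℝ W).comp (ContinuousLinearMap.coeLM ℝ))

theorem trL_apply [FiniteDimensional ℝ W] (A : W →L[ℝ] W) : trL W A = tr A := rfl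

theorem isInv_of_inj [FiniteDimensional ℝ W] {A : W →L[ℝ] W} (h : Function.Injective A) :
    A.IsInvertible :=
  ⟨(LinearEquiv.ofInjectiveEndo (A : W →ₗ[ℝ] W) h).toContinuousLinearEquiv, by ext; rfl⟩

theorem isInv_of_det [FiniteDimensional ℝ W] {A : W →L[ℝ] W} (h : A.det ≠ 0) : A.IsInvertible :=
  ⟨A.toContinuousLinearEquivOfDetNeZero h, by simp⟩

theorem meas_of_contOn {X Z : Type} [TopologicalSpace X] [MeasurableSpace X]
    [OpensMeasurableSpace X] [TopologicalSpace Z] [MeasurableSpace Z] [BorelSpace Z] {U : Set X}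
    (hU : MeasurableSet U) {f g : X → Z} (hf : ContinuousOn f U) (hg : Measurable g)
    (ho : ∀ p, p ∉ U → f p = g p) : Measurable f := by
  refine measurable_of_restrict_of_restrict_compl hU hf.domRestrict.measurable ?_
  have : Uᶜ.domRestrict f = Uᶜ.domRestrict g := funext fun p => ho p.1 p.2
  rw [this]
  exact hg.comp measurable_subtype_coe

end General

section Act

variable {Y Γ : Type} [MeasurableSpace Y] [Group Γ]

/-- a measure preserving action -/
structure IsAct (b : Γ → Y → Y) (ν : Measure Y) : Prop where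
  one : ∀ y, b 1 y = y
  mul : ∀ γ δ y, b (γ * δ) y = b γ (b δ y)
  mp : ∀ γ, MeasurePreserving (b γ) ν ν

/-- a fundamental domain, almost everywhere -/
def AeFund (b : Γ → Y → Y) (ν : Measure Y) (F : Set Y) : Prop :=
  MeasurableSet F ∧ ∀ᵐ y ∂ν, ∃! γ, b γ y ∈ F

end Act

variable {E : Type} [NormedAddCommGroup E] [InnerProductSpace ℝ E]

/-- the tangent bundle of the ball -/
abbrev UU (E : Type) [NormedAddCommGroup E] : Set (E × E) := ball (0 : E) 1 ×ˢ univ

/-- the length of a tangent vector -/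
noncomputable def nm (G : E → E →L[ℝ] E) (p : E × E) : ℝ := √(gm G p.1 p.2 p.2)

/-- the potential `log cosh` of the Bergman distance to the origin -/
noncomputable def pot (z : E) : ℝ := -(1 / 2) * Real.log (1 - ‖z‖ ^ 2)

/-- the Riemannian density -/
noncomputable def rho (G : E → E →L[ℝ] E) (x : E) : ℝ := √((G x).det)

/-- the open unit disc bundle -/
def disc (G : E → E →L[ℝ] E) : Set (E × E) := {p | p.1 ∈ ball (0 : E) 1 ∧ gm G p.1 p.2 p.2 < 1}

/-- radial projection -/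
noncomputable def nrm (G : E → E →L[ℝ] E) (p : E × E) : E × E := (p.1, (nm G p)⁻¹ • p.2)

/-- smooth self-maps of the ball preserving `G` -/
structure Iso (G : E → E →L[ℝ] E) (φ : E → E) : Prop where
  smooth : ContDiffOn ℝ ∞ φ (ball 0 1)
  maps : MapsTo φ (ball 0 1) (ball 0 1)
  pres : Preserves G φ

/-- a metric which dominates the Bergman metric -/
structure Met (J : E →L[ℝ] E) (G : E → E →L[ℝ] E) : Prop where
  cx : IsCx J
  met : IsMetric G
  cmp : ∃ L > 0, ∀ p ∈ UU E, nm (berg J) p ≤ L * nm G p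

/-- an invariant metric -/
structure Inv (J : E →L[ℝ] E) {Γ : Type} [Group Γ] (a : Γ → E → E) (G : E → E →L[ℝ] E) :
    Prop where
  cx : IsCx J
  lat : IsLattice J a
  met : IsMetric G
  inv : ∀ γ, Preserves G (a γ)

theorem Inv.iso {J : E →L[ℝ] E} {Γ : Type} [Group Γ] {a : Γ → E → E} {G : E → E →L[ℝ] E}
    (H : Inv J a G) (γ : Γ) : Iso G (a γ) := ⟨H.lat.smooth γ, H.lat.maps γ, H.inv γ⟩

/-- a strict measurable fundamental domain -/
structure Fund {Γ : Type} (a : Γ → E → E) [MeasurableSpace E] (F : Set E) : Prop where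
  meas : MeasurableSet F
  sub : F ⊆ ball 0 1
  uniq : ∀ x ∈ ball (0 : E) 1, ∃! γ, a γ x ∈ F

open Classical in
/-- the action on the ball, extended by the identity -/
noncomputable def ab {Γ : Type} (a : Γ → E → E) (γ : Γ) (x : E) : E :=
  if x ∈ ball (0 : E) 1 then a γ x else x

open Classical in
/-- the action on the tangent bundle, extended by the identity -/
noncomputable def tb {Γ : Type} (a : Γ → E → E) (γ : Γ) (p : E × E) : E × E :=
  if p.1 ∈ ball (0 : E) 1 then tg (a γ) p else p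

theorem ab_of_mem {Γ : Type} (a : Γ → E → E) (γ : Γ) {x : E} (hx : x ∈ ball (0 : E) 1) :
    ab a γ x = a γ x := if_pos hx

theorem ab_of_not {Γ : Type} (a : Γ → E → E) (γ : Γ) {x : E} (hx : x ∉ ball (0 : E) 1) :
    ab a γ x = x := if_neg hx

theorem tb_of_mem {Γ : Type} (a : Γ → E → E) (γ : Γ) {p : E × E} (hp : p.1 ∈ ball (0 : E) 1) :
    tb a γ p = tg (a γ) p := if_pos hp

theorem tb_of_not {Γ : Type} (a : Γ → E → E) (γ : Γ) {p : E × E} (hp : p.1 ∉ ball (0 : E) 1) :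
    tb a γ p = p := if_neg hp

theorem mem_UU {p : E × E} : p ∈ UU E ↔ p.1 ∈ ball (0 : E) 1 := by simp [UU]

theorem isOpen_UU : IsOpen (UU E) := isOpen_ball.prod isOpen_univ

theorem SB_sub {G : E → E →L[ℝ] E} : SB G ⊆ UU E := fun _ hp => mem_UU.2 hp.1

theorem sq_lt {z : E} (hz : z ∈ ball (0 : E) 1) : 0 < 1 - ‖z‖ ^ 2 := by
  have := mem_ball_zero_iff.1 hz
  nlinarith [norm_nonneg z]

theorem gm_berg (J : E →L[ℝ] E) (z u v : E) : gm (berg J) z u v =
    (1 - ‖z‖ ^ 2)⁻¹ * ⟪u, v⟫ +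
      (1 - ‖z‖ ^ 2)⁻¹ ^ 2 * (⟪z, u⟫ * ⟪z, v⟫ + ⟪J z, u⟫ * ⟪J z, v⟫) := by
  simp [gm, berg, inner_add_left, inner_smul_left, mul_add]

theorem IsCx.skew {J : E →L[ℝ] E} (hJ : IsCx J) (u v : E) : ⟪J u, v⟫ = -⟪u, J v⟫ := by
  rw [← hJ.2 u (J v), hJ.1, inner_neg_right, neg_neg]

theorem IsCx.inner_self {J : E →L[ℝ] E} (hJ : IsCx J) (u : E) : ⟪J u, u⟫ = 0 := by
  have := hJ.skew u u
  rw [real_inner_comm (J u) u] at this
  linarith

theorem IsCx.norm_eq {J : E →L[ℝ] E} (hJ : IsCx J) (u : E) : ‖J u‖ = ‖u‖ := by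
  rw [norm_eq_sqrt_real_inner, hJ.2, ← norm_eq_sqrt_real_inner]

variable {G : E → E →L[ℝ] E}

theorem gm_add_left (x u u' v : E) : gm G x (u + u') v = gm G x u v + gm G x u' v := by
  simp [gm, inner_add_left]

theorem gm_add_right (x u v v' : E) : gm G x u (v + v') = gm G x u v + gm G x u v' := by
  simp [gm, inner_add_right]

theorem gm_sub_left (x u u' v : E) : gm G x (u - u') v = gm G x u v - gm G x u' v := by
  simp [gm, inner_sub_left]

theorem gm_sub_right (x u v v' : E) : gm G x u (v - v') = gm G x u v - gm G x u v' := by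
  simp [gm, inner_sub_right]

theorem gm_neg_left (x u v : E) : gm G x (-u) v = -gm G x u v := by simp [gm]

theorem gm_neg_right (x u v : E) : gm G x u (-v) = -gm G x u v := by simp [gm]

theorem gm_smul_left (x u v : E) (c : ℝ) : gm G x (c • u) v = c * gm G x u v := by
  simp [gm, inner_smul_left]

theorem gm_smul_right (x u v : E) (c : ℝ) : gm G x u (c • v) = c * gm G x u v := by
  simp [gm, inner_smul_right]

theorem gm_zero_left (x v : E) : gm G x 0 v = 0 := by simp [gm]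

theorem gm_zero_right (x u : E) : gm G x u 0 = 0 := by simp [gm]

theorem nm_nonneg (p : E × E) : 0 ≤ nm G p := Real.sqrt_nonneg _

theorem nm_zero (x : E) : nm G (x, 0) = 0 := by simp [nm, gm_zero_left]

theorem nm_smul (x v : E) (c : ℝ) : nm G (x, c • v) = |c| * nm G (x, v) := by
  simp only [nm, gm_smul_left, gm_smul_right]
  rw [← mul_assoc, Real.sqrt_mul (mul_self_nonneg c), Real.sqrt_mul_self_eq_abs]

theorem nm_of_SB {p : E × E} (hp : p ∈ SB G) : nm G p = 1 := by simp [nm, hp.2]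

theorem IsMetric.nonneg (hG : IsMetric G) {x : E} (hx : x ∈ ball (0 : E) 1) (v : E) :
    0 ≤ gm G x v v := by
  by_cases hv : v = 0
  · simp [hv, gm_zero_left]
  · exact (hG.pos x hx v hv).le

theorem IsMetric.nm_sq (hG : IsMetric G) {p : E × E} (hp : p ∈ UU E) :
    nm G p ^ 2 = gm G p.1 p.2 p.2 := Real.sq_sqrt (hG.nonneg (mem_UU.1 hp) _)

theorem IsMetric.nm_pos (hG : IsMetric G) {p : E × E} (hp : p ∈ UU E) (hv : p.2 ≠ 0) :
    0 < nm G p := Real.sqrt_pos.2 (hG.pos _ (mem_UU.1 hp) _ hv)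

theorem IsMetric.nrm_mem (hG : IsMetric G) {p : E × E} (hp : p ∈ UU E) (hv : p.2 ≠ 0) :
    nrm G p ∈ SB G := by
  refine ⟨mem_UU.1 hp, ?_⟩
  have h := hG.nm_pos hp hv
  simp only [nrm, gm_smul_left, gm_smul_right, ← hG.nm_sq hp]
  field_simp

/-- Cauchy-Schwarz -/
theorem IsMetric.abs_gm_le (hG : IsMetric G) {x : E} (hx : x ∈ ball (0 : E) 1) (u v : E) :
    |gm G x u v| ≤ nm G (x, u) * nm G (x, v) := by
  rw [nm, nm, ← Real.sqrt_mul (hG.nonneg hx u)]
  refine Real.abs_le_sqrt ?_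
  have h : ∀ t : ℝ, 0 ≤ gm G x v v * (t * t) + (2 * gm G x u v) * t + gm G x u u := fun t => by
    have := hG.nonneg hx (u + t • v)
    simp only [gm_add_left, gm_add_right, gm_smul_left, gm_smul_right, hG.symm x hx v u] at this
    linarith
  have := discrim_le_zero h
  simp only [discrim] at this
  nlinarith

theorem IsMetric.inj (hG : IsMetric G) {x : E} (hx : x ∈ ball (0 : E) 1) :
    Function.Injective (G x) := by
  refine (injective_iff_map_eq_zero _).2 fun v hv => by_contra fun h => ?_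
  have := hG.pos x hx v h
  simp [gm, hv] at this

theorem IsMetric.diffAt (hG : IsMetric G) {x : E} (hx : x ∈ ball (0 : E) 1) :
    DifferentiableAt ℝ G x :=
  (hG.smooth.contDiffAt (isOpen_ball.mem_nhds hx)).differentiableAt (by simp)

theorem IsMetric.en_smooth (hG : IsMetric G) :
    ContDiffOn ℝ ∞ (fun p : E × E => gm G p.1 p.2 p.2) (UU E) :=
  ((hG.smooth.comp contDiffOn_fst fun _ hp => mem_UU.1 hp).clm_apply contDiffOn_snd).inner ℝ
    contDiffOn_snd

theorem IsMetric.nm_cont (hG : IsMetric G) : ContinuousOn (nm G) (UU E) :=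
  hG.en_smooth.continuousOn.sqrt

theorem IsMetric.isOpen_disc (hG : IsMetric G) : IsOpen (disc G) := by
  have := hG.en_smooth.continuousOn.isOpen_inter_preimage isOpen_UU (isOpen_Iio (a := (1 : ℝ)))
  have e : disc G = UU E ∩ (fun p : E × E => gm G p.1 p.2 p.2) ⁻¹' Iio 1 := by
    ext p
    simp [disc]
  rwa [e]

theorem Iso.diffAt {φ : E → E} (h : Iso G φ) {x : E} (hx : x ∈ ball (0 : E) 1) :
    DifferentiableAt ℝ φ x :=
  (h.smooth.contDiffAt (isOpen_ball.mem_nhds hx)).differentiableAt (by simp)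

theorem Iso.nm_tg {φ : E → E} (h : Iso G φ) {p : E × E} (hp : p ∈ UU E) :
    nm G (tg φ p) = nm G p := by
  simp only [nm, tg, h.pres p.1 (mem_UU.1 hp)]

theorem Iso.tg_mem {φ : E → E} (h : Iso G φ) {p : E × E} (hp : p ∈ UU E) : tg φ p ∈ UU E :=
  mem_UU.2 (h.maps (mem_UU.1 hp))

theorem Iso.tg_SB {φ : E → E} (h : Iso G φ) {p : E × E} (hp : p ∈ SB G) : tg φ p ∈ SB G :=
  ⟨h.maps hp.1, (h.pres p.1 hp.1 _ _).trans hp.2⟩

theorem Iso.tg_smooth {φ : E → E} (h : Iso G φ) : ContDiffOn ℝ ∞ (tg φ) (UU E) := by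
  have h1 : ContDiffOn ℝ ∞ (fderiv ℝ φ) (ball 0 1) :=
    h.smooth.fderiv_of_isOpen isOpen_ball (by simp)
  exact (h.smooth.comp contDiffOn_fst fun _ hp => mem_UU.1 hp).prodMk
    ((h1.comp contDiffOn_fst fun _ hp => mem_UU.1 hp).clm_apply contDiffOn_snd)

theorem Iso.fderiv_inj {φ : E → E} (h : Iso G φ) (hG : IsMetric G) {x : E}
    (hx : x ∈ ball (0 : E) 1) : Function.Injective (fderiv ℝ φ x) := by
  refine (injective_iff_map_eq_zero _).2 fun v hv => by_contra fun h0 => ?_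
  have := hG.pos x hx v h0
  rw [← h.pres x hx, hv, gm_zero_left] at this
  exact lt_irrefl _ this

variable [FiniteDimensional ℝ E]

/-- nonpositive sectional curvature -/
def Npc (G : E → E →L[ℝ] E) : Prop :=
  ∀ x ∈ ball (0 : E) 1, ∀ u v, gm G x (curv G x u v v) u ≤ 0

/-- the geodesic vector field -/
noncomputable def fld (G : E → E →L[ℝ] E) (p : E × E) : E × E := (p.2, -chr G p.1 p.2 p.2)

/-- the geodesic flow on the tangent bundle -/
abbrev IsGeo (G : E → E →L[ℝ] E) (Ψ : ℝ → E × E → E × E) : Prop := IsFlowOn (UU E) (fld G) Ψ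

/-- the Christoffel symbols as a smooth family of bilinear maps -/
structure IsChr (G : E → E →L[ℝ] E) (C : E → E →L[ℝ] E →L[ℝ] E) : Prop where
  smooth : ContDiffOn ℝ ∞ C (ball 0 1)
  eq : ∀ x ∈ ball (0 : E) 1, ∀ u v, chr G x u v = C x u v
  symm : ∀ x ∈ ball (0 : E) 1, ∀ u v, C x u v = C x v u
  compat : ∀ x ∈ ball (0 : E) 1, ∀ u v w,
    ⟪fderiv ℝ G x u v, w⟫ = gm G x (C x u v) w + gm G x v (C x u w)

/-- the inverse of the exponential map -/
structure IsLog (Ψ : ℝ → E × E → E × E) (lg : E × E → E) : Prop where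
  smooth : ContDiffOn ℝ ∞ lg (ball 0 1 ×ˢ ball 0 1)
  right : ∀ x ∈ ball (0 : E) 1, ∀ y ∈ ball (0 : E) 1, (Ψ 1 (x, lg (x, y))).1 = y
  left : ∀ x ∈ ball (0 : E) 1, ∀ v, lg (x, (Ψ 1 (x, v)).1) = v

/-- the Riemannian distance, without the fellow traveller property -/
structure IsDist0 (G : E → E →L[ℝ] E) (Ψ : ℝ → E × E → E × E) (d : E → E → ℝ) : Prop where
  cont : ContinuousOn (fun q : E × E => d q.1 q.2) (ball 0 1 ×ˢ ball 0 1)
  nonneg : ∀ x y, 0 ≤ d x y
  self : ∀ x ∈ ball (0 : E) 1, d x x = 0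
  geo : ∀ p ∈ UU E, ∀ t, d p.1 (Ψ t p).1 = |t| * nm G p
  surj : ∀ x ∈ ball (0 : E) 1, ∀ y ∈ ball (0 : E) 1, ∃ v, (Ψ 1 (x, v)).1 = y
  inj : ∀ x ∈ ball (0 : E) 1, ∀ v w, (Ψ 1 (x, v)).1 = (Ψ 1 (x, w)).1 → v = w
  len : ∀ x ∈ ball (0 : E) 1, ∀ (β β' : ℝ → E) (g : ℝ → ℝ) (s t : ℝ), s ≤ t →
    ContinuousOn g (Icc s t) →
    (∀ u ∈ Icc s t, β u ∈ ball (0 : E) 1 ∧ HasDerivAt β (β' u) u ∧ nm G (β u, β' u) ≤ g u) →
    d x (β t) ≤ d x (β s) + ∫ u in s..t, g u
  symm : ∀ x ∈ ball (0 : E) 1, ∀ y ∈ ball (0 : E) 1, d x y = d y x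
  tri : ∀ x ∈ ball (0 : E) 1, ∀ y ∈ ball (0 : E) 1, ∀ z ∈ ball (0 : E) 1, d x z ≤ d x y + d y z
  inv : ∀ φ, Iso G φ → ∀ x ∈ ball (0 : E) 1, ∀ y ∈ ball (0 : E) 1, d (φ x) (φ y) = d x y
  low : ∃ L > 0, ∀ x ∈ ball (0 : E) 1, ∀ y ∈ ball (0 : E) 1,
    |pot x - pot y| ≤ L * d x y ∧ ‖x - y‖ ≤ L * d x y
  up : ∀ r < 1, ∃ C > 0, ∀ x ∈ closedBall (0 : E) r, ∀ y ∈ closedBall (0 : E) r,
    d x y ≤ C * ‖x - y‖

/-- the Riemannian distance -/
structure IsDist (G : E → E →L[ℝ] E) (Ψ : ℝ → E × E → E × E) (d : E → E → ℝ) : Prop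
    extends IsDist0 G Ψ d where
  ft : ∀ p ∈ UU E, ∀ q ∈ UU E, ∀ N t : ℝ, 0 ≤ t → t ≤ N →
    d (Ψ t p).1 (Ψ t q).1 ≤ max (d p.1 q.1) (d (Ψ N p).1 (Ψ N q).1)

theorem IsGeo.pos {Ψ : ℝ → E × E → E × E} (h : IsGeo G Ψ) {p : E × E} (hp : p ∈ UU E) (t : ℝ) :
    HasDerivAt (fun s => (Ψ s p).1) (Ψ t p).2 t := (h.ode p hp t).fst

theorem IsGeo.base {Ψ : ℝ → E × E → E × E} (h : IsGeo G Ψ) {p : E × E} (hp : p ∈ UU E) (t : ℝ) :
    (Ψ t p).1 ∈ ball (0 : E) 1 := mem_UU.1 (h.mem p hp t)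

theorem tr_eq_sum {ι : Type} [Fintype ι] (b : OrthonormalBasis ι ℝ E) (A : E →L[ℝ] E) :
    tr A = ∑ i, ⟪b i, A (b i)⟫ := LinearMap.trace_eq_sum_inner (A : E →ₗ[ℝ] E) b

theorem IsMetric.isInv (hG : IsMetric G) {x : E} (hx : x ∈ ball (0 : E) 1) :
    (G x).IsInvertible := isInv_of_inj (hG.inj hx)

theorem IsMetric.inv_smooth (hG : IsMetric G) :
    ContDiffOn ℝ ∞ (fun x => (G x).inverse) (ball 0 1) := fun x hx =>
  ((hG.isInv hx).contDiffAt_map_inverse.comp x
    (hG.smooth.contDiffAt (isOpen_ball.mem_nhds hx))).contDiffWithinAt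

theorem IsMetric.det_pos (hG : IsMetric G) {x : E} (hx : x ∈ ball (0 : E) 1) :
    0 < (G x).det := by
  have hs : (G x : E →ₗ[ℝ] E).IsSymmetric := fun u v =>
    (hG.symm x hx u v).trans (real_inner_comm _ _)
  have := hs.det_eq_prod_eigenvalues (n := Module.finrank ℝ E) rfl
  rw [ContinuousLinearMap.det, this]
  refine Finset.prod_pos fun i _ => ?_
  have h1 := hs.apply_eigenvectorBasis rfl i
  have h2 := hG.pos x hx (hs.eigenvectorBasis rfl i) ((hs.eigenvectorBasis rfl).orthonormal.ne_zero i)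
  have h3 : G x (hs.eigenvectorBasis rfl i) = _ := h1
  simpa [gm, h3, inner_smul_left] using h2

theorem IsMetric.rho_pos (hG : IsMetric G) {x : E} (hx : x ∈ ball (0 : E) 1) : 0 < rho G x :=
  Real.sqrt_pos.2 (hG.det_pos hx)

theorem IsMetric.rho_sq (hG : IsMetric G) {x : E} (hx : x ∈ ball (0 : E) 1) :
    rho G x ^ 2 = (G x).det := Real.sq_sqrt (hG.det_pos hx).le

omit [FiniteDimensional ℝ E] in
theorem IsMetric.det_cont (hG : IsMetric G) : ContinuousOn (fun x => (G x).det) (ball 0 1) :=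
  ContinuousLinearMap.continuous_det.comp_continuousOn hG.smooth.continuousOn

omit [FiniteDimensional ℝ E] in
theorem IsMetric.rho_cont (hG : IsMetric G) : ContinuousOn (rho G) (ball 0 1) :=
  hG.det_cont.sqrt

/-- bounds on compact sets -/
theorem IsMetric.nm_le (hG : IsMetric G) {r : ℝ} (hr : r < 1) :
    ∃ C > 0, ∀ x ∈ closedBall (0 : E) r, ∀ v, nm G (x, v) ≤ C * ‖v‖ := by
  obtain ⟨C, hC⟩ := (isCompact_closedBall (0 : E) r).exists_bound_of_continuousOn
    (hG.smooth.continuousOn.mono (closedBall_subset_ball hr))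
  refine ⟨√|C| + 1, by positivity, fun x hx v => ?_⟩
  have h1 : gm G x v v ≤ |C| * ‖v‖ ^ 2 := by
    refine (real_inner_le_norm _ _).trans ?_
    have := (G x).le_of_opNorm_le ((hC x hx).trans (le_abs_self C)) v
    nlinarith [norm_nonneg v]
  refine (Real.sqrt_le_sqrt h1).trans ?_
  rw [Real.sqrt_mul (abs_nonneg C), Real.sqrt_sq (norm_nonneg v)]
  nlinarith [norm_nonneg v]

variable [MeasurableSpace E] [BorelSpace E]

/-- the Riemannian volume -/
noncomputable def vol (G : E → E →L[ℝ] E) : Measure E :=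
  (volume.restrict (ball (0 : E) 1)).withDensity fun x => ENNReal.ofReal (rho G x)

/-- the volume of the disc bundle -/
noncomputable def nu (G : E → E →L[ℝ] E) : Measure (E × E) :=
  (volume.restrict (disc G)).withDensity fun p => ENNReal.ofReal (G p.1).det

/-- the normalised Liouville measure over a fundamental domain -/
noncomputable def pr (G : E → E →L[ℝ] E) (F : Set E) : Measure (E × E) :=
  (liou G (F ×ˢ univ))⁻¹ • (liou G).restrict (F ×ˢ univ)

theorem liou_eq (G : E → E →L[ℝ] E) : liou G = (nu G).map (nrm G) := rfl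

theorem IsMetric.ae_nu (hG : IsMetric G) : ∀ᵐ p ∂nu G, p ∈ disc G :=
  (withDensity_absolutelyContinuous _ _).ae_le (ae_restrict_mem hG.isOpen_disc.measurableSet)

theorem ae_vol_ball (G : E → E →L[ℝ] E) : ∀ᵐ x ∂vol G, x ∈ ball (0 : E) 1 :=
  (withDensity_absolutelyContinuous _ _).ae_le (ae_restrict_mem measurableSet_ball)

theorem IsMetric.aemeas_det (hG : IsMetric G) {S : Set (E × E)} (hS : MeasurableSet S)
    (hSU : S ⊆ UU E) :
    AEMeasurable (fun p : E × E => ENNReal.ofReal (G p.1).det) (volume.restrict S) :=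
  ENNReal.measurable_ofReal.comp_aemeasurable
    ((hG.det_cont.comp continuousOn_fst fun _ hp => mem_UU.1 (hSU hp)).aemeasurable hS)

theorem IsMetric.aemeas_rho (hG : IsMetric G) :
    AEMeasurable (fun x : E => ENNReal.ofReal (rho G x)) (volume.restrict (ball 0 1)) :=
  ENNReal.measurable_ofReal.comp_aemeasurable (hG.rho_cont.aemeasurable measurableSet_ball)

theorem IsMetric.aemeas_nrm (hG : IsMetric G) : AEMeasurable (nrm G) (nu G) := by
  refine AEMeasurable.mono_ac ?_ (withDensity_absolutelyContinuous _ _)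
  have h1 : AEMeasurable (nm G) (volume.restrict (disc G)) :=
    (hG.nm_cont.mono fun _ hp => mem_UU.2 hp.1).aemeasurable hG.isOpen_disc.measurableSet
  exact measurable_fst.aemeasurable.prodMk (h1.inv.smul measurable_snd.aemeasurable)

theorem IsMetric.meas_SB (hG : IsMetric G) : MeasurableSet (SB G) := by
  have h1 : IsOpen (UU E ∩ (fun p : E × E => gm G p.1 p.2 p.2) ⁻¹' {1}ᶜ) :=
    hG.en_smooth.continuousOn.isOpen_inter_preimage isOpen_UU isOpen_compl_singleton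
  convert isOpen_UU.measurableSet.diff h1.measurableSet using 1
  ext p
  simp only [SB, mem_ofPred_eq, Set.mem_sdiff, mem_UU, mem_inter_iff, mem_preimage, mem_compl_iff,
    mem_singleton_iff]
  tauto

theorem IsMetric.ae_liou [Nontrivial E] (hG : IsMetric G) : ∀ᵐ p ∂liou G, p ∈ SB G := by
  rw [liou_eq]
  refine (ae_map_iff hG.aemeas_nrm hG.meas_SB).2 ?_
  have h0 : ∀ᵐ p ∂nu G, p.2 ≠ 0 := by
    refine (withDensity_absolutelyContinuous _ _).ae_le (ae_restrict_of_ae ?_)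
    have : (volume : Measure (E × E)) (univ ×ˢ {0}) = 0 := by
      rw [Measure.volume_eq_prod, Measure.prod_prod]
      simp
    refine (measure_eq_zero_iff_ae_notMem.1 this).mono fun p hp h => hp ?_
    simp [h]
  filter_upwards [h0, hG.ae_nu] with p h1 h2 using hG.nrm_mem (mem_UU.2 h2.1) h1

end Pool.Agent.Lib.MP_235f17_gt.K
end

-- part Pool.Agent.Lib.MP_235f17_gt.K.ChrA
section

/-! Christoffel symbols. -/

set_option autoImplicit false
set_option linter.unusedSectionVars false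

open MeasureTheory Set Filter Topology Metric
open scoped ContDiff ENNReal RealInnerProductSpace

namespace Pool.Agent.Lib.MP_235f17_gt.K

variable {E : Type} [NormedAddCommGroup E] [InnerProductSpace ℝ E] [FiniteDimensional ℝ E]
  {J : E →L[ℝ] E} {G G' : E → E →L[ℝ] E} {Ψ : ℝ → E × E → E × E}

namespace ChrAAux

theorem fderiv_gm (hG : IsMetric G) {x : E} (hx : x ∈ ball (0 : E) 1) (u v w : E) :
    fderiv ℝ (fun y => gm G y u v) x w = ⟪fderiv ℝ G x w u, v⟫ := by
  have h := (((hG.diffAt hx).hasFDerivAt.clm_apply (hasFDerivAt_const u x)).inner ℝ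
    (hasFDerivAt_const v x)).fderiv
  simp only [gm]
  rw [h]
  simp

/-- explicit bilinear form of the symbols -/
noncomputable def cf (G : E → E →L[ℝ] E) (x : E) : E →L[ℝ] E →L[ℝ] E :=
  LinearMap.toContinuousBilinearMap (LinearMap.mk₂ ℝ (fun u v => (G x).inverse ((1 / 2 : ℝ) •
    (fderiv ℝ G x u v + fderiv ℝ G x v u - ∑ i, ⟪fderiv ℝ G x (stdOrthonormalBasis ℝ E i) u, v⟫ •
      stdOrthonormalBasis ℝ E i)))
    (fun u u' v => by
      rw [← map_add]
      congr 1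
      simp only [map_add, add_apply, inner_add_left, add_smul,
        Finset.sum_add_distrib]
      module)
    (fun c u v => by
      rw [← map_smul]
      congr 1
      simp only [map_smul, smul_apply, real_inner_smul_left, mul_smul,
        ← Finset.smul_sum]
      module)
    (fun u v v' => by
      rw [← map_add]
      congr 1
      simp only [map_add, add_apply, inner_add_right, add_smul,
        Finset.sum_add_distrib]
      module)
    (fun c u v => by
      rw [← map_smul]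
      congr 1
      simp only [map_smul, smul_apply, real_inner_smul_right, mul_smul,
        ← Finset.smul_sum]
      module))

theorem cf_apply (G : E → E →L[ℝ] E) (x u v : E) : cf G x u v = (G x).inverse ((1 / 2 : ℝ) •
    (fderiv ℝ G x u v + fderiv ℝ G x v u - ∑ i, ⟪fderiv ℝ G x (stdOrthonormalBasis ℝ E i) u, v⟫ •
      stdOrthonormalBasis ℝ E i)) := rfl

theorem chr_eq (hG : IsMetric G) {x : E} (hx : x ∈ ball (0 : E) 1) (u v : E) :
    chr G x u v = cf G x u v := by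
  rw [cf_apply, chr, ← (stdOrthonormalBasis ℝ E).sum_repr' (gradient (fun y => gm G y u v) x)]
  simp only [real_inner_comm (gradient (fun y => gm G y u v) x), inner_gradient_left,
    fderiv_gm hG hx]

end ChrAAux

open ChrAAux

theorem gm_chr (hG : IsMetric G) {x : E} (hx : x ∈ ball (0 : E) 1) (u v w : E) :
    gm G x (chr G x u v) w = (1 / 2) * (⟪fderiv ℝ G x u v, w⟫ + ⟪fderiv ℝ G x v u, w⟫ -
      ⟪fderiv ℝ G x w u, v⟫) := by
  rw [gm, chr, (hG.isInv hx).self_apply_inverse, real_inner_smul_left, inner_sub_left,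
    inner_add_left, inner_gradient_left, fderiv_gm hG hx]

theorem IsMetric.ext_gm (hG : IsMetric G) {x : E} (hx : x ∈ ball (0 : E) 1) {y z : E}
    (h : ∀ w, gm G x y w = gm G x z w) : y = z := by
  exact hG.inj hx (ext_inner_right ℝ h)

theorem IsMetric.fderiv_symm (hG : IsMetric G) {x : E} (hx : x ∈ ball (0 : E) 1) (h u v : E) :
    ⟪fderiv ℝ G x h u, v⟫ = ⟪fderiv ℝ G x h v, u⟫ := by
  rw [← fderiv_gm hG hx, ← fderiv_gm hG hx]
  congr 1
  refine Filter.EventuallyEq.fderiv_eq ?_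
  filter_upwards [isOpen_ball.mem_nhds hx] with y hy using hG.symm y hy u v

theorem exists_chr (hG : IsMetric G) : ∃ C, IsChr G C := by
  refine ⟨cf G, ?_, fun x hx => chr_eq hG hx, fun x hx u v => ?_, fun x hx u v w => ?_⟩
  · refine contDiffOn_clm_apply.2 fun u => contDiffOn_clm_apply.2 fun v => ?_
    have h1 : ContDiffOn ℝ ∞ (fderiv ℝ G) (ball 0 1) :=
      hG.smooth.fderiv_of_isOpen isOpen_ball (by simp)
    have h2 : ∀ a b : E, ContDiffOn ℝ ∞ (fun x => fderiv ℝ G x a b) (ball 0 1) := fun a b =>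
      (h1.clm_apply contDiffOn_const).clm_apply contDiffOn_const
    simp only [cf_apply]
    exact hG.inv_smooth.clm_apply ((((h2 u v).add (h2 v u)).sub (ContDiffOn.sum fun i _ =>
      ((h2 _ u).inner ℝ contDiffOn_const).smul contDiffOn_const)).const_smul _)
  · rw [← chr_eq hG hx, ← chr_eq hG hx]
    refine hG.ext_gm hx fun w => ?_
    rw [gm_chr hG hx, gm_chr hG hx, hG.fderiv_symm hx w u v]
    ring
  · rw [← chr_eq hG hx, ← chr_eq hG hx, hG.symm x hx v, gm_chr hG hx, gm_chr hG hx,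
      hG.fderiv_symm hx u w v]
    ring

/-- derivative of the metric along a curve, through covariant derivatives -/
theorem IsChr.hasDerivAt_gm {C : E → E →L[ℝ] E →L[ℝ] E} (hC : IsChr G C) (hG : IsMetric G)
    {c S R : ℝ → E} {c' S' R' : E} {t : ℝ} (hc : HasDerivAt c c' t) (hx : c t ∈ ball (0 : E) 1)
    (hS : HasDerivAt S S' t) (hR : HasDerivAt R R' t) :
    HasDerivAt (fun s => gm G (c s) (S s) (R s))
      (gm G (c t) (S' + C (c t) c' (S t)) (R t) + gm G (c t) (S t) (R' + C (c t) c' (R t))) t := by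
  have h1 := HasFDerivAt.comp_hasDerivAt (l := G) (f := c) t (hG.diffAt hx).hasFDerivAt hc
  refine ((h1.clm_apply hS).inner ℝ hR).congr_deriv ?_
  have := hC.compat _ hx c' (S t) (R t)
  simp only [gm_add_left, gm_add_right, Function.comp_apply, inner_add_left, this]
  simp only [gm]
  ring

theorem IsChr.curv_eq {C : E → E →L[ℝ] E →L[ℝ] E} (hC : IsChr G C) {x : E}
    (hx : x ∈ ball (0 : E) 1) (u v w : E) : curv G x u v w =
      fderiv ℝ C x u v w - fderiv ℝ C x v u w + C x u (C x v w) - C x v (C x u w) := by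
  have hd := ((hC.smooth.contDiffAt (isOpen_ball.mem_nhds hx)).differentiableAt
    (by simp)).hasFDerivAt
  have h : ∀ a b c : E, fderiv ℝ (fun y => chr G y a b) x c = fderiv ℝ C x c a b := by
    intro a b c
    have h1 := (hd.clm_apply (hasFDerivAt_const a x)).clm_apply (hasFDerivAt_const b x)
    have h2 : (fun y => chr G y a b) =ᶠ[𝓝 x] fun y => C y a b := by
      filter_upwards [isOpen_ball.mem_nhds hx] with y hy using hC.eq y hy a b
    rw [h2.fderiv_eq, h1.fderiv]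
    simp
  simp only [curv, h, hC.eq x hx]

theorem fld_smooth (hG : IsMetric G) : ContDiffOn ℝ ∞ (fld G) (UU E) := by
  obtain ⟨C, hC⟩ := exists_chr hG
  refine (contDiffOn_snd.prodMk (((hC.smooth.comp contDiffOn_fst fun _ hp =>
    mem_UU.1 hp).clm_apply contDiffOn_snd).clm_apply contDiffOn_snd).neg).congr fun p hp => ?_
  simp [fld, hC.eq _ (mem_UU.1 hp)]

theorem IsChr.fderiv_fld {C : E → E →L[ℝ] E →L[ℝ] E} (hC : IsChr G C) {p : E × E}
    (hp : p ∈ UU E) (ξ : E × E) : fderiv ℝ (fld G) p ξ =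
      (ξ.2, -(fderiv ℝ C p.1 ξ.1 p.2 p.2 + C p.1 ξ.2 p.2 + C p.1 p.2 ξ.2)) := by
  have hd := ((hC.smooth.contDiffAt (isOpen_ball.mem_nhds (mem_UU.1 hp))).differentiableAt
    (by simp)).hasFDerivAt
  have h1 := (hasFDerivAt_snd (p := p)).prodMk (((hd.comp p hasFDerivAt_fst).clm_apply
    hasFDerivAt_snd).clm_apply hasFDerivAt_snd).neg
  have h2 : fld G =ᶠ[𝓝 p] fun q => (q.2, -C q.1 q.2 q.2) := by
    filter_upwards [isOpen_UU.mem_nhds hp] with q hq
    simp [fld, hC.eq _ (mem_UU.1 hq)]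
  rw [h2.fderiv_eq]
  refine (congrArg (fun A => A ξ) h1.fderiv).trans ?_
  simp
  abel

/-- derivative of the energy -/
theorem IsChr.fderiv_en {C : E → E →L[ℝ] E →L[ℝ] E} (hC : IsChr G C) (hG : IsMetric G)
    {p : E × E} (hp : p ∈ UU E) (ξ : E × E) :
    fderiv ℝ (fun q : E × E => gm G q.1 q.2 q.2) p ξ =
      2 * gm G p.1 (ξ.2 + C p.1 ξ.1 p.2) p.2 := by
  have hx := mem_UU.1 hp
  have h1 := ((((hG.diffAt hx).hasFDerivAt.comp p hasFDerivAt_fst).clm_apply
    hasFDerivAt_snd).inner ℝ hasFDerivAt_snd).fderiv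
  have h2 := hC.compat _ hx ξ.1 p.2 p.2
  have h3 := hG.symm _ hx p.2 ξ.2
  have h4 := hG.symm _ hx p.2 (C p.1 ξ.1 p.2)
  refine (congrArg (fun A => A ξ) h1).trans ?_
  rw [gm_add_left]
  simp only [gm] at h2 h3 h4 ⊢
  simp [inner_add_left]
  linarith

/-- conservation of energy -/
theorem hasDerivAt_en (hG : IsMetric G) {f : ℝ → E × E} {t : ℝ} (hf : f t ∈ UU E)
    (h : HasDerivAt f (fld G (f t)) t) :
    HasDerivAt (fun s => gm G (f s).1 (f s).2 (f s).2) 0 t := by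
  obtain ⟨C, hC⟩ := exists_chr hG
  have hx := mem_UU.1 hf
  refine (hC.hasDerivAt_gm hG h.fst hx h.snd h.snd).congr_deriv ?_
  simp [fld, hC.eq _ hx, gm_zero_left, gm_zero_right]

end Pool.Agent.Lib.MP_235f17_gt.K
end

-- part Pool.Agent.Lib.MP_235f17_gt.K.Det
section

/-! Jacobi's formula for the derivative of the determinant. -/

set_option autoImplicit false
set_option linter.unusedSectionVars false

open Set Filter Topology
open scoped ContDiff

namespace Pool.Agent.Lib.MP_235f17_gt.K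

variable {W : Type} [NormedAddCommGroup W] [NormedSpace ℝ W] [FiniteDimensional ℝ W]

theorem det_comp (A B : W →L[ℝ] W) : (A ∘L B).det = A.det * B.det :=
  LinearMap.det_comp (A : W →ₗ[ℝ] W) (B : W →ₗ[ℝ] W)

theorem contDiff_det : ContDiff ℝ ∞ fun A : W →L[ℝ] W => A.det := by
  classical
  let b := Module.finBasis ℝ W
  have h : (fun A : W →L[ℝ] W => A.det) = fun A : W →L[ℝ] W =>
      ∑ σ : Equiv.Perm (Fin (Module.finrank ℝ W)), (Equiv.Perm.sign σ : ℤ) *
        ∏ i, LinearMap.toContinuousLinearMap (b.coord (σ i)) (A (b i)) := by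
    funext A
    rw [ContinuousLinearMap.det, ← LinearMap.det_toMatrix b, Matrix.det_apply']
    simp [LinearMap.toMatrix_apply]
  rw [h]
  refine ContDiff.sum fun σ _ => contDiff_const.mul (contDiff_prod fun i _ => ?_)
  exact (ContinuousLinearMap.contDiff _).comp (contDiff_id.clm_apply contDiff_const)

theorem hasDerivAt_det_one (H : W →L[ℝ] W) :
    HasDerivAt (fun r : ℝ => (ContinuousLinearMap.id ℝ W + r • H).det) (tr H) 0 := by
  classical
  let b := Module.finBasis ℝ W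
  let M := LinearMap.toMatrix b b (H : W →ₗ[ℝ] W)
  let q := (Matrix.det (1 + (Polynomial.X : Polynomial ℝ) • M.map Polynomial.C)).divX.divX
  have h : (fun r : ℝ => (ContinuousLinearMap.id ℝ W + r • H).det) =
      fun r => 1 + tr H * r + q.eval r * r ^ 2 := by
    funext r
    rw [ContinuousLinearMap.det, ← LinearMap.det_toMatrix b, tr,
      LinearMap.trace_eq_matrix_trace ℝ b, ← Matrix.det_one_add_smul]
    simp
  rw [h]
  have h1 := ((hasDerivAt_id (0 : ℝ)).const_mul (tr H)).const_add 1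
  have h2 := (q.hasDerivAt 0).mul (hasDerivAt_pow 2 (0 : ℝ))
  exact (h1.add h2).congr_deriv (by simp)

theorem fderiv_det {A : W →L[ℝ] W} (hA : A.det ≠ 0) (H : W →L[ℝ] W) :
    fderiv ℝ (fun B : W →L[ℝ] W => B.det) A H = A.det * tr (A.inverse ∘L H) := by
  have hd := (contDiff_det.differentiable (by simp) A).hasFDerivAt
  have h1 : HasDerivAt (fun r : ℝ => A + r • H) H 0 := by
    simpa using ((hasDerivAt_id (0 : ℝ)).smul_const H).const_add A
  have h2 := HasFDerivAt.comp_hasDerivAt (l := fun B : W →L[ℝ] W => B.det) (0 : ℝ)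
    (by simpa using hd) h1
  have h3 := (hasDerivAt_det_one (A.inverse ∘L H)).const_mul A.det
  refine h2.unique (h3.congr_of_eventuallyEq (.of_forall fun r => ?_))
  have e : A + r • H = A ∘L (ContinuousLinearMap.id ℝ W + r • A.inverse ∘L H) := by
    ext v
    simp [(isInv_of_det hA).self_apply_inverse]
  simp only [Function.comp_apply, e, det_comp]

/-- Jacobi's formula -/
theorem hasFDerivAt_det {X : Type} [NormedAddCommGroup X] [NormedSpace ℝ X] {M : X → W →L[ℝ] W}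
    {M' : X →L[ℝ] W →L[ℝ] W} {x : X} (h : HasFDerivAt M M' x) (hd : (M x).det ≠ 0) :
    ∃ D : X →L[ℝ] ℝ, HasFDerivAt (fun y => (M y).det) D x ∧
      ∀ v, D v = (M x).det * tr ((M x).inverse ∘L M' v) :=
  ⟨_, (contDiff_det.differentiable (by simp) (M x)).hasFDerivAt.comp x h, fun v => by
    simp [fderiv_det hd]⟩

theorem hasDerivAt_det {M : ℝ → W →L[ℝ] W} {M' : W →L[ℝ] W} {t : ℝ} (h : HasDerivAt M M' t)
    (hd : (M t).det ≠ 0) :
    HasDerivAt (fun s => (M s).det) ((M t).det * tr ((M t).inverse ∘L M')) t := by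
  have := (contDiff_det.differentiable (by simp) (M t)).hasFDerivAt.comp_hasDerivAt t h
  rwa [fderiv_det hd] at this

theorem det_ne_of_inj {A : W →L[ℝ] W} (h : Function.Injective A) : A.det ≠ 0 :=
  (LinearEquiv.ofInjectiveEndo (A : W →ₗ[ℝ] W) h).isUnit_det'.ne_zero

variable {E : Type} [NormedAddCommGroup E] [InnerProductSpace ℝ E] [FiniteDimensional ℝ E]

theorem det_adjoint (A : E →L[ℝ] E) : (ContinuousLinearMap.adjoint A).det = A.det := by
  classical
  let b := stdOrthonormalBasis ℝ E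
  have := LinearMap.toMatrix_adjoint b b (A : E →ₗ[ℝ] E)
  rw [ContinuousLinearMap.det, ContinuousLinearMap.det, ← LinearMap.det_toMatrix b.toBasis,
    ← LinearMap.det_toMatrix b.toBasis (A : E →ₗ[ℝ] E)]
  rw [show ((ContinuousLinearMap.adjoint A : E →L[ℝ] E) : E →ₗ[ℝ] E) =
    LinearMap.adjoint (A : E →ₗ[ℝ] E) from rfl, this, Matrix.det_conjTranspose]
  simp

theorem tr_adjoint (A : E →L[ℝ] E) : tr (ContinuousLinearMap.adjoint A) = tr A := by
  simp only [tr_eq_sum (stdOrthonormalBasis ℝ E), ContinuousLinearMap.adjoint_inner_right]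
  exact Finset.sum_congr rfl fun i _ => real_inner_comm _ _

theorem IsMetric.det_smooth {G : E → E →L[ℝ] E} (hG : IsMetric G) :
    ContDiffOn ℝ ∞ (fun x => (G x).det) (Metric.ball 0 1) :=
  contDiff_det.comp_contDiffOn hG.smooth

theorem IsMetric.rho_smooth {G : E → E →L[ℝ] E} (hG : IsMetric G) :
    ContDiffOn ℝ ∞ (rho G) (Metric.ball 0 1) :=
  hG.det_smooth.sqrt fun _ hx => (hG.det_pos hx).ne'

end Pool.Agent.Lib.MP_235f17_gt.K
end

-- part Pool.Agent.Lib.MP_235f17_gt.K.ChrB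
section

/-! Divergence of the geodesic field, invariance under isometries. -/

set_option autoImplicit false
set_option linter.unusedSectionVars false

open MeasureTheory Set Filter Topology Metric
open scoped ContDiff ENNReal RealInnerProductSpace

namespace Pool.Agent.Lib.MP_235f17_gt.K

variable {E : Type} [NormedAddCommGroup E] [InnerProductSpace ℝ E] [FiniteDimensional ℝ E]
  {J : E →L[ℝ] E} {G G' : E → E →L[ℝ] E} {Ψ : ℝ → E × E → E × E}

theorem tr_prod {V W : Type} [NormedAddCommGroup V] [NormedSpace ℝ V] [FiniteDimensional ℝ V]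
    [NormedAddCommGroup W] [NormedSpace ℝ W] [FiniteDimensional ℝ W] (A : V × W →L[ℝ] V × W) :
    tr A = tr (ContinuousLinearMap.fst ℝ V W ∘L A ∘L ContinuousLinearMap.inl ℝ V W) +
      tr (ContinuousLinearMap.snd ℝ V W ∘L A ∘L ContinuousLinearMap.inr ℝ V W) := by
  rw [tr_comm (ContinuousLinearMap.fst ℝ V W), tr_comm (ContinuousLinearMap.snd ℝ V W), ← tr_add]
  congr 1
  ext v <;> simp [Prod.mk_zero_zero]

theorem IsMetric.adj_inv (hG : IsMetric G) {x : E} (hx : x ∈ ball (0 : E) 1) :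
    ContinuousLinearMap.adjoint (G x).inverse = (G x).inverse := by
  symm
  refine (ContinuousLinearMap.eq_adjoint_iff _ _).2 fun u v => ?_
  have := hG.symm x hx ((G x).inverse u) ((G x).inverse v)
  simp only [gm, (hG.isInv hx).self_apply_inverse] at this
  rw [this, real_inner_comm]

theorem IsChr.tr_eq {C : E → E →L[ℝ] E →L[ℝ] E} (hC : IsChr G C) (hG : IsMetric G) {x : E}
    (hx : x ∈ ball (0 : E) 1) (v : E) :
    2 * tr (C x v) = tr ((G x).inverse ∘L fderiv ℝ G x v) := by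
  let L : E →L[ℝ] E := (fderiv ℝ G x).flip v
  have e : C x v = (1 / 2 : ℝ) • ((G x).inverse ∘L fderiv ℝ G x v + (G x).inverse ∘L L -
      (G x).inverse ∘L ContinuousLinearMap.adjoint L) := by
    ext w
    refine hG.ext_gm hx fun u => ?_
    rw [← hC.eq x hx, gm_chr hG hx]
    simp [gm, (hG.isInv hx).self_apply_inverse, inner_smul_left, inner_sub_left, inner_add_left,
      ContinuousLinearMap.adjoint_inner_left, L, real_inner_comm]
  have e2 : tr ((G x).inverse ∘L ContinuousLinearMap.adjoint L) = tr ((G x).inverse ∘L L) := by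
    rw [← tr_adjoint, ContinuousLinearMap.adjoint_comp, ContinuousLinearMap.adjoint_adjoint,
      hG.adj_inv hx, tr_comm]
  rw [e, tr_smul, tr_sub, tr_add, e2]
  ring

theorem Iso.chr_eq {φ : E → E} (h : Iso G φ) (hG : IsMetric G) {x : E} (hx : x ∈ ball (0 : E) 1)
    (v : E) : fderiv ℝ φ x (chr G x v v) = fderiv ℝ (fderiv ℝ φ) x v v +
      chr G (φ x) (fderiv ℝ φ x v) (fderiv ℝ φ x v) := by
  have hc := h.smooth.contDiffAt (isOpen_ball.mem_nhds hx)
  have hD2 : HasFDerivAt (fderiv ℝ φ) (fderiv ℝ (fderiv ℝ φ) x) x :=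
    ((hc.fderiv_right (m := 1) (by norm_cast)).differentiableAt one_ne_zero).hasFDerivAt
  have hs := hc.isSymmSndFDerivAt (by simp; norm_cast)
  have hy := h.maps hx
  have I : ∀ k u w, ⟪fderiv ℝ G x k u, w⟫ =
      ⟪fderiv ℝ G (φ x) (fderiv ℝ φ x k) (fderiv ℝ φ x u), fderiv ℝ φ x w⟫ +
      gm G (φ x) (fderiv ℝ (fderiv ℝ φ) x k u) (fderiv ℝ φ x w) +
      gm G (φ x) (fderiv ℝ φ x u) (fderiv ℝ (fderiv ℝ φ) x k w) := by
    intro k u w
    have h1 := (((hG.diffAt hy).hasFDerivAt.comp x (h.diffAt hx).hasFDerivAt).clm_apply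
      (hD2.clm_apply (hasFDerivAt_const u x))).inner ℝ (hD2.clm_apply (hasFDerivAt_const w x))
    have h2 := ((hG.diffAt hx).hasFDerivAt.clm_apply (hasFDerivAt_const u x)).inner ℝ
      (hasFDerivAt_const w x)
    have h3 := h2.unique (h1.congr_of_eventuallyEq (by
      filter_upwards [isOpen_ball.mem_nhds hx] with y hy using (h.pres y hy u w).symm))
    have h4 := congrArg (fun A => A k) h3
    simp [inner_add_left] at h4
    simp only [gm]
    linarith
  refine hG.ext_gm hy fun w' => ?_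
  obtain ⟨w, rfl⟩ := (isInv_of_inj (h.fderiv_inj hG hx)).surjective w'
  rw [h.pres x hx, gm_add_left, gm_chr hG hx, gm_chr hG hy, I v v w, I w v v, hs.eq w v,
    hG.symm _ hy (fderiv ℝ (fderiv ℝ φ) x v w)]
  ring

theorem fld_div (hG : IsMetric G) {p : E × E} (hp : p ∈ UU E) :
    fderiv ℝ (fun q : E × E => (G q.1).det) p (fld G p) +
      (G p.1).det * tr (fderiv ℝ (fld G) p) = 0 := by
  obtain ⟨C, hC⟩ := exists_chr hG
  have hx := mem_UU.1 hp
  obtain ⟨D, h1, h2⟩ := hasFDerivAt_det (M := fun q : E × E => G q.1)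
    ((hG.diffAt hx).hasFDerivAt.comp p hasFDerivAt_fst) (hG.det_pos hx).ne'
  have e1 : ContinuousLinearMap.fst ℝ E E ∘L fderiv ℝ (fld G) p ∘L ContinuousLinearMap.inl ℝ E E =
      0 := by
    ext v
    simp [hC.fderiv_fld hp]
  have e2 : ContinuousLinearMap.snd ℝ E E ∘L fderiv ℝ (fld G) p ∘L ContinuousLinearMap.inr ℝ E E =
      (-2 : ℝ) • C p.1 p.2 := by
    ext v
    simp [hC.fderiv_fld hp, hC.symm _ hx v p.2, two_smul]
  rw [h1.fderiv, h2, tr_prod, e1, e2, tr_smul]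
  have := hC.tr_eq hG hx p.2
  simp only [fld, ContinuousLinearMap.comp_apply, ContinuousLinearMap.coe_fst', ← this]
  simp [tr]

/-- isometries map geodesics to geodesics -/
theorem Iso.tg_ode {φ : E → E} (h : Iso G φ) (hG : IsMetric G) {f : ℝ → E × E} {t : ℝ}
    (hf : f t ∈ UU E) (hd : HasDerivAt f (fld G (f t)) t) :
    HasDerivAt (fun s => tg φ (f s)) (fld G (tg φ (f t))) t := by
  have hx := mem_UU.1 hf
  have hc := h.smooth.contDiffAt (isOpen_ball.mem_nhds hx)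
  have hD2 : HasFDerivAt (fderiv ℝ φ) (fderiv ℝ (fderiv ℝ φ) (f t).1) (f t).1 :=
    ((hc.fderiv_right (m := 1) (by norm_cast)).differentiableAt one_ne_zero).hasFDerivAt
  have h1 := HasFDerivAt.comp_hasDerivAt (l := φ) (f := fun s => (f s).1) t
    (h.diffAt hx).hasFDerivAt hd.fst
  have h2 := (HasFDerivAt.comp_hasDerivAt (l := fderiv ℝ φ) (f := fun s => (f s).1) t hD2
    hd.fst).clm_apply hd.snd
  refine (h1.prodMk h2).congr_deriv ?_
  simp [fld, tg, h.chr_eq hG hx]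

end Pool.Agent.Lib.MP_235f17_gt.K
end

-- part Pool.Agent.Lib.MP_235f17_gt.K.OdeA
section

/-! Uniqueness and global existence for smooth vector fields on open sets. -/

set_option autoImplicit false
set_option linter.unusedSectionVars false

open MeasureTheory Set Filter Topology Metric
open scoped ContDiff ENNReal RealInnerProductSpace

namespace Pool.Agent.Lib.MP_235f17_gt.K

variable {W : Type} [NormedAddCommGroup W] [NormedSpace ℝ W] [FiniteDimensional ℝ W]
  {U : Set W} {Y : W → W} {Ψ : ℝ → W → W}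

theorem exists_cut (hU : IsOpen U) (hY : ContDiffOn ℝ ∞ Y U) {K : Set W} (hK : IsCompact K)
    (hKU : K ⊆ U) : ∃ (Z : W → W) (O : Set W), IsOpen O ∧ K ⊆ O ∧ O ⊆ U ∧ ContDiff ℝ ∞ Z ∧
      HasCompactSupport Z ∧ EqOn Z Y O := by
  have := FiniteDimensional.proper_real W
  obtain ⟨K', hK', h1, h2⟩ := exists_compact_between hK hU hKU
  obtain ⟨χ, h3, h4, -⟩ := exists_contMDiffMap_one_nhds_of_subset_interior (n := ⊤)
    (modelWithCornersSelf ℝ W) hK.isClosed h1
  have hχ : ContDiff ℝ ∞ χ := χ.contMDiff.contDiff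
  obtain ⟨O, hO, hKO, hO1⟩ := mem_nhdsSet_iff_exists.1 h3
  have hs : tsupport (fun x => χ x • Y x) ⊆ K' :=
    closure_minimal (fun x hx => by_contra fun h => hx (by simp [h4 x h])) hK'.isClosed
  refine ⟨fun x => χ x • Y x, O ∩ U, hO.inter hU, subset_inter hKO hKU, inter_subset_right,
    contDiff_iff_contDiffAt.2 fun x => ?_, hK'.of_isClosed_subset (isClosed_tsupport _) hs,
    fun x hx => ?_⟩
  · by_cases hx : x ∈ U
    · exact hχ.contDiffAt.smul (hY.contDiffAt (hU.mem_nhds hx))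
    · refine contDiffAt_const.congr_of_eventuallyEq
        (notMem_tsupport_iff_eventuallyEq.1 fun h => hx (h2 (hs h)))
  · have : χ x = 1 := hO1 hx.1
    simp [this]

theorem ode_unique_on (hU : IsOpen U) (hY : ContDiffOn ℝ ∞ Y U) {f g : ℝ → W} {t : ℝ}
    (hf : ∀ s ∈ uIcc 0 t, f s ∈ U ∧ HasDerivAt f (Y (f s)) s)
    (hg : ∀ s ∈ uIcc 0 t, g s ∈ U ∧ HasDerivAt g (Y (g s)) s) (h0 : f 0 = g 0) : f t = g t := by
  have hc : ∀ {f : ℝ → W}, (∀ s ∈ uIcc 0 t, f s ∈ U ∧ HasDerivAt f (Y (f s)) s) →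
      ContinuousOn f (uIcc 0 t) := fun hf s hs => (hf s hs).2.continuousAt.continuousWithinAt
  obtain ⟨Z, O, -, hKO, -, hZ, hZc, hZY⟩ := exists_cut hU hY
    ((isCompact_uIcc.image_of_continuousOn (hc hf)).union
      (isCompact_uIcc.image_of_continuousOn (hc hg)))
    (union_subset (image_subset_iff.2 fun s hs => (hf s hs).1)
      (image_subset_iff.2 fun s hs => (hg s hs).1))
  obtain ⟨L, hL⟩ := hZ.lipschitzWith_of_hasCompactSupport hZc (by simp)
  have hf' : ∀ s ∈ uIcc 0 t, HasDerivAt f (Z (f s)) s := fun s hs => by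
    rw [hZY (hKO (Or.inl ⟨s, hs, rfl⟩))]
    exact (hf s hs).2
  have hg' : ∀ s ∈ uIcc 0 t, HasDerivAt g (Z (g s)) s := fun s hs => by
    rw [hZY (hKO (Or.inr ⟨s, hs, rfl⟩))]
    exact (hg s hs).2
  have h1 := hc hf
  have h2 := hc hg
  rcases le_total 0 t with ht | ht
  · rw [uIcc_of_le ht] at hf' hg' h1 h2
    exact ODE_solution_unique_of_mem_Icc_right (v := fun _ => Z) (s := fun _ => univ)
      (fun _ _ => hL.lipschitzOnWith) h1
      (fun s hs => (hf' s (Ico_subset_Icc_self hs)).hasDerivWithinAt) (fun _ _ => trivial) h2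
      (fun s hs => (hg' s (Ico_subset_Icc_self hs)).hasDerivWithinAt) (fun _ _ => trivial) h0
      ⟨ht, le_rfl⟩
  · rw [uIcc_of_ge ht] at hf' hg' h1 h2
    exact ODE_solution_unique_of_mem_Icc_left (v := fun _ => Z) (s := fun _ => univ)
      (fun _ _ => hL.lipschitzOnWith) h1
      (fun s hs => (hf' s (Ioc_subset_Icc_self hs)).hasDerivWithinAt) (fun _ _ => trivial) h2
      (fun s hs => (hg' s (Ioc_subset_Icc_self hs)).hasDerivWithinAt) (fun _ _ => trivial) h0
      ⟨le_rfl, ht⟩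

theorem IsFlowOn.unique (hU : IsOpen U) (hY : ContDiffOn ℝ ∞ Y U) (h : IsFlowOn U Y Ψ)
    {f : ℝ → W} (hf : ∀ s, f s ∈ U ∧ HasDerivAt f (Y (f s)) s) (t : ℝ) : Ψ t (f 0) = f t := by
  exact ode_unique_on hU hY (f := fun s => Ψ s (f 0))
    (fun s _ => ⟨h.mem _ (hf 0).1 s, h.ode _ (hf 0).1 s⟩) (fun s _ => hf s) (h.zero _)

theorem flow_exists (hU : IsOpen U) (hY : ContDiffOn ℝ ∞ Y U)
    (hb : ∀ p ∈ U, ∀ T : ℝ, ∃ K, IsCompact K ∧ K ⊆ U ∧ ∀ (f : ℝ → W) (t : ℝ), |t| ≤ T → f 0 = p →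
      (∀ s ∈ uIcc 0 t, f s ∈ U ∧ HasDerivAt f (Y (f s)) s) → f t ∈ K) :
    ∃ Ψ, IsFlowOn U Y Ψ := by
  classical
  have key : ∀ p ∈ U, ∀ T : ℝ, ∃ f : ℝ → W, f 0 = p ∧
      ∀ t, |t| ≤ T → f t ∈ U ∧ HasDerivAt f (Y (f t)) t := by
    intro p hp T
    obtain ⟨K, hK, hKU, hbd⟩ := hb p hp T
    obtain ⟨Z, O, hO, hKO, hOU, hZ, hZc, hZY⟩ := exists_cut hU hY hK hKU
    obtain ⟨ψ, hψ, h0, hd⟩ := exists_smooth_flow hZ hZc
    have hc : Continuous fun s => ψ s p :=
      continuous_iff_continuousAt.2 fun s => (hd p s).continuousAt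
    have hs : ∀ s, ψ s p ∈ O → ψ s p ∈ U ∧ HasDerivAt (fun s => ψ s p) (Y (ψ s p)) s :=
      fun s h => ⟨hOU h, hZY h ▸ hd p s⟩
    refine ⟨fun s => ψ s p, h0 p, fun t ht => hs t (hKO ?_)⟩
    have hT : 0 ≤ T := (abs_nonneg t).trans ht
    have hc' : Continuous fun u : ℝ => ψ (u * t) p := hc.comp (continuous_id.mul continuous_const)
    have hstep : ∀ u ∈ Icc (0 : ℝ) 1, (∀ v ∈ Icc 0 u, ψ (v * t) p ∈ O) → ψ (u * t) p ∈ K := by
      intro u hu h
      refine hbd (fun s => ψ s p) (u * t) ?_ (h0 p) fun s hs' => hs s ?_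
      · rw [abs_mul, abs_of_nonneg hu.1]
        nlinarith [abs_nonneg t, hu.2]
      · have : s ∈ (fun v => v * t) '' uIcc 0 u := by
          rw [image_mul_const_uIcc, zero_mul]
          exact hs'
        obtain ⟨v, hv, rfl⟩ := this
        exact h v (uIcc_of_le hu.1 ▸ hv)
    have h1 : Icc (0 : ℝ) 1 ⊆ {u | ψ (u * t) p ∈ K} := by
      refine IsClosed.Icc_subset_of_forall_mem_nhdsGT_of_Icc_subset
        ((hK.isClosed.preimage hc').inter isClosed_Icc) ?_ fun u hu hsub => ?_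
      · have := hbd (fun s => ψ s p) 0 (by simpa using hT) (h0 p) fun s hs' => by
          obtain rfl : s = 0 := by simpa using hs'
          have hp' : ψ 0 p ∈ U := (h0 p).symm ▸ hp
          have hpK := hbd (fun s => if s = 0 then p else p + s • Y p) 0 (by simpa using hT)
            (by simp) fun s hs' => by
              obtain rfl : s = 0 := by simpa using hs'
              refine ⟨by simpa using hp, ?_⟩
              have e : (fun s : ℝ => if s = 0 then p else p + s • Y p) = fun s => p + s • Y p := by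
                funext s
                split_ifs with h <;> simp [h]
              rw [e]
              simpa using ((hasDerivAt_id (0 : ℝ)).smul_const (Y p)).const_add p
          exact hs 0 (hKO (by simpa [h0] using hpK))
        simpa using this
      · have h2 : ∀ᶠ v in 𝓝 u, ψ (v * t) p ∈ O :=
          hc'.continuousAt.preimage_mem_nhds (hO.mem_nhds (hKO (hsub ⟨hu.1, le_rfl⟩)))
        obtain ⟨ε, hε, h3⟩ := Metric.eventually_nhds_iff.1 h2
        filter_upwards [Ioo_mem_nhdsGT (lt_min hu.2 (lt_add_of_pos_right u hε))] with w hw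
        refine hstep w ⟨hu.1.trans hw.1.le, (hw.2.trans_le (min_le_left _ _)).le⟩ fun v hv => ?_
        rcases le_total v u with h | h
        · exact hKO (hsub ⟨hv.1, h⟩)
        · refine h3 ?_
          rw [Real.dist_eq, abs_of_nonneg (sub_nonneg.2 h)]
          linarith [hv.2, hw.2.trans_le (min_le_right _ _)]
    simpa using h1 ⟨zero_le_one, le_rfl⟩
  choose! f h0 hf using key
  have hu : ∀ p ∈ U, ∀ T T' t : ℝ, |t| ≤ T → |t| ≤ T' → f p T t = f p T' t := by
    intro p hp T T' t h1 h2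
    have h3 : ∀ s ∈ uIcc 0 t, |s| ≤ |t| := fun s hs => by
      simpa using abs_sub_left_of_mem_uIcc hs
    exact ode_unique_on hU hY (fun s hs => hf p hp T s ((h3 s hs).trans h1))
      (fun s hs => hf p hp T' s ((h3 s hs).trans h2)) ((h0 p hp T).trans (h0 p hp T').symm)
  refine ⟨fun t p => if p ∈ U then f p |t| t else p, fun p => ?_, fun p hp t => ?_,
    fun p hp t => ?_, fun p hp t => if_neg hp⟩
  · split_ifs with hp
    exacts [h0 p hp _, rfl]
  · rw [if_pos hp]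
    exact (hf p hp _ t le_rfl).1
  · simp only [if_pos hp]
    rw [hu p hp |t| (|t| + 1) t le_rfl (by linarith)]
    refine (hf p hp (|t| + 1) t (by linarith)).2.congr_of_eventuallyEq ?_
    filter_upwards [continuous_abs.continuousAt.eventually (gt_mem_nhds (lt_add_one |t|))] with s hs
    exact hu p hp _ _ s le_rfl hs.le

end Pool.Agent.Lib.MP_235f17_gt.K
end

-- part Pool.Agent.Lib.MP_235f17_gt.K.Berg
section

/-! The Bergman metric and its potential. -/

set_option autoImplicit false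
set_option linter.unusedSectionVars false

open MeasureTheory Set Filter Topology Metric
open scoped ContDiff ENNReal RealInnerProductSpace

namespace Pool.Agent.Lib.MP_235f17_gt.K

variable {E : Type} [NormedAddCommGroup E] [InnerProductSpace ℝ E] [FiniteDimensional ℝ E]
  {J : E →L[ℝ] E} {G G' : E → E →L[ℝ] E} {Ψ : ℝ → E × E → E × E}

namespace BergAux

theorem smooth_a : ContDiffOn ℝ ∞ (fun z : E => (1 - ‖z‖ ^ 2)⁻¹) (ball 0 1) :=
  (contDiffOn_const.sub (contDiff_norm_sq ℝ).contDiffOn).inv fun _ hz => (sq_lt hz).ne'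

theorem hasFDerivAt_a {z : E} (hz : z ∈ ball (0 : E) 1) :
    HasFDerivAt (fun z : E => (1 - ‖z‖ ^ 2)⁻¹) ((2 * (1 - ‖z‖ ^ 2)⁻¹ ^ 2) • innerSL ℝ z) z := by
  have h1 := ((hasStrictFDerivAt_norm_sq z).hasFDerivAt.const_sub 1)
  have h2 := (hasDerivAt_inv (sq_lt hz).ne').comp_hasFDerivAt z h1
  refine h2.congr_fderiv ?_
  ext v
  simp
  ring

theorem one_le_a {z : E} (hz : z ∈ ball (0 : E) 1) : 1 ≤ (1 - ‖z‖ ^ 2)⁻¹ :=
  (one_le_inv₀ (sq_lt hz)).2 (by nlinarith [sq_nonneg ‖z‖])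

theorem le_gm (J : E →L[ℝ] E) {z : E} (hz : z ∈ ball (0 : E) 1) (v : E) :
    ‖v‖ ^ 2 + ((1 - ‖z‖ ^ 2)⁻¹ * ⟪z, v⟫) ^ 2 ≤ gm (berg J) z v v := by
  rw [gm_berg, real_inner_self_eq_norm_sq]
  have := one_le_a hz
  nlinarith [sq_nonneg ‖v‖, mul_nonneg (sq_nonneg (1 - ‖z‖ ^ 2)⁻¹) (mul_self_nonneg ⟪J z, v⟫)]

theorem smooth (J : E →L[ℝ] E) : ContDiffOn ℝ ∞ (berg J) (ball 0 1) := by
  have h : ContDiff ℝ ∞ fun z : E => (innerSL ℝ z).smulRight z :=
    (innerSL ℝ (E := E)).contDiff.smulRight contDiff_id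
  exact (smooth_a.smul contDiffOn_const).add ((smooth_a.pow 2).smul
    (h.add (h.comp J.contDiff)).contDiffOn)

theorem incr {f f' g : ℝ → ℝ} {s t : ℝ} (hst : s ≤ t) (hg : ContinuousOn g (Icc s t))
    (h : ∀ u ∈ Icc s t, HasDerivAt f (f' u) u ∧ f' u ≤ g u) : f t - f s ≤ ∫ u in s..t, g u :=
  intervalIntegral.sub_le_integral_of_hasDeriv_right_of_le hst
    (fun u hu => (h u hu).1.continuousAt.continuousWithinAt)
    (fun u hu => (h u (Ioo_subset_Icc_self hu)).1.hasDerivWithinAt) hg.integrableOn_Icc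
    fun u hu => (h u (Ioo_subset_Icc_self hu)).2

end BergAux

open BergAux

theorem berg_metric (_hJ : IsCx J) : IsMetric (berg J) := by
  refine ⟨smooth J, fun x _ u v => ?_, fun x hx v hv => ?_⟩
  · rw [gm_berg, gm_berg, real_inner_comm u v]
    ring
  · exact lt_of_lt_of_le (by have := norm_pos_iff.2 hv; positivity) (le_gm J hx v)

theorem berg_zero (J : E →L[ℝ] E) : berg J 0 = ContinuousLinearMap.id ℝ E := by
  ext v
  simp [berg]

theorem norm_le_berg (J : E →L[ℝ] E) {p : E × E} (hp : p ∈ UU E) : ‖p.2‖ ≤ nm (berg J) p := by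
  exact Real.le_sqrt_of_sq_le ((le_add_of_nonneg_right (sq_nonneg _)).trans
    (le_gm J (mem_UU.1 hp) p.2))

theorem berg_J (hJ : IsCx J) (z u v : E) :
    gm (berg J) z (J u) (J v) = gm (berg J) z u v := by
  have h : ∀ w, ⟪z, J w⟫ = -⟪J z, w⟫ := fun w => by rw [hJ.skew, neg_neg]
  rw [gm_berg, gm_berg, hJ.2, hJ.2, hJ.2, h, h]
  ring

theorem det_berg [Nontrivial E] (hJ : IsCx J) {z : E} (hz : z ∈ ball (0 : E) 1) :
    (berg J z).det = (1 - ‖z‖ ^ 2)⁻¹ ^ (Module.finrank ℝ E + 2) := by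
  have hd : ∀ w : E, (ContinuousLinearMap.id ℝ E +
      (1 - ‖z‖ ^ 2)⁻¹ • (innerSL ℝ w).smulRight w).det = 1 + (1 - ‖z‖ ^ 2)⁻¹ * ‖w‖ ^ 2 := by
    intro w
    have := LinearMap.transvection.det ((1 - ‖z‖ ^ 2)⁻¹ • (innerSL ℝ w : E →ₗ[ℝ] ℝ)) w
    rw [ContinuousLinearMap.det]
    convert this using 2
    · ext v
      simp [LinearMap.transvection.apply, mul_smul]
    · simp
  have e : berg J z = (1 - ‖z‖ ^ 2)⁻¹ • ((ContinuousLinearMap.id ℝ E +
      (1 - ‖z‖ ^ 2)⁻¹ • (innerSL ℝ z).smulRight z) ∘L (ContinuousLinearMap.id ℝ E +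
      (1 - ‖z‖ ^ 2)⁻¹ • (innerSL ℝ (J z)).smulRight (J z))) := by
    have h0 : ⟪z, J z⟫ = 0 := by rw [real_inner_comm, hJ.inner_self]
    ext v
    simp only [berg]
    generalize (1 - ‖z‖ ^ 2)⁻¹ = c
    simp [h0]
    module
  have h1 : 1 + (1 - ‖z‖ ^ 2)⁻¹ * ‖z‖ ^ 2 = (1 - ‖z‖ ^ 2)⁻¹ := by
    have := (sq_lt hz).ne'
    field_simp
    ring
  rw [e, ContinuousLinearMap.det, ContinuousLinearMap.toLinearMap_smul, LinearMap.det_smul]
  rw [← ContinuousLinearMap.det, det_comp, hd, hd, hJ.norm_eq, h1]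
  ring

theorem fderiv_berg (J : E →L[ℝ] E) {z : E} (hz : z ∈ ball (0 : E) 1) (h u v : E) :
    ⟪fderiv ℝ (berg J) z h u, v⟫ =
      2 * (1 - ‖z‖ ^ 2)⁻¹ ^ 2 * ⟪z, h⟫ * ⟪u, v⟫ +
      4 * (1 - ‖z‖ ^ 2)⁻¹ ^ 3 * ⟪z, h⟫ * (⟪z, u⟫ * ⟪z, v⟫ + ⟪J z, u⟫ * ⟪J z, v⟫) +
      (1 - ‖z‖ ^ 2)⁻¹ ^ 2 * (⟪h, u⟫ * ⟪z, v⟫ + ⟪z, u⟫ * ⟪h, v⟫ + ⟪J h, u⟫ * ⟪J z, v⟫ +
        ⟪J z, u⟫ * ⟪J h, v⟫) := by
  have hd := ((smooth J).contDiffAt (isOpen_ball.mem_nhds hz)).differentiableAt (by simp)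
  have h1 := (hd.hasFDerivAt.clm_apply (hasFDerivAt_const u z)).inner ℝ (hasFDerivAt_const v z)
  have i1 : ∀ w : E, HasFDerivAt (fun y : E => ⟪y, w⟫) (innerSL ℝ w) z := fun w =>
    (innerSL ℝ w).hasFDerivAt.congr_of_eventuallyEq (.of_forall fun y => real_inner_comm _ _)
  have i2 : ∀ w : E, HasFDerivAt (fun y : E => ⟪J y, w⟫) (innerSL ℝ w ∘L J) z := fun w =>
    (innerSL ℝ w ∘L J).hasFDerivAt.congr_of_eventuallyEq (.of_forall fun y => real_inner_comm _ _)
  have h2 := ((hasFDerivAt_a hz).mul_const ⟪u, v⟫).add (((hasFDerivAt_a hz).pow 2).mul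
    (((i1 u).mul (i1 v)).add ((i2 u).mul (i2 v))))
  have h3 := h1.unique (h2.congr_of_eventuallyEq (.of_forall fun y => gm_berg J y u v))
  have h4 := congrArg (fun A => A h) h3
  generalize (1 - ‖z‖ ^ 2)⁻¹ = c at h4 ⊢
  simp at h4
  rw [h4, real_inner_comm h u, real_inner_comm h v, real_inner_comm (J h) u,
    real_inner_comm (J h) v]
  ring

/-- the Kaehler form of the Bergman metric is exact on the ball -/
theorem berg_exact (hJ : IsCx J) : ∃ θ : E → E →L[ℝ] ℝ, ContDiffOn ℝ ∞ θ (ball 0 1) ∧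
    ∀ x ∈ ball (0 : E) 1, ∀ u v,
      gm (berg J) x (J u) v = fderiv ℝ θ x u v - fderiv ℝ θ x v u := by
  let L : E →L[ℝ] E →L[ℝ] ℝ := innerSL ℝ ∘L J
  refine ⟨fun z => (1 - ‖z‖ ^ 2)⁻¹ • ((1 / 2 : ℝ) • L z),
    smooth_a.smul (L.contDiff.const_smul _).contDiffOn, fun x hx u v => ?_⟩
  have h1 := ((hasFDerivAt_a hx).smul (L.hasFDerivAt.const_smul (1 / 2 : ℝ))).fderiv
  have h2 : ⟪x, J u⟫ = -⟪J x, u⟫ := by rw [hJ.skew, neg_neg]
  have h3 : ⟪J v, u⟫ = -⟪J u, v⟫ := by rw [hJ.skew, real_inner_comm]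
  erw [h1]
  rw [gm_berg, hJ.2, h2]
  have hL : ∀ a b, L a b = ⟪J a, b⟫ := fun _ _ => rfl
  generalize (1 - ‖x‖ ^ 2)⁻¹ = c
  simp [hL, h3]
  ring

theorem pot_nonneg {z : E} (hz : z ∈ ball (0 : E) 1) : 0 ≤ pot z := by
  have := Real.log_nonpos (sq_lt hz).le (by nlinarith [sq_nonneg ‖z‖])
  simp only [pot]
  linarith

theorem pot_zero : pot (0 : E) = 0 := by
  simp [pot]

theorem exp_pot {z : E} (hz : z ∈ ball (0 : E) 1) :
    Real.exp (-2 * pot z) = 1 - ‖z‖ ^ 2 := by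
  rw [pot, ← Real.exp_log (sq_lt hz), Real.log_exp]
  congr 1
  ring

theorem hasFDerivAt_pot {z : E} (hz : z ∈ ball (0 : E) 1) :
    HasFDerivAt pot ((1 - ‖z‖ ^ 2)⁻¹ • innerSL ℝ z) z := by
  have h1 := ((hasStrictFDerivAt_norm_sq z).hasFDerivAt.const_sub 1).log (sq_lt hz).ne'
  refine (h1.const_mul (-(1 / 2))).congr_fderiv ?_
  ext v
  simp
  ring

theorem pot_le_imp (k : ℝ) : ∃ r < 1, ∀ z ∈ ball (0 : E) 1, pot z ≤ k → z ∈ closedBall (0 : E) r := by
  have h0 := Real.exp_pos (-2 * k)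
  refine ⟨√(1 - Real.exp (-2 * k)), Real.sqrt_lt' one_pos |>.2 (by linarith), fun z hz hk => ?_⟩
  have h1 := exp_pot hz
  have h2 : Real.exp (-2 * k) ≤ Real.exp (-2 * pot z) := Real.exp_le_exp.2 (by linarith)
  exact mem_closedBall_zero_iff.2 (Real.le_sqrt_of_sq_le (by linarith))

theorem pot_bdd {r : ℝ} (hr : r < 1) : ∃ D, ∀ z ∈ closedBall (0 : E) r, pot z ≤ D := by
  obtain ⟨D, hD⟩ := (isCompact_closedBall (0 : E) r).bddAbove_image (f := pot) fun z hz =>
    (hasFDerivAt_pot (closedBall_subset_ball hr hz)).continuousAt.continuousWithinAt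
  exact ⟨D, fun z hz => hD ⟨z, hz, rfl⟩⟩

/-- the potential and the identity are 1-Lipschitz for the Bergman metric -/
theorem berg_curve (J : E →L[ℝ] E) {β β' : ℝ → E} {g : ℝ → ℝ} {s t : ℝ} (hst : s ≤ t)
    (hg : ContinuousOn g (Icc s t)) (h : ∀ u ∈ Icc s t, β u ∈ ball (0 : E) 1 ∧
      HasDerivAt β (β' u) u ∧ nm (berg J) (β u, β' u) ≤ g u) :
    |pot (β t) - pot (β s)| ≤ ∫ u in s..t, g u ∧ ‖β t - β s‖ ≤ ∫ u in s..t, g u := by
  have hp : ∀ u ∈ Icc s t, HasDerivAt (fun u => pot (β u))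
      ((1 - ‖β u‖ ^ 2)⁻¹ * ⟪β u, β' u⟫) u ∧ |(1 - ‖β u‖ ^ 2)⁻¹ * ⟪β u, β' u⟫| ≤ g u := by
    intro u hu
    obtain ⟨h1, h2, h3⟩ := h u hu
    refine ⟨((hasFDerivAt_pot h1).comp_hasDerivAt u h2).congr_deriv (by simp), le_trans ?_ h3⟩
    exact Real.abs_le_sqrt ((le_add_of_nonneg_left (sq_nonneg _)).trans (le_gm J h1 _))
  refine ⟨abs_le.2 ⟨?_, incr hst hg fun u hu => ⟨(hp u hu).1, (abs_le.1 (hp u hu).2).2⟩⟩, ?_⟩
  · have := incr hst hg (f := fun u => -pot (β u)) fun u hu =>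
      ⟨(hp u hu).1.neg, (neg_le_abs _).trans (hp u hu).2⟩
    linarith
  · obtain ⟨f, hf, hfx⟩ := exists_dual_vector'' ℝ (β t - β s)
    have := incr hst hg (f := fun u => f (β u)) fun u hu =>
      ⟨f.hasFDerivAt.comp_hasDerivAt u (h u hu).2.1, (le_abs_self _).trans
        ((f.le_of_opNorm_le hf _).trans ((one_mul _).trans_le
          ((norm_le_berg J (p := (β u, β' u)) (mem_UU.2 (h u hu).1)).trans (h u hu).2.2)))⟩
    rwa [← map_sub, hfx] at this

theorem met_berg (hJ : IsCx J) : Met J (berg J) :=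
  ⟨hJ, berg_metric hJ, 1, one_pos, fun _ _ => (one_mul _).ge⟩

end Pool.Agent.Lib.MP_235f17_gt.K
end

-- part Pool.Agent.Lib.MP_235f17_gt.K.Geo
section

/-! The geodesic flow: existence, energy, scaling, equivariance. -/

set_option autoImplicit false
set_option linter.unusedSectionVars false

open MeasureTheory Set Filter Topology Metric
open scoped ContDiff ENNReal RealInnerProductSpace

namespace Pool.Agent.Lib.MP_235f17_gt.K

variable {E : Type} [NormedAddCommGroup E] [InnerProductSpace ℝ E] [FiniteDimensional ℝ E]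
  {J : E →L[ℝ] E} {G G' : E → E →L[ℝ] E} {Ψ : ℝ → E × E → E × E}

theorem hd_fst {V W : Type} [NormedAddCommGroup V] [NormedSpace ℝ V] [NormedAddCommGroup W]
    [NormedSpace ℝ W] {f : ℝ → V × W} {f' : V × W} {t : ℝ} (h : HasDerivAt f f' t) :
    HasDerivAt (fun s => (f s).1) f'.1 t := h.fst

theorem hd_snd {V W : Type} [NormedAddCommGroup V] [NormedSpace ℝ V] [NormedAddCommGroup W]
    [NormedSpace ℝ W] {f : ℝ → V × W} {f' : V × W} {t : ℝ} (h : HasDerivAt f f' t) :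
    HasDerivAt (fun s => (f s).2) f'.2 t := h.snd

theorem geo_exists (hM : Met J G) : ∃ Ψ, IsGeo G Ψ := by
  obtain ⟨L, hL, hc⟩ := hM.cmp
  refine flow_exists isOpen_UU (fld_smooth hM.met) fun p hp T => ?_
  obtain ⟨r, hr, hk⟩ := pot_le_imp (E := E) (pot p.1 + L * nm G p * T)
  refine ⟨closedBall 0 r ×ˢ closedBall 0 (L * nm G p),
    (isCompact_closedBall _ _).prod (isCompact_closedBall _ _),
    fun q hq => mem_UU.2 (closedBall_subset_ball hr hq.1), fun f t ht h0 hf => ?_⟩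
  have hM0 : 0 ≤ L * nm G p := mul_nonneg hL.le (nm_nonneg p)
  have he : ∀ s ∈ uIcc 0 t, nm G (f s) = nm G p := fun s hs => by
    have := intervalIntegral.integral_eq_sub_of_hasDerivAt (a := 0) (b := s) (f' := fun _ => 0)
      (fun u hu => hasDerivAt_en hM.met (hf u (uIcc_subset_uIcc_left hs hu)).1
        (hf u (uIcc_subset_uIcc_left hs hu)).2) intervalIntegrable_const
    simp only [intervalIntegral.integral_zero, h0] at this
    simp only [nm, sub_eq_zero.1 this.symm]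
  have hb : ∀ s ∈ uIcc 0 t, (f s).1 ∈ ball (0 : E) 1 ∧ HasDerivAt (fun s => (f s).1) (f s).2 s ∧
      nm (berg J) ((f s).1, (f s).2) ≤ L * nm G p := fun s hs =>
    ⟨mem_UU.1 (hf s hs).1, (hf s hs).2.fst, he s hs ▸ hc _ (hf s hs).1⟩
  have hr' := hf t right_mem_uIcc
  refine ⟨hk _ (mem_UU.1 hr'.1) ?_, mem_closedBall_zero_iff.2
    ((norm_le_berg J hr'.1).trans (hb t right_mem_uIcc).2.2)⟩
  have h1 := mul_le_mul_of_nonneg_left ht hM0
  rcases le_total 0 t with h | h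
  · have := (berg_curve J h continuousOn_const fun u hu => hb u (uIcc_of_le h ▸ hu)).1
    rw [abs_of_nonneg h] at h1
    simp only [intervalIntegral.integral_const, h0, smul_eq_mul] at this
    linarith [(abs_le.1 this).2]
  · have := (berg_curve J h continuousOn_const fun u hu => hb u (uIcc_of_ge h ▸ hu)).1
    rw [abs_of_nonpos h] at h1
    simp only [intervalIntegral.integral_const, h0, smul_eq_mul] at this
    linarith [(abs_le.1 this).1]

theorem IsGeo.en (h : IsGeo G Ψ) (hG : IsMetric G) (p : E × E) (t : ℝ) :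
    gm G (Ψ t p).1 (Ψ t p).2 (Ψ t p).2 = gm G p.1 p.2 p.2 := by
  by_cases hp : p ∈ UU E
  · have hd := fun s => hasDerivAt_en hG (f := fun s => Ψ s p) (h.mem p hp s) (h.ode p hp s)
    simpa [h.zero] using is_const_of_deriv_eq_zero (fun s => (hd s).differentiableAt)
      (fun s => (hd s).deriv) t 0
  · rw [h.out p hp]

theorem IsGeo.nm_eq (h : IsGeo G Ψ) (hG : IsMetric G) (p : E × E) (t : ℝ) :
    nm G (Ψ t p) = nm G p := by
  simp only [nm, h.en hG]

theorem IsGeo.mem_SB (h : IsGeo G Ψ) (hG : IsMetric G) {p : E × E} (hp : p ∈ SB G) (t : ℝ) :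
    Ψ t p ∈ SB G := ⟨h.base (SB_sub hp) t, (h.en hG p t).trans hp.2⟩

theorem IsGeo.scale (h : IsGeo G Ψ) (hG : IsMetric G) {x : E} (hx : x ∈ ball (0 : E) 1) (v : E)
    (c t : ℝ) : Ψ t (x, c • v) = ((Ψ (c * t) (x, v)).1, c • (Ψ (c * t) (x, v)).2) := by
  obtain ⟨C, hC⟩ := exists_chr hG
  have hp : (x, v) ∈ UU E := mem_UU.2 hx
  have := h.unique isOpen_UU (fld_smooth hG)
    (f := fun s => ((Ψ (c * s) (x, v)).1, c • (Ψ (c * s) (x, v)).2)) (fun s => by
      have h1 := (h.ode _ hp (c * s)).scomp s ((hasDerivAt_id s).const_mul c)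
      refine ⟨mem_UU.2 (h.base hp _), ((hd_fst h1).prodMk ((hd_snd h1).const_smul c)).congr_deriv ?_⟩
      simp [fld, hC.eq _ (h.base hp (c * s))]) t
  simpa [h.zero] using this

theorem IsGeo.zero_vec (h : IsGeo G Ψ) (hG : IsMetric G) (x : E) (t : ℝ) :
    Ψ t (x, 0) = (x, 0) := by
  by_cases hx : x ∈ ball (0 : E) 1
  · simpa [h.zero] using h.scale hG hx 0 0 t
  · exact h.out _ (fun hp => hx (mem_UU.1 hp)) t

theorem IsGeo.equiv (h : IsGeo G Ψ) (hG : IsMetric G) {φ : E → E} (hφ : Iso G φ) {p : E × E}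
    (hp : p ∈ UU E) (t : ℝ) : Ψ t (tg φ p) = tg φ (Ψ t p) := by
  have := h.unique isOpen_UU (fld_smooth hG) (f := fun s => tg φ (Ψ s p))
    (fun s => ⟨hφ.tg_mem (h.mem p hp s), hφ.tg_ode hG (f := fun s => Ψ s p) (h.mem p hp s)
      (h.ode p hp s)⟩) t
  simpa [h.zero] using this

theorem IsGeo.equiv_tb (h : IsGeo G Ψ) {Γ : Type} [Group Γ] {a : Γ → E → E} (H : Inv J a G)
    (γ : Γ) (p : E × E) (t : ℝ) : Ψ t (tb a γ p) = tb a γ (Ψ t p) := by
  by_cases hp : p ∈ UU E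
  · rw [tb_of_mem a γ (mem_UU.1 hp), tb_of_mem a γ (h.base hp t), h.equiv H.met (H.iso γ) hp]
  · rw [h.out p hp, tb_of_not a γ fun h => hp (mem_UU.2 h), h.out p hp]

/-- the flow of the statement is the restriction of the flow on the tangent bundle -/
theorem IsGeo.eq_of_geodFlow (h : IsGeo G Ψ) (hG : IsMetric G) {Φ : ℝ → SB G → SB G}
    (hΦ : IsGeodFlow G Φ) (t : ℝ) (p : SB G) : (Φ t p).1 = Ψ t p.1 := by
  have := h.unique isOpen_UU (fld_smooth hG) (f := fun s => (Φ s p).1)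
    (fun s => ⟨SB_sub (Φ s p).2, (hΦ p).2 s⟩) t
  simpa [(hΦ p).1] using this.symm

end Pool.Agent.Lib.MP_235f17_gt.K
end
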