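import Pool.Agent.Lib.MP_235f17_gt.K.Geo

-- part Pool.Agent.Lib.MP_235f17_gt.K.Cone
section

/-! Bergman volume of truncated cones. -/

set_option autoImplicit false
set_option linter.unusedSectionVars false

open MeasureTheory Set Filter Topology Metric
open scoped ContDiff ENNReal RealInnerProductSpace

namespace Pool.Agent.Lib.MP_235f17_gt.K

variable {E : Type} [NormedAddCommGroup E] [InnerProductSpace ℝ E] [FiniteDimensional ℝ E]
  [MeasurableSpace E] [BorelSpace E] {J : E →L[ℝ] E} {G G' : E → E →L[ℝ] E}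
  {Ψ : ℝ → E × E → E × E} {Γ : Type} [Group Γ] {a : Γ → E → E} {F F' : Set E} {r : ℝ}
  {d : E → E → ℝ}

namespace ConeAux

open scoped Pointwise

theorem tanh_le {x y : ℝ} (h : x ≤ y) : Real.tanh x ≤ Real.tanh y := by
  by_contra hc
  push Not at hc
  have := Real.artanh_lt_artanh (Real.neg_one_lt_tanh y) (Real.tanh_lt_one x) hc
  rw [Real.artanh_tanh, Real.artanh_tanh] at this
  linarith

theorem tanh_pos {x : ℝ} (h : 0 < x) : 0 < Real.tanh x := by
  rw [Real.tanh_eq_sinh_div_cosh]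
  exact div_pos (Real.sinh_pos_iff.2 h) (Real.cosh_pos x)

theorem tanh_sub (x y : ℝ) :
    Real.tanh x - Real.tanh y = Real.sinh (x - y) / (Real.cosh x * Real.cosh y) := by
  rw [Real.tanh_eq_sinh_div_cosh, Real.tanh_eq_sinh_div_cosh, Real.sinh_sub]
  have := (Real.cosh_pos x).ne'
  have := (Real.cosh_pos y).ne'
  field_simp

theorem one_sub_tanh (x : ℝ) : 1 - Real.tanh x ^ 2 = (Real.cosh x ^ 2)⁻¹ := by
  rw [Real.tanh_eq_sinh_div_cosh]
  have := (Real.cosh_pos x).ne'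
  have h := Real.cosh_sq x
  field_simp
  linarith

theorem pow_sub_ge {a b : ℝ} (ha : 0 ≤ a) (hab : a ≤ b) (m : ℕ) :
    (b - a) * b ^ m ≤ b ^ (m + 1) - a ^ (m + 1) := by
  have h1 : a ^ m ≤ b ^ m := pow_le_pow_left₀ ha hab m
  have h2 : a * a ^ m ≤ a * b ^ m := mul_le_mul_of_nonneg_left h1 ha
  rw [pow_succ, pow_succ]
  linarith

theorem numeric (m : ℕ) {T : ℝ} (hT : 1 ≤ T) :
    (Real.exp (-(1 / 2)) / 2) ^ (m + 2) * Real.sinh (1 / 2) * Real.tanh 1 ^ m *
        Real.exp (((m + 1 : ℕ) : ℝ) * T) ≤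
      Real.cosh (T - 1 / 2) ^ (m + 1 + 2) *
        (Real.tanh T ^ (m + 1) - Real.tanh (T - 1 / 2) ^ (m + 1)) := by
  have ha : 0 < Real.tanh (T - 1 / 2) := tanh_pos (by linarith)
  have hab : Real.tanh (T - 1 / 2) ≤ Real.tanh T := tanh_le (by linarith)
  have h1 := pow_sub_ge ha.le hab m
  have h2 : Real.tanh 1 ^ m ≤ Real.tanh T ^ m :=
    pow_le_pow_left₀ (tanh_pos one_pos).le (tanh_le hT) m
  have h3 := tanh_sub T (T - 1 / 2)
  rw [show T - (T - 1 / 2) = 1 / 2 by ring] at h3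
  have hs : 0 < Real.sinh (1 / 2) := Real.sinh_pos_iff.2 (by norm_num)
  have c1 := Real.cosh_pos T
  have c2 := Real.cosh_pos (T - 1 / 2)
  have t1 : 0 < Real.tanh 1 ^ m := pow_pos (tanh_pos one_pos) m
  have h4 : Real.cosh T ≤ Real.exp T := by
    rw [Real.cosh_eq]
    have : Real.exp (-T) ≤ Real.exp T := Real.exp_le_exp.2 (by linarith)
    linarith
  have h5 : Real.exp (-(1 / 2)) / 2 * Real.exp T ≤ Real.cosh (T - 1 / 2) := by
    rw [Real.cosh_eq, div_mul_eq_mul_div, ← Real.exp_add,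
      show -(1 / 2) + T = T - 1 / 2 by ring]
    have := Real.exp_pos (-(T - 1 / 2))
    linarith
  have h6 := pow_le_pow_left₀ (by positivity) h5 (m + 2)
  have h7 : Real.exp (((m + 1 : ℕ) : ℝ) * T) = Real.exp T ^ (m + 1) := Real.exp_nat_mul T (m + 1)
  rw [h7]
  have h8 : (Real.exp (-(1 / 2)) / 2) ^ (m + 2) * Real.exp T ^ (m + 1) * Real.cosh T ≤
      Real.cosh (T - 1 / 2) ^ (m + 2) := by
    refine le_trans ?_ h6
    rw [mul_pow, pow_succ (Real.exp T) (m + 1), ← mul_assoc]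
    exact mul_le_mul_of_nonneg_left h4 (by positivity)
  calc _ = ((Real.exp (-(1 / 2)) / 2) ^ (m + 2) * Real.exp T ^ (m + 1) * Real.cosh T) *
        (Real.sinh (1 / 2) / Real.cosh T * Real.tanh 1 ^ m) := by field_simp
    _ ≤ Real.cosh (T - 1 / 2) ^ (m + 2) *
        (Real.sinh (1 / 2) / Real.cosh T * Real.tanh T ^ m) :=
        mul_le_mul h8 (mul_le_mul_of_nonneg_left h2 (by positivity)) (by positivity)
          (by positivity)
    _ = Real.cosh (T - 1 / 2) ^ (m + 1 + 2) *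
        ((Real.tanh T - Real.tanh (T - 1 / 2)) * Real.tanh T ^ m) := by
        rw [h3]; field_simp; ring
    _ ≤ _ := mul_le_mul_of_nonneg_left h1 (by positivity)

theorem mem_smul_cone {S : Set E} {c : ℝ} (hc : 0 < c) (z : E) :
    z ∈ c • {v : E | v ∈ ball (0 : E) 1 ∧ ‖v‖⁻¹ • v ∈ S} ↔ ‖z‖ < c ∧ ‖z‖⁻¹ • z ∈ S := by
  rw [Set.mem_smul_set_iff_inv_smul_mem₀ hc.ne', mem_ofPred_eq, mem_ball_zero_iff, norm_smul,
    Real.norm_eq_abs, abs_of_pos (inv_pos.2 hc), smul_smul, inv_mul_lt_iff₀ hc, mul_one,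
    mul_inv, inv_inv, mul_right_comm, mul_inv_cancel₀ hc.ne', one_mul]

end ConeAux

theorem cone_vol [Nontrivial E] (hJ : IsCx J) : ∃ c > (0 : ℝ), ∀ T ≥ (1 : ℝ), ∀ S : Set E,
    MeasurableSet S → ∃ Z : Set E, MeasurableSet Z ∧
      (∀ z ∈ Z, ∃ t ∈ Icc 0 T, ∃ u ∈ S, ‖u‖ = 1 ∧ z = Real.tanh t • u) ∧
      ENNReal.ofReal (c * Real.exp (Module.finrank ℝ E * T)) *
        volume {v : E | v ∈ ball (0 : E) 1 ∧ ‖v‖⁻¹ • v ∈ S} ≤ vol (berg J) Z := by
  obtain ⟨m, hm⟩ : ∃ m, Module.finrank ℝ E = m + 1 :=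
    ⟨Module.finrank ℝ E - 1, by have := Module.finrank_pos (R := ℝ) (M := E); omega⟩
  have hs : 0 < Real.sinh (1 / 2) := Real.sinh_pos_iff.2 (by norm_num)
  have t1 : 0 < Real.tanh 1 := ConeAux.tanh_pos one_pos
  refine ⟨(Real.exp (-(1 / 2)) / 2) ^ (m + 2) * Real.sinh (1 / 2) * Real.tanh 1 ^ m,
    by positivity, fun T hT S hS => ?_⟩
  have ha : 0 < Real.tanh (T - 1 / 2) := ConeAux.tanh_pos (by linarith)
  have hb : 0 < Real.tanh T := ConeAux.tanh_pos (by linarith)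
  have hab : Real.tanh (T - 1 / 2) ≤ Real.tanh T := ConeAux.tanh_le (by linarith)
  have hb1 := Real.tanh_lt_one T
  have hdir : Measurable fun v : E => ‖v‖⁻¹ • v := measurable_norm.inv.smul measurable_id
  set Z : Set E := {z | Real.tanh (T - 1 / 2) ≤ ‖z‖ ∧ ‖z‖ < Real.tanh T ∧ ‖z‖⁻¹ • z ∈ S} with hZ
  have hZm : MeasurableSet Z :=
    (measurableSet_le measurable_const measurable_norm).inter
      ((measurableSet_lt measurable_norm measurable_const).inter (hdir hS))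
  refine ⟨Z, hZm, fun z hz => ?_, ?_⟩
  · obtain ⟨h1, h2, h3⟩ := hz
    have h0 : 0 < ‖z‖ := lt_of_lt_of_le ha h1
    refine ⟨Real.artanh ‖z‖, ⟨Real.artanh_nonneg h0.le, ?_⟩, _, h3, ?_, ?_⟩
    · have := Real.artanh_le_artanh (show -1 < ‖z‖ by linarith) hb1 h2.le
      rwa [Real.artanh_tanh] at this
    · rw [norm_smul, norm_inv, norm_norm, inv_mul_cancel₀ h0.ne']
    · rw [Real.tanh_artanh ⟨by linarith, by linarith⟩, smul_smul, mul_inv_cancel₀ h0.ne', one_smul]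
  · set C : Set E := {v : E | v ∈ ball (0 : E) 1 ∧ ‖v‖⁻¹ • v ∈ S} with hC
    have hCfin : volume C ≠ ⊤ :=
      ((measure_mono (fun v hv => hv.1 : C ⊆ ball 0 1)).trans_lt measure_ball_lt_top).ne
    have hsub : Z ⊆ ball (0 : E) 1 := fun z hz => mem_ball_zero_iff.2 (hz.2.1.trans hb1)
    have v1 : ENNReal.ofReal (Real.tanh T ^ (m + 1) - Real.tanh (T - 1 / 2) ^ (m + 1)) * volume C
        ≤ volume Z := by
      have e1 := Measure.addHaar_smul_of_nonneg (volume : Measure E) hb.le C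
      have e2 := Measure.addHaar_smul_of_nonneg (volume : Measure E) ha.le C
      rw [hm] at e1 e2
      rw [ENNReal.ofReal_sub _ (by positivity), ENNReal.sub_mul (fun _ _ => hCfin), ← e1, ← e2]
      refine le_measure_sdiff.trans (measure_mono fun z hz => ?_)
      obtain ⟨g1, g2⟩ := hz
      rw [hC, ConeAux.mem_smul_cone hb] at g1
      rw [hC, ConeAux.mem_smul_cone ha] at g2
      exact ⟨not_lt.1 fun h => g2 ⟨h, g1.2⟩, g1.1, g1.2⟩
    have v2 : ENNReal.ofReal (Real.cosh (T - 1 / 2) ^ (m + 1 + 2)) * volume Z ≤ vol (berg J) Z := by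
      unfold vol
      rw [withDensity_apply _ hZm, Measure.restrict_restrict hZm, inter_eq_left.2 hsub,
        ← setLIntegral_const]
      refine setLIntegral_mono' hZm fun z hz => ENNReal.ofReal_le_ofReal ?_
      unfold rho
      rw [det_berg hJ (hsub hz), hm]
      refine Real.le_sqrt_of_sq_le ?_
      rw [← pow_mul, mul_comm, pow_mul]
      refine pow_le_pow_left₀ (by positivity) ?_ _
      have c2 := Real.cosh_pos (T - 1 / 2)
      rw [le_inv_comm₀ (by positivity) (sq_lt (hsub hz)), ← ConeAux.one_sub_tanh]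
      have := pow_le_pow_left₀ ha.le hz.1 2
      linarith
    refine le_trans ?_ v2
    refine le_trans ?_ (mul_le_mul_right v1 _)
    rw [← mul_assoc, ← ENNReal.ofReal_mul (by have := Real.cosh_pos (T - 1 / 2); positivity), hm]
    exact mul_le_mul_left (ENNReal.ofReal_le_ofReal (ConeAux.numeric m hT)) _

end Pool.Agent.Lib.MP_235f17_gt.K
end

-- part Pool.Agent.Lib.MP_235f17_gt.K.Glob
section

/-! A global inverse function theorem. -/

set_option autoImplicit false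
set_option linter.unusedSectionVars false

open MeasureTheory Set Filter Topology Metric
open scoped ContDiff ENNReal RealInnerProductSpace

namespace Pool.Agent.Lib.MP_235f17_gt.K

variable {W : Type} [NormedAddCommGroup W] [NormedSpace ℝ W] [FiniteDimensional ℝ W]
  {U : Set W} {Y : W → W} {Ψ : ℝ → W → W}

namespace GlobAux

variable {e : W → W}

/-- local inverses -/
theorem loc (hU : IsOpen U) (he : ContDiffOn ℝ ∞ e U)
    (hinj : ∀ p ∈ U, Function.Injective (fderiv ℝ e p)) {p : W} (hp : p ∈ U) :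
    ∃ h : OpenPartialHomeomorph W W, p ∈ h.source ∧ h.source ⊆ U ∧ (h : W → W) = e ∧
      ∀ y ∈ h.target, ContDiffAt ℝ ∞ h.symm y := by
  have key : ∀ x ∈ U, ∃ A : W ≃L[ℝ] W, HasFDerivAt e (A : W →L[ℝ] W) x := fun x hx => by
    obtain ⟨A, hA⟩ := isInv_of_inj (hinj x hx)
    refine ⟨A, ?_⟩
    rw [hA]
    exact ((he.contDiffAt (hU.mem_nhds hx)).differentiableAt (by simp)).hasFDerivAt
  obtain ⟨A, hA⟩ := key p hp
  have h1 := he.contDiffAt (hU.mem_nhds hp)
  refine ⟨(h1.toOpenPartialHomeomorph e hA (by simp)).restrOpen U hU,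
    ⟨h1.mem_toOpenPartialHomeomorph_source hA (by simp), hp⟩, fun x hx => hx.2, rfl,
    fun y hy => ?_⟩
  set h := (h1.toOpenPartialHomeomorph e hA (by simp)).restrOpen U hU
  have h2 : h.symm y ∈ U := (h.map_target hy).2
  obtain ⟨A', hA'⟩ := key _ h2
  exact h.contDiffAt_symm hy hA' (he.contDiffAt (hU.mem_nhds h2))

/-- continuous lifts of the segment on `[0, t]` -/
def Lift (U : Set W) (e : W → W) (p v : W) (t : ℝ) (l : ℝ → W) : Prop :=
  ContinuousOn l (Icc 0 t) ∧ l 0 = p ∧ ∀ s ∈ Icc 0 t, l s ∈ U ∧ e (l s) = e p + s • v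

theorem Lift.deriv (hU : IsOpen U) (he : ContDiffOn ℝ ∞ e U)
    (hinj : ∀ p ∈ U, Function.Injective (fderiv ℝ e p)) {p v : W} {t : ℝ} {l : ℝ → W}
    (hl : Lift U e p v t l) {s : ℝ} (hs : s ∈ Icc 0 t) :
    ∃ w, HasDerivWithinAt l w (Icc 0 t) s ∧ fderiv ℝ e (l s) w = v := by
  obtain ⟨h, h1, h2, h3, h4⟩ := loc hU he hinj (hl.2.2 s hs).1
  have hy : e p + s • v ∈ h.target := by
    rw [← (hl.2.2 s hs).2, ← h3]
    exact h.map_source h1
  have hls : h.symm (e p + s • v) = l s := by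
    rw [← (hl.2.2 s hs).2, ← h3]
    exact h.left_inv h1
  have hγ : HasDerivAt (fun u : ℝ => e p + u • v) v s := by
    simpa using ((hasDerivAt_id s).smul_const v).const_add (e p)
  have hd := ((h4 _ hy).differentiableAt (by simp)).hasFDerivAt
  refine ⟨fderiv ℝ h.symm (e p + s • v) v, ?_, ?_⟩
  · refine (hd.comp_hasDerivAt s hγ).hasDerivWithinAt.congr_of_eventuallyEq ?_ hls.symm
    have h5 : ∀ᶠ u in 𝓝[Icc 0 t] s, l u ∈ h.source := hl.1 s hs (h.open_source.mem_nhds h1)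
    filter_upwards [h5, self_mem_nhdsWithin] with u hu hu'
    rw [Function.comp_apply, ← (hl.2.2 u hu').2, ← h3]
    exact (h.left_inv hu).symm
  · have hde : HasFDerivAt e (fderiv ℝ e (l s)) (h.symm (e p + s • v)) := by
      rw [hls]
      exact ((he.contDiffAt (hU.mem_nhds (hl.2.2 s hs).1)).differentiableAt (by simp)).hasFDerivAt
    have h6 : HasFDerivAt (e ∘ h.symm) (ContinuousLinearMap.id ℝ W) (e p + s • v) := by
      refine (hasFDerivAt_id _).congr_of_eventuallyEq ?_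
      filter_upwards [h.open_target.mem_nhds hy] with y hy'
      rw [Function.comp_apply, ← h3]
      exact h.right_inv hy'
    exact DFunLike.congr_fun ((hde.comp _ hd).unique h6) v

theorem exists_lift (hU : IsOpen U) (he : ContDiffOn ℝ ∞ e U)
    (hinj : ∀ p ∈ U, Function.Injective (fderiv ℝ e p)) {p v : W} (hp : p ∈ U) {K : Set W}
    (hK : IsCompact K) (hKU : K ⊆ U)
    (hb : ∀ (l : ℝ → W), ∀ t ∈ Icc (0 : ℝ) 1, Lift U e p v t l → l t ∈ K) :
    ∃ l, Lift U e p v 1 l := by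
  set S : Set (ℝ × W) := {x | x.1 ∈ Icc (0 : ℝ) 1 ∧ ∃ l, Lift U e p v x.1 l ∧ l x.1 = x.2} with hS
  set C : Set (ℝ × W) := (Icc (0 : ℝ) 1 ×ˢ K) ∩ (fun x => e x.2 - (e p + x.1 • v)) ⁻¹' {0}
    with hC
  have hc : IsCompact (Icc (0 : ℝ) 1 ×ˢ K) := isCompact_Icc.prod hK
  have hCc : IsClosed C := by
    refine ContinuousOn.preimage_isClosed_of_isClosed ?_ hc.isClosed isClosed_singleton
    refine ContinuousOn.sub ?_ (by fun_prop)
    exact he.continuousOn.comp continuousOn_snd fun x hx => hKU hx.2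
  have hSC : S ⊆ C := by
    rintro ⟨t, x⟩ ⟨ht, l, hl, hx⟩
    obtain rfl : l t = x := hx
    exact ⟨⟨ht, hb l t ht hl⟩, sub_eq_zero.2 (hl.2.2 t ⟨ht.1, le_rfl⟩).2⟩
  have hcl : closure S ⊆ C := hCc.closure_subset_iff.2 hSC
  have hcc : IsCompact (closure S) :=
    hc.of_isClosed_subset isClosed_closure (hcl.trans inter_subset_left)
  have h0 : ((0 : ℝ), p) ∈ S := by
    refine ⟨⟨le_rfl, zero_le_one⟩, fun _ => p, ⟨continuousOn_const, rfl, fun s hs => ⟨hp, ?_⟩⟩, rfl⟩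
    rw [le_antisymm hs.2 hs.1, zero_smul, add_zero]
  obtain ⟨⟨τ, x⟩, hx, hmax⟩ := hcc.exists_isMaxOn ⟨_, subset_closure h0⟩ continuousOn_fst
  obtain ⟨⟨hτ, hxK⟩, hex⟩ := hcl hx
  have hex' : e x = e p + τ • v := sub_eq_zero.1 hex
  obtain ⟨h, h1, h2, h3, -⟩ := loc hU he hinj (hKU hxK)
  have hy : e p + τ • v ∈ h.target := by
    rw [← hex', ← h3]
    exact h.map_source h1
  have hγ : Continuous fun u : ℝ => e p + u • v := by fun_prop
  obtain ⟨η, hη, hη'⟩ := Metric.mem_nhds_iff.1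
    (hγ.continuousAt.preimage_mem_nhds (h.open_target.mem_nhds hy))
  obtain ⟨⟨t, z⟩, ⟨hz1, hz2⟩, ht, l, hl, hlz⟩ := mem_closure_iff_nhds.1 hx _
    (prod_mem_nhds (ball_mem_nhds τ hη) (h.open_source.mem_nhds h1))
  dsimp only at hz1 hz2 ht hl hlz
  have htτ : t ≤ τ := hmax (subset_closure ⟨ht, l, hl, hlz⟩ : (t, z) ∈ closure S)
  have hin : ∀ u, t ≤ u → u ≤ τ + η / 2 → e p + u • v ∈ h.target := fun u hu1 hu2 => by
    apply hη'
    rw [mem_ball, Real.dist_eq, abs_lt] at hz1 ⊢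
    constructor <;> linarith [hz1.1]
  have hglue : h.symm (e p + t • v) = l t := by
    rw [← (hl.2.2 t ⟨ht.1, le_rfl⟩).2, ← h3]
    exact h.left_inv (hlz ▸ hz2)
  have hnew : ∀ T, t ≤ T → T ≤ τ + η / 2 →
      Lift U e p v T (fun u => if u ≤ t then l u else h.symm (e p + u • v)) := fun T hT1 hT2 => by
    refine ⟨?_, by simp only [if_pos ht.1, hl.2.1], fun s hs => ?_⟩
    · rw [← Icc_union_Icc_eq_Icc ht.1 hT1]
      refine ContinuousOn.union_of_isClosed ?_ ?_ isClosed_Icc isClosed_Icc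
      · exact hl.1.congr fun u hu => if_pos hu.2
      · refine (h.continuousOn_symm.comp hγ.continuousOn
          (fun u (hu : u ∈ Icc t T) => hin u hu.1 (hu.2.trans hT2))).congr fun u hu => ?_
        by_cases hut : u ≤ t
        · rw [if_pos hut, le_antisymm hut hu.1]
          exact hglue.symm
        · exact if_neg hut
    · by_cases hst : s ≤ t
      · simp only [if_pos hst]
        exact hl.2.2 s ⟨hs.1, hst⟩
      · simp only [if_neg hst]
        have h5 := hin s (not_le.1 hst).le (hs.2.trans hT2)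
        exact ⟨h2 (h.map_target h5), (congrFun h3 _).symm.trans (h.right_inv h5)⟩
  by_cases h1' : 1 ≤ τ + η / 2
  · exact ⟨_, hnew 1 ht.2 h1'⟩
  · obtain ⟨l', hl'⟩ : ∃ l', Lift U e p v (τ + η / 2) l' := ⟨_, hnew _ (by linarith) le_rfl⟩
    have h6 : (τ + η / 2, l' (τ + η / 2)) ∈ S :=
      ⟨⟨add_nonneg hτ.1 (by positivity), (not_le.1 h1').le⟩, l', hl', rfl⟩
    have h7 : τ + η / 2 ≤ τ := hmax (subset_closure h6)
    linarith

end GlobAux

theorem global_inverse {V : Set W} (hU : IsOpen U) (hUc : IsPreconnected U) (hne : U.Nonempty)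
    (hV : Convex ℝ V) {e : W → W} (he : ContDiffOn ℝ ∞ e U) (hm : MapsTo e U V)
    (hinj : ∀ p ∈ U, Function.Injective (fderiv ℝ e p))
    (hb : ∀ p ∈ U, ∀ q ∈ V, ∃ K, IsCompact K ∧ K ⊆ U ∧ ∀ (l l' : ℝ → W), ∀ t ∈ Icc (0 : ℝ) 1,
      l 0 = p → (∀ s ∈ Icc 0 t, l s ∈ U ∧ e (l s) = e p + s • (q - e p) ∧
        HasDerivWithinAt l (l' s) (Icc 0 t) s ∧ fderiv ℝ e (l s) (l' s) = q - e p) → l t ∈ K) :
    ∃ g : W → W, ContDiffOn ℝ ∞ g V ∧ MapsTo g V U ∧ (∀ q ∈ V, e (g q) = q) ∧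
      ∀ p ∈ U, g (e p) = p := by
  have hl : ∀ q ∈ V, ∀ p : U, ∃ l, GlobAux.Lift U e p (q - e p) 1 l := fun q hq p => by
    obtain ⟨K, hK, hKU, hK'⟩ := hb p p.2 q hq
    refine GlobAux.exists_lift hU he hinj p.2 hK hKU fun l t ht hl => ?_
    have h1 := fun s (hs : s ∈ Icc 0 t) => hl.deriv hU he hinj hs
    choose! l' h2 h3 using h1
    exact hK' l l' t ht hl.2.1 fun s hs => ⟨(hl.2.2 s hs).1, (hl.2.2 s hs).2, h2 s hs, h3 s hs⟩
  have hloc : IsLocalHomeomorph (e ∘ ((↑) : U → W)) := by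
    rw [isLocalHomeomorph_iff_isLocalHomeomorphOn_univ]
    refine IsLocalHomeomorphOn.comp (t := U) (fun x hx => ?_)
      hU.isOpenEmbedding_subtypeVal.isLocalHomeomorph.isLocalHomeomorphOn fun x _ => x.2
    obtain ⟨h, h1, -, h3, -⟩ := GlobAux.loc hU he hinj hx
    exact ⟨h, h1, h3.symm⟩
  have hsep : IsSeparatedMap (e ∘ ((↑) : U → W)) := T2Space.isSeparatedMap _
  have : PreconnectedSpace U := Subtype.preconnectedSpace hUc
  have hce : Continuous fun p : U => e p := hloc.continuous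
  have key : ∀ q ∈ V, ∃ x ∈ U, e x = q ∧ ∀ p ∈ U, e p = q → p = x := fun q hq => by
    choose l hl using hl q hq
    let g : unitInterval × U → U := fun x => ⟨l x.2 x.1, ((hl x.2).2.2 x.1 x.1.2).1⟩
    have g0 : ∀ a, g (0, a) = a := fun a => Subtype.ext (hl a).2.1
    have gA : ∀ a, Continuous fun t => g (t, a) := fun a =>
      ((hl a).1.comp_continuous continuous_subtype_val fun t => t.2).subtype_mk _
    have ge : ∀ x, e (g x) = e x.2 + (x.1 : ℝ) • (q - e x.2) := fun x =>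
      ((hl x.2).2.2 x.1 x.1.2).2
    have gc : Continuous g := hloc.continuous_lift hsep
      ⟨fun x : unitInterval × U => e x.2 + (x.1 : ℝ) • (q - e x.2),
        (hce.comp continuous_snd).add ((continuous_subtype_val.comp continuous_fst).smul
          (continuous_const.sub (hce.comp continuous_snd)))⟩ (funext ge)
      (by simpa only [g0] using continuous_id') gA
    have g1 : ∀ a, e (g (1, a)) = q := fun a => by simp [ge]
    have gconst := hsep.const_of_comp hloc.isLocallyInjective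
      (gc.comp (Continuous.prodMk_right (1 : unitInterval)))
      (fun a a' => (g1 a).trans (g1 a').symm)
    obtain ⟨p₀, hp₀⟩ := hne
    refine ⟨g (1, ⟨p₀, hp₀⟩), (g _).2, g1 _, fun p hp hpq => ?_⟩
    have h1 := hsep.const_of_comp hloc.isLocallyInjective (gA ⟨p, hp⟩)
      (fun s t => by simp [ge, hpq]) 0 1
    rw [g0] at h1
    exact congrArg Subtype.val (h1.trans (gconst _ _))
  choose! g g1 g2 g3 using key
  have hleft : ∀ p ∈ U, g (e p) = p := fun p hp => (g3 _ (hm hp) p hp rfl).symm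
  refine ⟨g, fun q hq => ?_, g1, g2, hleft⟩
  obtain ⟨h, h1, h2, h3, h4⟩ := GlobAux.loc hU he hinj (g1 q hq)
  have hy : q ∈ h.target := by
    rw [← g2 q hq, ← h3]
    exact h.map_source h1
  have h5 : ∀ y ∈ h.target, g y = h.symm y := fun y hy => by
    have := hleft _ (h2 (h.map_target hy))
    rwa [← h3, h.right_inv hy] at this
  exact ((h4 q hy).congr_of_eventuallyEq
    (eventually_of_mem (h.open_target.mem_nhds hy) h5)).contDiffWithinAt

end Pool.Agent.Lib.MP_235f17_gt.K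
end

-- part Pool.Agent.Lib.MP_235f17_gt.K.Kae
section

/-! The divergence identity of a symplectic form. -/

set_option autoImplicit false
set_option linter.unusedSectionVars false

open MeasureTheory Set Filter Topology Metric
open scoped ContDiff ENNReal RealInnerProductSpace

namespace Pool.Agent.Lib.MP_235f17_gt.K

variable {E : Type} [NormedAddCommGroup E] [InnerProductSpace ℝ E] [FiniteDimensional ℝ E]
  {J : E →L[ℝ] E} {G G' : E → E →L[ℝ] E} {Ψ : ℝ → E × E → E × E}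

namespace KaeAux

/-- trace against an antisymmetric operator -/
theorem tr_anti {P M N : E →L[ℝ] E} (hP : ∀ u v, ⟪P u, v⟫ = -⟪P v, u⟫)
    (h : ∀ u v, ⟪M u, v⟫ = ⟪N u, v⟫ - ⟪N v, u⟫) : tr (P ∘L M) = 2 * tr (P ∘L N) := by
  have e1 : M = N - ContinuousLinearMap.adjoint N := by
    refine ContinuousLinearMap.ext fun u => ext_inner_right ℝ fun v => ?_
    rw [h, _root_.sub_apply, inner_sub_left, ContinuousLinearMap.adjoint_inner_left,
      real_inner_comm (N v) u]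
  have e2 : ContinuousLinearMap.adjoint P = -P := by
    refine ContinuousLinearMap.ext fun u => ext_inner_right ℝ fun v => ?_
    rw [ContinuousLinearMap.adjoint_inner_left, _root_.neg_apply, inner_neg_left,
      real_inner_comm, hP]
  have e3 : tr (P ∘L ContinuousLinearMap.adjoint N) = -tr (P ∘L N) := by
    rw [← tr_adjoint, ContinuousLinearMap.adjoint_comp, ContinuousLinearMap.adjoint_adjoint, e2,
      ContinuousLinearMap.comp_neg, tr_neg, tr_comm]
  rw [e1, ContinuousLinearMap.comp_sub, tr_sub, e3]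
  ring

theorem fderiv_inner {Ω : E → E →L[ℝ] E} {x : E} (hΩ : DifferentiableAt ℝ Ω x) (v w : E) :
    HasFDerivAt (fun y => ⟪Ω y v, w⟫)
      (((innerSL ℝ w).comp (ContinuousLinearMap.apply ℝ E v)).comp (fderiv ℝ Ω x)) x := by
  have := ((innerSL ℝ w).comp (ContinuousLinearMap.apply ℝ E v)).hasFDerivAt.comp x hΩ.hasFDerivAt
  refine this.congr_of_eventuallyEq (.of_forall fun y => ?_)
  simp [real_inner_comm]

theorem fderiv_anti {Ω : E → E →L[ℝ] E} {x : E} (hΩ : DifferentiableAt ℝ Ω x)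
    (hs : ∀ᶠ y in 𝓝 x, ∀ u v, ⟪Ω y u, v⟫ = -⟪Ω y v, u⟫) (h u v : E) :
    ⟪fderiv ℝ Ω x h u, v⟫ = -⟪fderiv ℝ Ω x h v, u⟫ := by
  have h1 := fderiv_inner hΩ u v
  have h2 := ((fderiv_inner hΩ v u).neg).congr_of_eventuallyEq
    (f₁ := fun y => ⟪Ω y u, v⟫) (hs.mono fun y hy => hy u v)
  have := DFunLike.congr_fun (h1.unique h2) h
  simpa [real_inner_comm] using this

end KaeAux

open KaeAux

theorem div_symp {Ω : E → E →L[ℝ] E} {ρ : E → ℝ} {A : E → E} {x : E} {M : E →L[ℝ] E}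
    (hΩ : DifferentiableAt ℝ Ω x) (hρ : DifferentiableAt ℝ ρ x) (hA : DifferentiableAt ℝ A x)
    (hs : ∀ᶠ y in 𝓝 x, ∀ u v, ⟪Ω y u, v⟫ = -⟪Ω y v, u⟫)
    (hdet : ∀ᶠ y in 𝓝 x, (Ω y).det = ρ y ^ 2) (hpos : 0 < ρ x)
    (hc : ∀ u v w, ⟪fderiv ℝ Ω x u v, w⟫ + ⟪fderiv ℝ Ω x v w, u⟫ + ⟪fderiv ℝ Ω x w u, v⟫ = 0)
    (hM : ∀ u v, ⟪M u, v⟫ = ⟪fderiv ℝ A x u, v⟫ - ⟪fderiv ℝ A x v, u⟫) :
    tr (fderiv ℝ (fun y => ρ y • (Ω y).inverse (A y)) x) =
      ρ x / 2 * tr ((Ω x).inverse ∘L M) := by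
  have hne : ∀ᶠ y in 𝓝 x, (Ω y).det ≠ 0 := by
    filter_upwards [hdet, hρ.continuousAt.eventually (lt_mem_nhds hpos)] with y h1 h2
    rw [h1]
    exact pow_ne_zero 2 h2.ne'
  have hd0 : (Ω x).det ≠ 0 := hne.self_of_nhds
  have hI : (Ω x).IsInvertible := isInv_of_det hd0
  have hP : ∀ u v, ⟪(Ω x).inverse u, v⟫ = -⟪(Ω x).inverse v, u⟫ := fun u v => by
    have := hs.self_of_nhds ((Ω x).inverse u) ((Ω x).inverse v)
    rw [hI.self_apply_inverse, hI.self_apply_inverse] at this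
    rw [real_inner_comm v, real_inner_comm u, this, neg_neg]
  have hZ : DifferentiableAt ℝ (fun y => (Ω y).inverse (A y)) x :=
    (((hI.contDiffAt_map_inverse (n := 1)).differentiableAt one_ne_zero).comp x hΩ).clm_apply hA
  obtain ⟨z, hz⟩ : ∃ z, z = (Ω x).inverse (A x) := ⟨_, rfl⟩
  obtain ⟨L, hL⟩ : ∃ L : E →L[ℝ] E, ∀ v, L v = fderiv ℝ Ω x v z :=
    ⟨(fderiv ℝ Ω x).flip z, fun v => rfl⟩
  have hDZ : fderiv ℝ (fun y => (Ω y).inverse (A y)) x = (Ω x).inverse ∘L (fderiv ℝ A x - L) := by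
    have h1 := (hΩ.hasFDerivAt.clm_apply hZ.hasFDerivAt).congr_of_eventuallyEq (f₁ := A)
      (hne.mono fun y hy => ((isInv_of_det hy).self_apply_inverse (A y)).symm)
    refine ContinuousLinearMap.ext fun v => ?_
    have h2 := DFunLike.congr_fun (hA.hasFDerivAt.unique h1) v
    simp only [_root_.add_apply, ContinuousLinearMap.comp_apply,
      ContinuousLinearMap.flip_apply, ← hz, ← hL] at h2
    rw [ContinuousLinearMap.comp_apply, _root_.sub_apply, h2, add_sub_cancel_right,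
      hI.inverse_apply_self]
  have hDρ : fderiv ℝ ρ x z = ρ x / 2 * tr ((Ω x).inverse ∘L fderiv ℝ Ω x z) := by
    obtain ⟨D, h1, h2⟩ := hasFDerivAt_det hΩ.hasFDerivAt hd0
    have h3 := (hρ.hasFDerivAt.pow 2).congr_of_eventuallyEq (f₁ := fun y => (Ω y).det) hdet
    have h4 := DFunLike.congr_fun (h1.unique h3) z
    rw [h2, hdet.self_of_nhds] at h4
    simp only [_root_.smul_apply, smul_eq_mul, nsmul_eq_mul] at h4
    refine mul_left_cancel₀ (mul_pos two_pos hpos).ne' ?_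
    norm_num at h4
    linarith
  have h1 : tr ((Ω x).inverse ∘L fderiv ℝ Ω x z) = 2 * tr ((Ω x).inverse ∘L L) :=
    tr_anti hP fun u v => by
      have := hc z u v
      rw [fderiv_anti hΩ hs u v z] at this
      rw [hL, hL]
      linarith
  have h2 := tr_anti hP hM
  rw [(hρ.hasFDerivAt.fun_smul hZ.hasFDerivAt).fderiv, tr_add, tr_smul, tr_smulRight, ← hz, hDρ, hDZ,
    ContinuousLinearMap.comp_sub, tr_sub, h1, h2]
  ring

/-- exact forms are closed -/
theorem closed_of_exact {Ω : E → E →L[ℝ] E} {θ : E → E →L[ℝ] ℝ} {x : E}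
    (hΩ : DifferentiableAt ℝ Ω x) (hθ : ContDiffAt ℝ ∞ θ x)
    (h : ∀ᶠ y in 𝓝 x, ∀ u v, ⟪Ω y u, v⟫ = fderiv ℝ θ y u v - fderiv ℝ θ y v u) (u v w : E) :
    ⟪fderiv ℝ Ω x u v, w⟫ + ⟪fderiv ℝ Ω x v w, u⟫ + ⟪fderiv ℝ Ω x w u, v⟫ = 0 := by
  have hd : DifferentiableAt ℝ (fderiv ℝ θ) x :=
    (hθ.fderiv_right (m := 1) (by norm_cast)).differentiableAt one_ne_zero
  have hsym : IsSymmSndFDerivAt ℝ θ x := hθ.isSymmSndFDerivAt (by simp; norm_cast)
  have ev : ∀ a b : E, ∃ D : E →L[ℝ] ℝ, HasFDerivAt (fun y => fderiv ℝ θ y a b) D x ∧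
      ∀ c, D c = fderiv ℝ (fderiv ℝ θ) x c a b := fun a b =>
    ⟨_, (hd.hasFDerivAt.clm_apply (hasFDerivAt_const a x)).clm_apply (hasFDerivAt_const b x),
      fun c => by simp⟩
  have key : ∀ c a b : E, ⟪fderiv ℝ Ω x c a, b⟫ =
      fderiv ℝ (fderiv ℝ θ) x c a b - fderiv ℝ (fderiv ℝ θ) x c b a := fun c a b => by
    obtain ⟨D1, a1, a2⟩ := ev a b
    obtain ⟨D2, b1, b2⟩ := ev b a
    have h2 := (a1.sub b1).congr_of_eventuallyEq
      (f₁ := fun y => ⟪Ω y a, b⟫) (h.mono fun y hy => hy a b)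
    have := DFunLike.congr_fun ((fderiv_inner hΩ a b).unique h2) c
    simpa [real_inner_comm, a2, b2] using this
  rw [key, key, key, hsym u v, hsym v w, hsym w u]
  ring

end Pool.Agent.Lib.MP_235f17_gt.K
end
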