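import Pool.Agent.Lib.MP_235f17_gt.K.Len
import Pool.Agent.Lib.MP_235f17_gt.K.Geo
import Pool.Agent.Lib.MP_235f17_gt.K.Kae

-- part Pool.Agent.Lib.MP_235f17_gt.K.Jac
section

/-! Jacobi fields. -/

set_option autoImplicit false
set_option linter.unusedSectionVars false

open MeasureTheory Set Filter Topology Metric
open scoped ContDiff ENNReal RealInnerProductSpace

namespace Pool.Agent.Lib.MP_235f17_gt.K

variable {E : Type} [NormedAddCommGroup E] [InnerProductSpace ℝ E] [FiniteDimensional ℝ E]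
  {J : E →L[ℝ] E} {G G' : E → E →L[ℝ] E} {Ψ : ℝ → E × E → E × E}

theorem IsChr.diffAt {C : E → E →L[ℝ] E →L[ℝ] E} (hC : IsChr G C) {x : E}
    (hx : x ∈ ball (0 : E) 1) : HasFDerivAt C (fderiv ℝ C x) x :=
  ((hC.smooth.contDiffAt (isOpen_ball.mem_nhds hx)).differentiableAt (by simp)).hasFDerivAt

theorem IsChr.fderiv_symm {C : E → E →L[ℝ] E →L[ℝ] E} (hC : IsChr G C) {x : E}
    (hx : x ∈ ball (0 : E) 1) (k u v : E) : fderiv ℝ C x k u v = fderiv ℝ C x k v u := by
  have h := fun a b : E =>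
    ((hC.diffAt hx).clm_apply (hasFDerivAt_const a x)).clm_apply (hasFDerivAt_const b x)
  have := (h u v).unique ((h v u).congr_of_eventuallyEq (by
    filter_upwards [isOpen_ball.mem_nhds hx] with y hy using hC.symm y hy u v))
  simpa using congrArg (fun A => A k) this

theorem IsGeo.var_vec (h : IsGeo G Ψ) (hG : IsMetric G) {p : E × E} (hp : p ∈ UU E) (ξ : E × E)
    (t : ℝ) : HasDerivAt (fun s => fderiv ℝ (Ψ s) p ξ)
      (fderiv ℝ (fld G) (Ψ t p) (fderiv ℝ (Ψ t) p ξ)) t :=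
  ((h.var isOpen_UU (fld_smooth hG) hp t).clm_apply (hasDerivAt_const t ξ)).congr_deriv (by simp)

theorem IsGeo.var_fst (h : IsGeo G Ψ) (hG : IsMetric G) {p : E × E} (hp : p ∈ UU E) (ξ : E × E)
    (t : ℝ) : HasDerivAt (fun s => (fderiv ℝ (Ψ s) p ξ).1) (fderiv ℝ (Ψ t) p ξ).2 t := by
  obtain ⟨C, hC⟩ := exists_chr hG
  exact (hd_fst (h.var_vec hG hp ξ t)).congr_deriv (by rw [hC.fderiv_fld (h.mem p hp t)])

theorem IsGeo.hasFDerivAt (h : IsGeo G Ψ) (hG : IsMetric G) {p : E × E} (hp : p ∈ UU E) (t : ℝ) :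
    HasFDerivAt (Ψ t) (fderiv ℝ (Ψ t) p) p :=
  (((h.smooth_at isOpen_UU (fld_smooth hG) t).contDiffAt
    (isOpen_UU.mem_nhds hp)).differentiableAt (by simp)).hasFDerivAt

theorem IsMetric.hasFDerivAt_en (hG : IsMetric G) {p : E × E} (hp : p ∈ UU E) :
    HasFDerivAt (fun q : E × E => gm G q.1 q.2 q.2)
      (fderiv ℝ (fun q : E × E => gm G q.1 q.2 q.2) p) p :=
  ((hG.en_smooth.contDiffAt (isOpen_UU.mem_nhds hp)).differentiableAt (by simp)).hasFDerivAt

theorem jac_convex (hG : IsMetric G) (hK : Npc G) (h : IsGeo G Ψ) {p : E × E} (hp : p ∈ UU E)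
    (ξ : E × E) : ConvexOn ℝ univ fun t =>
      gm G (Ψ t p).1 (fderiv ℝ (Ψ t) p ξ).1 (fderiv ℝ (Ψ t) p ξ).1 := by
  obtain ⟨C, hC⟩ := exists_chr hG
  let c : ℝ → E := fun t => (Ψ t p).1
  let T : ℝ → E := fun t => (Ψ t p).2
  let S : ℝ → E := fun t => (fderiv ℝ (Ψ t) p ξ).1
  let S1 : ℝ → E := fun t => (fderiv ℝ (Ψ t) p ξ).2
  let D : ℝ → E := fun t => S1 t + C (c t) (T t) (S t)
  have hx : ∀ t, c t ∈ ball (0 : E) 1 := h.base hp
  have hc : ∀ t, HasDerivAt c (T t) t := h.pos hp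
  have hT : ∀ t, HasDerivAt T (-C (c t) (T t) (T t)) t := fun t =>
    (hd_snd (h.ode p hp t)).congr_deriv (by simp only [fld, hC.eq _ (hx t), c, T])
  have hS : ∀ t, HasDerivAt S (S1 t) t := h.var_fst hG hp ξ
  have hS1 : ∀ t, HasDerivAt S1 (-(fderiv ℝ C (c t) (S t) (T t) (T t) + C (c t) (S1 t) (T t) +
      C (c t) (T t) (S1 t))) t := fun t =>
    (hd_snd (h.var_vec hG hp ξ t)).congr_deriv (by rw [hC.fderiv_fld (h.mem p hp t)])
  have hD : ∀ t, HasDerivAt D (-curv G (c t) (S t) (T t) (T t) - C (c t) (T t) (D t)) t := by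
    intro t
    have h1 := HasFDerivAt.comp_hasDerivAt (l := C) (f := c) t (hC.diffAt (hx t)) (hc t)
    refine ((hS1 t).add ((h1.clm_apply (hT t)).clm_apply (hS t))).congr_deriv ?_
    rw [hC.curv_eq (hx t), hC.fderiv_symm (hx t) (T t) (S t) (T t), hC.symm _ (hx t) (S1 t),
      hC.symm _ (hx t) (S t) (T t), hC.symm _ (hx t) (S t)]
    simp only [D, Function.comp_apply, map_add, map_neg, add_apply, neg_apply]
    abel
  have h1 : ∀ t, HasDerivAt (fun t => gm G (c t) (S t) (S t)) (2 * gm G (c t) (D t) (S t)) t :=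
    fun t => (hC.hasDerivAt_gm hG (hc t) (hx t) (hS t) (hS t)).congr_deriv (by
      rw [hG.symm _ (hx t) (S t), two_mul])
  have h2 : ∀ t, HasDerivAt (fun t => 2 * gm G (c t) (D t) (S t))
      (2 * (-gm G (c t) (curv G (c t) (S t) (T t) (T t)) (S t) + gm G (c t) (D t) (D t))) t :=
    fun t => ((hC.hasDerivAt_gm hG (hc t) (hx t) (hD t) (hS t)).const_mul 2).congr_deriv (by
      rw [sub_add_cancel, gm_neg_left])
  refine MonotoneOn.convexOn_of_deriv convex_univ
    (fun t _ => (h1 t).continuousAt.continuousWithinAt)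
    (fun t _ => (h1 t).differentiableAt.differentiableWithinAt) ?_
  rw [show deriv (fun t => gm G (c t) (S t) (S t)) = fun t => 2 * gm G (c t) (D t) (S t) from
    funext fun t => (h1 t).deriv]
  refine (monotone_of_deriv_nonneg (fun t => (h2 t).differentiableAt) fun t => ?_).monotoneOn _
  rw [(h2 t).deriv]
  linarith [hK _ (hx t) (S t) (T t), hG.nonneg (hx t) (D t)]

theorem jac_inj (hG : IsMetric G) (hK : Npc G) (h : IsGeo G Ψ) {p : E × E} (hp : p ∈ UU E)
    {w : E} (hw : (fderiv ℝ (Ψ 1) p (0, w)).1 = 0) : w = 0 := by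
  have hc := jac_convex hG hK h hp (0, w)
  have h0 : ∀ t ∈ Icc (0 : ℝ) 1, (fderiv ℝ (Ψ t) p (0, w)).1 = 0 := fun t ht => by
    have := hc.le_max_of_mem_Icc (mem_univ 0) (mem_univ 1) ht
    simp only [hw, h.fderiv_zero, ContinuousLinearMap.id_apply, gm_zero_left, max_self] at this
    by_contra hne
    exact absurd (hG.pos _ (h.base hp t) _ hne) (not_lt.2 this)
  have h1 := (h.var_fst hG hp (0, w) 0).hasDerivWithinAt (s := Icc 0 1)
  have h2 := (hasDerivWithinAt_const (0 : ℝ) (Icc (0 : ℝ) 1) (0 : E)).congr h0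
    (h0 0 ⟨le_rfl, zero_le_one⟩)
  simpa [h.fderiv_zero] using
    (uniqueDiffOn_Icc zero_lt_one 0 ⟨le_rfl, zero_le_one⟩).eq_deriv _ h1 h2

/-- first variation formula -/
theorem first_var (hG : IsMetric G) (h : IsGeo G Ψ) {p : E × E} (hp : p ∈ UU E) (ξ : E × E) :
    fderiv ℝ (fun q : E × E => gm G q.1 q.2 q.2) p ξ =
      2 * (gm G (Ψ 1 p).1 (fderiv ℝ (Ψ 1) p ξ).1 (Ψ 1 p).2 - gm G p.1 ξ.1 p.2) := by
  obtain ⟨C, hC⟩ := exists_chr hG
  have key : ∀ t, HasDerivAt (fun t => gm G (Ψ t p).1 (fderiv ℝ (Ψ t) p ξ).1 (Ψ t p).2)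
      (1 / 2 * fderiv ℝ (fun q : E × E => gm G q.1 q.2 q.2) p ξ) t := fun t => by
    have hx := h.base hp t
    refine (hC.hasDerivAt_gm hG (h.pos hp t) hx (h.var_fst hG hp ξ t)
      (hd_snd (h.ode p hp t))).congr_deriv ?_
    have h1 := (hG.hasFDerivAt_en (h.mem p hp t)).comp p (h.hasFDerivAt hG hp t)
    have h2 := (hG.hasFDerivAt_en hp).unique
      (h1.congr_of_eventuallyEq (.of_forall fun q => (h.en hG q t).symm))
    rw [h2, ContinuousLinearMap.comp_apply, hC.fderiv_en hG (h.mem p hp t),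
      hC.symm _ hx (Ψ t p).2 (fderiv ℝ (Ψ t) p ξ).1]
    simp [fld, hC.eq _ hx, gm_zero_right]
  have := intervalIntegral.integral_eq_sub_of_hasDerivAt (a := 0) (b := 1) (fun t _ => key t)
    intervalIntegrable_const
  simp only [intervalIntegral.integral_const, sub_zero, one_smul, h.fderiv_zero, h.zero,
    ContinuousLinearMap.id_apply] at this
  linarith

end Pool.Agent.Lib.MP_235f17_gt.K
end

-- part Pool.Agent.Lib.MP_235f17_gt.K.Log
section

/-! Cartan-Hadamard theorem. -/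

set_option autoImplicit false
set_option linter.unusedSectionVars false

open MeasureTheory Set Filter Topology Metric
open scoped ContDiff ENNReal RealInnerProductSpace

namespace Pool.Agent.Lib.MP_235f17_gt.K

variable {E : Type} [NormedAddCommGroup E] [InnerProductSpace ℝ E] [FiniteDimensional ℝ E]
  {J : E →L[ℝ] E} {G G' : E → E →L[ℝ] E} {Ψ : ℝ → E × E → E × E}

theorem exists_log (hM : Met J G) (hK : Npc G) (h : IsGeo G Ψ) : ∃ lg, IsLog Ψ lg := by
  have hG := hM.met
  obtain ⟨L, hL, hc⟩ := hM.cmp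
  let e : E × E → E × E := fun p => (p.1, (Ψ 1 p).1)
  have hD : ∀ p ∈ UU E, ∀ ξ, fderiv ℝ e p ξ = (ξ.1, (fderiv ℝ (Ψ 1) p ξ).1) := fun p hp ξ => by
    rw [(hasFDerivAt_fst.prodMk (h.hasFDerivAt hG hp 1).fst).fderiv]
    rfl
  obtain ⟨g, h1, h2, h3, h4⟩ := global_inverse (U := UU E) (V := ball 0 1 ×ˢ ball 0 1) (e := e)
    isOpen_UU ((convex_ball _ _).prod convex_univ).isPreconnected
    ⟨0, mem_UU.2 (mem_ball_self one_pos)⟩ ((convex_ball _ _).prod (convex_ball _ _))
    (contDiffOn_fst.prodMk (h.smooth_at isOpen_UU (fld_smooth hG) 1).fst)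
    (fun p hp => ⟨mem_UU.1 hp, h.base hp 1⟩)
    (fun p hp => (injective_iff_map_eq_zero _).2 fun ξ hξ => by
      rw [hD p hp, Prod.mk_eq_zero] at hξ
      have : ξ = (0, ξ.2) := Prod.ext hξ.1 rfl
      rw [this] at hξ ⊢
      rw [jac_inj hG hK h hp hξ.2]
      rfl)
    (fun p hp q hq => by
      let r := max (max ‖p.1‖ ‖(Ψ 1 p).1‖) (max ‖q.1‖ ‖q.2‖)
      have hr : r < 1 := max_lt (max_lt (mem_ball_zero_iff.1 (mem_UU.1 hp))
        (mem_ball_zero_iff.1 (h.base hp 1)))
        (max_lt (mem_ball_zero_iff.1 hq.1) (mem_ball_zero_iff.1 hq.2))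
      obtain ⟨C, hC, hb⟩ := hG.nm_le hr
      let M := C * ‖(q - e p).1‖ + C * ‖(q - e p).2‖
      have hcv : Convex ℝ (closedBall (0 : E) r ×ˢ closedBall (0 : E) r) :=
        (convex_closedBall _ _).prod (convex_closedBall _ _)
      have m1 : e p ∈ closedBall (0 : E) r ×ˢ closedBall (0 : E) r :=
        ⟨mem_closedBall_zero_iff.2 ((le_max_left _ _).trans (le_max_left _ _)),
          mem_closedBall_zero_iff.2 ((le_max_right _ _).trans (le_max_left _ _))⟩
      have m2 : q ∈ closedBall (0 : E) r ×ˢ closedBall (0 : E) r :=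
        ⟨mem_closedBall_zero_iff.2 ((le_max_left _ _).trans (le_max_right _ _)),
          mem_closedBall_zero_iff.2 ((le_max_right _ _).trans (le_max_right _ _))⟩
      refine ⟨closedBall 0 r ×ˢ closedBall 0 (L * (√(gm G p.1 p.2 p.2 + 1) + M)),
        (isCompact_closedBall _ _).prod (isCompact_closedBall _ _),
        fun z hz => mem_UU.2 (closedBall_subset_ball hr hz.1), fun l l' t ht h0 hl => ?_⟩
      have hm : ∀ s ∈ Icc 0 t, e (l s) ∈ closedBall (0 : E) r ×ˢ closedBall (0 : E) r :=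
        fun s hs => (hl s hs).2.1 ▸ hcv.add_smul_sub_mem m1 m2 ⟨hs.1, hs.2.trans ht.2⟩
      have key : ∀ s ∈ Icc 0 t, ∃ f', HasDerivWithinAt
          (fun s => √(gm G (l s).1 (l s).2 (l s).2 + 1)) f' (Icc 0 t) s ∧ ‖f'‖ ≤ M := by
        intro s hs
        obtain ⟨h5, -, h6, h7⟩ := hl s hs
        have h8 := HasFDerivAt.comp_hasDerivWithinAt (l := fun q : E × E => gm G q.1 q.2 q.2)
          (f := l) s (hG.hasFDerivAt_en h5) h6
        have h9 := hG.nonneg (mem_UU.1 h5) (l s).2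
        have h10 : 0 < gm G (l s).1 (l s).2 (l s).2 + 1 := by positivity
        refine ⟨_, (h8.add_const 1).sqrt h10.ne', ?_⟩
        rw [hD _ h5] at h7
        have a1 := hG.abs_gm_le (h.base h5 1) (q - e p).2 (Ψ 1 (l s)).2
        have a2 := hG.abs_gm_le (mem_UU.1 h5) (q - e p).1 (l s).2
        have a3 := hb _ (hm s hs).1 (q - e p).1
        have a4 := hb _ (hm s hs).2 (q - e p).2
        have a5 : nm G (l s) ≤ √(gm G (l s).1 (l s).2 (l s).2 + 1) :=
          Real.sqrt_le_sqrt (le_add_of_nonneg_right zero_le_one)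
        have a6 := nm_nonneg (G := G) (l s)
        rw [Prod.mk.eta, h.nm_eq hG] at a1
        rw [Prod.mk.eta] at a2
        rw [first_var hG h h5, show (fderiv ℝ (Ψ 1) (l s) (l' s)).1 = (q - e p).2 from
          congrArg Prod.snd h7, show (l' s).1 = (q - e p).1 from (Prod.ext_iff.1 h7).1]
        simp only [Function.comp_apply]
        rw [Real.norm_eq_abs, abs_div, abs_mul, abs_mul, abs_two, mul_div_mul_left _ _ two_ne_zero,
          abs_of_pos (Real.sqrt_pos.2 h10), div_le_iff₀ (Real.sqrt_pos.2 h10)]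
        refine (abs_sub _ _).trans ((add_le_add (a1.trans (mul_le_mul a4 a5 a6 (by positivity)))
          (a2.trans (mul_le_mul a3 a5 a6 (by positivity)))).trans_eq ?_)
        ring
      choose! f' hf' using key
      have h5 := norm_image_sub_le_of_norm_deriv_le_segment' (fun s hs => (hf' s hs).1)
        (fun s hs => (hf' s (Ico_subset_Icc_self hs)).2) t ⟨ht.1, le_rfl⟩
      have h6 := (hl t ⟨ht.1, le_rfl⟩).1
      refine ⟨(hm t ⟨ht.1, le_rfl⟩).1, mem_closedBall_zero_iff.2 ((norm_le_berg J h6).trans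
        ((hc _ h6).trans (mul_le_mul_of_nonneg_left ?_ hL.le)))⟩
      have a5 : nm G (l t) ≤ √(gm G (l t).1 (l t).2 (l t).2 + 1) :=
        Real.sqrt_le_sqrt (le_add_of_nonneg_right zero_le_one)
      rw [h0, sub_zero, Real.norm_eq_abs] at h5
      have : 0 ≤ M := by positivity
      nlinarith [(abs_le.1 h5).2, ht.2])
  refine ⟨fun q => (g q).2, h1.snd, fun x hx y hy => ?_, fun x hx v => ?_⟩
  · have := h3 (x, y) ⟨hx, hy⟩
    have e1 : (x, (g (x, y)).2) = g (x, y) := Prod.ext (congrArg Prod.fst this).symm rfl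
    rw [e1]
    exact congrArg Prod.snd this
  · exact congrArg Prod.snd (h4 (x, v) (mem_UU.2 hx))

end Pool.Agent.Lib.MP_235f17_gt.K
end

-- part Pool.Agent.Lib.MP_235f17_gt.K.Dist
section

/-! The Riemannian distance. -/

set_option autoImplicit false
set_option linter.unusedSectionVars false

open MeasureTheory Set Filter Topology Metric
open scoped ContDiff ENNReal RealInnerProductSpace

namespace Pool.Agent.Lib.MP_235f17_gt.K

variable {E : Type} [NormedAddCommGroup E] [InnerProductSpace ℝ E] [FiniteDimensional ℝ E]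
  {J : E →L[ℝ] E} {G G' : E → E →L[ℝ] E} {Ψ : ℝ → E × E → E × E}

theorem IsLog.hasDerivAt {lg : E × E → E} (hl : IsLog Ψ lg) (hG : IsMetric G) (h : IsGeo G Ψ)
    {α β : ℝ → E} {α' β' : E} {u : ℝ} (hα : HasDerivAt α α' u) (hβ : HasDerivAt β β' u)
    (ha : α u ∈ ball (0 : E) 1) (hb : β u ∈ ball (0 : E) 1) :
    ∃ w, HasDerivAt (fun u => (α u, lg (α u, β u))) (α', w) u ∧
      (fderiv ℝ (Ψ 1) (α u, lg (α u, β u)) (α', w)).1 = β' := by
  have h1 := ((hl.smooth.contDiffAt ((isOpen_ball.prod isOpen_ball).mem_nhds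
    (mk_mem_prod ha hb))).differentiableAt (by simp)).hasFDerivAt
  have h2 := hα.prodMk (HasFDerivAt.comp_hasDerivAt (l := lg) (f := fun u => (α u, β u)) u h1
    (hα.prodMk hβ))
  refine ⟨_, h2, ?_⟩
  have h3 := hd_fst (HasFDerivAt.comp_hasDerivAt (l := Ψ 1)
    (f := fun u => (α u, lg (α u, β u))) u (h.hasFDerivAt hG (mem_UU.2 ha) 1) h2)
  refine h3.unique (hβ.congr_of_eventuallyEq ?_)
  filter_upwards [hα.continuousAt.preimage_mem_nhds (isOpen_ball.mem_nhds ha),
    hβ.continuousAt.preimage_mem_nhds (isOpen_ball.mem_nhds hb)] with v h4 h5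
  exact hl.right _ h4 _ h5

theorem IsLog.len {lg : E × E → E} (hl : IsLog Ψ lg) (hG : IsMetric G) (h : IsGeo G Ψ) {x : E}
    (hx : x ∈ ball (0 : E) 1) (β β' : ℝ → E) (g : ℝ → ℝ) (s t : ℝ) (hst : s ≤ t)
    (hg : ContinuousOn g (Icc s t)) (hβ : ∀ u ∈ Icc s t, β u ∈ ball (0 : E) 1 ∧
      HasDerivAt β (β' u) u ∧ nm G (β u, β' u) ≤ g u) :
    nm G (x, lg (x, β t)) ≤ nm G (x, lg (x, β s)) + ∫ u in s..t, g u := by
  refine le_of_forall_pos_le_add fun ε hε => ?_
  have hp : ∀ v, (x, v) ∈ UU E := fun v => mem_UU.2 hx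
  have key : ∀ u ∈ Icc s t, ∃ f', HasDerivAt
      (fun u => √(gm G x (lg (x, β u)) (lg (x, β u)) + ε ^ 2)) f' u ∧ f' ≤ g u := by
    intro u hu
    obtain ⟨h1, h2, h3⟩ := hβ u hu
    obtain ⟨w, h4, h5⟩ := hl.hasDerivAt hG h (hasDerivAt_const u x) h2 hx h1
    have h6 := HasFDerivAt.comp_hasDerivAt (l := fun q : E × E => gm G q.1 q.2 q.2)
      (f := fun u => (x, lg (x, β u))) u (hG.hasFDerivAt_en (hp _)) h4
    have h0 := hG.nonneg hx (lg (x, β u))
    have h7 : 0 < gm G x (lg (x, β u)) (lg (x, β u)) + ε ^ 2 := by positivity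
    refine ⟨_, (h6.add_const (ε ^ 2)).sqrt h7.ne', ?_⟩
    rw [first_var hG h (hp _), h5, gm_zero_left, sub_zero, hl.right x hx _ h1]
    have h8 := (le_abs_self _).trans (hG.abs_gm_le h1 (β' u) (Ψ 1 (x, lg (x, β u))).2)
    have h9 := h.nm_eq hG (x, lg (x, β u)) 1
    rw [← Prod.mk.eta (p := Ψ 1 (x, lg (x, β u))), hl.right x hx _ h1] at h9
    rw [h9] at h8
    have h10 : nm G (x, lg (x, β u)) ≤ √(gm G x (lg (x, β u)) (lg (x, β u)) + ε ^ 2) :=
      Real.sqrt_le_sqrt (le_add_of_nonneg_right (sq_nonneg ε))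
    simp only [Function.comp_apply]
    rw [div_le_iff₀ (by positivity)]
    nlinarith [nm_nonneg (G := G) (β u, β' u), nm_nonneg (G := G) (x, lg (x, β u))]
  choose! f' hf' using key
  have h1 := BergAux.incr hst hg hf'
  have h2 : nm G (x, lg (x, β t)) ≤ √(gm G x (lg (x, β t)) (lg (x, β t)) + ε ^ 2) :=
    Real.sqrt_le_sqrt (le_add_of_nonneg_right (sq_nonneg ε))
  have h3 : √(gm G x (lg (x, β s)) (lg (x, β s)) + ε ^ 2) ≤ nm G (x, lg (x, β s)) + ε := by
    have := hG.nm_sq (hp (lg (x, β s)))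
    refine Real.sqrt_le_iff.2 ⟨add_nonneg (nm_nonneg _) hε.le, ?_⟩
    nlinarith [nm_nonneg (G := G) (x, lg (x, β s))]
  linarith

theorem isDist0 (hM : Met J G) (h : IsGeo G Ψ) {lg : E × E → E} (hl : IsLog Ψ lg) :
    IsDist0 G Ψ fun x y => nm G (x, lg (x, y)) := by
  have hG := hM.met
  have hY := fld_smooth hG
  have hp : ∀ {x}, x ∈ ball (0 : E) 1 → ∀ v, (x, v) ∈ UU E := fun hx v => mem_UU.2 hx
  have hself : ∀ x ∈ ball (0 : E) 1, nm G (x, lg (x, x)) = 0 := fun x hx => by
    have := hl.left x hx 0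
    rw [h.zero_vec hG] at this
    rw [this, nm_zero]
  have hcur : ∀ p ∈ UU E, ∀ u : ℝ, (Ψ u p).1 ∈ ball (0 : E) 1 ∧
      HasDerivAt (fun u => (Ψ u p).1) (Ψ u p).2 u ∧ nm G ((Ψ u p).1, (Ψ u p).2) = nm G p :=
    fun p hp u => ⟨h.base hp u, h.pos hp u, h.nm_eq hG p u⟩
  refine ⟨hG.nm_cont.comp (continuousOn_fst.prodMk hl.smooth.continuousOn)
    fun q hq => hp hq.1 _, fun _ _ => nm_nonneg _, hself, fun p hq t => ?_,
    fun x hx y hy => ⟨_, hl.right x hx y hy⟩, fun x hx v w e => ?_,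
    fun x hx => hl.len hG h hx, fun x hx y hy => ?_, fun x hx y hy z hz => ?_,
    fun φ hφ x hx y hy => ?_, ?_, fun r hr => ?_⟩
  · have h1 := congrArg Prod.fst (h.scale hG (mem_UU.1 hq) p.2 t 1)
    rw [mul_one] at h1
    have h2 := hl.left _ (mem_UU.1 hq) (t • p.2)
    rw [h1] at h2
    simp only at h2
    rw [h2, nm_smul]
  · rw [← hl.left x hx v, e, hl.left x hx w]
  · have e1 := hl.right x hx y hy
    have h1 := congrArg Prod.fst (h.scale hG hy (Ψ 1 (x, lg (x, y))).2 (-1) 1)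
    have e2 : (y, (Ψ 1 (x, lg (x, y))).2) = Ψ 1 (x, lg (x, y)) := Prod.ext e1.symm rfl
    rw [e2, ← h.add isOpen_UU hY, mul_one, neg_add_cancel, h.zero] at h1
    have h2 := hl.left y hy ((-1 : ℝ) • (Ψ 1 (x, lg (x, y))).2)
    rw [h1] at h2
    simp only at h2
    rw [h2, nm_smul, e2, h.nm_eq hG]
    simp
  · have := hl.len hG h hx (fun u => (Ψ u (y, lg (y, z))).1) (fun u => (Ψ u (y, lg (y, z))).2)
      (fun _ => nm G (y, lg (y, z))) 0 1 zero_le_one continuousOn_const fun u _ =>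
        ⟨(hcur _ (hp hy _) u).1, (hcur _ (hp hy _) u).2.1, (hcur _ (hp hy _) u).2.2.le⟩
    simpa [h.zero, hl.right y hy z hz] using this
  · have h1 := congrArg Prod.fst (h.equiv hG hφ (hp hx (lg (x, y))) 1)
    have h2 := hl.left _ (hφ.maps hx) (fderiv ℝ φ x (lg (x, y)))
    simp only [tg, hl.right x hx y hy] at h1
    rw [h1] at h2
    rw [h2]
    exact hφ.nm_tg (hp hx (lg (x, y)))
  · obtain ⟨L, hL, hc⟩ := hM.cmp
    refine ⟨L, hL, fun x hx y hy => ?_⟩
    have := berg_curve J (β := fun u => (Ψ u (x, lg (x, y))).1)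
      (β' := fun u => (Ψ u (x, lg (x, y))).2) (g := fun _ => L * nm G (x, lg (x, y))) zero_le_one
      continuousOn_const fun u _ => ⟨(hcur _ (hp hx _) u).1, (hcur _ (hp hx _) u).2.1,
        (hcur _ (hp hx _) u).2.2 ▸ hc _ (hp (hcur _ (hp hx _) u).1 _)⟩
    simpa [h.zero, hl.right x hx y hy, abs_sub_comm, norm_sub_rev] using this
  · obtain ⟨C, hC, h1⟩ := hG.nm_le hr
    refine ⟨C, hC, fun x hx y hy => ?_⟩
    have hx' := closedBall_subset_ball hr hx
    have := hl.len hG h hx' (fun u => x + u • (y - x)) (fun _ => y - x) (fun _ => C * ‖y - x‖) 0 1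
      zero_le_one continuousOn_const fun u hu => by
        have h2 : x + u • (y - x) ∈ closedBall (0 : E) r :=
          (convex_closedBall (0 : E) r).add_smul_sub_mem hx hy hu
        exact ⟨closedBall_subset_ball hr h2,
          (((hasDerivAt_id u).smul_const (y - x)).const_add x).congr_deriv (by simp), h1 _ h2 _⟩
    simpa [hself x hx', norm_sub_rev] using this

end Pool.Agent.Lib.MP_235f17_gt.K
end

-- part Pool.Agent.Lib.MP_235f17_gt.K.FT
section

/-! Geodesics with close end points stay close. -/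

set_option autoImplicit false
set_option linter.unusedSectionVars false

open MeasureTheory Set Filter Topology Metric
open scoped ContDiff ENNReal RealInnerProductSpace

namespace Pool.Agent.Lib.MP_235f17_gt.K

variable {E : Type} [NormedAddCommGroup E] [InnerProductSpace ℝ E] [FiniteDimensional ℝ E]
  {J : E →L[ℝ] E} {G G' : E → E →L[ℝ] E} {Ψ : ℝ → E × E → E × E}

theorem fellow (hM : Met J G) (hK : Npc G) (h : IsGeo G Ψ) {lg : E × E → E} (hl : IsLog Ψ lg)
    {d : E → E → ℝ} (hd : IsDist0 G Ψ d) {p q : E × E} (hp : p ∈ UU E) (hq : q ∈ UU E)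
    {N t : ℝ} (h0 : 0 ≤ t) (h1 : t ≤ N) :
    d (Ψ t p).1 (Ψ t q).1 ≤ max (d p.1 q.1) (d (Ψ N p).1 (Ψ N q).1) := by
  have hG := hM.met
  rcases h0.eq_or_lt with rfl | h0'
  · simp only [h.zero, le_max_left]
  have hN : 0 < N := h0'.trans_le h1
  have hx := mem_UU.1 hp
  have hy := mem_UU.1 hq
  obtain ⟨v0, hv0⟩ := hd.surj _ hx _ hy
  obtain ⟨v1, hv1⟩ := hd.surj _ (h.base hp N) _ (h.base hq N)
  have p0 : (p.1, v0) ∈ UU E := mem_UU.2 hx
  have p1 : ((Ψ N p).1, v1) ∈ UU E := mem_UU.2 (h.base hp N)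
  have n0 : nm G (p.1, v0) = d p.1 q.1 := by simpa [hv0] using (hd.geo _ p0 1).symm
  have n1 : nm G ((Ψ N p).1, v1) = d (Ψ N p).1 (Ψ N q).1 := by
    simpa [hv1] using (hd.geo _ p1 1).symm
  let α : ℝ → E := fun s => (Ψ s (p.1, v0)).1
  let β : ℝ → E := fun s => (Ψ s ((Ψ N p).1, v1)).1
  let P : ℝ → E × E := fun s => (α s, lg (α s, β s))
  have hP : ∀ s, P s ∈ UU E := fun s => mem_UU.2 (h.base p0 s)
  have e : ∀ z ∈ UU E, (Ψ (t / N) (z.1, lg (z.1, (Ψ N z).1))).1 = (Ψ t z).1 := fun z hz => by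
    have h2 := congrArg Prod.fst (h.scale hG (mem_UU.1 hz) z.2 N 1)
    rw [mul_one] at h2
    have h3 := hl.left _ (mem_UU.1 hz) (N • z.2)
    rw [h2] at h3
    simp only at h3
    rw [h3, h.scale hG (mem_UU.1 hz), mul_div_cancel₀ _ hN.ne']
  have key : ∀ s, ∃ κ', HasDerivAt (fun s => (Ψ (t / N) (P s)).1) κ' s ∧
      nm G ((Ψ (t / N) (P s)).1, κ') ≤ max (d p.1 q.1) (d (Ψ N p).1 (Ψ N q).1) := fun s => by
    obtain ⟨w, h2, h3⟩ := hl.hasDerivAt hG h (h.pos p0 s) (h.pos p1 s) (h.base p0 s) (h.base p1 s)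
    refine ⟨_, hd_fst (HasFDerivAt.comp_hasDerivAt (l := Ψ (t / N)) (f := P) s
      (h.hasFDerivAt hG (hP s) _) h2), ?_⟩
    have h4 := (jac_convex hG hK h (hP s) ((Ψ s (p.1, v0)).2, w)).le_max_of_mem_Icc (mem_univ 0)
      (mem_univ 1) ⟨div_nonneg h0 hN.le, div_le_one_of_le₀ h1 hN.le⟩
    refine (Real.sqrt_le_sqrt h4).trans ?_
    rw [Real.sqrt_monotone.map_max, ← n0, ← n1]
    refine max_le_max (le_of_eq ?_) (le_of_eq ?_)
    · simp only [h.zero, h.fderiv_zero, ContinuousLinearMap.id_apply]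
      exact h.nm_eq hG (p.1, v0) s
    · simp only [P, α, β, h3, hl.right _ (h.base p0 s) _ (h.base p1 s)]
      exact h.nm_eq hG _ s
  choose κ' hκ using key
  have := hd.len _ (h.base hp t) (fun s => (Ψ (t / N) (P s)).1) κ' _ 0 1 zero_le_one
    continuousOn_const fun s _ => ⟨h.base (hP s) _, hκ s⟩
  simpa [P, α, β, h.zero, hv0, hv1, e p hp, e q hq, hd.self _ (h.base hp t)] using this

theorem exists_dist (hM : Met J G) (hK : Npc G) (h : IsGeo G Ψ) : ∃ d, IsDist G Ψ d := by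
  obtain ⟨lg, hl⟩ := exists_log hM hK h
  exact ⟨_, isDist0 hM h hl, fun _ hp _ hq _ _ h0 h1 =>
    fellow hM hK h hl (isDist0 hM h hl) hp hq h0 h1⟩

end Pool.Agent.Lib.MP_235f17_gt.K
end

-- part Pool.Agent.Lib.MP_235f17_gt.K.Rig
section

/-! Cauchy-Schwarz inequality and its equality case. -/

set_option autoImplicit false
set_option linter.unusedSectionVars false

open MeasureTheory Set Filter Topology Metric
open scoped ContDiff ENNReal RealInnerProductSpace

namespace Pool.Agent.Lib.MP_235f17_gt.K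

variable {E : Type} [NormedAddCommGroup E] [InnerProductSpace ℝ E] [FiniteDimensional ℝ E]
  [MeasurableSpace E] [BorelSpace E] {J : E →L[ℝ] E} {G G' : E → E →L[ℝ] E}
  {Ψ : ℝ → E × E → E × E} {Γ : Type} [Group Γ] {a : Γ → E → E} {F F' : Set E} {r : ℝ}
  {d : E → E → ℝ}

namespace RigAux

theorem variance [Nontrivial E] (H : Inv J a G) (hG' : IsMetric G') (hF : Fund a F)
    (hr : r < 1) (hFr : F ⊆ closedBall 0 r) :
    ∫ p, (nm G' p - ∫ q, nm G' q ∂pr G F) ^ 2 ∂pr G F =
      ∫ p, gm G' p.1 p.2 p.2 ∂pr G F - (∫ p, nm G' p ∂pr G F) ^ 2 := by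
  have := H.pr_prob hF hr hFr
  set m := ∫ q, nm G' q ∂pr G F with hm
  have i1 := H.integrable_pr hF hr hFr hG'.nm_cont
  have i2 := H.integrable_pr hF hr hFr hG'.en_smooth.continuousOn
  have e : ∀ᵐ p ∂pr G F, (nm G' p - m) ^ 2 = gm G' p.1 p.2 p.2 - 2 * m * nm G' p + m ^ 2 := by
    filter_upwards [ae_pr H.met hF.meas] with p hp
    rw [← hG'.nm_sq (SB_sub hp.1)]
    ring
  have i3 : Integrable (fun p : E × E => gm G' p.1 p.2 p.2 - 2 * m * nm G' p) (pr G F) :=
    i2.sub (i1.const_mul _)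
  rw [integral_congr_ae e, integral_add i3 (integrable_const _),
    integral_sub i2 (i1.const_mul _), integral_const_mul, integral_const, ← hm]
  simp only [probReal_univ, one_smul]
  ring

theorem polar (hG : IsMetric G) (hG' : IsMetric G') {c : ℝ} {x : E} (hx : x ∈ ball (0 : E) 1)
    (h : ∀ v, gm G' x v v = c * gm G x v v) : G' x = c • G x := by
  ext u
  refine ext_inner_right ℝ fun v => ?_
  have h1 := h (u + v)
  simp only [gm_add_left, gm_add_right, h u, h v, hG.symm x hx v u, hG'.symm x hx v u] at h1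
  have h2 : gm G' x u v = c * gm G x u v := by linarith
  simpa [gm, inner_smul_left] using h2

end RigAux

theorem Inv.avg_pos [Nontrivial E] (H : Inv J a G) (hG' : IsMetric G') (hF : Fund a F)
    (hr : r < 1) (hFr : F ⊆ closedBall 0 r) : 0 < ∫ p, nm G' p ∂pr G F := by
  have := H.pr_prob hF hr hFr
  have i1 := H.integrable_pr hF hr hFr hG'.nm_cont
  refine lt_of_le_of_ne (integral_nonneg fun p => nm_nonneg p) fun h => ?_
  have h1 := (integral_eq_zero_iff_of_nonneg (fun p => nm_nonneg p) i1).1 h.symm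
  have h2 : ∀ᵐ _p ∂pr G F, False := by
    filter_upwards [h1, ae_pr H.met hF.meas] with p g1 g2
    refine (hG'.nm_pos (SB_sub g2.1) fun h0 => ?_).ne' g1
    have := g2.1.2
    rw [h0, gm_zero_left] at this
    exact zero_ne_one this
  obtain ⟨_, hp⟩ := h2.exists
  exact hp

theorem Inv.avg_le [Nontrivial E] (H : Inv J a G) (hG' : IsMetric G') (hF : Fund a F)
    (hr : r < 1) (hFr : F ⊆ closedBall 0 r) :
    (∫ p, nm G' p ∂pr G F) ^ 2 ≤ ∫ p, gm G' p.1 p.2 p.2 ∂pr G F := by
  have h1 := RigAux.variance H hG' hF hr hFr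
  have h2 : 0 ≤ ∫ p, (nm G' p - ∫ q, nm G' q ∂pr G F) ^ 2 ∂pr G F :=
    integral_nonneg fun p => sq_nonneg _
  linarith

theorem Inv.rigid [Nontrivial E] (H : Inv J a G) (H' : Inv J a G') (hF : Fund a F) (hr : r < 1)
    (hFr : F ⊆ closedBall 0 r) {c : ℝ} (h2 : ∫ p, gm G' p.1 p.2 p.2 ∂pr G F = c)
    (h1 : c ≤ (∫ p, nm G' p ∂pr G F) ^ 2) : ∀ x ∈ ball (0 : E) 1, G' x = c • G x := by
  have hP := H.pr_prob hF hr hFr
  have := H.lat.countable
  have hG := H.met
  have hG' := H'.met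
  have v1 := RigAux.variance H hG' hF hr hFr
  have v2 := H.avg_le hG' hF hr hFr
  set m := ∫ q, nm G' q ∂pr G F with hm
  have hc : c = m ^ 2 := by linarith
  have i1 : Integrable (fun p => (nm G' p - m) ^ 2) (pr G F) :=
    H.integrable_pr hF hr hFr ((hG'.nm_cont.sub continuousOn_const).pow 2)
  have a1 := (integral_eq_zero_iff_of_nonneg (fun p => sq_nonneg (nm G' p - m)) i1).1
    (by rw [v1]; linarith)
  have a2 : ∀ᵐ p ∂pr G F, gm G' p.1 p.2 p.2 = c * gm G p.1 p.2 p.2 := by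
    filter_upwards [a1, ae_pr hG hF.meas] with p g1 g2
    have g3 : nm G' p = m := by
      have : (nm G' p - m) ^ 2 = 0 := g1
      exact sub_eq_zero.1 (pow_eq_zero_iff two_ne_zero |>.1 this)
    rw [← hG'.nm_sq (SB_sub g2.1), g3, g2.1.2, hc, mul_one]
  have hne : (liou G (F ×ˢ univ))⁻¹ ≠ 0 := by
    intro h0
    have := hP.measure_univ
    rw [pr, h0, zero_smul] at this
    exact zero_ne_one this
  rw [pr, Measure.ae_ennreal_smul_measure_eq hne] at a2
  have a3 : ∀ᵐ p ∂liou G, gm G' p.1 p.2 p.2 = c * gm G p.1 p.2 p.2 := by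
    refine H.act_liou.ae_of_fund (hF.ae_liou hG) a2 fun γ => ?_
    filter_upwards [hG.ae_liou] with p hp h
    rw [tb_of_mem a γ hp.1] at h
    simp only [tg] at h
    rwa [H.inv γ p.1 hp.1, H'.inv γ p.1 hp.1] at h
  rw [liou_eq] at a3
  have a4 := ae_of_ae_map hG.aemeas_nrm a3
  have hD := hG.isOpen_disc
  have hDU : disc G ⊆ UU E := fun p hp => mem_UU.2 hp.1
  rw [nu, ae_withDensity_iff' (hG.aemeas_det hD.measurableSet hDU)] at a4
  have a5 : (fun p : E × E => gm G' p.1 p.2 p.2) =ᵐ[volume.restrict (disc G)]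
      fun p => c * gm G p.1 p.2 p.2 := by
    filter_upwards [a4, ae_restrict_mem hD.measurableSet] with p g1 g2
    have g3 := g1 (ENNReal.ofReal_pos.2 (hG.det_pos g2.1)).ne'
    by_cases hv : p.2 = 0
    · simp only [hv, gm_zero_left, mul_zero]
    · have g4 := hG.nm_pos (hDU g2) hv
      simp only [nrm, gm_smul_left, gm_smul_right] at g3
      have g5 : (nm G p)⁻¹ * (nm G p)⁻¹ ≠ 0 := by positivity
      refine mul_left_cancel₀ g5 ?_
      linarith
  have a6 := Measure.eqOn_open_of_ae_eq a5 hD (hG'.en_smooth.continuousOn.mono hDU)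
    (continuousOn_const.mul (hG.en_smooth.continuousOn.mono hDU))
  intro x hx
  refine RigAux.polar hG hG' hx fun v => ?_
  have b0 := hG.nonneg hx v
  have b1 : 0 < (gm G x v v + 1)⁻¹ := by positivity
  have b2 : (x, (gm G x v v + 1)⁻¹ • v) ∈ disc G := by
    refine ⟨hx, ?_⟩
    simp only [gm_smul_left, gm_smul_right]
    rw [inv_mul_lt_iff₀ (by positivity), inv_mul_lt_iff₀ (by positivity)]
    nlinarith
  have b3 := a6 b2
  simp only [gm_smul_left, gm_smul_right] at b3
  refine mul_left_cancel₀ (mul_pos b1 b1).ne' ?_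
  linarith

end Pool.Agent.Lib.MP_235f17_gt.K
end

-- part Pool.Agent.Lib.MP_235f17_gt.K.Div
section

/-! The divergence theorem on the quotient. -/

set_option autoImplicit false
set_option linter.unusedSectionVars false

open MeasureTheory Set Filter Topology Metric
open scoped ContDiff ENNReal RealInnerProductSpace

namespace Pool.Agent.Lib.MP_235f17_gt.K

variable {E : Type} [NormedAddCommGroup E] [InnerProductSpace ℝ E] [FiniteDimensional ℝ E]
  [MeasurableSpace E] [BorelSpace E] {J : E →L[ℝ] E} {G G' : E → E →L[ℝ] E}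
  {Ψ : ℝ → E × E → E × E} {Γ : Type} [Group Γ] {a : Γ → E → E} {F F' : Set E} {r : ℝ}
  {d : E → E → ℝ}

namespace DivAux

theorem int_tr {V : E → E} (hV : ContDiff ℝ 1 V) (hc : HasCompactSupport V) :
    ∫ y, tr (fderiv ℝ V y) = 0 := by
  let b := stdOrthonormalBasis ℝ E
  have hg : ∀ i, ContDiff ℝ 1 fun y => ⟪b i, V y⟫ := fun i => contDiff_const.inner ℝ hV
  have hs : ∀ i, HasCompactSupport fun y => ⟪b i, V y⟫ := fun i =>
    hc.comp_left (g := fun v => ⟪b i, v⟫) (inner_zero_right _)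
  have hi : ∀ i, Integrable fun y => fderiv ℝ (fun y => ⟪b i, V y⟫) y (b i) := fun i =>
    (((hg i).continuous_fderiv one_ne_zero).clm_apply
      continuous_const).integrable_of_hasCompactSupport ((hs i).fderiv_apply ℝ (b i))
  have e : ∀ y, tr (fderiv ℝ V y) = ∑ i, fderiv ℝ (fun y => ⟪b i, V y⟫) y (b i) := by
    intro y
    rw [tr_eq_sum b]
    refine Finset.sum_congr rfl fun i _ => ?_
    have h := ((innerSL ℝ (b i)).hasFDerivAt.comp y
      (hV.differentiable one_ne_zero y).hasFDerivAt).fderiv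
    exact (congrArg (fun L : E →L[ℝ] ℝ => L (b i)) h).symm
  simp only [e]
  rw [integral_finsetSum _ fun i _ => hi i]
  refine Finset.sum_eq_zero fun i _ => ?_
  have := integral_mul_fderiv_eq_neg_fderiv_mul_of_integrable (μ := (volume : Measure E))
    (f := fun _ => (1 : ℝ)) (g := fun y => ⟪b i, V y⟫) (v := b i) (by simp)
    (by simpa using hi i)
    (by simpa using (hg i).continuous.integrable_of_hasCompactSupport (hs i))
    (fun _ _ => differentiableAt_const _) (fun y _ => (hg i).differentiable one_ne_zero y)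
  simpa using this

theorem glue {W : Type} [NormedAddCommGroup W] [NormedSpace ℝ W] {f : E → W} {s R : ℝ}
    (hs : s < R) (hf : ContDiffOn ℝ 1 f (ball 0 R))
    (h0 : ∀ y, y ∉ closedBall (0 : E) s → f y = 0) : ContDiff ℝ 1 f := by
  refine contDiff_iff_contDiffAt.2 fun y => ?_
  by_cases hy : y ∈ closedBall (0 : E) s
  · exact hf.contDiffAt (isOpen_ball.mem_nhds (closedBall_subset_ball hs hy))
  · refine (contDiffAt_const (c := (0 : W))).congr_of_eventuallyEq ?_
    filter_upwards [isClosed_closedBall.isOpen_compl.mem_nhds hy] with z hz using h0 z hz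

theorem fderiv_zero {W : Type} [NormedAddCommGroup W] [NormedSpace ℝ W] {f : E → W} {s : ℝ}
    (h0 : ∀ y, y ∉ closedBall (0 : E) s → f y = 0) {y : E} (hy : y ∉ closedBall (0 : E) s) :
    fderiv ℝ f y = 0 := by
  have : f =ᶠ[𝓝 y] fun _ => 0 := by
    filter_upwards [isClosed_closedBall.isOpen_compl.mem_nhds hy] with z hz using h0 z hz
  rw [this.fderiv_eq]
  simp

/-- an invariant partition of unity -/
theorem exists_chi (h : IsLattice J a) (hF : Fund a F) (hr : r < 1)
    (hFr : F ⊆ closedBall 0 r) : ∃ (χ : E → ℝ) (s R : ℝ) (T : Finset Γ), r < R ∧ s < R ∧ R < 1 ∧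
      ContDiff ℝ 1 χ ∧ (∀ y, y ∉ closedBall (0 : E) s → χ y = 0) ∧
      (∀ y ∈ ball (0 : E) R, ∀ γ, γ ∉ T → a γ y ∉ closedBall (0 : E) s) ∧
      ∀ y ∈ ball (0 : E) R, ∑ γ ∈ T, χ (a γ y) = 1 := by
  have h1 : max r 0 < 1 := max_lt hr one_pos
  have h2 := le_max_left r 0
  have h3 := le_max_right r 0
  let c : ContDiffBump (0 : E) := ⟨(max r 0 + 1) / 2, (max r 0 + 3) / 4, by linarith, by linarith⟩
  have hR : (max r 0 + 7) / 8 < 1 := by linarith
  have hs : c.rOut < (max r 0 + 7) / 8 := by change (max r 0 + 3) / 4 < _; linarith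
  set R := (max r 0 + 7) / 8 with hRd
  have hB : ball (0 : E) R ⊆ ball 0 1 := ball_subset_ball hR.le
  set T := (h.disc R hR).toFinset with hT
  have hout : ∀ y ∈ ball (0 : E) R, ∀ γ, γ ∉ T → a γ y ∉ closedBall (0 : E) c.rOut :=
    fun y hy γ hγ hm => hγ ((Finite.mem_toFinset _).2
      ⟨y, ball_subset_closedBall hy, closedBall_subset_closedBall hs.le hm⟩)
  have hc0 : ∀ y, y ∉ closedBall (0 : E) c.rOut → c y = 0 := fun y hy =>
    c.zero_of_le_dist (le_of_lt (not_le.1 hy))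
  set S : E → ℝ := fun y => ∑ᶠ γ, c (a γ y) with hS
  have e1 : ∀ y ∈ ball (0 : E) R, S y = ∑ γ ∈ T, c (a γ y) := fun y hy =>
    finsum_eq_sum_of_support_subset _ fun γ hγ => by
      by_contra hn
      exact hγ (hc0 _ (hout y hy γ hn))
  have e2 : ∀ y ∈ ball (0 : E) 1, ∀ δ, S (a δ y) = S y := fun y hy δ => by
    rw [hS]
    simp only [← h.mul _ δ y hy]
    exact finsum_comp_equiv (Equiv.mulRight δ) (f := fun γ => c (a γ y))
  have e3 : ∀ y ∈ ball (0 : E) R, 0 < S y := fun y hy => by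
    obtain ⟨γ, hγ, -⟩ := hF.uniq y (hB hy)
    have a1 : c (a γ y) = 1 := c.one_of_mem_closedBall
      (closedBall_subset_closedBall (by change r ≤ (max r 0 + 1) / 2; linarith) (hFr hγ))
    have a2 : γ ∈ T := by
      by_contra hn
      rw [hc0 _ (hout y hy γ hn)] at a1
      exact zero_ne_one a1
    rw [e1 y hy]
    exact Finset.sum_pos' (fun _ _ => c.nonneg) ⟨γ, a2, by rw [a1]; exact one_pos⟩
  have e4 : ContDiffOn ℝ 1 S (ball 0 R) :=
    (ContDiffOn.sum fun γ _ => c.contDiff.comp_contDiffOn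
      (((h.smooth γ).of_le (by simp)).mono hB)).congr e1
  have e5 : ∀ y, y ∉ closedBall (0 : E) c.rOut → c y / S y = 0 := fun y hy => by
    rw [hc0 y hy, zero_div]
  refine ⟨fun y => c y / S y, c.rOut, R, T, by linarith, hs, hR,
    glue hs (c.contDiff.contDiffOn.div e4 fun y hy => (e3 y hy).ne') e5, e5, hout,
    fun y hy => ?_⟩
  simp only [e2 y (hB hy)]
  rw [← Finset.sum_div, ← e1 y hy, div_self (e3 y hy).ne']

end DivAux

theorem div_zero (H : Inv J a G) (hF : Fund a F) (hr : r < 1) (hFr : F ⊆ closedBall 0 r)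
    {X : E → E} (hX : ContDiffOn ℝ ∞ X (ball 0 1))
    (hXi : ∀ γ, ∀ x ∈ ball (0 : E) 1, fderiv ℝ (a γ) x (X x) = X (a γ x)) {k : E → ℝ}
    (hk : ContinuousOn k (ball 0 1)) (hki : ∀ γ, ∀ x ∈ ball (0 : E) 1, k (a γ x) = k x)
    (hd : ∀ x ∈ ball (0 : E) 1, tr (fderiv ℝ (fun y => rho G y • X y) x) = rho G x * k x) :
    ∫ x in F, k x ∂vol G = 0 := by
  have := H.lat.countable
  obtain ⟨χ, s, R, T, hrR, hsR, hR, cχ, χ0, hout, hsum⟩ := DivAux.exists_chi H.lat hF hr hFr
  have hs : s < 1 := hsR.trans hR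
  have hB : ball (0 : E) R ⊆ ball 0 1 := ball_subset_ball hR.le
  have hFR : F ⊆ ball (0 : E) R := hFr.trans (closedBall_subset_ball hrR)
  have dχ := cχ.differentiable one_ne_zero
  have cY : ContDiffOn ℝ 1 (fun y => rho G y • X y) (ball 0 1) :=
    (H.met.rho_smooth.smul hX).of_le (by simp)
  set V : E → E := fun y => χ y • (rho G y • X y) with hV
  have V0 : ∀ y, y ∉ closedBall (0 : E) s → V y = 0 := fun y hy => by
    simp only [hV, χ0 y hy, zero_smul]
  have cV : ContDiff ℝ 1 V := DivAux.glue hs (cχ.contDiffOn.smul cY) V0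
  set g : E → ℝ := fun y => χ y * k y + fderiv ℝ χ y (X y) with hg
  have g0 : ∀ y, y ∉ closedBall (0 : E) s → g y = 0 := fun y hy => by
    simp [hg, χ0 y hy, DivAux.fderiv_zero χ0 hy]
  have cg : ContinuousOn g (ball 0 1) := (cχ.continuous.continuousOn.mul hk).add
    ((cχ.continuous_fderiv one_ne_zero).continuousOn.clm_apply hX.continuousOn)
  have ig : Integrable g (vol G) :=
    (integrableOn_vol H.met hs measurableSet_closedBall subset_rfl
      cg).integrable_of_forall_notMem_eq_zero g0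
  have e1 : ∀ y ∈ ball (0 : E) 1, tr (fderiv ℝ V y) = rho G y * g y := fun y hy => by
    have d1 := (cY.contDiffAt (isOpen_ball.mem_nhds hy)).differentiableAt one_ne_zero
    rw [hV, fderiv_fun_smul (dχ y) d1, tr_add, tr_smul, tr_smulRight, hd y hy, map_smul, hg]
    simp only [smul_eq_mul]
    ring
  have e2 : ∫ y, g y ∂vol G = 0 := by
    rw [vol, integral_withDensity_eq_integral_toReal_smul₀ H.met.aemeas_rho
      (.of_forall fun _ => ENNReal.ofReal_lt_top),
      ← DivAux.int_tr cV (HasCompactSupport.intro (isCompact_closedBall (0 : E) s) V0),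
      ← setIntegral_eq_integral_of_forall_compl_eq_zero (s := ball (0 : E) 1)
        (f := fun y => tr (fderiv ℝ V y)) fun y hy => by
        rw [DivAux.fderiv_zero V0 fun h => hy (closedBall_subset_ball hs h)]
        simp [tr]]
    refine setIntegral_congr_fun measurableSet_ball fun y hy => ?_
    simp only [e1 y hy, smul_eq_mul]
    rw [ENNReal.toReal_ofReal (show 0 ≤ rho G y from Real.sqrt_nonneg _)]
  rw [← e2, H.act_vol.integral_unfold (hF.ae_vol G) ig T fun y hy γ hγ => by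
    rw [ab_of_mem a γ (hF.sub hy)]
    exact g0 _ (hout y (hFR hy) γ hγ)]
  refine setIntegral_congr_fun hF.meas fun y hy => ?_
  have hy1 := hF.sub hy
  have d2 : ∀ γ, HasFDerivAt (fun z => χ (a γ z)) (fderiv ℝ χ (a γ y) ∘L fderiv ℝ (a γ) y) y :=
    fun γ => (dχ _).hasFDerivAt.comp y ((H.iso γ).diffAt hy1).hasFDerivAt
  have d3 := HasFDerivAt.fun_sum (u := T) fun γ _ => d2 γ
  have d4 : HasFDerivAt (fun z => ∑ γ ∈ T, χ (a γ z)) (0 : E →L[ℝ] ℝ) y := by
    refine (hasFDerivAt_const (1 : ℝ) y).congr_of_eventuallyEq ?_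
    filter_upwards [isOpen_ball.mem_nhds (hFR hy)] with z hz using hsum z hz
  have e3 := congrArg (fun L : E →L[ℝ] ℝ => L (X y)) (d3.unique d4)
  simp only [_root_.sum_apply, ContinuousLinearMap.comp_apply, hXi _ y hy1,
    _root_.zero_apply] at e3
  simp only [ab_of_mem a _ hy1, hg, hki _ y hy1, Finset.sum_add_distrib, e3, ← Finset.sum_mul,
    hsum y (hFR hy), one_mul, add_zero]

end Pool.Agent.Lib.MP_235f17_gt.K
end

-- part Pool.Agent.Lib.MP_235f17_gt.K.AB
section

/-! The two cohomological identities. -/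

set_option autoImplicit false
set_option linter.unusedSectionVars false

open MeasureTheory Set Filter Topology Metric
open scoped ContDiff ENNReal RealInnerProductSpace

namespace Pool.Agent.Lib.MP_235f17_gt.K

variable {E : Type} [NormedAddCommGroup E] [InnerProductSpace ℝ E] [FiniteDimensional ℝ E]
  [MeasurableSpace E] [BorelSpace E] {J : E →L[ℝ] E} {G G' : E → E →L[ℝ] E}
  {Ψ : ℝ → E × E → E × E} {Γ : Type} [Group Γ] {a : Γ → E → E} {F F' : Set E} {r : ℝ}
  {d : E → E → ℝ}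

namespace ABAux

theorem det_J (hJ : IsCx J) : J.det = 1 := by
  have h1 : J ∘L J = (-1 : ℝ) • ContinuousLinearMap.id ℝ E := by
    ext v
    simp [hJ.1]
  have h2 : (ContinuousLinearMap.id ℝ E + J) ∘L (ContinuousLinearMap.id ℝ E + J) =
      (2 : ℝ) • J := by
    ext v
    simp only [ContinuousLinearMap.comp_apply, ContinuousLinearMap.add_apply,
      ContinuousLinearMap.id_apply, map_add, hJ.1, ContinuousLinearMap.smul_apply, two_smul]
    abel
  have ds : ∀ (c : ℝ) (A : E →L[ℝ] E), (c • A).det = c ^ Module.finrank ℝ E * A.det :=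
    fun c A => LinearMap.det_smul c (A : E →ₗ[ℝ] E)
  have h3 := congrArg ContinuousLinearMap.det h1
  have h4 := congrArg ContinuousLinearMap.det h2
  rw [det_comp, ds] at h3 h4
  have h5 : (ContinuousLinearMap.id ℝ E).det = 1 := LinearMap.det_id
  rw [h5, mul_one] at h3
  have h6 : 0 ≤ J.det := by
    have h7 : (0 : ℝ) < 2 ^ Module.finrank ℝ E := by positivity
    have h8 := mul_self_nonneg (ContinuousLinearMap.id ℝ E + J).det
    rw [h4] at h8
    exact nonneg_of_mul_nonneg_right h8 h7 |> fun h => h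
  rcases neg_one_pow_eq_or ℝ (Module.finrank ℝ E) with h | h
  · rw [h] at h3
    nlinarith
  · rw [h] at h3
    nlinarith

theorem exists_sharp : ∃ L : (E →L[ℝ] ℝ) →L[ℝ] E, ∀ f v, ⟪L f, v⟫ = f v := by
  let b := stdOrthonormalBasis ℝ E
  refine ⟨∑ i, (ContinuousLinearMap.apply ℝ ℝ (b i)).smulRight (b i), fun f v => ?_⟩
  conv_rhs => rw [← b.sum_repr' v]
  simp [sum_inner, inner_smul_left, mul_comm]

theorem om_inv (hJ : IsCx J) (hG : IsMetric G) {x : E} (hx : x ∈ ball (0 : E) 1) :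
    (G x ∘L J).IsInvertible := by
  refine isInv_of_det ?_
  rw [det_comp, det_J hJ, mul_one]
  exact (hG.det_pos hx).ne'

theorem om_inverse (hJ : IsCx J) (hG : IsMetric G) {x : E} (hx : x ∈ ball (0 : E) 1) :
    (G x ∘L J).inverse = (-J) ∘L (G x).inverse := by
  ext v
  rw [(om_inv hJ hG hx).inverse_apply_eq]
  simp [hJ.1, (hG.isInv hx).self_apply_inverse]

theorem ext_surj {D : E →L[ℝ] E} (hD : Function.Injective D) {y z : E}
    (h : ∀ w, ⟪y, D w⟫ = ⟪z, D w⟫) : y = z := by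
  refine ext_inner_right ℝ fun v => ?_
  have := h (D.inverse v)
  rwa [(isInv_of_inj hD).self_apply_inverse] at this

theorem tr_inv (H : Inv J a G) (H' : Inv J a G') (γ : Γ) {x : E} (hx : x ∈ ball (0 : E) 1) :
    tr ((G (a γ x)).inverse ∘L G' (a γ x)) = tr ((G x).inverse ∘L G' x) := by
  set D := fderiv ℝ (a γ) x with hD
  have hi : Function.Injective D := (H.iso γ).fderiv_inj H.met hx
  have hy := H.lat.maps γ hx
  have h1 : ∀ u, (G (a γ x)).inverse (G' (a γ x) (D u)) = D ((G x).inverse (G' x u)) := by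
    intro u
    rw [(H.met.isInv hy).inverse_apply_eq]
    refine ext_surj hi fun w => ?_
    have e1 := H.inv γ x hx ((G x).inverse (G' x u)) w
    have e2 := H'.inv γ x hx u w
    simp only [gm, (H.met.isInv hx).self_apply_inverse] at e1 e2
    rw [e1, e2]
  have h2 : (G (a γ x)).inverse ∘L G' (a γ x) =
      D ∘L (((G x).inverse ∘L G' x) ∘L D.inverse) := by
    ext v
    simp only [ContinuousLinearMap.comp_apply]
    rw [← h1, (isInv_of_inj hi).self_apply_inverse]
  rw [h2, tr_comm]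
  congr 1
  ext v
  simp only [ContinuousLinearMap.comp_apply]
  rw [(isInv_of_inj hi).inverse_apply_self]

theorem tr_cont (hG : IsMetric G) (hG' : IsMetric G') :
    ContinuousOn (fun x => tr ((G x).inverse ∘L G' x)) (ball 0 1) :=
  (trL E).continuous.comp_continuousOn
    (hG.inv_smooth.continuousOn.clm_comp hG'.smooth.continuousOn)

end ABAux

/-- for an invariant Hermitian metric with exact form on the ball and an invariant one-form -/
theorem int_dtheta (H : Inv J a G)
    (hher : ∀ x ∈ ball (0 : E) 1, ∀ u v, gm G x (J u) (J v) = gm G x u v)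
    {η : E → E →L[ℝ] ℝ} (hη : ContDiffOn ℝ ∞ η (ball 0 1))
    (hdη : ∀ x ∈ ball (0 : E) 1, ∀ u v, gm G x (J u) v = fderiv ℝ η x u v - fderiv ℝ η x v u)
    {θ : E → E →L[ℝ] ℝ} (hθ : ContDiffOn ℝ ∞ θ (ball 0 1))
    (hθi : ∀ γ, ∀ x ∈ ball (0 : E) 1, ∀ v, θ (a γ x) (fderiv ℝ (a γ) x v) = θ x v)
    (H' : Inv J a G') {s c : ℝ} (hd : ∀ x ∈ ball (0 : E) 1, ∀ u v,
      s * gm G' x (J u) v - c * gm G x (J u) v = fderiv ℝ θ x u v - fderiv ℝ θ x v u)
    (hF : Fund a F) (hr : r < 1) (hFr : F ⊆ closedBall 0 r) :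
    s * ∫ x in F, tr ((G x).inverse ∘L G' x) ∂vol G =
      c * Module.finrank ℝ E * (vol G).real F := by
  obtain ⟨L, hL⟩ := ABAux.exists_sharp (E := E)
  have hJ := H.cx
  have hG := H.met
  set n : ℝ := (Module.finrank ℝ E : ℝ) with hn
  have hθd : ∀ x ∈ ball (0 : E) 1, DifferentiableAt ℝ θ x := fun x hx =>
    (hθ.contDiffAt (isOpen_ball.mem_nhds hx)).differentiableAt (by simp)
  have hX : ContDiffOn ℝ ∞ (fun y => (G y ∘L J).inverse (L (θ y))) (ball 0 1) := by
    have h1 : ContDiffOn ℝ ∞ (fun y => (-J) ((G y).inverse (L (θ y)))) (ball 0 1) :=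
      (-J).contDiff.comp_contDiffOn (hG.inv_smooth.clm_apply (L.contDiff.comp_contDiffOn hθ))
    refine h1.congr fun y hy => ?_
    rw [ABAux.om_inverse hJ hG hy]
    rfl
  have hk := ABAux.tr_cont hG H'.met
  have key := div_zero H hF hr hFr hX (k := fun x => (s * tr ((G x).inverse ∘L G' x) - c * n) / 2)
    (fun γ x hx => by
      have hi := (H.iso γ).fderiv_inj hG hx
      symm
      rw [(ABAux.om_inv hJ hG (H.lat.maps γ hx)).inverse_apply_eq]
      refine ABAux.ext_surj hi fun w => ?_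
      have e1 := H.inv γ x hx (J ((G x ∘L J).inverse (L (θ x)))) w
      rw [H.lat.hol γ x hx] at e1
      have e2 : G x (J ((G x ∘L J).inverse (L (θ x)))) = L (θ x) :=
        (ABAux.om_inv hJ hG hx).self_apply_inverse _
      simp only [gm, e2] at e1
      rw [hL, hθi γ x hx, ContinuousLinearMap.comp_apply, e1, hL])
    (((hk.const_smul s).sub continuousOn_const).div_const 2)
    (fun γ x hx => by simp only [ABAux.tr_inv H H' γ hx])
    (fun x hx => by
      have hb := isOpen_ball.mem_nhds hx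
      have hΩ : DifferentiableAt ℝ (fun y => G y ∘L J) x :=
        (hG.diffAt hx).clm_comp (differentiableAt_const J)
      have h := div_symp (Ω := fun y => G y ∘L J) (ρ := rho G) (A := fun y => L (θ y)) (x := x)
        (M := s • (G' x ∘L J) - c • (G x ∘L J)) hΩ
        ((hG.rho_smooth.contDiffAt hb).differentiableAt (by simp))
        (L.differentiableAt.comp x (hθd x hx))
        (Filter.mem_of_superset hb fun y hy u v => by
          have e1 := hher y hy (J u) v
          rw [hJ.1, gm_neg_left, hG.symm y hy u] at e1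
          exact e1.symm)
        (Filter.mem_of_superset hb fun y hy => by
          show (G y ∘L J).det = rho G y ^ 2
          rw [det_comp, ABAux.det_J hJ, mul_one, hG.rho_sq hy])
        (hG.rho_pos hx)
        (closed_of_exact hΩ (hη.contDiffAt hb) (Filter.mem_of_superset hb fun y hy => hdη y hy))
        (fun u v => by
          have e : fderiv ℝ (fun y => L (θ y)) x = L ∘L fderiv ℝ θ x :=
            (L.hasFDerivAt.comp x (hθd x hx).hasFDerivAt).fderiv
          rw [e, ContinuousLinearMap.comp_apply, ContinuousLinearMap.comp_apply, hL, hL,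
            ← hd x hx]
          simp [gm, inner_sub_left, inner_smul_left])
      rw [h]
      have e1 : (G x ∘L J).inverse ∘L (s • (G' x ∘L J) - c • (G x ∘L J)) =
          s • (((-J) ∘L ((G x).inverse ∘L G' x)) ∘L J) - c • ContinuousLinearMap.id ℝ E := by
        ext v
        simp only [ContinuousLinearMap.comp_apply, ContinuousLinearMap.sub_apply,
          ContinuousLinearMap.smul_apply, map_sub, map_smul, ContinuousLinearMap.id_apply]
        rw [← ContinuousLinearMap.comp_apply (G x) J v,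
          (ABAux.om_inv hJ hG hx).inverse_apply_self, ABAux.om_inverse hJ hG hx]
        rfl
      have e2 : J ∘L ((-J) ∘L ((G x).inverse ∘L G' x)) = (G x).inverse ∘L G' x := by
        ext v
        simp [hJ.1]
      rw [e1, tr_sub, tr_smul, tr_smul, tr_comm, e2, tr_id]
      ring)
  have i1 := integrableOn_vol hG hr hF.meas hFr hk
  have i2 := integrableOn_vol hG hr hF.meas hFr (k := fun _ => c * n) continuousOn_const
  rw [integral_div, integral_sub (i1.const_mul s) i2, integral_const_mul, setIntegral_const,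
    smul_eq_mul] at key
  linarith

theorem int_AB (H : Inv J a G)
    (hher : ∀ x ∈ ball (0 : E) 1, ∀ u v, gm G x (J u) (J v) = gm G x u v) {c : ℝ}
    {θ : E → E →L[ℝ] ℝ} (hθ : ContDiffOn ℝ ∞ θ (ball 0 1))
    (hθi : ∀ γ, ∀ x ∈ ball (0 : E) 1, ∀ v, θ (a γ x) (fderiv ℝ (a γ) x v) = θ x v)
    (hd : ∀ x ∈ ball (0 : E) 1, ∀ u v,
      gm G x (J u) v - c * gm (berg J) x (J u) v = fderiv ℝ θ x u v - fderiv ℝ θ x v u)
    (hF : Fund a F) (hr : r < 1) (hFr : F ⊆ closedBall 0 r) :
    ∫ x in F, tr ((berg J x).inverse ∘L G x) ∂vol (berg J) =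
      c * Module.finrank ℝ E * (vol (berg J)).real F ∧
    c * ∫ x in F, tr ((G x).inverse ∘L berg J x) ∂vol G =
      Module.finrank ℝ E * (vol G).real F := by
  obtain ⟨θ0, h0, hd0⟩ := berg_exact H.cx
  have hθd : ∀ x ∈ ball (0 : E) 1, DifferentiableAt ℝ θ x := fun x hx =>
    (hθ.contDiffAt (isOpen_ball.mem_nhds hx)).differentiableAt (by simp)
  have h0d : ∀ x ∈ ball (0 : E) 1, DifferentiableAt ℝ θ0 x := fun x hx =>
    (h0.contDiffAt (isOpen_ball.mem_nhds hx)).differentiableAt (by simp)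
  constructor
  · have := int_dtheta H.toBerg (fun x _ u v => berg_J H.cx x u v) h0 hd0 hθ hθi H (s := 1)
      (c := c) (fun x hx u v => by rw [one_mul]; exact hd x hx u v) hF hr hFr
    rwa [one_mul] at this
  · have := int_dtheta H hher (η := fun y => c • θ0 y + θ y) ((h0.const_smul c).add hθ)
      (fun x hx u v => by
        have e : fderiv ℝ (fun y => c • θ0 y + θ y) x = c • fderiv ℝ θ0 x + fderiv ℝ θ x :=
          (((h0d x hx).hasFDerivAt.const_smul c).add (hθd x hx).hasFDerivAt).fderiv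
        have e1 := hd x hx u v
        have e2 := hd0 x hx u v
        rw [e]
        simp only [ContinuousLinearMap.add_apply, ContinuousLinearMap.smul_apply, smul_eq_mul]
        rw [e2] at e1
        linarith)
      (θ := fun y => -θ y) hθ.neg
      (fun γ x hx v => by
        simp only [ContinuousLinearMap.neg_apply, hθi γ x hx])
      H.toBerg (s := c) (c := 1)
      (fun x hx u v => by
        have e : fderiv ℝ (fun y => -θ y) x = -fderiv ℝ θ x := (hθd x hx).hasFDerivAt.neg.fderiv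
        have e1 := hd x hx u v
        rw [e]
        simp only [ContinuousLinearMap.neg_apply]
        linarith) hF hr hFr
    rwa [one_mul] at this

end Pool.Agent.Lib.MP_235f17_gt.K
end
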