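import Pool.Agent.Lib.MP_235f17_gt.K.Geo

-- part Pool.Agent.Lib.MP_235f17_gt.K.OdeB
section

/-! Smoothness of complete flows and the variational equation. -/

set_option autoImplicit false
set_option linter.unusedSectionVars false

open MeasureTheory Set Filter Topology Metric
open scoped ContDiff ENNReal RealInnerProductSpace

namespace Pool.Agent.Lib.MP_235f17_gt.K

variable {W : Type} [NormedAddCommGroup W] [NormedSpace ℝ W] [FiniteDimensional ℝ W]
  {U : Set W} {Y : W → W} {Ψ : ℝ → W → W}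

theorem IsFlowOn.smooth (hU : IsOpen U) (hY : ContDiffOn ℝ ∞ Y U) (h : IsFlowOn U Y Ψ) :
    ContDiffOn ℝ ∞ (fun q : ℝ × W => Ψ q.1 q.2) (univ ×ˢ U) := by
  rintro ⟨t0, p0⟩ ⟨-, hp0⟩
  have hc : Continuous fun s => Ψ s p0 :=
    continuous_iff_continuousAt.2 fun s => (h.ode p0 hp0 s).continuousAt
  obtain ⟨Z, O, hO, hKO, hOU, hZ, hZc, hZY⟩ := exists_cut hU hY
    ((isCompact_Icc (a := -(|t0| + 1)) (b := |t0| + 1)).image hc)
    (image_subset_iff.2 fun s _ => h.mem p0 hp0 s)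
  obtain ⟨ψ, hψ, h0, hd⟩ := exists_smooth_flow hZ hZc
  obtain ⟨L, hL⟩ := hZ.lipschitzWith_of_hasCompactSupport hZc (by simp)
  have hin : ∀ t s : ℝ, |t| ≤ |t0| + 1 → s ∈ uIcc 0 t → s ∈ Icc (-(|t0| + 1)) (|t0| + 1) :=
    fun t s ht hs => abs_le.1 (le_trans (by simpa using abs_sub_left_of_mem_uIcc hs) ht)
  have e0 : ∀ s ∈ Icc (-(|t0| + 1)) (|t0| + 1), ψ s p0 = Ψ s p0 := fun s hs =>
    ode_unique_on isOpen_univ hZ.contDiffOn (f := fun s => ψ s p0) (g := fun s => Ψ s p0)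
      (fun u _ => ⟨trivial, hd p0 u⟩)
      (fun u hu => ⟨trivial, by
        rw [hZY (hKO ⟨u, hin s u (abs_le.2 hs) hu, rfl⟩)]
        exact h.ode p0 hp0 u⟩) ((h0 p0).trans (h.zero p0).symm)
  have h1 : ∀ᶠ q in 𝓝 p0, ∀ s ∈ Icc (-(|t0| + 1)) (|t0| + 1), ψ s q ∈ O := by
    refine isCompact_Icc.eventually_forall_of_forall_eventually fun s hs => ?_
    have : ContinuousAt (fun z : W × ℝ => ψ z.2 z.1) (p0, s) :=
      (hψ.continuous.comp (continuous_snd.prodMk continuous_fst)).continuousAt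
    exact this.preimage_mem_nhds (hO.mem_nhds (by
      show ψ s p0 ∈ O
      rw [e0 s hs]
      exact hKO ⟨s, hs, rfl⟩))
  refine (hψ.contDiffAt.congr_of_eventuallyEq ?_).contDiffWithinAt
  have h2 : ∀ᶠ t in 𝓝 t0, |t| ≤ |t0| + 1 :=
    continuous_abs.continuousAt.eventually (ge_mem_nhds (lt_add_one |t0|))
  filter_upwards [prod_mem_nhds h2 (h1.and (hU.mem_nhds hp0))] with z hz
  exact ode_unique_on hU hY (f := fun s => Ψ s z.2) (g := fun s => ψ s z.2)
    (fun s _ => ⟨h.mem _ hz.2.2 s, h.ode _ hz.2.2 s⟩)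
    (fun s hs => ⟨hOU (hz.2.1 s (hin _ s hz.1 hs)),
      hZY (hz.2.1 s (hin _ s hz.1 hs)) ▸ hd z.2 s⟩) ((h.zero _).trans (h0 _).symm)

theorem IsFlowOn.smooth_at (hU : IsOpen U) (hY : ContDiffOn ℝ ∞ Y U) (h : IsFlowOn U Y Ψ)
    (t : ℝ) : ContDiffOn ℝ ∞ (Ψ t) U := by
  exact (h.smooth hU hY).comp (f := fun p => (t, p)) (contDiffOn_const.prodMk contDiffOn_id)
    fun p hp => ⟨trivial, hp⟩

theorem IsFlowOn.add (hU : IsOpen U) (hY : ContDiffOn ℝ ∞ Y U) (h : IsFlowOn U Y Ψ) (s t : ℝ)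
    (p : W) : Ψ (s + t) p = Ψ s (Ψ t p) := by
  by_cases hp : p ∈ U
  · have := h.unique hU hY (f := fun s => Ψ (s + t) p)
      (fun s => ⟨h.mem p hp _, (h.ode p hp (s + t)).comp_add_const s t⟩) s
    simpa using this.symm
  · rw [h.out p hp, h.out p hp, h.out p hp]

theorem IsFlowOn.iterate (hU : IsOpen U) (hY : ContDiffOn ℝ ∞ Y U) (h : IsFlowOn U Y Ψ)
    (n : ℕ) : (Ψ 1)^[n] = Ψ n := by
  induction n with
  | zero => funext p; simp [h.zero]
  | succ n ih =>
    funext p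
    rw [Function.iterate_succ_apply', ih, ← h.add hU hY, Nat.cast_succ, add_comm]

theorem IsFlowOn.fderiv_zero (h : IsFlowOn U Y Ψ) (p : W) :
    fderiv ℝ (Ψ 0) p = ContinuousLinearMap.id ℝ W := by
  rw [show Ψ 0 = id from funext h.zero, fderiv_id]

/-- the variational equation -/
theorem IsFlowOn.var (hU : IsOpen U) (hY : ContDiffOn ℝ ∞ Y U) (h : IsFlowOn U Y Ψ) {p : W}
    (hp : p ∈ U) (t : ℝ) : HasDerivAt (fun s => fderiv ℝ (Ψ s) p)
      (fderiv ℝ Y (Ψ t p) ∘L fderiv ℝ (Ψ t) p) t := by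
  let H : ℝ × W → W := fun q => Ψ q.1 q.2
  have hO : IsOpen ((univ : Set ℝ) ×ˢ U) := isOpen_univ.prod hU
  have hH : ∀ s, ∀ q ∈ U, ContDiffAt ℝ ∞ H (s, q) := fun s q hq =>
    (h.smooth hU hY).contDiffAt (hO.mem_nhds ⟨trivial, hq⟩)
  have hD : ∀ s, ∀ q ∈ U, HasFDerivAt H (fderiv ℝ H (s, q)) (s, q) := fun s q hq =>
    ((hH s q hq).differentiableAt (by simp)).hasFDerivAt
  have e1 : ∀ s, ∀ q ∈ U, HasFDerivAt (Ψ s) (fderiv ℝ H (s, q) ∘L ContinuousLinearMap.inr ℝ ℝ W)
      q := fun s q hq => (hD s q hq).comp q (hasFDerivAt_prodMk_right s q)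
  have e2 : ∀ q ∈ U, fderiv ℝ H (t, q) (1, 0) = Y (Ψ t q) := fun q hq => by
    have h1 : HasDerivAt (fun s : ℝ => (s, q)) ((1 : ℝ), (0 : W)) t :=
      (hasDerivAt_id t).prodMk (hasDerivAt_const t q)
    have h2 := HasFDerivAt.comp_hasDerivAt (l := H) (f := fun s : ℝ => (s, q)) t (hD t q hq) h1
    exact h2.unique (h.ode q hq t)
  have hD2 : HasFDerivAt (fderiv ℝ H) (fderiv ℝ (fderiv ℝ H) (t, p)) (t, p) :=
    (((hH t p hp).fderiv_right (m := 1) (by norm_cast)).differentiableAt one_ne_zero).hasFDerivAt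
  have hs := (hH t p hp).isSymmSndFDerivAt (by simp; norm_cast)
  have h1 : HasDerivAt (fun s : ℝ => (s, p)) ((1 : ℝ), (0 : W)) t :=
    (hasDerivAt_id t).prodMk (hasDerivAt_const t p)
  have h2 := (HasFDerivAt.comp_hasDerivAt (l := fderiv ℝ H) (f := fun s : ℝ => (s, p)) t hD2
    h1).clm_comp
    (hasDerivAt_const t (ContinuousLinearMap.inr ℝ ℝ W))
  have h3 : (fun s => fderiv ℝ (Ψ s) p) = fun s =>
      fderiv ℝ H (s, p) ∘L ContinuousLinearMap.inr ℝ ℝ W := funext fun s => (e1 s p hp).fderiv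
  rw [h3]
  refine h2.congr_deriv ?_
  have h4 := (hD2.comp p (hasFDerivAt_prodMk_right t p)).clm_apply
    (hasFDerivAt_const ((1 : ℝ), (0 : W)) p)
  have h5 := ((hY.contDiffAt (hU.mem_nhds (h.mem p hp t))).differentiableAt
    (by simp)).hasFDerivAt.comp p (e1 t p hp)
  have h6 := h4.unique (h5.congr_of_eventuallyEq (by
    filter_upwards [hU.mem_nhds hp] with q hq using e2 q hq))
  rw [(e1 t p hp).fderiv, ← h6]
  ext ξ
  simp [hs.eq (1, 0) (0, ξ)]

theorem IsFlowOn.measurable [MeasurableSpace W] [BorelSpace W] (hU : IsOpen U)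
    (hY : ContDiffOn ℝ ∞ Y U) (h : IsFlowOn U Y Ψ) :
    Measurable fun q : ℝ × W => Ψ q.1 q.2 := by
  have := FiniteDimensional.proper_real W
  exact meas_of_contOn (U := univ ×ˢ U) (MeasurableSet.univ.prod hU.measurableSet)
    (h.smooth hU hY).continuousOn measurable_snd fun q hq => h.out _ (by simpa using hq) _

theorem IsFlowOn.measurable_at [MeasurableSpace W] [BorelSpace W] (hU : IsOpen U)
    (hY : ContDiffOn ℝ ∞ Y U) (h : IsFlowOn U Y Ψ) (t : ℝ) : Measurable (Ψ t) :=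
  (h.measurable hU hY).comp (measurable_const.prodMk measurable_id)

end Pool.Agent.Lib.MP_235f17_gt.K
end

-- part Pool.Agent.Lib.MP_235f17_gt.K.Liou
section

/-! Liouville theorem: divergence free flows preserve the measure. -/

set_option autoImplicit false
set_option linter.unusedSectionVars false

open MeasureTheory Set Filter Topology Metric
open scoped ContDiff ENNReal RealInnerProductSpace

namespace Pool.Agent.Lib.MP_235f17_gt.K

variable {W : Type} [NormedAddCommGroup W] [NormedSpace ℝ W] [FiniteDimensional ℝ W]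
  {U : Set W} {Y : W → W} {Ψ : ℝ → W → W}

theorem IsFlowOn.jac (hU : IsOpen U) (hY : ContDiffOn ℝ ∞ Y U) (h : IsFlowOn U Y Ψ)
    {σ : W → ℝ} (hσ : DifferentiableOn ℝ σ U)
    (hdiv : ∀ p ∈ U, fderiv ℝ σ p (Y p) + σ p * tr (fderiv ℝ Y p) = 0) (t : ℝ) {p : W}
    (hp : p ∈ U) : σ (Ψ t p) * (fderiv ℝ (Ψ t) p).det = σ p := by
  have hd : ∀ s, ∀ q ∈ U, HasFDerivAt (Ψ s) (fderiv ℝ (Ψ s) q) q := fun s q hq =>
    (((h.smooth_at hU hY s).contDiffAt (hU.mem_nhds hq)).differentiableAt (by simp)).hasFDerivAt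
  have hdet : ∀ s, (fderiv ℝ (Ψ s) p).det ≠ 0 := fun s h0 => by
    have h1 := (hd (-s) _ (h.mem p hp s)).comp p (hd s p hp)
    have e : Ψ (-s) ∘ Ψ s = id := funext fun q => by
      rw [Function.comp_apply, ← h.add hU hY, neg_add_cancel, h.zero, id]
    rw [e] at h1
    have h2 := congrArg ContinuousLinearMap.det (h1.unique (hasFDerivAt_id p))
    rw [det_comp, h0, mul_zero] at h2
    simp [ContinuousLinearMap.det] at h2
  have key : ∀ s, HasDerivAt (fun s => σ (Ψ s p) * (fderiv ℝ (Ψ s) p).det) 0 s := fun s => by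
    have hq := h.mem p hp s
    have h1 := HasFDerivAt.comp_hasDerivAt (l := σ) (f := fun s => Ψ s p) s
      (hσ.differentiableAt (hU.mem_nhds hq)).hasFDerivAt (h.ode p hp s)
    have h2 := hasDerivAt_det (h.var hU hY hp s) (hdet s)
    refine (h1.mul h2).congr_deriv ?_
    rw [tr_comm, ContinuousLinearMap.comp_assoc, (isInv_of_det (hdet s)).self_comp_inverse,
      ContinuousLinearMap.comp_id]
    have := hdiv _ hq
    simp only [Function.comp_apply]
    linear_combination (fderiv ℝ (Ψ s) p).det * this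
  have := is_const_of_deriv_eq_zero (fun s => (key s).differentiableAt) (fun s => (key s).deriv) t 0
  simpa [h.fderiv_zero, h.zero, ContinuousLinearMap.det] using this

theorem IsFlowOn.measurePreserving [MeasurableSpace W] [BorelSpace W] (μ : Measure W)
    [μ.IsAddHaarMeasure] (hU : IsOpen U) (hY : ContDiffOn ℝ ∞ Y U) (h : IsFlowOn U Y Ψ)
    {σ : W → ℝ} (hσ : DifferentiableOn ℝ σ U) (hpos : ∀ p ∈ U, 0 < σ p)
    (hdiv : ∀ p ∈ U, fderiv ℝ σ p (Y p) + σ p * tr (fderiv ℝ Y p) = 0) (t : ℝ) :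
    MeasurePreserving (Ψ t) ((μ.restrict U).withDensity fun p => ENNReal.ofReal (σ p))
      ((μ.restrict U).withDensity fun p => ENNReal.ofReal (σ p)) := by
  have hm := h.measurable_at hU hY t
  refine ⟨hm, Measure.ext fun S hS => ?_⟩
  have hS' := hm hS
  rw [Measure.map_apply hm hS, withDensity_apply _ hS, withDensity_apply _ hS',
    Measure.restrict_restrict hS, Measure.restrict_restrict hS']
  have e : S ∩ U = Ψ t '' (Ψ t ⁻¹' S ∩ U) := by
    refine Subset.antisymm (fun q hq => ⟨Ψ (-t) q, ⟨?_, h.mem q hq.2 _⟩, ?_⟩) ?_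
    · rw [mem_preimage, ← h.add hU hY, add_neg_cancel, h.zero]
      exact hq.1
    · rw [← h.add hU hY, add_neg_cancel, h.zero]
    · rintro _ ⟨q, hq, rfl⟩
      exact ⟨hq.1, h.mem q hq.2 t⟩
  have hi : Function.Injective (Ψ t) := Function.LeftInverse.injective (g := Ψ (-t)) fun q => by
    rw [← h.add hU hY, neg_add_cancel, h.zero]
  rw [e, lintegral_image_eq_lintegral_abs_det_fderiv_mul μ (hS'.inter hU.measurableSet)
    (f' := fun p => fderiv ℝ (Ψ t) p) (fun p hp => (((h.smooth_at hU hY t).contDiffAt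
      (hU.mem_nhds hp.2)).differentiableAt (by simp)).hasFDerivAt.hasFDerivWithinAt) hi.injOn]
  refine setLIntegral_congr_fun (hS'.inter hU.measurableSet) fun p hp => ?_
  have h1 := h.jac hU hY hσ hdiv t hp.2
  have h2 := hpos _ (h.mem p hp.2 t)
  have h3 : 0 < (fderiv ℝ (Ψ t) p).det := (mul_pos_iff_of_pos_left h2).1 (h1 ▸ hpos p hp.2)
  rw [abs_of_pos h3, ← ENNReal.ofReal_mul h3.le, mul_comm, h1]

end Pool.Agent.Lib.MP_235f17_gt.K
end

-- part Pool.Agent.Lib.MP_235f17_gt.K.Hat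
section

/-! The geodesic flow preserves the Liouville measure. -/

set_option autoImplicit false
set_option linter.unusedSectionVars false

open MeasureTheory Set Filter Topology Metric
open scoped ContDiff ENNReal RealInnerProductSpace

namespace Pool.Agent.Lib.MP_235f17_gt.K

variable {E : Type} [NormedAddCommGroup E] [InnerProductSpace ℝ E] [FiniteDimensional ℝ E]
  [MeasurableSpace E] [BorelSpace E] {J : E →L[ℝ] E} {G G' : E → E →L[ℝ] E}
  {Ψ : ℝ → E × E → E × E} {Γ : Type} [Group Γ] {a : Γ → E → E} {F F' : Set E} {r : ℝ}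
  {d : E → E → ℝ}

namespace HatAux

/-- the punctured disc bundle -/
def pd (G : E → E →L[ℝ] E) : Set (E × E) := disc G ∩ {p | p.2 ≠ 0}

theorem pd_sub {p : E × E} (hp : p ∈ pd G) : p ∈ UU E := mem_UU.2 hp.1.1

theorem isOpen_pd (hG : IsMetric G) : IsOpen (pd G) :=
  hG.isOpen_disc.inter (isOpen_ne_fun continuous_snd continuous_const)

theorem mem_pd (h : IsGeo G Ψ) (hG : IsMetric G) {p : E × E} (hp : p ∈ pd G) (t : ℝ) :
    Ψ t p ∈ pd G := by
  refine ⟨⟨h.base (pd_sub hp) t, by rw [h.en hG]; exact hp.1.2⟩, fun h0 => ?_⟩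
  have := hG.pos _ hp.1.1 _ hp.2
  rw [← h.en hG p t, h0, gm_zero_left] at this
  exact lt_irrefl _ this

open Classical in
/-- the geodesic flow reparametrised by arc length -/
noncomputable def hat (G : E → E →L[ℝ] E) (Ψ : ℝ → E × E → E × E) (t : ℝ) (p : E × E) : E × E :=
  if p ∈ pd G then Ψ ((nm G p)⁻¹ * t) p else p

theorem hat_of {p : E × E} (hp : p ∈ pd G) (t : ℝ) : hat G Ψ t p = Ψ ((nm G p)⁻¹ * t) p :=
  if_pos hp

theorem hat_flow (h : IsGeo G Ψ) (hG : IsMetric G) :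
    IsFlowOn (pd G) (fun q => (nm G q)⁻¹ • fld G q) (hat G Ψ) where
  zero p := by
    by_cases hp : p ∈ pd G
    · rw [hat_of hp, mul_zero, h.zero]
    · exact if_neg hp
  mem p hp t := by
    rw [hat_of hp]
    exact mem_pd h hG hp _
  ode p hp t := by
    simp only [hat_of hp, h.nm_eq hG]
    have := (h.ode p (pd_sub hp) ((nm G p)⁻¹ * t)).scomp t
      ((hasDerivAt_id' t).const_mul (nm G p)⁻¹)
    simpa only [Function.comp_def, mul_one] using this
  out p hp t := if_neg hp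

theorem inv_smooth (hG : IsMetric G) : ContDiffOn ℝ ∞ (fun q => (nm G q)⁻¹) (pd G) :=
  ((hG.en_smooth.mono fun _ => pd_sub).sqrt fun _ hq => (hG.pos _ hq.1.1 _ hq.2).ne').inv
    fun _ hq => (hG.nm_pos (pd_sub hq) hq.2).ne'

theorem nu_eq [Nontrivial E] : nu G =
    (volume.restrict (pd G)).withDensity fun p => ENNReal.ofReal (G p.1).det := by
  have h0 : (volume : Measure (E × E)) (univ ×ˢ {0}) = 0 := by
    rw [Measure.volume_eq_prod, Measure.prod_prod]
    simp
  rw [nu, Measure.restrict_congr_set (t := pd G)]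
  filter_upwards [measure_eq_zero_iff_ae_notMem.1 h0] with p hp
  have : p.2 ≠ 0 := fun h => hp (by simp [h])
  exact propext ⟨fun h => ⟨h, this⟩, fun h => h.1⟩

theorem mp_nu [Nontrivial E] (h : IsGeo G Ψ) (hG : IsMetric G) (t : ℝ) :
    MeasurePreserving (hat G Ψ t) (nu G) (nu G) := by
  have hO := isOpen_pd hG
  have cF : ContDiffOn ℝ ∞ (fld G) (pd G) := (fld_smooth hG).mono fun _ => pd_sub
  have : (volume : Measure (E × E)).IsAddHaarMeasure := by
    rw [Measure.volume_eq_prod]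
    infer_instance
  rw [nu_eq]
  have cY : ContDiffOn ℝ ∞ (fun q => (nm G q)⁻¹ • fld G q) (pd G) := (inv_smooth hG).smul cF
  refine (hat_flow h hG).measurePreserving volume hO cY
    (σ := fun q => (G q.1).det)
    ((hG.det_smooth.comp contDiffOn_fst fun _ hq => hq.1.1).differentiableOn (by simp))
    (fun p hp => hG.det_pos hp.1.1) (fun p hp => ?_) t
  have d1 := ((inv_smooth hG).contDiffAt (hO.mem_nhds hp)).differentiableAt (by simp)
  have d2 := (cF.contDiffAt (hO.mem_nhds hp)).differentiableAt (by simp)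
  have e : fderiv ℝ (fun q => (nm G q)⁻¹) p (fld G p) = 0 := by
    have a1 := h.ode p (pd_sub hp) 0
    rw [h.zero] at a1
    have a2 := HasFDerivAt.comp_hasDerivAt (l := fun q => (nm G q)⁻¹) (0 : ℝ)
      (by rw [h.zero]; exact d1.hasFDerivAt) a1
    simp only [Function.comp_def, h.nm_eq hG] at a2
    exact a2.unique (hasDerivAt_const _ _)
  rw [fderiv_fun_smul d1 d2, tr_add, tr_smul, tr_smulRight, e, map_smul, smul_eq_mul]
  linear_combination (nm G p)⁻¹ * fld_div hG (pd_sub hp)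

end HatAux

theorem IsGeo.mp_liou [Nontrivial E] (h : IsGeo G Ψ) (hG : IsMetric G) (t : ℝ) :
    MeasurePreserving (Ψ t) (liou G) (liou G) := by
  have m := h.measurable_at isOpen_UU (fld_smooth hG) t
  have mp := HatAux.mp_nu h hG t
  refine ⟨m, ?_⟩
  have e : Ψ t ∘ nrm G =ᵐ[nu G] nrm G ∘ HatAux.hat G Ψ t := by
    have a : ∀ᵐ p ∂nu G, p ∈ HatAux.pd G := by
      rw [HatAux.nu_eq]
      exact (withDensity_absolutelyContinuous _ _).ae_le
        (ae_restrict_mem (HatAux.isOpen_pd hG).measurableSet)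
    filter_upwards [a] with p hp
    simp only [Function.comp_apply, HatAux.hat_of hp, nrm, h.nm_eq hG]
    exact h.scale hG hp.1.1 p.2 _ t
  rw [liou_eq, m.aemeasurable.map_map_of_aemeasurable hG.aemeas_nrm, Measure.map_congr e,
    ← AEMeasurable.map_map_of_aemeasurable (by rw [mp.map_eq]; exact hG.aemeas_nrm)
      mp.measurable.aemeasurable, mp.map_eq]

end Pool.Agent.Lib.MP_235f17_gt.K
end

-- part Pool.Agent.Lib.MP_235f17_gt.K.Lat
section

/-! The structure of the lattice. -/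

set_option autoImplicit false
set_option linter.unusedSectionVars false

open MeasureTheory Set Filter Topology Metric
open scoped ContDiff ENNReal RealInnerProductSpace

namespace Pool.Agent.Lib.MP_235f17_gt.K

variable {E : Type} [NormedAddCommGroup E] [InnerProductSpace ℝ E] [FiniteDimensional ℝ E]
  [MeasurableSpace E] [BorelSpace E] {J : E →L[ℝ] E} {G G' : E → E →L[ℝ] E}
  {Ψ : ℝ → E × E → E × E} {Γ : Type} [Group Γ] {a : Γ → E → E} {F F' : Set E} {r : ℝ}
  {d : E → E → ℝ}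

theorem IsLattice.diffAt (h : IsLattice J a) (γ : Γ) {x : E} (hx : x ∈ ball (0 : E) 1) :
    DifferentiableAt ℝ (a γ) x :=
  ((h.smooth γ).contDiffAt (isOpen_ball.mem_nhds hx)).differentiableAt (by simp)

theorem IsLattice.ab_meas' (h : IsLattice J a) (γ : Γ) : Measurable (ab a γ) :=
  meas_of_contOn measurableSet_ball
    ((h.smooth γ).continuousOn.congr fun _ hx => ab_of_mem a γ hx) measurable_id
    fun _ hx => ab_of_not a γ hx

theorem IsMetric.le_nm (hG : IsMetric G) (hr : r < 1) :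
    ∃ C > 0, ∀ x ∈ closedBall (0 : E) r, ∀ v, ‖v‖ ≤ C * nm G (x, v) := by
  rcases (closedBall (0 : E) r ×ˢ sphere (0 : E) 1).eq_empty_or_nonempty with he | he
  · refine ⟨1, one_pos, fun x hx v => ?_⟩
    by_cases hv : v = 0
    · simp [hv, nm_zero]
    · have : (x, ‖v‖⁻¹ • v) ∈ closedBall (0 : E) r ×ˢ sphere (0 : E) 1 :=
        ⟨hx, by simp [norm_smul, hv]⟩
      simp [he] at this
  have hs : closedBall (0 : E) r ×ˢ sphere (0 : E) 1 ⊆ UU E := fun p hp =>
    mem_UU.2 (closedBall_subset_ball hr hp.1)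
  obtain ⟨p, hp, hm⟩ := ((isCompact_closedBall _ _).prod (isCompact_sphere _ _)).exists_isMinOn he
    (hG.nm_cont.mono hs)
  have h0 : 0 < nm G p := hG.nm_pos (hs hp) fun h => by simpa [h] using hp.2
  refine ⟨(nm G p)⁻¹, inv_pos.2 h0, fun x hx v => ?_⟩
  by_cases hv : v = 0
  · simp [hv, nm_zero]
  have h1 : nm G p ≤ nm G (x, ‖v‖⁻¹ • v) := hm ⟨hx, by simp [norm_smul, hv]⟩
  have h2 := norm_pos_iff.2 hv
  rw [nm_smul, abs_of_pos (inv_pos.2 h2), le_inv_mul_iff₀ h2] at h1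
  rwa [le_inv_mul_iff₀ h0, mul_comm]

theorem IsLattice.countable (h : IsLattice J a) : Countable Γ := by
  have : (univ : Set Γ) ⊆ ⋃ k : ℕ, {γ | ∃ x ∈ closedBall (0 : E) (1 - 1 / (k + 1)),
      a γ x ∈ closedBall (0 : E) (1 - 1 / (k + 1))} := fun γ _ => by
    have h1 := mem_ball_zero_iff.1 (h.maps γ (mem_ball_self one_pos))
    obtain ⟨k, hk⟩ := exists_nat_one_div_lt (sub_pos.2 h1)
    refine mem_iUnion.2 ⟨k, 0, mem_closedBall_self ?_, mem_closedBall_zero_iff.2 (by linarith)⟩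
    linarith [norm_nonneg (a γ 0)]
  refine countable_univ_iff.1 (Countable.mono this (countable_iUnion fun k => ?_))
  exact (h.disc _ (sub_lt_self _ (by positivity))).countable

theorem IsLattice.exists_fund (h : IsLattice J a) :
    ∃ F r, Fund a F ∧ r < 1 ∧ F ⊆ closedBall 0 r := by
  have := h.countable
  obtain ⟨r, hr, hK⟩ := h.cocpt
  have hι := measurableEmbedding_embeddingReal E
  let ι := embeddingReal E
  let F : Set E := {x | x ∈ closedBall (0 : E) r ∧
    ∀ γ, ab a γ x ∈ closedBall (0 : E) r → ι x ≤ ι (ab a γ x)}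
  have hB : closedBall (0 : E) r ⊆ ball 0 1 := closedBall_subset_ball hr
  refine ⟨F, r, ⟨?_, fun x hx => hB hx.1, fun x hx => ?_⟩, hr, fun x hx => hx.1⟩
  · have e : F = closedBall (0 : E) r ∩ ⋂ γ, (ab a γ ⁻¹' closedBall (0 : E) r)ᶜ ∪
        {x | ι x ≤ ι (ab a γ x)} := by
      ext x
      simp only [F, mem_ofPred_eq, mem_inter_iff, mem_iInter, mem_union, mem_compl_iff,
        mem_preimage, imp_iff_not_or]
    rw [e]
    exact measurableSet_closedBall.inter (MeasurableSet.iInter fun γ =>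
      (h.ab_meas' γ measurableSet_closedBall).compl.union
        (measurableSet_le hι.measurable (hι.measurable.comp (h.ab_meas' γ))))
  · have hfin : {γ | a γ x ∈ closedBall (0 : E) r}.Finite :=
      (h.disc (max r ‖x‖) (max_lt hr (mem_ball_zero_iff.1 hx))).subset fun γ hγ =>
        ⟨x, mem_closedBall_zero_iff.2 (le_max_right _ _),
          closedBall_subset_closedBall (le_max_left _ _) hγ⟩
    obtain ⟨γ, hγ, hm⟩ := hfin.exists_minimalFor (fun γ => ι (a γ x)) _ (hK x hx)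
    have key : ∀ γ, a γ x ∈ F ↔ a γ x ∈ closedBall (0 : E) r ∧
        ∀ δ, a δ x ∈ closedBall (0 : E) r → ι (a γ x) ≤ ι (a δ x) := fun γ => by
      refine and_congr_right fun _ => ⟨fun H δ hδ => ?_, fun H δ => ?_⟩
      · have := H (δ * γ⁻¹)
        rw [ab_of_mem a _ (h.maps γ hx), ← h.mul _ _ x hx, inv_mul_cancel_right] at this
        exact this hδ
      · rw [ab_of_mem a _ (h.maps γ hx), ← h.mul _ _ x hx]
        exact H _
    refine ⟨γ, (key γ).2 ⟨hγ, fun δ hδ => ?_⟩, fun δ hδ => ?_⟩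
    · exact (le_total _ _).elim id (hm hδ)
    · obtain ⟨h1, h2⟩ := (key δ).1 hδ
      have e := hι.injective (le_antisymm (h2 γ hγ) (hm h1 (h2 γ hγ)))
      have := h.free (γ⁻¹ * δ) x hx (by
        rw [h.mul _ _ x hx, e, ← h.mul _ _ x hx, inv_mul_cancel, h.one x hx])
      exact (inv_mul_eq_one.1 this).symm

theorem IsLattice.injOn (h : IsLattice J a) (γ : Γ) : InjOn (a γ) (ball 0 1) := by
  intro x hx y hy e
  rw [← h.one x hx, ← h.one y hy, ← inv_mul_cancel γ, h.mul _ _ x hx, h.mul _ _ y hy, e]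

theorem IsLattice.fderiv_mul (h : IsLattice J a) (γ δ : Γ) {x : E} (hx : x ∈ ball (0 : E) 1)
    (v : E) : fderiv ℝ (a (γ * δ)) x v = fderiv ℝ (a γ) (a δ x) (fderiv ℝ (a δ) x v) := by
  have h1 := (h.diffAt γ (h.maps δ hx)).hasFDerivAt.comp x (h.diffAt δ hx).hasFDerivAt
  rw [(h1.congr_of_eventuallyEq (by
    filter_upwards [isOpen_ball.mem_nhds hx] with y hy using h.mul γ δ y hy)).fderiv]
  rfl

theorem IsLattice.tg_one (h : IsLattice J a) {p : E × E} (hp : p ∈ UU E) : tg (a 1) p = p := by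
  have hx := mem_UU.1 hp
  have h1 := (hasFDerivAt_id (𝕜 := ℝ) p.1).congr_of_eventuallyEq (f₁ := a 1) (by
    filter_upwards [isOpen_ball.mem_nhds hx] with y hy using h.one y hy)
  simp [tg, h1.fderiv, h.one _ hx]

theorem IsLattice.tg_mul (h : IsLattice J a) (γ δ : Γ) {p : E × E} (hp : p ∈ UU E) :
    tg (a (γ * δ)) p = tg (a γ) (tg (a δ) p) := by
  simp only [tg, h.mul γ δ _ (mem_UU.1 hp), h.fderiv_mul γ δ (mem_UU.1 hp)]

theorem IsLattice.ab_one (h : IsLattice J a) (x : E) : ab a 1 x = x := by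
  by_cases hx : x ∈ ball (0 : E) 1
  · rw [ab_of_mem a _ hx, h.one x hx]
  · exact ab_of_not a _ hx

theorem IsLattice.ab_mul (h : IsLattice J a) (γ δ : Γ) (x : E) :
    ab a (γ * δ) x = ab a γ (ab a δ x) := by
  by_cases hx : x ∈ ball (0 : E) 1
  · rw [ab_of_mem a _ hx, ab_of_mem a _ hx, ab_of_mem a _ (h.maps δ hx), h.mul _ _ x hx]
  · rw [ab_of_not a _ hx, ab_of_not a δ hx, ab_of_not a _ hx]

theorem IsLattice.ab_meas (h : IsLattice J a) (γ : Γ) : Measurable (ab a γ) := by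
  exact h.ab_meas' γ

theorem IsLattice.tb_one (h : IsLattice J a) (p : E × E) : tb a 1 p = p := by
  by_cases hx : p.1 ∈ ball (0 : E) 1
  · rw [tb_of_mem a _ hx, h.tg_one (mem_UU.2 hx)]
  · exact tb_of_not a _ hx

theorem IsLattice.tb_mul (h : IsLattice J a) (γ δ : Γ) (p : E × E) :
    tb a (γ * δ) p = tb a γ (tb a δ p) := by
  by_cases hx : p.1 ∈ ball (0 : E) 1
  · rw [tb_of_mem a _ hx, tb_of_mem a _ hx, tb_of_mem a γ (p := tg (a δ) p) (h.maps δ hx),
      h.tg_mul _ _ (mem_UU.2 hx)]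
  · rw [tb_of_not a _ hx, tb_of_not a δ hx, tb_of_not a _ hx]

theorem IsLattice.tb_meas (h : IsLattice J a) (γ : Γ) : Measurable (tb a γ) := by
  exact meas_of_contOn isOpen_UU.measurableSet
    ((Iso.tg_smooth ⟨h.smooth γ, h.maps γ, h.iso γ⟩).continuousOn.congr
      fun _ hx => tb_of_mem a γ (mem_UU.1 hx)) measurable_id
    fun _ hx => tb_of_not a γ fun h => hx (mem_UU.2 h)

theorem tb_fst (γ : Γ) (p : E × E) : (tb a γ p).1 = ab a γ p.1 := by
  by_cases hx : p.1 ∈ ball (0 : E) 1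
  · rw [tb_of_mem a _ hx, ab_of_mem a _ hx, tg]
  · rw [tb_of_not a _ hx, ab_of_not a _ hx]

theorem Inv.toBerg (H : Inv J a G) : Inv J a (berg J) := ⟨H.cx, H.lat, berg_metric H.cx, H.lat.iso⟩

/-- invariant metrics are comparable -/
theorem Inv.cmp (H : Inv J a G) (H' : Inv J a G') :
    ∃ L > 0, ∀ p ∈ UU E, nm G' p ≤ L * nm G p := by
  obtain ⟨r, hr, hK⟩ := H.lat.cocpt
  obtain ⟨C, hC, h1⟩ := H'.met.nm_le hr
  obtain ⟨C', hC', h2⟩ := H.met.le_nm hr
  refine ⟨C * C', mul_pos hC hC', fun p hp => ?_⟩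
  obtain ⟨γ, hγ⟩ := hK _ (mem_UU.1 hp)
  rw [← (H.iso γ).nm_tg hp, ← (H'.iso γ).nm_tg hp, mul_assoc]
  exact (h1 _ hγ _).trans (mul_le_mul_of_nonneg_left (h2 _ hγ _) hC.le)

theorem Inv.toMet (H : Inv J a G) : Met J G := ⟨H.cx, H.met, H.cmp H.toBerg⟩

theorem pot_osc (hJ : IsCx J) (h : IsLattice J a) (hr : r < 1) :
    ∃ D, ∀ γ, ∀ x ∈ closedBall (0 : E) r, |pot (a γ x) - pot (a γ 0)| ≤ D := by
  obtain ⟨C, hC, h1⟩ := (berg_metric hJ).nm_le hr
  refine ⟨C, fun γ x hx => ?_⟩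
  have hx1 := mem_closedBall_zero_iff.1 hx
  have := (berg_curve J (β := fun u => a γ (u • x)) (β' := fun u => fderiv ℝ (a γ) (u • x) x)
    (g := fun _ => C) zero_le_one continuousOn_const fun u hu => by
      have h2 : u • x ∈ closedBall (0 : E) r := mem_closedBall_zero_iff.2 (by
        rw [norm_smul, Real.norm_of_nonneg hu.1]
        nlinarith [norm_nonneg x, hu.2])
      have h3 := closedBall_subset_ball hr h2
      refine ⟨h.maps γ h3, ?_, ?_⟩
      · exact (HasFDerivAt.comp_hasDerivAt (l := a γ) (f := fun u : ℝ => u • x) u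
          (h.diffAt γ h3).hasFDerivAt ((hasDerivAt_id u).smul_const x)).congr_deriv (by simp)
      · refine (Iso.nm_tg ⟨h.smooth γ, h.maps γ, h.iso γ⟩ (p := (u • x, x))
          (mem_UU.2 h3)).trans_le ((h1 _ h2 x).trans ?_)
        nlinarith).1
  simpa using this

/-- closed balls of the distance lie in compact sets -/
theorem IsDist0.near (hd : IsDist0 G Ψ d) (hr : r < 1) (R : ℝ) : ∃ r' < 1,
    ∀ x ∈ closedBall (0 : E) r, ∀ y ∈ ball (0 : E) 1, d x y ≤ R → y ∈ closedBall (0 : E) r' := by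
  obtain ⟨L, hL, h1⟩ := hd.low
  obtain ⟨D, hD⟩ := pot_bdd (E := E) hr
  obtain ⟨r', hr', h2⟩ := pot_le_imp (E := E) (D + L * R)
  refine ⟨r', hr', fun x hx y hy hxy => h2 y hy ?_⟩
  have := (abs_le.1 (h1 x (closedBall_subset_ball hr hx) y hy).1).1
  linarith [hD x hx, mul_le_mul_of_nonneg_left hxy hL.le]

theorem IsDist0.eq_of_zero (hd : IsDist0 G Ψ d) {x y : E} (hx : x ∈ ball (0 : E) 1)
    (hy : y ∈ ball (0 : E) 1) (h : d x y ≤ 0) : x = y := by
  obtain ⟨L, hL, h1⟩ := hd.low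
  exact sub_eq_zero.1 (norm_le_zero_iff.1 ((h1 x hx y hy).2.trans
    (mul_nonpos_of_nonneg_of_nonpos hL.le h)))

/-- the systole is positive -/
theorem IsDist0.systole (hd : IsDist0 G Ψ d) (H : Inv J a G) :
    ∃ δ > 0, ∀ x ∈ ball (0 : E) 1, ∀ γ γ', d (a γ x) (a γ' x) < δ → γ = γ' := by
  classical
  obtain ⟨r, hr, hK⟩ := H.lat.cocpt
  obtain ⟨r', hr', hn⟩ := hd.near hr 1
  have hB : closedBall (0 : E) r ⊆ ball 0 1 := closedBall_subset_ball hr
  have hfin := H.lat.disc (max r r') (max_lt hr hr')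
  have key : ∀ g : Γ, ∃ δ > (0 : ℝ), g ≠ 1 → ∀ z ∈ closedBall (0 : E) r, δ ≤ d z (a g z) := by
    intro g
    by_cases hg : g = 1
    · exact ⟨1, one_pos, fun h => absurd hg h⟩
    obtain ⟨γ, hγ⟩ := hK 0 (mem_ball_self one_pos)
    obtain ⟨z, hz, hm⟩ := (isCompact_closedBall (0 : E) r).exists_isMinOn ⟨_, hγ⟩
      (hd.cont.comp (f := fun z => (z, a g z))
        (continuousOn_id.prodMk ((H.lat.smooth g).continuousOn.mono hB))
        fun z hz => ⟨hB hz, H.lat.maps g (hB hz)⟩)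
    refine ⟨_, ?_, fun _ y hy => hm hy⟩
    by_contra h0
    exact hg (H.lat.free g z (hB hz)
      (hd.eq_of_zero (hB hz) (H.lat.maps g (hB hz)) (not_lt.1 h0)).symm)
  choose δ hδ hkey using key
  obtain ⟨δ0, h0, h1, h2⟩ : ∃ δ0 > (0 : ℝ), δ0 ≤ 1 ∧ ∀ g ∈ hfin.toFinset, δ0 ≤ δ g := by
    refine Finset.induction_on hfin.toFinset ⟨1, one_pos, le_rfl, by simp⟩ ?_
    rintro g s - ⟨δ0, h0, h1, h2⟩
    refine ⟨min δ0 (δ g), lt_min h0 (hδ g), (min_le_left _ _).trans h1, ?_⟩
    intro g' hg'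
    rcases Finset.mem_insert.1 hg' with rfl | hg'
    exacts [min_le_right _ _, (min_le_left _ _).trans (h2 _ hg')]
  refine ⟨δ0, h0, fun x hx γ γ' hlt => ?_⟩
  obtain ⟨β, hβ⟩ := hK _ (H.lat.maps γ hx)
  have e : a (β * γ' * (β * γ)⁻¹) (a β (a γ x)) = a β (a γ' x) := by
    rw [← H.lat.mul β γ x hx, ← H.lat.mul _ _ x hx, inv_mul_cancel_right, H.lat.mul _ _ x hx]
  have e1 : d (a β (a γ x)) (a (β * γ' * (β * γ)⁻¹) (a β (a γ x))) = d (a γ x) (a γ' x) := by
    rw [e, hd.inv _ (H.iso β) _ (H.lat.maps γ hx) _ (H.lat.maps γ' hx)]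
  by_contra hne
  have hg : β * γ' * (β * γ)⁻¹ ≠ 1 := fun h => hne (mul_left_cancel (mul_inv_eq_one.1 h)).symm
  have h3 := hkey _ hg _ hβ
  have h4 := h2 (β * γ' * (β * γ)⁻¹) (hfin.mem_toFinset.2 ⟨_,
    closedBall_subset_closedBall (le_max_left _ _) hβ,
    closedBall_subset_closedBall (le_max_right _ _)
      (hn _ hβ _ (H.lat.maps _ (hB hβ)) (by linarith))⟩)
  linarith

end Pool.Agent.Lib.MP_235f17_gt.K
end

-- part Pool.Agent.Lib.MP_235f17_gt.K.FD
section

/-! Integration over fundamental domains. -/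

set_option autoImplicit false
set_option linter.unusedSectionVars false

open MeasureTheory Set Filter Topology Metric
open scoped ContDiff ENNReal RealInnerProductSpace

namespace Pool.Agent.Lib.MP_235f17_gt.K

variable {Y Γ : Type} [MeasurableSpace Y] [Group Γ] [Countable Γ] {b : Γ → Y → Y}
  {ν : Measure Y} {F F' : Set Y}

theorem IsAct.inv_apply (h : IsAct b ν) (γ : Γ) (y : Y) : b γ⁻¹ (b γ y) = y := by
  rw [← h.mul, inv_mul_cancel, h.one]

theorem IsAct.apply_inv (h : IsAct b ν) (γ : Γ) (y : Y) : b γ (b γ⁻¹ y) = y := by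
  rw [← h.mul, mul_inv_cancel, h.one]

theorem AeFund.tsum_ind (hF : AeFund b ν F) (k : Y → ℝ≥0∞) :
    ∀ᵐ y ∂ν, k y = ∑' γ, (b γ⁻¹ ⁻¹' F).indicator k y := by
  filter_upwards [hF.2] with y ⟨γ, hγ, hu⟩
  rw [tsum_eq_single γ⁻¹, indicator_of_mem (by simpa using hγ)]
  intro δ hδ
  refine indicator_of_notMem (fun h => hδ ?_) _
  rw [← hu δ⁻¹ h, inv_inv]

theorem IsAct.lintegral_comp (h : IsAct b ν) (γ : Γ) {k : Y → ℝ≥0∞} (hk : AEMeasurable k ν) :
    ∫⁻ y, k (b γ y) ∂ν = ∫⁻ y, k y ∂ν := by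
  rw [← lintegral_map' (by rwa [(h.mp γ).map_eq]) (h.mp γ).measurable.aemeasurable,
    (h.mp γ).map_eq]

theorem IsAct.lintegral_unfold (h : IsAct b ν) (hF : AeFund b ν F) {k : Y → ℝ≥0∞}
    (hk : AEMeasurable k ν) : ∫⁻ y, k y ∂ν = ∑' γ, ∫⁻ y in F, k (b γ y) ∂ν := by
  rw [lintegral_congr_ae (hF.tsum_ind k), lintegral_tsum fun γ =>
    hk.indicator ((h.mp γ⁻¹).measurable hF.1)]
  refine tsum_congr fun γ => ?_
  rw [← h.lintegral_comp γ (hk.indicator ((h.mp γ⁻¹).measurable hF.1)),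
    ← lintegral_indicator hF.1]
  refine lintegral_congr fun y => ?_
  by_cases hy : y ∈ F
  · rw [indicator_of_mem hy, indicator_of_mem (by simpa [h.inv_apply] using hy)]
  · rw [indicator_of_notMem hy, indicator_of_notMem (by simpa [h.inv_apply] using hy)]

theorem IsAct.integral_unfold (h : IsAct b ν) (hF : AeFund b ν F) {k : Y → ℝ}
    (hk : Integrable k ν) (s : Finset Γ) (hs : ∀ y ∈ F, ∀ γ, γ ∉ s → k (b γ y) = 0) :
    ∫ y, k y ∂ν = ∫ y in F, ∑ γ ∈ s, k (b γ y) ∂ν := by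
  have key : ∀ {k : Y → ℝ}, Integrable k ν → 0 ≤ k → (∀ y ∈ F, ∀ γ, γ ∉ s → k (b γ y) = 0) →
      ∫ y, k y ∂ν = ∑ γ ∈ s, ∫ y in F, k (b γ y) ∂ν := by
    intro k hk h0 hs
    have hi : ∀ γ, Integrable (fun y => k (b γ y)) (ν.restrict F) := fun γ =>
      ((h.mp γ).integrable_comp_of_integrable hk).restrict
    rw [integral_eq_lintegral_of_nonneg_ae (.of_forall h0) hk.1,
      h.lintegral_unfold hF hk.1.aemeasurable.ennreal_ofReal, tsum_eq_sum (s := s),
      ENNReal.toReal_sum fun γ _ => (hi γ).lintegral_lt_top.ne]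
    · exact Finset.sum_congr rfl fun γ _ =>
        (integral_eq_lintegral_of_nonneg_ae (.of_forall fun y => h0 (b γ y)) (hi γ).1).symm
    · intro γ hγ
      rw [setLIntegral_congr_fun hF.1 (g := fun _ => 0) fun y hy => by simp [hs y hy γ hγ]]
      simp
  have hi : ∀ γ, Integrable (fun y => k (b γ y)) (ν.restrict F) := fun γ =>
    ((h.mp γ).integrable_comp_of_integrable hk).restrict
  rw [integral_finsetSum _ fun γ _ => hi γ, integral_eq_integral_pos_part_sub_integral_neg_part hk,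
    key hk.real_toNNReal (fun _ => NNReal.coe_nonneg _) fun y hy γ hγ => by simp [hs y hy γ hγ],
    key (k := fun y => (-k y).toNNReal) hk.neg.real_toNNReal (fun _ => NNReal.coe_nonneg _)
      fun y hy γ hγ => by simp [hs y hy γ hγ], ← Finset.sum_sub_distrib]
  exact Finset.sum_congr rfl fun γ _ =>
    (integral_eq_integral_pos_part_sub_integral_neg_part (hi γ)).symm

theorem IsAct.lintegral_equiv (h : IsAct b ν) (hF : AeFund b ν F) (hF' : AeFund b ν F')
    {S : Y → Y} (hS : MeasurePreserving S ν ν) (hc : ∀ γ y, S (b γ y) = b γ (S y))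
    {k : Y → ℝ≥0∞} (hk : AEMeasurable k ν) (hi : ∀ γ, ∀ᵐ y ∂ν, k (b γ y) = k y) :
    ∫⁻ y in F, k (S y) ∂ν = ∫⁻ y in F', k y ∂ν := by
  have hkS : AEMeasurable (fun y => k (S y)) ν := hk.comp_quasiMeasurePreserving
    hS.quasiMeasurePreserving
  have hF2 : AeFund b ν (S ⁻¹' F') := ⟨hS.measurable hF'.1, by
    filter_upwards [hS.quasiMeasurePreserving.ae hF'.2] with y hy
    simpa only [mem_preimage, hc] using hy⟩
  have e1 : ∫⁻ y in F', k y ∂ν = ∫⁻ y, (S ⁻¹' F').indicator (fun y => k (S y)) y ∂ν := by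
    rw [← lintegral_indicator hF'.1, ← hS.map_eq, lintegral_map' (by
      rw [hS.map_eq]; exact hk.indicator hF'.1) hS.measurable.aemeasurable, hS.map_eq]
    rfl
  rw [e1, ← lintegral_indicator hF.1, h.lintegral_unfold hF (hkS.indicator hF2.1),
    h.lintegral_unfold hF2 (hkS.indicator hF.1), ← (Equiv.inv Γ).tsum_eq]
  refine tsum_congr fun γ => ?_
  have hm := (hkS.indicator hF.1).comp_quasiMeasurePreserving (h.mp γ⁻¹).quasiMeasurePreserving
  rw [← lintegral_indicator hF.1, ← lintegral_indicator hF2.1]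
  refine (h.lintegral_comp γ (hm.indicator hF2.1)).symm.trans (lintegral_congr_ae ?_)
  filter_upwards [hS.quasiMeasurePreserving.ae (hi γ)] with y hy
  by_cases h1 : y ∈ F <;> by_cases h2 : b γ y ∈ S ⁻¹' F' <;>
    simp [indicator_of_mem, indicator_of_notMem, h1, h2, h.inv_apply, hc, hy]

theorem IsAct.ae_of_fund (h : IsAct b ν) (hF : AeFund b ν F) {Q : Y → Prop}
    (hQ : ∀ᵐ y ∂ν.restrict F, Q y) (hi : ∀ γ, ∀ᵐ y ∂ν, Q (b γ y) → Q y) : ∀ᵐ y ∂ν, Q y := by
  rw [ae_restrict_iff' hF.1] at hQ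
  filter_upwards [hF.2, ae_all_iff.2 hi,
    ae_all_iff.2 fun γ => (h.mp γ).quasiMeasurePreserving.ae hQ] with y ⟨γ, hγ, _⟩ h2 h3
  exact h2 γ (h3 γ hγ)

end Pool.Agent.Lib.MP_235f17_gt.K
end

-- part Pool.Agent.Lib.MP_235f17_gt.K.Inv
section

/-! Invariance of the volumes under isometries. -/

set_option autoImplicit false
set_option linter.unusedSectionVars false

open MeasureTheory Set Filter Topology Metric
open scoped ContDiff ENNReal RealInnerProductSpace

namespace Pool.Agent.Lib.MP_235f17_gt.K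

variable {E : Type} [NormedAddCommGroup E] [InnerProductSpace ℝ E] [FiniteDimensional ℝ E]
  [MeasurableSpace E] [BorelSpace E] {J : E →L[ℝ] E} {G G' : E → E →L[ℝ] E}
  {Ψ : ℝ → E × E → E × E} {Γ : Type} [Group Γ] {a : Γ → E → E} {F F' : Set E} {r : ℝ}
  {d : E → E → ℝ}

namespace InvAux

theorem vol_apply (G : E → E →L[ℝ] E) {A : Set E} (hA : MeasurableSet A) (hAB : A ⊆ ball 0 1) :
    vol G A = ∫⁻ x in A, ENNReal.ofReal (rho G x) := by
  rw [vol, withDensity_apply _ hA, Measure.restrict_restrict hA, inter_eq_left.2 hAB]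

theorem vol_inter (G : E → E →L[ℝ] E) (A : Set E) : vol G (A ∩ ball 0 1) = vol G A :=
  measure_congr (inter_ae_eq_left_of_ae_eq_univ (eventuallyEq_univ.2 (ae_vol_ball G)))

end InvAux

open InvAux

theorem Iso.rho_comp {φ : E → E} (h : Iso G φ) (hG : IsMetric G) {x : E}
    (hx : x ∈ ball (0 : E) 1) : rho G (φ x) * |(fderiv ℝ φ x).det| = rho G x := by
  have e : G x = ContinuousLinearMap.adjoint (fderiv ℝ φ x) ∘L (G (φ x) ∘L fderiv ℝ φ x) := by
    ext u
    refine ext_inner_right ℝ fun v => ?_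
    rw [ContinuousLinearMap.comp_apply, ContinuousLinearMap.adjoint_inner_left]
    exact (h.pres x hx u v).symm
  have e2 : (G x).det = (G (φ x)).det * (fderiv ℝ φ x).det ^ 2 := by
    rw [e, det_comp, det_comp, det_adjoint]
    ring
  rw [rho, rho, e2, Real.sqrt_mul (hG.det_pos (h.maps hx)).le, Real.sqrt_sq_eq_abs]

theorem Iso.vol_image {φ : E → E} (h : Iso G φ) (hG : IsMetric G) (hi : InjOn φ (ball 0 1))
    {A : Set E} (hA : MeasurableSet A) (hAB : A ⊆ ball 0 1) : vol G (φ '' A) = vol G A := by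
  have hd : ∀ x ∈ A, HasFDerivWithinAt φ (fderiv ℝ φ x) A x := fun x hx =>
    (h.diffAt (hAB hx)).hasFDerivAt.hasFDerivWithinAt
  have hm : MeasurableSet (φ '' A) := measurable_image_of_fderivWithin hA hd (hi.mono hAB)
  rw [vol_apply G hm ((h.maps.mono_left hAB).image_subset), vol_apply G hA hAB,
    lintegral_image_eq_lintegral_abs_det_fderiv_mul volume hA hd (hi.mono hAB)]
  refine setLIntegral_congr_fun hA fun x hx => ?_
  rw [← ENNReal.ofReal_mul (abs_nonneg _), mul_comm, h.rho_comp hG (hAB hx)]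

theorem Inv.act_vol (H : Inv J a G) : IsAct (ab a) (vol G) := by
  refine ⟨H.lat.ab_one, H.lat.ab_mul, fun γ => ⟨H.lat.ab_meas γ, ?_⟩⟩
  ext A hA
  have e : ab a γ ⁻¹' A ∩ ball 0 1 = a γ⁻¹ '' (A ∩ ball 0 1) := by
    ext x
    constructor
    · rintro ⟨h1, h2⟩
      rw [mem_preimage, ab_of_mem a γ h2] at h1
      refine ⟨a γ x, ⟨h1, H.lat.maps γ h2⟩, ?_⟩
      rw [← H.lat.mul _ _ x h2, inv_mul_cancel, H.lat.one x h2]
    · rintro ⟨y, ⟨h1, h2⟩, rfl⟩
      have h3 := H.lat.maps γ⁻¹ h2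
      refine ⟨?_, h3⟩
      rw [mem_preimage, ab_of_mem a γ h3, ← H.lat.mul _ _ y h2, mul_inv_cancel, H.lat.one y h2]
      exact h1
  rw [Measure.map_apply (H.lat.ab_meas γ) hA, ← vol_inter, e,
    (H.iso γ⁻¹).vol_image H.met (H.lat.injOn _) (hA.inter measurableSet_ball) inter_subset_right,
    vol_inter]

theorem Fund.ae_vol (hF : Fund a F) (G : E → E →L[ℝ] E) : AeFund (ab a) (vol G) F := by
  refine ⟨hF.meas, (ae_vol_ball G).mono fun x hx => ?_⟩
  simp only [ab_of_mem a _ hx]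
  exact hF.uniq x hx

theorem InvAux.tb_uniq (hF : Fund a F) {p : E × E} (hp : p.1 ∈ ball (0 : E) 1) :
    ∃! γ, tb a γ p ∈ F ×ˢ (univ : Set E) := by
  simp only [mem_prod, mem_univ, and_true, tb_fst, ab_of_mem a _ hp]
  exact hF.uniq _ hp

theorem Fund.ae_nu (hF : Fund a F) (hG : IsMetric G) : AeFund (tb a) (nu G) (F ×ˢ univ) :=
  ⟨hF.meas.prod MeasurableSet.univ, hG.ae_nu.mono fun _ hp => tb_uniq hF hp.1⟩

theorem Fund.ae_liou [Nontrivial E] (hF : Fund a F) (hG : IsMetric G) :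
    AeFund (tb a) (liou G) (F ×ˢ univ) :=
  ⟨hF.meas.prod MeasurableSet.univ, hG.ae_liou.mono fun _ hp => tb_uniq hF hp.1⟩

theorem vol_closedBall (hG : IsMetric G) (hr : r < 1) : vol G (closedBall 0 r) ≠ ⊤ := by
  obtain ⟨C, hC⟩ := (isCompact_closedBall (0 : E) r).exists_bound_of_continuousOn
    (hG.rho_cont.mono (closedBall_subset_ball hr))
  rw [vol_apply G measurableSet_closedBall (closedBall_subset_ball hr)]
  refine ne_top_of_le_ne_top (b := ∫⁻ _ in closedBall (0 : E) r, ENNReal.ofReal C) ?_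
    (setLIntegral_mono' measurableSet_closedBall fun x hx =>
      ENNReal.ofReal_le_ofReal ((le_abs_self _).trans (hC x hx)))
  rw [setLIntegral_const]
  exact ENNReal.mul_ne_top ENNReal.ofReal_ne_top measure_closedBall_lt_top.ne

theorem Inv.vol_fund_ne_zero (H : Inv J a G) (hF : Fund a F) : vol G F ≠ 0 := by
  intro h0
  have := H.lat.countable
  have h1 : ∀ᵐ _y ∂vol G, False :=
    H.act_vol.ae_of_fund (hF.ae_vol G) (Q := fun _ => False)
      (by rw [Measure.restrict_eq_zero.2 h0]; simp) fun _ => ae_of_all _ fun _ h => h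
  have hac : volume.restrict (ball (0 : E) 1) ≪ vol G := by
    refine withDensity_absolutelyContinuous' H.met.aemeas_rho ?_
    filter_upwards [ae_restrict_mem measurableSet_ball] with x hx
    exact (ENNReal.ofReal_pos.2 (H.met.rho_pos hx)).ne'
  have h2 := hac.ae_le h1
  have h3 : volume.restrict (ball (0 : E) 1) = 0 :=
    ae_eq_bot.1 (eventually_false_iff_eq_bot.1 h2)
  exact (measure_ball_pos volume (0 : E) one_pos).ne' (Measure.restrict_eq_zero.1 h3)

theorem integrableOn_vol (hG : IsMetric G) (hr : r < 1) (hF : MeasurableSet F)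
    (hFr : F ⊆ closedBall 0 r) {k : E → ℝ} (hk : ContinuousOn k (ball 0 1)) :
    IntegrableOn k F (vol G) := by
  obtain ⟨C, hC⟩ := (isCompact_closedBall (0 : E) r).exists_bound_of_continuousOn
    (hk.mono (closedBall_subset_ball hr))
  have h1 : vol G F < ⊤ := (measure_mono hFr).trans_lt (vol_closedBall hG hr).lt_top
  have : IsFiniteMeasure ((vol G).restrict F) := ⟨by rwa [Measure.restrict_apply_univ]⟩
  exact Integrable.of_bound
    ((hk.mono (hFr.trans (closedBall_subset_ball hr))).aestronglyMeasurable hF) C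
    ((ae_restrict_mem hF).mono fun x hx => hC x (hFr hx))

end Pool.Agent.Lib.MP_235f17_gt.K
end

-- part Pool.Agent.Lib.MP_235f17_gt.K.Mom
section

/-! Second moments on ellipsoids. -/

set_option autoImplicit false
set_option linter.unusedSectionVars false

open MeasureTheory Set Filter Topology Metric
open scoped ContDiff ENNReal RealInnerProductSpace

namespace Pool.Agent.Lib.MP_235f17_gt.K

variable {E : Type} [NormedAddCommGroup E] [InnerProductSpace ℝ E] [FiniteDimensional ℝ E]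
  [MeasurableSpace E] [BorelSpace E] {J : E →L[ℝ] E} {G G' : E → E →L[ℝ] E}
  {Ψ : ℝ → E × E → E × E} {Γ : Type} [Group Γ] {a : Γ → E → E} {F F' : Set E} {r : ℝ}
  {d : E → E → ℝ}

namespace MomAux

theorem exists_root {P : E →L[ℝ] E} (hs : ∀ u v, ⟪P u, v⟫ = ⟪P v, u⟫)
    (hp : ∀ v, v ≠ 0 → 0 < ⟪P v, v⟫) : ∃ A : E →L[ℝ] E, (∀ u w, ⟪P (A u), A w⟫ = ⟪u, w⟫) ∧
      Function.Bijective A ∧ |A.det| = (√P.det)⁻¹ ∧ A '' ball 0 1 = {v : E | ⟪P v, v⟫ < 1} := by
  have h : (P : E →ₗ[ℝ] E).IsSymmetric := fun u v => (hs u v).trans (real_inner_comm _ _)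
  let b := h.eigenvectorBasis rfl
  have h1 : ∀ i, P (b i) = h.eigenvalues rfl i • b i := h.apply_eigenvectorBasis rfl
  have h2 : ∀ i, 0 < h.eigenvalues rfl i := fun i => by
    simpa [h1, inner_smul_left] using hp _ (b.toBasis.ne_zero i)
  let A := b.toBasis.constrL fun i => (√(h.eigenvalues rfl i))⁻¹ • b i
  have h3 : ∀ i, A (b i) = (√(h.eigenvalues rfl i))⁻¹ • b i := b.toBasis.constrL_basis _
  have h4 : (innerₗ E).compl₁₂ ((P ∘L A : E →L[ℝ] E) : E →ₗ[ℝ] E) (A : E →ₗ[ℝ] E) = innerₗ E := by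
    refine LinearMap.ext_basis b.toBasis b.toBasis fun i j => ?_
    change ⟪P (A (b i)), A (b j)⟫ = ⟪b i, b j⟫
    rw [h3, h3, map_smul, h1, real_inner_smul_left, real_inner_smul_left, real_inner_smul_right]
    by_cases e : i = j
    · subst e
      have := Real.mul_self_sqrt (h2 i).le
      have h0 := (Real.sqrt_pos.2 (h2 i)).ne'
      generalize √(h.eigenvalues rfl i) = t at this h0
      rw [← this]
      field_simp
    · simp [b.inner_eq_zero e]
  have h5 : ∀ u w, ⟪P (A u), A w⟫ = ⟪u, w⟫ := fun u w => LinearMap.congr_fun₂ h4 u w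
  have h6 : Function.Injective A := (injective_iff_map_eq_zero A).2 fun u hu => by
    simpa [hu, eq_comm] using h5 u u
  have h7 : Function.Surjective A := LinearMap.surjective_of_injective (f := (A : E →ₗ[ℝ] E)) h6
  refine ⟨A, h5, ⟨h6, h7⟩, ?_, ?_⟩
  · have h8 : ContinuousLinearMap.adjoint A ∘L (P ∘L A) = ContinuousLinearMap.id ℝ E := by
      ext u
      refine ext_inner_right ℝ fun w => ?_
      simp [ContinuousLinearMap.adjoint_inner_left, h5]
    have h9 := congrArg ContinuousLinearMap.det h8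
    rw [det_comp, det_comp, det_adjoint,
      show (ContinuousLinearMap.id ℝ E).det = 1 from LinearMap.det_id] at h9
    rw [← Real.sqrt_inv, ← Real.sqrt_sq_eq_abs]
    congr 1
    exact eq_inv_of_mul_eq_one_left (by linarith)
  · ext v
    obtain ⟨u, rfl⟩ := h7 v
    rw [h6.mem_set_image, mem_ball_zero_iff, mem_ofPred_eq, h5, real_inner_self_eq_norm_sq,
      sq_lt_one_iff₀ (norm_nonneg u)]

theorem round [Nontrivial E] {M : E →L[ℝ] E} (hs : ∀ u v, ⟪M u, v⟫ = ⟪M v, u⟫)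
    (h0 : ∀ v, 0 ≤ ⟪M v, v⟫) : 0 ≤ tr M ∧
    ∫⁻ v in ball (0 : E) 1, ENNReal.ofReal (⟪M v, v⟫ / ⟪v, v⟫) =
      ENNReal.ofReal (tr M / Module.finrank ℝ E) * volume (ball (0 : E) 1) := by
  classical
  have h : (M : E →ₗ[ℝ] E).IsSymmetric := fun u v => (hs u v).trans (real_inner_comm _ _)
  let b := h.eigenvectorBasis rfl
  set μ := h.eigenvalues rfl
  have h1 : ∀ i, M (b i) = μ i • b i := h.apply_eigenvectorBasis rfl
  have h2 : ∀ i, 0 ≤ μ i := fun i => by simpa [h1, inner_smul_left] using h0 (b i)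
  have h3 : tr M = ∑ i, μ i := by simp [tr_eq_sum b, h1, inner_smul_right]
  have h4 : ∀ v, ⟪M v, v⟫ = ∑ i, μ i * ⟪b i, v⟫ ^ 2 := fun v => by
    rw [← b.sum_inner_mul_inner]
    refine Finset.sum_congr rfl fun i _ => ?_
    rw [hs, h1, real_inner_smul_left, sq, mul_assoc]
  let f : Fin (Module.finrank ℝ E) → E → ℝ≥0∞ := fun i v => ENNReal.ofReal (⟪b i, v⟫ ^ 2 / ⟪v, v⟫)
  have hf : ∀ i, Measurable (f i) := fun i => by fun_prop
  have hn : 0 < Module.finrank ℝ E := Module.finrank_pos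
  have h5 : ∀ i, ∫⁻ v in ball (0 : E) 1, f i v = ∫⁻ v in ball (0 : E) 1, f ⟨0, hn⟩ v := fun i => by
    let T := b.equiv b (Equiv.swap ⟨0, hn⟩ i)
    have h6 := (T.measurePreserving.restrict_preimage (s := ball 0 1)
      measurableSet_ball).lintegral_comp (hf i)
    rw [← h6, show T ⁻¹' ball 0 1 = ball 0 1 by ext; simp]
    refine lintegral_congr fun v => ?_
    have h7 : b i = T (b ⟨0, hn⟩) := by simp [T]
    simp only [f]
    rw [h7, T.inner_map_map, T.inner_map_map]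
  have h6 : (Module.finrank ℝ E : ℝ≥0∞) * ∫⁻ v in ball (0 : E) 1, f ⟨0, hn⟩ v =
      volume (ball (0 : E) 1) := by
    have h7 := lintegral_finsetSum (μ := volume.restrict (ball (0 : E) 1)) Finset.univ
      fun i _ => hf i
    simp only [h5, Finset.sum_const, Finset.card_univ, Fintype.card_fin, nsmul_eq_mul] at h7
    rw [← h7, ← setLIntegral_one]
    refine lintegral_congr_ae (ae_restrict_of_ae ?_)
    filter_upwards [Measure.ae_ne volume (0 : E)] with v hv
    rw [← ENNReal.ofReal_sum_of_nonneg fun i _ => div_nonneg (sq_nonneg _) real_inner_self_nonneg,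
      ← Finset.sum_div, b.sum_sq_inner_right, ← real_inner_self_eq_norm_sq,
      div_self (inner_self_ne_zero.2 hv), ENNReal.ofReal_one]
  have h7 : 0 ≤ tr M := h3 ▸ Finset.sum_nonneg fun i _ => h2 i
  refine ⟨h7, ?_⟩
  have h8 : ∀ v, ENNReal.ofReal (⟪M v, v⟫ / ⟪v, v⟫) = ∑ i, ENNReal.ofReal (μ i) * f i v := fun v => by
    rw [h4, Finset.sum_div, ENNReal.ofReal_sum_of_nonneg fun i _ =>
      div_nonneg (mul_nonneg (h2 i) (sq_nonneg _)) real_inner_self_nonneg]
    exact Finset.sum_congr rfl fun i _ => by rw [mul_div_assoc, ENNReal.ofReal_mul (h2 i)]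
  simp only [h8]
  rw [lintegral_finsetSum _ fun i _ => (hf i).const_mul _]
  simp only [lintegral_const_mul _ (hf _), h5]
  rw [← Finset.sum_mul, ← ENNReal.ofReal_sum_of_nonneg fun i _ => h2 i, ← h3, ← h6, ← mul_assoc,
    ← ENNReal.ofReal_natCast, ← ENNReal.ofReal_mul (by positivity),
    div_mul_cancel₀ _ (Nat.cast_ne_zero.2 hn.ne')]

end MomAux

theorem vol_ell {P : E →L[ℝ] E} (hs : ∀ u v, ⟪P u, v⟫ = ⟪P v, u⟫)
    (hp : ∀ v, v ≠ 0 → 0 < ⟪P v, v⟫) :
    volume {v : E | ⟪P v, v⟫ < 1} = ENNReal.ofReal (√P.det)⁻¹ * volume (ball (0 : E) 1) := by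
  obtain ⟨A, -, -, h1, h2⟩ := MomAux.exists_root hs hp
  rw [← h2, ← h1, Measure.addHaar_image_continuousLinearMap]

theorem mom_ell [Nontrivial E] {P Q : E →L[ℝ] E} (hs : ∀ u v, ⟪P u, v⟫ = ⟪P v, u⟫)
    (hp : ∀ v, v ≠ 0 → 0 < ⟪P v, v⟫) (hq : ∀ u v, ⟪Q u, v⟫ = ⟪Q v, u⟫) (hq0 : ∀ v, 0 ≤ ⟪Q v, v⟫) :
    0 ≤ tr (P.inverse ∘L Q) ∧
    ∫⁻ v in {v : E | ⟪P v, v⟫ < 1}, ENNReal.ofReal (⟪Q v, v⟫ / ⟪P v, v⟫) =
      ENNReal.ofReal (tr (P.inverse ∘L Q) / Module.finrank ℝ E) * volume {v : E | ⟪P v, v⟫ < 1} := by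
  obtain ⟨A, h0, hb, h1, h2⟩ := MomAux.exists_root hs hp
  have h3 : ∀ u v, ⟪((ContinuousLinearMap.adjoint A ∘L Q) ∘L A) u, v⟫ = ⟪Q (A u), A v⟫ :=
    fun u v => ContinuousLinearMap.adjoint_inner_left _ _ _
  have h4 : P.IsInvertible := isInv_of_inj ((injective_iff_map_eq_zero P).2 fun v hv =>
    by_contra fun h => by simpa [hv] using hp v h)
  have h5 : P.inverse ∘L Q = A ∘L (ContinuousLinearMap.adjoint A ∘L Q) := by
    ext v
    refine h4.inverse_apply_eq.2 (ext_inner_right ℝ fun w => ?_)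
    obtain ⟨w, rfl⟩ := hb.2 w
    exact ((h0 _ _).trans (ContinuousLinearMap.adjoint_inner_left _ _ _)).symm
  obtain ⟨h6, h7⟩ := MomAux.round (M := (ContinuousLinearMap.adjoint A ∘L Q) ∘L A)
    (fun u v => by rw [h3, h3, hq]) fun v => h3 v v ▸ hq0 _
  rw [h5, tr_comm]
  refine ⟨h6, ?_⟩
  rw [vol_ell hs hp, ← h2, lintegral_image_eq_lintegral_abs_det_fderiv_mul volume
    measurableSet_ball (fun x _ => A.hasFDerivWithinAt) hb.1.injOn, h1,
    lintegral_const_mul' _ _ ENNReal.ofReal_ne_top, mul_left_comm, ← h7]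
  simp only [h0, h3]

end Pool.Agent.Lib.MP_235f17_gt.K
end

-- part Pool.Agent.Lib.MP_235f17_gt.K.Avg
section

/-! Fibre integration for the Liouville measure. -/

set_option autoImplicit false
set_option linter.unusedSectionVars false

open MeasureTheory Set Filter Topology Metric
open scoped ContDiff ENNReal RealInnerProductSpace

namespace Pool.Agent.Lib.MP_235f17_gt.K

variable {E : Type} [NormedAddCommGroup E] [InnerProductSpace ℝ E] [FiniteDimensional ℝ E]
  [MeasurableSpace E] [BorelSpace E] {J : E →L[ℝ] E} {G G' : E → E →L[ℝ] E}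
  {Ψ : ℝ → E × E → E × E} {Γ : Type} [Group Γ] {a : Γ → E → E} {F F' : Set E} {r : ℝ}
  {d : E → E → ℝ}

namespace AvgAux

theorem open_ell (G : E → E →L[ℝ] E) (x : E) : IsOpen {v : E | gm G x v v < 1} :=
  isOpen_lt (((G x).continuous).inner continuous_id) continuous_const

theorem meas_nrm (G : E → E →L[ℝ] E) (x : E) : Measurable fun v : E => nrm G (x, v) := by
  have h1 : Continuous fun v : E => nm G (x, v) :=
    (((G x).continuous).inner (𝕜 := ℝ) continuous_id).sqrt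
  exact measurable_const.prodMk (h1.measurable.inv.smul measurable_id)

theorem lintegral_vol (hG : IsMetric G) (hF : MeasurableSet F) (hFB : F ⊆ ball 0 1)
    (g : E → ℝ≥0∞) : ∫⁻ x in F, g x ∂vol G = ∫⁻ x in F, ENNReal.ofReal (rho G x) * g x := by
  rw [vol, setLIntegral_withDensity_eq_setLIntegral_mul_non_measurable₀ _
    hG.aemeas_rho.restrict g hF (ae_of_all _ fun _ => ENNReal.ofReal_lt_top),
    Measure.restrict_restrict hF, inter_eq_left.2 hFB]
  rfl

theorem det_mul_vol (hG : IsMetric G) {x : E} (hx : x ∈ ball (0 : E) 1) :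
    ENNReal.ofReal (G x).det * volume {v : E | gm G x v v < 1} =
      ENNReal.ofReal (rho G x) * volume (ball (0 : E) 1) := by
  have h := vol_ell (P := G x) (hG.symm x hx) (hG.pos x hx)
  have h0 := hG.rho_pos hx
  simp only [gm]
  rw [h, ← mul_assoc, ← ENNReal.ofReal_mul (hG.det_pos hx).le, ← hG.rho_sq hx]
  congr 2
  rw [Real.sqrt_sq h0.le]
  field_simp

theorem ball_ne_zero : volume (ball (0 : E) 1) ≠ 0 := (measure_ball_pos _ _ one_pos).ne'

theorem ball_ne_top : volume (ball (0 : E) 1) ≠ ⊤ := measure_ball_lt_top.ne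

theorem aemeas_of_cont [Nontrivial E] (hG : IsMetric G) {k : E × E → ℝ}
    (hk : ContinuousOn k (UU E)) : AEMeasurable k (liou G) := by
  have h : (liou G).restrict (UU E) = liou G :=
    Measure.restrict_eq_self_of_ae_mem (hG.ae_liou.mono fun _ hp => SB_sub hp)
  rw [← h]
  exact hk.aemeasurable isOpen_UU.measurableSet

end AvgAux

open AvgAux

theorem lintegral_liou (hG : IsMetric G) (hF : MeasurableSet F) (hFB : F ⊆ ball 0 1)
    {k : E × E → ℝ≥0∞} (hk : AEMeasurable k (liou G)) :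
    ∫⁻ p in F ×ˢ univ, k p ∂liou G = ∫⁻ x in F, ENNReal.ofReal (G x).det *
      ∫⁻ v in {v : E | gm G x v v < 1}, k (nrm G (x, v)) := by
  have hFU : MeasurableSet (F ×ˢ (univ : Set E)) := hF.prod MeasurableSet.univ
  have hD : MeasurableSet (disc G) := hG.isOpen_disc.measurableSet
  have hdet := hG.aemeas_det hD fun _ hp => mem_UU.2 hp.1
  have hh : AEMeasurable ((F ×ˢ (univ : Set E)).indicator k) ((nu G).map (nrm G)) :=
    hk.indicator hFU
  have hac : volume.restrict (disc G) ≪ nu G := by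
    refine withDensity_absolutelyContinuous' hdet ?_
    filter_upwards [ae_restrict_mem hD] with p hp
    exact (ENNReal.ofReal_pos.2 (hG.det_pos hp.1)).ne'
  have hc : AEMeasurable (fun p => (F ×ˢ (univ : Set E)).indicator k (nrm G p))
      (volume.restrict (disc G)) := (hh.comp_aemeasurable hG.aemeas_nrm).mono_ac hac
  rw [← lintegral_indicator hFU, liou_eq, lintegral_map' hh hG.aemeas_nrm, nu,
    lintegral_withDensity_eq_lintegral_mul₀ hdet hc, ← lintegral_indicator hD,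
    Measure.volume_eq_prod, lintegral_prod _ (by
      rw [← Measure.volume_eq_prod]
      exact (aemeasurable_indicator_iff hD).2 (hdet.mul hc)), ← lintegral_indicator hF]
  refine lintegral_congr fun x => ?_
  by_cases hx : x ∈ F
  · rw [indicator_of_mem hx, ← lintegral_const_mul' _ _ ENNReal.ofReal_ne_top,
      ← lintegral_indicator (open_ell G x).measurableSet]
    refine lintegral_congr fun v => ?_
    by_cases hv : gm G x v v < 1
    · rw [indicator_of_mem (show (x, v) ∈ disc G from ⟨hFB hx, hv⟩),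
        indicator_of_mem (show v ∈ {v : E | gm G x v v < 1} from hv), Pi.mul_apply,
        indicator_of_mem (show nrm G (x, v) ∈ F ×ˢ (univ : Set E) from ⟨hx, mem_univ _⟩)]
    · rw [indicator_of_notMem (show (x, v) ∉ disc G from fun h => hv h.2),
        indicator_of_notMem (show v ∉ {v : E | gm G x v v < 1} from hv)]
  · rw [indicator_of_notMem hx]
    refine (lintegral_congr fun v => ?_).trans lintegral_zero
    by_cases hv : (x, v) ∈ disc G
    · rw [indicator_of_mem hv, Pi.mul_apply,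
        indicator_of_notMem (show nrm G (x, v) ∉ F ×ˢ (univ : Set E) from fun h => hx h.1),
        mul_zero]
    · rw [indicator_of_notMem hv]

theorem AvgAux.mass_eq (hG : IsMetric G) (hF : MeasurableSet F) (hFB : F ⊆ ball 0 1) :
    liou G (F ×ˢ univ) =
      ∫⁻ x in F, ENNReal.ofReal (G x).det * volume {v : E | gm G x v v < 1} := by
  have h := lintegral_liou hG hF hFB (k := fun _ => 1) aemeasurable_const
  simpa using h

theorem liou_mass (hG : IsMetric G) (hF : MeasurableSet F) (hFB : F ⊆ ball 0 1) :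
    liou G (F ×ˢ univ) = volume (ball (0 : E) 1) * vol G F := by
  have h := lintegral_vol hG hF hFB fun _ => volume (ball (0 : E) 1)
  rw [setLIntegral_const] at h
  rw [mass_eq hG hF hFB, h]
  exact setLIntegral_congr_fun hF fun x hx => det_mul_vol hG (hFB hx)

theorem AvgAux.vol_ne_top (hG : IsMetric G) (hr : r < 1) (hFr : F ⊆ closedBall 0 r) :
    vol G F ≠ ⊤ := ne_top_of_le_ne_top (vol_closedBall hG hr) (measure_mono hFr)

theorem AvgAux.mass_ne (H : Inv J a G) (hF : Fund a F) (hr : r < 1) (hFr : F ⊆ closedBall 0 r) :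
    liou G (F ×ˢ univ) ≠ 0 ∧ liou G (F ×ˢ univ) ≠ ⊤ := by
  rw [liou_mass H.met hF.meas hF.sub]
  exact ⟨mul_ne_zero ball_ne_zero (H.vol_fund_ne_zero hF),
    ENNReal.mul_ne_top ball_ne_top (vol_ne_top H.met hr hFr)⟩

theorem Inv.pr_prob (H : Inv J a G) (hF : Fund a F) (hr : r < 1) (hFr : F ⊆ closedBall 0 r) :
    IsProbabilityMeasure (pr G F) := by
  obtain ⟨h0, h1⟩ := mass_ne H hF hr hFr
  refine ⟨?_⟩
  rw [pr, Measure.smul_apply, Measure.restrict_apply_univ, smul_eq_mul,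
    ENNReal.inv_mul_cancel h0 h1]

theorem ae_pr [Nontrivial E] (hG : IsMetric G) (hF : MeasurableSet F) :
    ∀ᵐ p ∂pr G F, p ∈ SB G ∧ p.1 ∈ F := by
  refine Measure.ae_smul_measure ?_ _
  filter_upwards [ae_restrict_of_ae hG.ae_liou,
    ae_restrict_mem (hF.prod (MeasurableSet.univ (α := E)))] with p h1 h2 using ⟨h1, h2.1⟩

theorem Inv.integrable_pr [Nontrivial E] (H : Inv J a G) (hF : Fund a F) (hr : r < 1)
    (hFr : F ⊆ closedBall 0 r) {k : E × E → ℝ} (hk : ContinuousOn k (UU E)) :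
    Integrable k (pr G F) := by
  have := H.pr_prob hF hr hFr
  obtain ⟨L, _, hL⟩ := H.toMet.cmp
  have hK : IsCompact (closedBall (0 : E) r ×ˢ closedBall (0 : E) L) :=
    (isCompact_closedBall _ _).prod (isCompact_closedBall _ _)
  have hKU : closedBall (0 : E) r ×ˢ closedBall (0 : E) L ⊆ UU E :=
    fun p hp => mem_UU.2 (closedBall_subset_ball hr hp.1)
  have h : (pr G F).restrict (closedBall (0 : E) r ×ˢ closedBall (0 : E) L) = pr G F := by
    refine Measure.restrict_eq_self_of_ae_mem ((ae_pr H.met hF.meas).mono fun p hp => ?_)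
    refine ⟨hFr hp.2, mem_closedBall_zero_iff.2 ?_⟩
    have h1 := (norm_le_berg J (SB_sub hp.1)).trans (hL p (SB_sub hp.1))
    rwa [nm_of_SB hp.1, mul_one] at h1
  rw [← h]
  exact (hk.mono hKU).integrableOn_compact hK

theorem Inv.avg_sq [Nontrivial E] (H : Inv J a G) (hG' : IsMetric G') (hF : Fund a F) (hr : r < 1)
    (hFr : F ⊆ closedBall 0 r) :
    (∫ p, gm G' p.1 p.2 p.2 ∂pr G F) * (Module.finrank ℝ E * (vol G).real F) =
      ∫ x in F, tr ((G x).inverse ∘L G' x) ∂vol G := by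
  have hG := H.met
  have hn : (0 : ℝ) < Module.finrank ℝ E := by exact_mod_cast Module.finrank_pos
  have hmom := fun x (hx : x ∈ ball (0 : E) 1) =>
    mom_ell (P := G x) (Q := G' x) (hG.symm x hx) (hG.pos x hx) (hG'.symm x hx) (hG'.nonneg hx)
  have hc : ContinuousOn (fun p : E × E => gm G' p.1 p.2 p.2) (UU E) := hG'.en_smooth.continuousOn
  have htr : ContinuousOn (fun x => tr ((G x).inverse ∘L G' x) / Module.finrank ℝ E)
      (ball (0 : E) 1) :=
    ((trL E).continuous.comp_continuousOn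
      (hG.inv_smooth.clm_comp hG'.smooth).continuousOn).div_const _
  have e1 : ∫ p, gm G' p.1 p.2 p.2 ∂pr G F =
      (∫⁻ p, ENNReal.ofReal (gm G' p.1 p.2 p.2) ∂pr G F).toReal :=
    integral_eq_lintegral_of_nonneg_ae
      ((ae_pr hG hF.meas).mono fun p hp => hG'.nonneg hp.1.1 _)
      (H.integrable_pr hF hr hFr hc).aestronglyMeasurable
  have e2 : ∫ x in F, tr ((G x).inverse ∘L G' x) / Module.finrank ℝ E ∂vol G =
      (∫⁻ x in F, ENNReal.ofReal (tr ((G x).inverse ∘L G' x) / Module.finrank ℝ E)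
        ∂vol G).toReal :=
    integral_eq_lintegral_of_nonneg_ae
      ((ae_restrict_mem hF.meas).mono fun x hx => div_nonneg (hmom x (hF.sub hx)).1 hn.le)
      (integrableOn_vol hG hr hF.meas hFr htr).aestronglyMeasurable
  have e3 : ∫⁻ p in F ×ˢ univ, ENNReal.ofReal (gm G' p.1 p.2 p.2) ∂liou G =
      volume (ball (0 : E) 1) *
        ∫⁻ x in F, ENNReal.ofReal (tr ((G x).inverse ∘L G' x) / Module.finrank ℝ E) ∂vol G := by
    rw [lintegral_liou hG hF.meas hF.sub
      (k := fun p => ENNReal.ofReal (gm G' p.1 p.2 p.2))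
      (aemeas_of_cont hG hc).ennreal_ofReal, ← lintegral_const_mul' _ _ ball_ne_top,
      lintegral_vol hG hF.meas hF.sub]
    refine setLIntegral_congr_fun hF.meas fun x hx => ?_
    have hxB := hF.sub hx
    have h1 : ∀ v, gm G' (nrm G (x, v)).1 (nrm G (x, v)).2 (nrm G (x, v)).2 =
        ⟪G' x v, v⟫ / ⟪G x v, v⟫ := fun v => by
      have h2 : nm G (x, v) ^ 2 = ⟪G x v, v⟫ := hG.nm_sq (p := (x, v)) (mem_UU.2 hxB)
      simp only [nrm, gm_smul_left, gm_smul_right]
      rw [← h2, ← mul_assoc, ← mul_inv, ← sq, div_eq_inv_mul]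
      rfl
    have h3 := (hmom x hxB).2
    have h4 := det_mul_vol hG hxB
    simp only [h1]
    simp only [gm] at h4 ⊢
    rw [h3, mul_left_comm, h4]
    ring
  have hV0 : (vol G F).toReal ≠ 0 :=
    ENNReal.toReal_ne_zero.2 ⟨H.vol_fund_ne_zero hF, vol_ne_top hG hr hFr⟩
  have hB0 : (volume (ball (0 : E) 1)).toReal ≠ 0 :=
    ENNReal.toReal_ne_zero.2 ⟨ball_ne_zero, ball_ne_top⟩
  rw [integral_div] at e2
  rw [e1, pr, lintegral_smul_measure, e3, liou_mass hG hF.meas hF.sub, smul_eq_mul,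
    ENNReal.toReal_mul, ENNReal.toReal_mul, ENNReal.toReal_inv, ENNReal.toReal_mul, ← e2,
    Measure.real]
  field_simp

theorem Inv.exists_base (H : Inv J a G) (hF : Fund a F) (hr : r < 1) (hFr : F ⊆ closedBall 0 r)
    {S : Set (E × E)} (hS : MeasurableSet S) {η : ℝ} (hη : 0 < η)
    (h : ENNReal.ofReal η ≤ pr G F S) : ∃ x ∈ F,
      ENNReal.ofReal (η / 2) * volume {v : E | gm G x v v < 1} ≤
        volume {v : E | gm G x v v < 1 ∧ nrm G (x, v) ∈ S} := by
  by_contra hno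
  push Not at hno
  obtain ⟨h0, h1⟩ := mass_ne H hF hr hFr
  have hG := H.met
  have e1 : (liou G).restrict (F ×ˢ univ) S ≤ ENNReal.ofReal (η / 2) * liou G (F ×ˢ univ) := by
    rw [← lintegral_indicator_one hS, lintegral_liou hG hF.meas hF.sub
      ((measurable_one.indicator hS).aemeasurable), mass_eq hG hF.meas hF.sub,
      ← lintegral_const_mul' _ _ ENNReal.ofReal_ne_top]
    refine setLIntegral_mono' hF.meas fun x hx => ?_
    have hT : MeasurableSet ((fun v : E => nrm G (x, v)) ⁻¹' S) := meas_nrm G x hS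
    have e2 : ∫⁻ v in {v : E | gm G x v v < 1}, S.indicator (1 : E × E → ℝ≥0∞) (nrm G (x, v)) =
        volume {v : E | gm G x v v < 1 ∧ nrm G (x, v) ∈ S} := by
      have e3 : (fun v => S.indicator (1 : E × E → ℝ≥0∞) (nrm G (x, v))) =
          ((fun v : E => nrm G (x, v)) ⁻¹' S).indicator 1 := rfl
      rw [e3, lintegral_indicator_one hT, Measure.restrict_apply hT, inter_comm]
      rfl
    rw [e2, mul_left_comm]
    exact mul_le_mul_right (hno x hx).le _
  have e4 : pr G F S ≤ ENNReal.ofReal (η / 2) := by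
    rw [pr, Measure.smul_apply, smul_eq_mul]
    refine (mul_le_mul_right e1 _).trans (le_of_eq ?_)
    rw [mul_left_comm, ENNReal.inv_mul_cancel h0 h1, mul_one]
  have := (ENNReal.ofReal_le_ofReal_iff (by positivity)).1 (h.trans e4)
  linarith

end Pool.Agent.Lib.MP_235f17_gt.K
end

-- part Pool.Agent.Lib.MP_235f17_gt.K.InvB
section

/-! Invariance of the Liouville measure under the lattice. -/

set_option autoImplicit false
set_option linter.unusedSectionVars false

open MeasureTheory Set Filter Topology Metric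
open scoped ContDiff ENNReal RealInnerProductSpace

namespace Pool.Agent.Lib.MP_235f17_gt.K

variable {E : Type} [NormedAddCommGroup E] [InnerProductSpace ℝ E] [FiniteDimensional ℝ E]
  [MeasurableSpace E] [BorelSpace E] {J : E →L[ℝ] E} {G G' : E → E →L[ℝ] E}
  {Ψ : ℝ → E × E → E × E} {Γ : Type} [Group Γ] {a : Γ → E → E} {F F' : Set E} {r : ℝ}
  {d : E → E → ℝ}

namespace InvBAux

theorem det_tri (A : E × E →L[ℝ] E × E) (D : E →L[ℝ] E) (h1 : ∀ q, (A q).1 = D q.1)
    (h2 : ∀ w, (A (0, w)).2 = D w) : A.det = D.det * D.det := by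
  let b := Module.finBasis ℝ E
  let C : E →ₗ[ℝ] E := LinearMap.snd ℝ E E ∘ₗ (A : E × E →ₗ[ℝ] E × E) ∘ₗ LinearMap.inl ℝ E E
  have e : LinearMap.toMatrix (b.prod b) (b.prod b) (A : E × E →ₗ[ℝ] E × E) =
      Matrix.fromBlocks (LinearMap.toMatrix b b (D : E →ₗ[ℝ] E)) 0 (LinearMap.toMatrix b b C)
        (LinearMap.toMatrix b b (D : E →ₗ[ℝ] E)) := by
    ext (i | i) (j | j) <;> simp [LinearMap.toMatrix_apply, h1, h2, C]
  rw [ContinuousLinearMap.det, ← LinearMap.det_toMatrix (b.prod b), e,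
    Matrix.det_fromBlocks_zero₁₂, LinearMap.det_toMatrix]

theorem det_tg {φ : E → E} (h : Iso G φ) {p : E × E} (hp : p ∈ UU E) :
    (fderiv ℝ (tg φ) p).det = (fderiv ℝ φ p.1).det * (fderiv ℝ φ p.1).det := by
  have hx := mem_UU.1 hp
  have h1 : DifferentiableAt ℝ (fderiv ℝ φ) p.1 :=
    ((h.smooth.fderiv_of_isOpen (m := ∞) isOpen_ball (by simp)).contDiffAt
      (isOpen_ball.mem_nhds hx)).differentiableAt (by simp)
  have h2 : HasFDerivAt (tg φ) _ p := ((h.diffAt hx).hasFDerivAt.comp p hasFDerivAt_fst).prodMk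
    ((h1.hasFDerivAt.comp p hasFDerivAt_fst).clm_apply hasFDerivAt_snd)
  rw [h2.fderiv]
  exact det_tri _ _ (fun q => by simp) fun w => by simp

theorem nu_apply {S : Set (E × E)} (hS : MeasurableSet S) (hd : S ⊆ disc G) :
    nu G S = ∫⁻ p in S, ENNReal.ofReal (G p.1).det := by
  rw [nu, withDensity_apply _ hS, Measure.restrict_restrict hS, inter_eq_left.2 hd]

theorem tg_disc {φ : E → E} (h : Iso G φ) {p : E × E} (hp : p ∈ disc G) : tg φ p ∈ disc G :=
  ⟨h.maps hp.1, (h.pres p.1 hp.1 _ _).trans_lt hp.2⟩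

theorem nu_image {φ : E → E} (h : Iso G φ) (hG : IsMetric G) (hi : InjOn (tg φ) (UU E))
    {S : Set (E × E)} (hS : MeasurableSet S) (hd : S ⊆ disc G) : nu G (tg φ '' S) = nu G S := by
  have : (volume : Measure (E × E)).IsAddHaarMeasure := Measure.prod.instIsAddHaarMeasure _ _
  have hU : S ⊆ UU E := fun p hp => mem_UU.2 (hd hp).1
  have hf : ∀ p ∈ S, HasFDerivWithinAt (tg φ) (fderiv ℝ (tg φ) p) S p := fun p hp =>
    ((h.tg_smooth.contDiffAt (isOpen_UU.mem_nhds (hU hp))).differentiableAt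
      (by simp)).hasFDerivAt.hasFDerivWithinAt
  rw [nu_apply (measurable_image_of_fderivWithin hS hf (hi.mono hU))
      (image_subset_iff.2 fun p hp => tg_disc h (hd hp)), nu_apply hS hd,
    lintegral_image_eq_lintegral_abs_det_fderiv_mul volume hS hf (hi.mono hU)]
  refine setLIntegral_congr_fun hS fun p hp => ?_
  have hx := (hd hp).1
  have e := h.rho_comp hG hx
  simp only [tg]
  rw [← ENNReal.ofReal_mul (abs_nonneg _), det_tg h (hU hp), ← hG.rho_sq hx,
    ← hG.rho_sq (h.maps hx), ← e, abs_mul]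
  congr 1
  ring

end InvBAux

open InvBAux in
theorem Inv.act_nu (H : Inv J a G) : IsAct (tb a) (nu G) := by
  refine ⟨H.lat.tb_one, H.lat.tb_mul, fun γ => ⟨H.lat.tb_meas γ, Measure.ext fun S hS => ?_⟩⟩
  have hd := H.met.isOpen_disc.measurableSet
  have hc : ∀ δ, ∀ p ∈ UU E, tg (a δ⁻¹) (tg (a δ) p) = p := fun δ p hp => by
    rw [← H.lat.tg_mul _ _ hp, inv_mul_cancel, H.lat.tg_one hp]
  have hi : InjOn (tg (a γ⁻¹)) (UU E) := fun p hp q hq e => by
    rw [← hc _ p hp, e, hc _ q hq]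
  have e : tb a γ ⁻¹' S ∩ disc G = tg (a γ⁻¹) '' (S ∩ disc G) := by
    ext p
    constructor
    · rintro ⟨h1, h2⟩
      rw [mem_preimage, tb_of_mem a γ h2.1] at h1
      exact ⟨_, ⟨h1, tg_disc (H.iso γ) h2⟩, hc γ p (mem_UU.2 h2.1)⟩
    · rintro ⟨q, ⟨h1, h2⟩, rfl⟩
      have h3 := tg_disc (H.iso γ⁻¹) h2
      have h4 := hc γ⁻¹ q (mem_UU.2 h2.1)
      rw [inv_inv] at h4
      exact ⟨by rw [mem_preimage, tb_of_mem a γ h3.1, h4]; exact h1, h3⟩
  have h0 : nu G (disc G)ᶜ = 0 := H.met.ae_nu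
  rw [Measure.map_apply (H.lat.tb_meas γ) hS, ← measure_inter_conull h0, e,
    nu_image (H.iso γ⁻¹) H.met hi (hS.inter hd) inter_subset_right, measure_inter_conull h0]

theorem Inv.act_liou (H : Inv J a G) : IsAct (tb a) (liou G) := by
  refine ⟨H.lat.tb_one, H.lat.tb_mul, fun γ => ⟨H.lat.tb_meas γ, ?_⟩⟩
  have h1 := (H.act_nu.mp γ).map_eq
  have h2 : tb a γ ∘ nrm G =ᵐ[nu G] nrm G ∘ tb a γ := by
    filter_upwards [H.met.ae_nu] with p hp
    have h3 : (nrm G p).1 ∈ ball (0 : E) 1 := hp.1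
    simp only [Function.comp_apply]
    rw [tb_of_mem a γ h3, tb_of_mem a γ hp.1, nrm, nrm, (H.iso γ).nm_tg (mem_UU.2 hp.1)]
    simp only [tg, map_smul]
  rw [liou_eq, AEMeasurable.map_map_of_aemeasurable (H.lat.tb_meas γ).aemeasurable H.met.aemeas_nrm,
    Measure.map_congr h2, ← AEMeasurable.map_map_of_aemeasurable (h1.symm ▸ H.met.aemeas_nrm)
      (H.lat.tb_meas γ).aemeasurable, h1]

end Pool.Agent.Lib.MP_235f17_gt.K
end

-- part Pool.Agent.Lib.MP_235f17_gt.K.Len
section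

/-! Invariance of the normalised Liouville measure and average lengths. -/

set_option autoImplicit false
set_option linter.unusedSectionVars false

open MeasureTheory Set Filter Topology Metric
open scoped ContDiff ENNReal RealInnerProductSpace

namespace Pool.Agent.Lib.MP_235f17_gt.K

variable {E : Type} [NormedAddCommGroup E] [InnerProductSpace ℝ E] [FiniteDimensional ℝ E]
  [MeasurableSpace E] [BorelSpace E] {J : E →L[ℝ] E} {G G' : E → E →L[ℝ] E}
  {Ψ : ℝ → E × E → E × E} {Γ : Type} [Group Γ] {a : Γ → E → E} {F F' : Set E} {r : ℝ}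
  {d : E → E → ℝ}

theorem Inv.liou_fund [Nontrivial E] (H : Inv J a G) (hF : Fund a F) (hF' : Fund a F') :
    liou G (F ×ˢ univ) = liou G (F' ×ˢ univ) := by
  have := H.lat.countable
  have h := H.act_liou.lintegral_equiv (hF.ae_liou H.met) (hF'.ae_liou H.met)
    (MeasurePreserving.id _) (fun _ _ => rfl) (k := fun _ => 1) aemeasurable_const
    (fun _ => Eventually.of_forall fun _ => rfl)
  simpa only [setLIntegral_one] using h

namespace LenAux

theorem lint_pr [Nontrivial E] (H : Inv J a G) (h : IsGeo G Ψ) (hF : Fund a F) (hF' : Fund a F')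
    {k : E × E → ℝ≥0∞} (hk : Measurable k) (hi : ∀ γ, ∀ p ∈ SB G, k (tg (a γ) p) = k p) (t : ℝ) :
    ∫⁻ p, k (Ψ t p) ∂pr G F = ∫⁻ p, k p ∂pr G F' := by
  have := H.lat.countable
  simp only [pr, lintegral_smul_measure]
  rw [H.liou_fund hF hF', H.act_liou.lintegral_equiv (hF.ae_liou H.met) (hF'.ae_liou H.met)
    (h.mp_liou H.met t) (fun γ p => h.equiv_tb H γ p t) hk.aemeasurable fun γ =>
      H.met.ae_liou.mono fun p hp => by rw [tb_of_mem a γ hp.1, hi γ p hp]]

theorem meas_ind (hG : IsMetric G) : Measurable ((UU E).indicator (nm G)) :=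
  meas_of_contOn isOpen_UU.measurableSet
    (hG.nm_cont.congr fun _ hp => indicator_of_mem hp _) (g := fun _ => 0) measurable_const
    fun _ hp => indicator_of_notMem hp _

theorem int_pr [Nontrivial E] (H : Inv J a G) (H' : Inv J a G') (h : IsGeo G Ψ) (hF : Fund a F)
    (t : ℝ) : ∫ p, (UU E).indicator (nm G') (Ψ t p) ∂pr G F =
      ∫ p, (UU E).indicator (nm G') p ∂pr G F := by
  have hm := meas_ind H'.met
  have h0 : ∀ p, 0 ≤ (UU E).indicator (nm G') p := fun p =>
    indicator_nonneg (fun q _ => nm_nonneg q) p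
  rw [integral_eq_lintegral_of_nonneg_ae (Eventually.of_forall fun p => h0 _)
      (hm.comp (h.mp_liou H.met t).measurable).aestronglyMeasurable,
    integral_eq_lintegral_of_nonneg_ae (Eventually.of_forall h0) hm.aestronglyMeasurable]
  congr 1
  refine lint_pr H h hF hF (k := fun p => ENNReal.ofReal ((UU E).indicator (nm G') p))
    (ENNReal.measurable_ofReal.comp hm) (fun γ p hp => ?_) t
  rw [indicator_of_mem ((H.iso γ).tg_mem (SB_sub hp)), indicator_of_mem (SB_sub hp),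
    (H'.iso γ).nm_tg (SB_sub hp)]

end LenAux

theorem Inv.pr_inv [Nontrivial E] (H : Inv J a G) (h : IsGeo G Ψ) (hF : Fund a F) (hF' : Fund a F')
    {S : Set (E × E)} (hS : MeasurableSet S) (hi : ∀ γ, ∀ p ∈ SB G, tg (a γ) p ∈ S ↔ p ∈ S)
    (t : ℝ) : pr G F (Ψ t ⁻¹' S) = pr G F' S := by
  rw [← lintegral_indicator_one hS,
    ← lintegral_indicator_one ((h.mp_liou H.met t).measurable hS)]
  refine LenAux.lint_pr H h hF hF' (k := S.indicator 1) (measurable_one.indicator hS)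
    (fun γ p hp => ?_) t
  by_cases hp' : p ∈ S
  · rw [indicator_of_mem hp', indicator_of_mem ((hi γ p hp).2 hp')]
    rfl
  · rw [indicator_of_notMem hp', indicator_of_notMem fun k => hp' ((hi γ p hp).1 k)]

theorem len_cont (hG : IsMetric G) (hG' : IsMetric G') (h : IsGeo G Ψ) (T : ℝ) :
    ContinuousOn (fun p => ∫ t in (0 : ℝ)..T, nm G' (Ψ t p)) (UU E) := by
  rw [continuousOn_iff_continuous_domRestrict]
  refine intervalIntegral.continuous_parametric_intervalIntegral_of_continuous'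
    (f := fun (p : UU E) (t : ℝ) => nm G' (Ψ t p.1)) ?_ 0 T
  have h1 : Continuous fun q : UU E × ℝ => Ψ q.2 q.1.1 :=
    (h.smooth isOpen_UU (fld_smooth hG)).continuousOn.comp_continuous
      (f := fun q : UU E × ℝ => (q.2, q.1.1)) (by fun_prop) fun q => ⟨mem_univ _, q.1.2⟩
  exact hG'.nm_cont.comp_continuous h1 fun q => h.mem _ q.1.2 _

theorem Inv.len_avg [Nontrivial E] (H : Inv J a G) (H' : Inv J a G') (h : IsGeo G Ψ)
    (hF : Fund a F) (hr : r < 1) (hFr : F ⊆ closedBall 0 r) {T : ℝ} (hT : 0 ≤ T) :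
    ∫ p, (∫ t in (0 : ℝ)..T, nm G' (Ψ t p)) ∂pr G F = T * ∫ p, nm G' p ∂pr G F := by
  have := H.pr_prob hF hr hFr
  have hae : ∀ᵐ p ∂pr G F, p ∈ SB G := (ae_pr H.met hF.meas).mono fun _ hp => hp.1
  obtain ⟨L, -, hL⟩ := H.cmp H'
  have e1 : ∫ p, (∫ t in (0 : ℝ)..T, nm G' (Ψ t p)) ∂pr G F =
      ∫ p, (∫ t in (0 : ℝ)..T, (UU E).indicator (nm G') (Ψ t p)) ∂pr G F :=
    integral_congr_ae (hae.mono fun p hp => by
      simp only [indicator_of_mem (h.mem p (SB_sub hp) _)])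
  have e2 : ∫ p, nm G' p ∂pr G F = ∫ p, (UU E).indicator (nm G') p ∂pr G F :=
    integral_congr_ae (hae.mono fun p hp => (indicator_of_mem (SB_sub hp) _).symm)
  have hfin : IsFiniteMeasure ((volume : Measure ℝ).restrict (uIoc 0 T)) :=
    ⟨by rw [Measure.restrict_apply_univ, uIoc_of_le hT, Real.volume_Ioc]; exact ENNReal.ofReal_lt_top⟩
  have hint : Integrable
      (Function.uncurry fun (t : ℝ) (p : E × E) => (UU E).indicator (nm G') (Ψ t p))
      (((volume : Measure ℝ).restrict (uIoc 0 T)).prod (pr G F)) := by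
    refine Integrable.of_bound ((LenAux.meas_ind H'.met).comp
      (h.measurable isOpen_UU (fld_smooth H.met))).aestronglyMeasurable L ?_
    refine (Measure.quasiMeasurePreserving_snd.ae hae).mono fun q hq => ?_
    have h1 := h.mem q.2 (SB_sub hq) q.1
    have h2 := hL _ h1
    rw [nm_of_SB (h.mem_SB H.met hq q.1), mul_one] at h2
    change ‖(UU E).indicator (nm G') (Ψ q.1 q.2)‖ ≤ L
    rwa [indicator_of_mem h1, Real.norm_of_nonneg (nm_nonneg _)]
  rw [e1, e2, ← intervalIntegral_integral_swap hint]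
  simp only [LenAux.int_pr H H' h hF, intervalIntegral.integral_const, sub_zero, smul_eq_mul]

end Pool.Agent.Lib.MP_235f17_gt.K
end
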