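import Pool.Agent.Lib.MP_235f17_gt.K.Top


import Pool.Agent.Lib.MP_235f17_gt.K.AB



/-! Assembly. -/

set_option autoImplicit false
set_option linter.unusedSectionVars false

open MeasureTheory Set Filter Topology Metric
open scoped ContDiff ENNReal RealInnerProductSpace

namespace Pool.Agent.Lib.MP_235f17_gt.K

variable {E : Type} [NormedAddCommGroup E] [InnerProductSpace ℝ E] [FiniteDimensional ℝ E]
  [MeasurableSpace E] [BorelSpace E] {J : E →L[ℝ] E} {G : E → E →L[ℝ] E}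
  {Γ : Type} [Group Γ] {a : Γ → E → E}

/-- the objects of the statement exist -/
theorem exists_data (H : Inv J a G) : ∃ (F : Set E) (Φ : ℝ → SB G → SB G) (T : SM a G → SM a G),
    Fund a F ∧ IsProbabilityMeasure (pr G F) ∧ IsGeodFlow G Φ ∧
      ∀ p, T (prj a G p) = prj a G (Φ 1 p) := by
  obtain ⟨F, r, hF, hr, hFr⟩ := H.lat.exists_fund
  obtain ⟨Ψ, h⟩ := geo_exists H.toMet
  refine ⟨F, fun t p => ⟨Ψ t p.1, h.mem_SB H.met p.2 t⟩,
    Quot.lift (fun p => prj a G ⟨Ψ 1 p.1, h.mem_SB H.met p.2 1⟩) ?_, hF, H.pr_prob hF hr hFr,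
    fun p => ⟨Subtype.ext (h.zero _), fun t => h.ode _ (SB_sub p.2) t⟩, fun _ => rfl⟩
  rintro p q ⟨γ, hγ⟩
  exact Quot.sound ⟨γ, by simp only [hγ, h.equiv H.met (H.iso γ) (SB_sub p.2)]⟩

/-- the normalised Liouville measure is a probability measure -/
theorem prob_liouQ [Nontrivial E] (H : Inv J a G) {F : Set E} (hF : Fund a F) :
    IsProbabilityMeasure (liouQ a G F) := by
  obtain ⟨F0, r, hF0, hr, hFr⟩ := H.lat.exists_fund
  have h0 := (H.pr_prob hF0 hr hFr).measure_univ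
  have hm : Measurable (prj a G) := by
    have : BorelSpace (SM a G) := ⟨rfl⟩
    exact continuous_prj.measurable
  have hS : MeasurableSet (F ×ˢ (univ : Set E)) := hF.meas.prod .univ
  constructor
  rw [liouQ, Measure.smul_apply, Measure.map_apply hm .univ, preimage_univ,
    (MeasurableEmbedding.subtype_coe H.met.meas_SB).comap_apply, image_univ, Subtype.range_coe,
    measure_congr (s := SB G) (ae_eq_univ.2 (ae_restrict_of_ae H.met.ae_liou)),
    Measure.restrict_apply_univ,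
    H.liou_fund hF hF0]
  rwa [pr, Measure.smul_apply, Measure.restrict_apply_univ] at h0

theorem bounds [Nontrivial E] (H : Inv J a G) (hK : Npc G) {F F0 : Set E} {r : ℝ} (hF : Fund a F)
    (hF0 : Fund a F0) (hr : r < 1) (hFr : F0 ⊆ closedBall 0 r) {Φ : ℝ → SB G → SB G}
    (hΦ : IsGeodFlow G Φ) {T : SM a G → SM a G} (hT : ∀ p, T (prj a G p) = prj a G (Φ 1 p)) :
    hKS (liouQ a G F) T ≤
      ((Module.finrank ℝ E * ∫ p, nm (berg J) p ∂pr G F0 : ℝ) : EReal) ∧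
    ((Module.finrank ℝ E / ∫ p, nm G p ∂pr (berg J) F0 : ℝ) : EReal) ≤ hTop T := by
  obtain ⟨Ψ, h⟩ := geo_exists H.toMet
  obtain ⟨d, hd⟩ := exists_dist H.toMet hK h
  have hT' : ∀ p : SB G, T (prj a G p) = prj a G ⟨Ψ 1 p.1, h.mem_SB H.met p.2 1⟩ := fun p => by
    rw [hT]
    exact congrArg _ (Subtype.ext (h.eq_of_geodFlow H.met hΦ 1 p))
  constructor
  · refine iSup_le fun k => iSup_le fun P => iSup_le fun hP => ?_
    obtain ⟨P', h1, h2, h3⟩ := H.ent_liouQ h hF hF0 hT' hP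
    simp only [h3]
    exact ks_geo H hF0 hr hFr h hd P' h1 h2
  · obtain ⟨U, hU, V, hV, hc⟩ := top_cover H h hd.toIsDist0 hT'
    have hpos := H.toBerg.avg_pos H.met hF0 hr hFr
    refine top_bound hU hV (Nat.cast_nonneg _) hpos fun ε hε => ?_
    obtain ⟨c, hc0, hg⟩ := grow H hF0 hr hFr hd.toIsDist0 hε hpos
    refine ⟨c, hc0, fun t ht n hn => ?_⟩
    obtain ⟨x, hx, hv⟩ := hg t ht
    refine hv.trans (le_trans (measure_mono ?_) (hc n x hx))
    exact fun y hy => ⟨hy.1, hy.2.trans hn⟩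

theorem main (hJ : IsCx J) (ha : IsLattice J a) (hG : IsMetric G) (hinv : ∀ γ, Preserves G (a γ))
    (hher : ∀ x ∈ ball (0 : E) 1, ∀ u v, gm G x (J u) (J v) = gm G x u v) {c : ℝ}
    {θ : E → E →L[ℝ] ℝ} (hθ : ContDiffOn ℝ ∞ θ (ball 0 1))
    (hθi : ∀ γ, ∀ x ∈ ball (0 : E) 1, ∀ v, θ (a γ x) (fderiv ℝ (a γ) x v) = θ x v)
    (hd : ∀ x ∈ ball (0 : E) 1, ∀ u v,
      gm G x (J u) v - c * gm (berg J) x (J u) v = fderiv ℝ θ x u v - fderiv ℝ θ x v u)
    (hK : Npc G) {F : Set E} (hF : Fund a F) {Φ : ℝ → SB G → SB G} (hΦ : IsGeodFlow G Φ)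
    {T : SM a G → SM a G} (hT : ∀ p, T (prj a G p) = prj a G (Φ 1 p))
    (he : hTop T ≤ hKS (liouQ a G F) T) : ∀ x ∈ ball (0 : E) 1, G x = c • berg J x := by
  rcases subsingleton_or_nontrivial E with hE | hE
  · exact fun x _ => Subsingleton.elim _ _
  have H : Inv J a G := ⟨hJ, ha, hG, hinv⟩
  have H0 := H.toBerg
  obtain ⟨F0, r, hF0, hr, hFr⟩ := ha.exists_fund
  obtain ⟨h1, h2⟩ := bounds H hK hF hF0 hr hFr hΦ hT
  obtain ⟨hA, hB⟩ := int_AB H hher hθ hθi hd hF0 hr hFr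
  have hn : (0 : ℝ) < Module.finrank ℝ E := Nat.cast_pos.2 Module.finrank_pos
  have hv : ∀ {G' : E → E →L[ℝ] E}, Inv J a G' → 0 < (vol G').real F0 := fun H' =>
    ENNReal.toReal_pos (H'.vol_fund_ne_zero hF0)
      (ne_top_of_le_ne_top (vol_closedBall H'.met hr) (measure_mono hFr))
  have e1 : ∫ p, gm G p.1 p.2 p.2 ∂pr (berg J) F0 = c := by
    have := H0.avg_sq hG hF0 hr hFr
    rw [hA, mul_assoc] at this
    exact mul_right_cancel₀ (mul_pos hn (hv H0)).ne' this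
  have e2 : c * ∫ p, gm (berg J) p.1 p.2 p.2 ∂pr G F0 = 1 := by
    have := H.avg_sq H0.met hF0 hr hFr
    rw [← this, ← mul_assoc] at hB
    exact mul_right_cancel₀ (mul_pos hn (hv H)).ne' (hB.trans (one_mul _).symm)
  have p1 := H0.avg_pos hG hF0 hr hFr
  have p2 := H.avg_pos H0.met hF0 hr hFr
  have q1 := H0.avg_le hG hF0 hr hFr
  have q2 := H.avg_le H0.met hF0 hr hFr
  have h3 := EReal.coe_le_coe_iff.1 (h2.trans (he.trans h1))
  set a1 := ∫ p, nm G p ∂pr (berg J) F0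
  set a2 := ∫ p, nm (berg J) p ∂pr G F0
  refine H0.rigid H hF0 hr hFr e1 ?_
  rw [div_le_iff₀ p1, mul_assoc] at h3
  have h4 : 1 ≤ a2 * a1 := le_of_mul_le_mul_left (by simpa using h3) hn
  have hc : 0 < c := lt_of_lt_of_le (by positivity) (q1.trans_eq e1)
  have h5 : c * a2 ^ 2 ≤ 1 := e2 ▸ mul_le_mul_of_nonneg_left q2 hc.le
  have h6 : 1 ≤ (a2 * a1) ^ 2 := one_le_pow₀ h4
  have h7 : c ≤ c * (a2 * a1) ^ 2 := le_mul_of_one_le_right hc.le h6
  nlinarith [sq_nonneg a1]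

end Pool.Agent.Lib.MP_235f17_gt.K
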