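import Pool.Agent.Lib.MP_235f17_gt.K.Len
import Pool.Agent.Lib.MP_235f17_gt.K.Geo
import Pool.Agent.Lib.MP_235f17_gt.K.Gibbs
import Pool.Agent.Lib.MP_235f17_gt.K.Kae

-- part Pool.Agent.Lib.MP_235f17_gt.K.Sep
section

/-! Separation of compact sets in the quotient, small cells. -/

set_option autoImplicit false
set_option linter.unusedSectionVars false

open MeasureTheory Set Filter Topology Metric
open scoped ContDiff ENNReal RealInnerProductSpace

namespace Pool.Agent.Lib.MP_235f17_gt.K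

variable {E : Type} [NormedAddCommGroup E] [InnerProductSpace ℝ E] [FiniteDimensional ℝ E]
  [MeasurableSpace E] [BorelSpace E] {J : E →L[ℝ] E} {G G' : E → E →L[ℝ] E}
  {Ψ : ℝ → E × E → E × E} {Γ : Type} [Group Γ] {a : Γ → E → E} {F F' : Set E} {r : ℝ}
  {d : E → E → ℝ}

theorem sep_compact (H : Inv J a G) (h : IsGeo G Ψ) (hd : IsDist0 G Ψ d) {K K' : Set (E × E)}
    (hK : IsCompact K) (hK' : IsCompact K') (hKU : K ⊆ UU E) (hKU' : K' ⊆ UU E)
    (hdis : ∀ γ, ∀ p ∈ K, tg (a γ) p ∉ K') : ∃ δ > 0, ∀ γ γ', ∀ p ∈ UU E, ∀ q ∈ UU E,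
      tg (a γ) p ∈ K → tg (a γ') q ∈ K' → d p.1 q.1 < δ → δ ≤ d (Ψ 1 p).1 (Ψ 1 q).1 := by
  classical
  have hY := fld_smooth H.met
  have hc1 : ContinuousOn (fun p => (Ψ 1 p).1) (UU E) :=
    (h.smooth_at isOpen_UU hY 1).continuousOn.fst
  obtain ⟨r, hr, hrK⟩ : ∃ r < (1 : ℝ), ∀ p ∈ K ∪ K', p.1 ∈ closedBall (0 : E) r := by
    rcases (K ∪ K').eq_empty_or_nonempty with he | he
    · exact ⟨0, zero_lt_one, by simp [he]⟩
    · obtain ⟨p, hp, hm⟩ := (hK.union hK').exists_isMaxOn he continuous_fst.norm.continuousOn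
      exact ⟨‖p.1‖, mem_ball_zero_iff.1 (mem_UU.1 (union_subset hKU hKU' hp)),
        fun q hq => mem_closedBall_zero_iff.2 (hm hq)⟩
  obtain ⟨r', hr', hn⟩ := hd.near hr 1
  have hfin := H.lat.disc (max r r') (max_lt hr hr')
  have key : ∀ g : Γ, ∃ δ > (0 : ℝ), ∀ p ∈ K, ∀ q ∈ K',
      δ ≤ d (a g p.1) q.1 + d (a g (Ψ 1 p).1) (Ψ 1 q).1 := by
    intro g
    rcases (K ×ˢ K').eq_empty_or_nonempty with he | he
    · exact ⟨1, one_pos, fun p hp q hq => absurd (mk_mem_prod hp hq) (by simp [he])⟩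
    have hg := (H.lat.smooth g).continuousOn
    have m1 : ∀ z ∈ K ×ˢ K', z.1.1 ∈ ball (0 : E) 1 := fun z hz => mem_UU.1 (hKU hz.1)
    have m2 : ∀ z ∈ K ×ˢ K', z.2.1 ∈ ball (0 : E) 1 := fun z hz => mem_UU.1 (hKU' hz.2)
    have m3 : ∀ z ∈ K ×ˢ K', (Ψ 1 z.1).1 ∈ ball (0 : E) 1 := fun z hz => h.base (hKU hz.1) 1
    have m4 : ∀ z ∈ K ×ˢ K', (Ψ 1 z.2).1 ∈ ball (0 : E) 1 := fun z hz => h.base (hKU' hz.2) 1
    have hc : ContinuousOn (fun z : (E × E) × E × E =>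
        d (a g z.1.1) z.2.1 + d (a g (Ψ 1 z.1).1) (Ψ 1 z.2).1) (K ×ˢ K') := by
      refine ContinuousOn.add ?_ ?_
      · exact hd.cont.comp (f := fun z : (E × E) × E × E => (a g z.1.1, z.2.1))
          ((hg.comp continuousOn_fst.fst m1).prodMk continuousOn_snd.fst)
          fun z hz => ⟨H.lat.maps g (m1 z hz), m2 z hz⟩
      · exact hd.cont.comp (f := fun z : (E × E) × E × E => (a g (Ψ 1 z.1).1, (Ψ 1 z.2).1))
          ((hg.comp (hc1.comp continuousOn_fst fun z hz => hKU hz.1) m3).prodMk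
            (hc1.comp continuousOn_snd fun z hz => hKU' hz.2))
          fun z hz => ⟨H.lat.maps g (m3 z hz), m4 z hz⟩
    obtain ⟨z, hz, hm⟩ := (hK.prod hK').exists_isMinOn he hc
    refine ⟨_, ?_, fun p hp q hq => hm (mk_mem_prod hp hq)⟩
    by_contra h0
    have h0 := not_lt.1 h0
    have n1 := hd.nonneg (a g z.1.1) z.2.1
    have n2 := hd.nonneg (a g (Ψ 1 z.1).1) (Ψ 1 z.2).1
    have e1 := hd.eq_of_zero (H.lat.maps g (m1 z hz)) (m2 z hz) (by linarith)
    have e2 := hd.eq_of_zero (H.lat.maps g (m3 z hz)) (m4 z hz) (by linarith)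
    have e3 := congrArg Prod.fst (h.equiv H.met (H.iso g) (hKU hz.1) 1)
    have e4 : tg (a g) z.1 = (z.2.1, (tg (a g) z.1).2) := Prod.ext e1 rfl
    have e5 := hd.inj _ (m2 z hz) (tg (a g) z.1).2 z.2.2 (by rw [← e4, e3]; exact e2)
    refine hdis g z.1 hz.1 ?_
    rw [e4, e5]
    exact hz.2
  choose δ hδ hkey using key
  obtain ⟨δ0, h0, h1, h2⟩ : ∃ δ0 > (0 : ℝ), δ0 ≤ 1 ∧ ∀ g ∈ hfin.toFinset, δ0 ≤ δ g / 2 := by
    refine Finset.induction_on hfin.toFinset ⟨1, one_pos, le_rfl, by simp⟩ ?_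
    rintro g s - ⟨δ0, h0, h1, h2⟩
    refine ⟨min δ0 (δ g / 2), lt_min h0 (half_pos (hδ g)), (min_le_left _ _).trans h1, ?_⟩
    intro g' hg'
    rcases Finset.mem_insert.1 hg' with rfl | hg'
    exacts [min_le_right _ _, (min_le_left _ _).trans (h2 _ hg')]
  refine ⟨δ0, h0, fun γ γ' p hp q hq hpK hqK hlt => ?_⟩
  have hp1 := mem_UU.1 hp
  have hq1 := mem_UU.1 hq
  have e : ∀ x ∈ ball (0 : E) 1, a (γ' * γ⁻¹) (a γ x) = a γ' x := fun x hx => by
    rw [← H.lat.mul _ _ x hx, inv_mul_cancel_right]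
  have e1 : d (a (γ' * γ⁻¹) (tg (a γ) p).1) (tg (a γ') q).1 = d p.1 q.1 := by
    simp only [tg, e _ hp1]
    exact hd.inv _ (H.iso γ') _ hp1 _ hq1
  have e2 : d (a (γ' * γ⁻¹) (Ψ 1 (tg (a γ) p)).1) (Ψ 1 (tg (a γ') q)).1 =
      d (Ψ 1 p).1 (Ψ 1 q).1 := by
    rw [h.equiv H.met (H.iso γ) hp, h.equiv H.met (H.iso γ') hq]
    simp only [tg, e _ (h.base hp 1)]
    exact hd.inv _ (H.iso γ') _ (h.base hp 1) _ (h.base hq 1)
  have hk := hkey (γ' * γ⁻¹) _ hpK _ hqK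
  have m1 := H.lat.maps (γ' * γ⁻¹) (mem_UU.1 (hKU hpK))
  have hmem : γ' * γ⁻¹ ∈ hfin.toFinset := by
    refine hfin.mem_toFinset.2 ⟨(tg (a γ) p).1,
      closedBall_subset_closedBall (le_max_left _ _) (hrK _ (Or.inl hpK)),
      closedBall_subset_closedBall (le_max_right _ _) (hn _ (hrK _ (Or.inr hqK)) _ m1 ?_)⟩
    rw [hd.symm _ (mem_UU.1 (hKU' hqK)) _ m1, e1]
    linarith
  have := h2 _ hmem
  rw [e1, e2] at hk
  linarith

theorem exists_cells (hd : IsDist0 G Ψ d) (hr : r < 1) {δ : ℝ} (hδ : 0 < δ) :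
    ∃ (I : ℕ) (c : E → ℕ), 0 < I ∧ (∀ x, c x < I) ∧ ∀ x ∈ closedBall (0 : E) r,
      ∀ y ∈ closedBall (0 : E) r, c x = c y → d x y < δ := by
  classical
  obtain ⟨C, hC, hup⟩ := hd.up r hr
  have hε : 0 < δ / (2 * C) := by positivity
  obtain ⟨t, -, htf, hcov⟩ := (isCompact_closedBall (0 : E) r).finite_cover_balls hε
  let s := htf.toFinset
  let e := s.equivFin
  have : ∀ x ∈ closedBall (0 : E) r, ∃ i : Fin s.card, x ∈ ball (e.symm i : E) (δ / (2 * C)) := by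
    intro x hx
    obtain ⟨y, hy, hxy⟩ := mem_iUnion₂.1 (hcov hx)
    exact ⟨e ⟨y, htf.mem_toFinset.2 hy⟩, by simpa using hxy⟩
  choose c hc using this
  refine ⟨s.card + 1, fun x => if hx : x ∈ closedBall (0 : E) r then c x hx else 0,
    Nat.succ_pos _, fun x => ?_, fun x hx y hy hxy => ?_⟩
  · dsimp only
    split_ifs with hx
    exacts [(c x hx).2.trans (Nat.lt_succ_self _), Nat.succ_pos _]
  · simp only [dif_pos hx, dif_pos hy] at hxy
    have h1 := hc x hx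
    have h2 := hc y hy
    rw [← Fin.ext hxy] at h2
    have h3 : ‖x - y‖ < δ / C := by
      rw [← dist_eq_norm]
      refine (dist_triangle_right _ _ _).trans_lt ((add_lt_add h1 h2).trans_eq ?_)
      field_simp
      ring
    exact (hup x hx y hy).trans_lt ((lt_div_iff₀' hC).1 h3)

end Pool.Agent.Lib.MP_235f17_gt.K
end

-- part Pool.Agent.Lib.MP_235f17_gt.K.Poinc
section

/-! Convergence of the Poincare series. -/

set_option autoImplicit false
set_option linter.unusedSectionVars false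

open MeasureTheory Set Filter Topology Metric
open scoped ContDiff ENNReal RealInnerProductSpace

namespace Pool.Agent.Lib.MP_235f17_gt.K

variable {E : Type} [NormedAddCommGroup E] [InnerProductSpace ℝ E] [FiniteDimensional ℝ E]
  [MeasurableSpace E] [BorelSpace E] {J : E →L[ℝ] E} {G G' : E → E →L[ℝ] E}
  {Ψ : ℝ → E × E → E × E} {Γ : Type} [Group Γ] {a : Γ → E → E} {F F' : Set E} {r : ℝ}
  {d : E → E → ℝ}

theorem integrableOn_rpow_ball [Nontrivial E] {e : ℝ} (he : -1 < e) :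
    IntegrableOn (fun z : E => (1 - ‖z‖ ^ 2) ^ e) (ball 0 1) := by
  refine (integrableOn_fun_norm_addHaar volume (f := fun y => (1 - y ^ 2) ^ e)).2 ?_
  have h1 : IntegrableOn (fun y : ℝ => (2 : ℝ) ^ |e| * (1 - y) ^ e) (Ioo 0 1) := by
    have := ((intervalIntegral.intervalIntegrable_rpow' (a := 1) (b := 0) he).comp_sub_left 1)
    simp only [sub_self, sub_zero] at this
    exact ((intervalIntegrable_iff_integrableOn_Ioo_of_le zero_le_one).1 this).const_mul _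
  refine h1.mono' (Measurable.aestronglyMeasurable (by fun_prop)) ?_
  filter_upwards [ae_restrict_mem measurableSet_Ioo] with y hy
  have h2 : 0 ≤ 1 - y := sub_nonneg.2 hy.2.le
  have h3 : (1 + y) ^ e ≤ 2 ^ |e| :=
    (Real.rpow_le_rpow_of_exponent_le (by linarith [hy.1]) (le_abs_self e)).trans
      (Real.rpow_le_rpow (by linarith [hy.1]) (by linarith [hy.2]) (abs_nonneg e))
  have h4 := Real.rpow_nonneg h2 e
  have h5 := Real.rpow_nonneg (show 0 ≤ 1 + y by linarith [hy.1]) e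
  rw [show 1 - y ^ 2 = (1 + y) * (1 - y) by ring, Real.mul_rpow (by linarith [hy.1]) h2,
    smul_eq_mul, Real.norm_of_nonneg (mul_nonneg (pow_nonneg hy.1.le _) (mul_nonneg h5 h4))]
  exact (mul_le_of_le_one_left (mul_nonneg h5 h4) (pow_le_one₀ hy.1.le hy.2.le)).trans
    (mul_le_mul_of_nonneg_right h3 h4)

theorem measurable_pot : Measurable (pot : E → ℝ) := by
  unfold pot
  fun_prop

theorem poincare [Nontrivial E] (hJ : IsCx J) (h : IsLattice J a) {s : ℝ}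
    (hs : Module.finrank ℝ E < s) : Summable fun γ => Real.exp (-s * pot (a γ 0)) := by
  have := h.countable
  have H : Inv J a (berg J) := ⟨hJ, h, berg_metric hJ, h.iso⟩
  obtain ⟨F, r, hF, hr, hFr⟩ := h.exists_fund
  obtain ⟨D, hD⟩ := pot_osc hJ h hr
  have hs0 : 0 < s := (Nat.cast_nonneg _).trans_lt hs
  have hk : Measurable fun z : E => ENNReal.ofReal (Real.exp (-s * pot z)) :=
    (measurable_pot.const_mul _).exp.ennreal_ofReal
  have h1 : ∫⁻ z, ENNReal.ofReal (Real.exp (-s * pot z)) ∂vol (berg J) ≠ ⊤ := by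
    rw [vol, lintegral_withDensity_eq_lintegral_mul₀ H.met.aemeas_rho hk.aemeasurable]
    refine ne_of_lt (lt_of_eq_of_lt (setLIntegral_congr_fun measurableSet_ball fun z hz => ?_)
      (integrableOn_rpow_ball (E := E) (e := s / 2 - (Module.finrank ℝ E + 2) / 2)
        (by linarith)).lintegral_lt_top)
    have h0 := sq_lt hz
    rw [Pi.mul_apply, ← ENNReal.ofReal_mul (H.met.rho_pos hz).le, rho, det_berg hJ hz,
      Real.rpow_sub h0, show -s * pot z = -2 * pot z * (s / 2) by ring, Real.exp_mul, exp_pot hz,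
      Real.sqrt_eq_rpow, ← Real.rpow_natCast, ← Real.rpow_mul (inv_pos.2 h0).le,
      Real.inv_rpow h0.le, mul_comm, div_eq_mul_inv]
    congr 4
    push_cast
    ring
  rw [H.act_vol.lintegral_unfold (hF.ae_vol _) hk.aemeasurable] at h1
  have h2 : (∑' γ, ENNReal.ofReal (Real.exp (-s * pot (a γ 0)))) *
      (ENNReal.ofReal (Real.exp (-s * D)) * vol (berg J) F) ≠ ⊤ := by
    refine ne_top_of_le_ne_top h1 ?_
    rw [← ENNReal.tsum_mul_right]
    refine ENNReal.tsum_le_tsum fun γ => ?_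
    rw [← mul_assoc, ← setLIntegral_const, ← ENNReal.ofReal_mul (Real.exp_pos _).le,
      ← Real.exp_add]
    refine setLIntegral_mono' hF.meas fun y hy => ENNReal.ofReal_le_ofReal (Real.exp_le_exp.2 ?_)
    rw [ab_of_mem a γ (hF.sub hy)]
    nlinarith [(abs_le.1 (hD γ y (hFr hy))).2]
  have h3 : ∑' γ, ENNReal.ofReal (Real.exp (-s * pot (a γ 0))) ≠ ⊤ := fun h0 => h2 (by
    rw [h0, ENNReal.top_mul (mul_ne_zero (by simpa using Real.exp_pos _) (H.vol_fund_ne_zero hF))])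
  simpa only [ENNReal.toReal_ofReal (Real.exp_pos _).le] using ENNReal.summable_toReal h3

end Pool.Agent.Lib.MP_235f17_gt.K
end

-- part Pool.Agent.Lib.MP_235f17_gt.K.KS
section

/-! The upper bound for the Liouville entropy. -/

set_option autoImplicit false
set_option linter.unusedSectionVars false

open MeasureTheory Set Filter Topology Metric
open scoped ContDiff ENNReal RealInnerProductSpace

namespace Pool.Agent.Lib.MP_235f17_gt.K

variable {E : Type} [NormedAddCommGroup E] [InnerProductSpace ℝ E] [FiniteDimensional ℝ E]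
  [MeasurableSpace E] [BorelSpace E] {J : E →L[ℝ] E} {G G' : E → E →L[ℝ] E}
  {Ψ : ℝ → E × E → E × E} {Γ : Type} [Group Γ] {a : Γ → E → E} {F F' : Set E} {r : ℝ}
  {d : E → E → ℝ}

namespace KSAux

theorem sum_prod_le {α β : Type} {u : α → ℝ} {v : β → ℝ} (hu0 : ∀ x, 0 ≤ u x)
    (hv0 : ∀ x, 0 ≤ v x) (hu : ∀ s : Finset α, ∑ x ∈ s, u x ≤ 1)
    (hv : ∀ s : Finset β, ∑ x ∈ s, v x ≤ 1) (s : Finset (α × β)) :
    ∑ x ∈ s, u x.1 * v x.2 ≤ 1 := by
  classical
  calc ∑ x ∈ s, u x.1 * v x.2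
      ≤ ∑ x ∈ s.image Prod.fst ×ˢ s.image Prod.snd, u x.1 * v x.2 :=
        Finset.sum_le_sum_of_subset_of_nonneg Finset.subset_product
          fun x _ _ => mul_nonneg (hu0 _) (hv0 _)
    _ = (∑ x ∈ s.image Prod.fst, u x) * ∑ y ∈ s.image Prod.snd, v y := by
        rw [Finset.sum_product, Finset.sum_mul_sum]
    _ ≤ 1 := mul_le_one₀ (hu _) (Finset.sum_nonneg fun _ _ => hv0 _) (hv _)

theorem sum_half (s : Finset ℕ) : ∑ i ∈ s, (1 : ℝ) / 2 / 2 ^ i ≤ 1 :=
  sum_le_hasSum s (fun _ _ => by positivity) (hasSum_geometric_two' 1)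

theorem log_half {i I : ℕ} (h : i < I) : -Real.log ((1 : ℝ) / 2 / 2 ^ i) ≤ I * Real.log 2 := by
  have h2 : (1 : ℝ) / 2 / 2 ^ i = (2 ^ (i + 1))⁻¹ := by
    rw [pow_succ]; field_simp
  rw [h2, Real.log_inv, neg_neg, Real.log_pow]
  have : ((i + 1 : ℕ) : ℝ) ≤ I := by exact_mod_cast h
  exact mul_le_mul_of_nonneg_right this (Real.log_nonneg (by norm_num))

theorem exists_min {ι : Type} [Fintype ι] {Q : ι → ℝ → Prop} (h : ∀ i, ∃ δ > 0, Q i δ) :
    ∃ δ > 0, ∀ i, ∃ δ', δ ≤ δ' ∧ Q i δ' := by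
  choose f hf hQ using h
  rcases isEmpty_or_nonempty ι with hι | hι
  · exact ⟨1, one_pos, fun i => isEmptyElim i⟩
  · obtain ⟨i, hi⟩ := Finite.exists_min f
    exact ⟨f i, hf i, fun j => ⟨f j, hi j, hQ j⟩⟩

/-- compact cores of the cells of a finite invariant partition -/
theorem exists_core [Nontrivial E] (H : Inv J a G) (hF : Fund a F) (hr : r < 1)
    (hFr : F ⊆ closedBall 0 r) (h : IsGeo G Ψ) (hd : IsDist0 G Ψ d) {ι : Type} [Fintype ι]
    (Q : E × E → ι) (hQ : ∀ w, MeasurableSet (Q ⁻¹' {w}))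
    (hQi : ∀ γ, ∀ p ∈ SB G, Q (tg (a γ) p) = Q p) {η : ℝ} (hη : 0 < η) :
    ∃ (B : Set (E × E)) (δ : ℝ), 0 < δ ∧ MeasurableSet B ∧
      (∀ t, (pr G F).real (Ψ t ⁻¹' B) ≤ η) ∧ ∀ p ∈ SB G, ∀ q ∈ SB G, p ∉ B → q ∉ B →
        d p.1 q.1 < δ → d (Ψ 1 p).1 (Ψ 1 q).1 < δ → Q p = Q q := by
  classical
  have := H.pr_prob hF hr hFr
  have := H.lat.countable
  have hε : ENNReal.ofReal (η / (Fintype.card ι + 1)) ≠ 0 := by
    rw [ne_eq, ENNReal.ofReal_eq_zero, not_le]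
    positivity
  have hK : ∀ w, ∃ K ⊆ SB G ∩ Q ⁻¹' {w}, IsCompact K ∧
      pr G F ((SB G ∩ Q ⁻¹' {w}) \ K) < ENNReal.ofReal (η / (Fintype.card ι + 1)) := fun w =>
    (H.met.meas_SB.inter (hQ w)).exists_isCompact_sdiff_lt (measure_ne_top _ _) hε
  choose K hKs hKc hKm using hK
  have hsep : ∀ x : ι × ι, ∃ δ > 0, x.1 ≠ x.2 → ∀ γ γ', ∀ p ∈ UU E, ∀ q ∈ UU E,
      tg (a γ) p ∈ K x.1 → tg (a γ') q ∈ K x.2 → d p.1 q.1 < δ →
        δ ≤ d (Ψ 1 p).1 (Ψ 1 q).1 := by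
    rintro ⟨w, w'⟩
    by_cases hw : w = w'
    · exact ⟨1, one_pos, fun h' => absurd hw h'⟩
    · obtain ⟨δ, hδ, hs⟩ := sep_compact H h hd (hKc w) (hKc w')
        (fun p hp => SB_sub (hKs w hp).1) (fun p hp => SB_sub (hKs w' hp).1) (by
          intro γ p hp hp'
          have h1 : Q p = w := (hKs w hp).2
          have h2 : Q (tg (a γ) p) = w' := (hKs w' hp').2
          exact hw (h1.symm.trans ((hQi γ p (hKs w hp).1).symm.trans h2)))
      exact ⟨δ, hδ, fun _ => hs⟩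
  obtain ⟨δ, hδ, hs⟩ := exists_min hsep
  have hKU : MeasurableSet (⋃ w, K w) := MeasurableSet.iUnion fun w => (hKc w).measurableSet
  have hB : MeasurableSet (⋂ γ, tb a γ ⁻¹' (⋃ w, K w)ᶜ) :=
    MeasurableSet.iInter fun γ => H.lat.tb_meas γ hKU.compl
  refine ⟨⋂ γ, tb a γ ⁻¹' (⋃ w, K w)ᶜ, δ, hδ, hB, fun t => ?_, ?_⟩
  · have h1 : pr G F (Ψ t ⁻¹' ⋂ γ, tb a γ ⁻¹' (⋃ w, K w)ᶜ) =
        pr G F (⋂ γ, tb a γ ⁻¹' (⋃ w, K w)ᶜ) := by
      refine H.pr_inv h hF hF hB (fun γ p hp => ?_) t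
      simp only [mem_iInter, mem_preimage]
      rw [← tb_of_mem a γ hp.1]
      constructor
      · intro h' γ'
        have := h' (γ' * γ⁻¹)
        rwa [← H.lat.tb_mul, inv_mul_cancel_right] at this
      · intro h' γ'
        rw [← H.lat.tb_mul]
        exact h' _
    have h2 : pr G F (⋂ γ, tb a γ ⁻¹' (⋃ w, K w)ᶜ) ≤
        pr G F (⋃ w, (SB G ∩ Q ⁻¹' {w}) \ K w) := by
      refine measure_mono_ae ?_
      filter_upwards [ae_pr (F := F) H.met hF.meas] with p hp hp'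
      have h3 : p ∈ ⋂ γ, tb a γ ⁻¹' (⋃ w, K w)ᶜ := hp'
      have h4 := mem_iInter.1 h3 1
      rw [mem_preimage, H.lat.tb_one] at h4
      exact mem_iUnion.2 ⟨Q p, ⟨hp.1, rfl⟩, fun h5 => h4 (mem_iUnion.2 ⟨_, h5⟩)⟩
    have h3 : pr G F (⋃ w, (SB G ∩ Q ⁻¹' {w}) \ K w) ≤ ENNReal.ofReal η := by
      refine (measure_iUnion_fintype_le _ _).trans ?_
      refine (Finset.sum_le_sum fun w _ => (hKm w).le).trans ?_
      rw [Finset.sum_const, Finset.card_univ, nsmul_eq_mul, ← ENNReal.ofReal_natCast,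
        ← ENNReal.ofReal_mul (Nat.cast_nonneg _)]
      refine ENNReal.ofReal_le_ofReal ?_
      rw [mul_div_assoc', div_le_iff₀ (by positivity)]
      nlinarith
    rw [Measure.real, h1]
    exact ENNReal.toReal_le_of_le_ofReal hη.le (h2.trans h3)
  · intro p hp q hq hpB hqB h1 h2
    simp only [mem_iInter, mem_preimage, mem_compl_iff, not_forall, not_not, mem_iUnion]
      at hpB hqB
    obtain ⟨γ, w, hw⟩ := hpB
    obtain ⟨γ', w', hw'⟩ := hqB
    rw [tb_of_mem a γ hp.1] at hw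
    rw [tb_of_mem a γ' hq.1] at hw'
    have e1 : Q p = w := (hQi γ p hp).symm.trans (hKs w hw).2
    have e2 : Q q = w' := (hQi γ' q hq).symm.trans (hKs w' hw').2
    rw [e1, e2]
    by_contra hne
    obtain ⟨δ', hδ', hs'⟩ := hs (w, w')
    have := hs' hne γ γ' p (SB_sub hp) q (SB_sub hq) hw hw' (h1.trans_le hδ')
    linarith

/-- the potential along a geodesic -/
theorem pot_geo (H : Inv J a G) (h : IsGeo G Ψ) {p : E × E} (hp : p ∈ UU E) {T : ℝ}
    (hT : 0 ≤ T) : pot (Ψ T p).1 ≤ pot p.1 + ∫ t in (0 : ℝ)..T, nm (berg J) (Ψ t p) := by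
  have hc : Continuous fun t => Ψ t p :=
    continuous_iff_continuousAt.2 fun t => (h.ode p hp t).continuousAt
  have := (berg_curve J (β := fun t => (Ψ t p).1) (β' := fun t => (Ψ t p).2)
    (g := fun t => nm (berg J) (Ψ t p)) hT
    ((berg_metric H.cx).nm_cont.comp hc.continuousOn fun t _ => h.mem p hp t)
    fun u _ => ⟨h.base hp u, h.pos hp u, le_rfl⟩).1
  rw [h.zero] at this
  linarith [le_abs_self (pot (Ψ T p).1 - pot p.1)]

theorem ks_s [Nontrivial E] (H : Inv J a G) (hF : Fund a F) (hr : r < 1)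
    (hFr : F ⊆ closedBall 0 r) (h : IsGeo G Ψ) (hd : IsDist G Ψ d) {k : ℕ} (P : E × E → Fin k)
    (hP : Measurable P) (hPi : ∀ γ, ∀ p ∈ SB G, P (tg (a γ) p) = P p) {s : ℝ}
    (hs : Module.finrank ℝ E < s) :
    limsup (fun n : ℕ => ((ent (pr G F) (fun p (i : Fin n) => P (Ψ (i : ℕ) p)) / n : ℝ) : EReal))
      atTop ≤ ((s * ∫ p, nm (berg J) p ∂pr G F : ℝ) : EReal) := by
  classical
  have := H.pr_prob hF hr hFr
  have hs0 : 0 < s := lt_of_le_of_lt (Nat.cast_nonneg _) hs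
  have hm := h.measurable_at isOpen_UU (fld_smooth H.met)
  have hadd := h.add isOpen_UU (fld_smooth H.met)
  have hsum : Summable fun γ : Γ => Real.exp (-s * pot (a γ⁻¹ 0)) :=
    (Equiv.inv Γ).summable_iff.2 (poincare H.cx H.lat hs)
  set Z := ∑' γ : Γ, Real.exp (-s * pot (a γ⁻¹ 0)) with hZ
  have hZ0 : 0 < Z := hsum.tsum_pos (fun _ => (Real.exp_pos _).le) 1 (Real.exp_pos _)
  obtain ⟨D, hD⟩ := pot_osc H.cx H.lat hr
  obtain ⟨D', hD'⟩ := pot_bdd (E := E) hr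
  refine ks_abstract (β := ℕ × Γ × ℕ) (fun i p => P (Ψ i p)) (fun i => hP.comp (hm i))
    (mul_nonneg hs0.le (integral_nonneg fun p => nm_nonneg p)) fun l hl η hη => ?_
  obtain ⟨B, δ, hδ, hB, hBm, hBs⟩ := exists_core H hF hr hFr h hd.toIsDist0
    (fun p (i : Fin l) => P (Ψ (i : ℕ) p))
    (fun w => measurable_pi_lambda _ (fun i => hP.comp (hm _)) (measurableSet_singleton w))
    (fun γ p hp => funext fun i => by
      rw [h.equiv H.met (H.iso γ) (SB_sub hp), hPi γ _ (h.mem_SB H.met hp _)]) hη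
  obtain ⟨I, c, -, hcI, hc⟩ := exists_cells hd.toIsDist0 hr hδ
  refine ⟨fun j => Ψ ((l * j : ℕ) : ℝ) ⁻¹' B, 2 * (I * Real.log 2) + Real.log Z + s * (D + D'),
    fun j => ⟨hm _ hB, hBm _⟩, fun n => ?_⟩
  have hN : (0 : ℝ) ≤ n * l := by positivity
  have hg : ∀ p : E × E, ∃ γ, p ∈ UU E → a γ (Ψ (n * l) p).1 ∈ F := fun p => by
    by_cases hp : p ∈ UU E
    · obtain ⟨γ, hγ, -⟩ := hF.uniq _ (h.base hp (n * l))
      exact ⟨γ, fun _ => hγ⟩
    · exact ⟨1, fun h' => absurd h' hp⟩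
  choose g hg using hg
  have hint : Integrable (fun p => ∫ t in (0 : ℝ)..(n * l), nm (berg J) (Ψ t p)) (pr G F) :=
    H.integrable_pr hF hr hFr (len_cont H.met (berg_metric H.cx) h _)
  refine ⟨fun p => (c p.1, g p, c (a (g p) (Ψ (n * l) p).1)),
    fun b => (1 / 2 / 2 ^ b.1) * ((Real.exp (-s * pot (a b.2.1⁻¹ 0)) / Z) * (1 / 2 / 2 ^ b.2.2)),
    fun p => (2 * (I * Real.log 2) + Real.log Z + s * (D + D')) +
      s * ∫ t in (0 : ℝ)..(n * l), nm (berg J) (Ψ t p),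
    {p | p ∈ SB G ∧ p.1 ∈ F}, fun b => by positivity, fun t => ?_, ae_pr H.met hF.meas,
    (integrable_const _).add (hint.const_mul s), fun p hp => ⟨by positivity, ?_⟩, ?_, ?_⟩
  · refine sum_prod_le (u := fun i : ℕ => (1 : ℝ) / 2 / 2 ^ i)
      (v := fun b : Γ × ℕ => (Real.exp (-s * pot (a b.1⁻¹ 0)) / Z) * (1 / 2 / 2 ^ b.2))
      (fun _ => by positivity) (fun _ => by positivity) sum_half (fun t' => ?_) t
    refine sum_prod_le (u := fun γ : Γ => Real.exp (-s * pot (a γ⁻¹ 0)) / Z)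
      (v := fun i : ℕ => (1 : ℝ) / 2 / 2 ^ i) (fun _ => by positivity) (fun _ => by positivity)
      (fun t'' => ?_) sum_half t'
    rw [← Finset.sum_div, div_le_one hZ0]
    exact hsum.sum_le_tsum t'' fun _ _ => (Real.exp_pos _).le
  · have hpU := SB_sub hp.1
    have hx := h.base hpU (n * l)
    have h1 := log_half (hcI p.1)
    have h2 := log_half (hcI (a (g p) (Ψ (n * l) p).1))
    have h3 := hD (g p)⁻¹ _ (hFr (hg p hpU))
    rw [← H.lat.mul _ _ _ hx, inv_mul_cancel, H.lat.one _ hx] at h3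
    have h4 := pot_geo H h hpU hN
    have h5 := hD' _ (hFr hp.2)
    have h6 : pot (a (g p)⁻¹ 0) ≤ D + D' + ∫ t in (0 : ℝ)..(n * l), nm (berg J) (Ψ t p) := by
      linarith [(abs_le.1 h3).1]
    have h7 := mul_le_mul_of_nonneg_left h6 hs0.le
    dsimp only
    rw [Real.log_mul (by positivity) (by positivity), Real.log_mul (by positivity) (by positivity),
      Real.log_div (Real.exp_pos _).ne' hZ0.ne', Real.log_exp]
    linarith
  · rw [integral_add (integrable_const _) (hint.const_mul s), integral_const_mul,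
      H.len_avg H.toBerg h hF hr hFr hN]
    simp only [integral_const, probReal_univ, smul_eq_mul, one_mul]
    linarith
  · intro p hp q hq he j hj hpB hqB i hi
    simp only [Prod.mk.injEq] at he
    obtain ⟨e1, e2, e3⟩ := he
    have hpU := SB_sub hp.1
    have hqU := SB_sub hq.1
    have d0 : d p.1 q.1 < δ := hc _ (hFr hp.2) _ (hFr hq.2) e1
    have dN : d (Ψ (n * l) p).1 (Ψ (n * l) q).1 < δ := by
      have := hc _ (hFr (hg p hpU)) _ (hFr (hg q hqU)) e3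
      rwa [← e2, hd.inv _ (H.iso _) _ (h.base hpU _) _ (h.base hqU _)] at this
    have dt : ∀ t : ℝ, 0 ≤ t → t ≤ n * l → d (Ψ t p).1 (Ψ t q).1 < δ := fun t h0 h1 =>
      (hd.ft p hpU q hqU _ t h0 h1).trans_lt (max_lt d0 dN)
    have hle : l * j + 1 ≤ n * l := by nlinarith
    have hle' : ((l * j : ℕ) : ℝ) + 1 ≤ n * l := by exact_mod_cast hle
    have hlj : (0 : ℝ) ≤ ((l * j : ℕ) : ℝ) := Nat.cast_nonneg _
    have key := hBs _ (h.mem_SB H.met hp.1 _) _ (h.mem_SB H.met hq.1 _) hpB hqB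
      (dt _ hlj (by linarith)) (by
        rw [← hadd, ← hadd]
        exact dt _ (by linarith) (by linarith))
    have := congrFun key ⟨i, hi⟩
    simp only [← hadd] at this
    show P (Ψ ((l * j + i : ℕ) : ℝ) p) = P (Ψ ((l * j + i : ℕ) : ℝ) q)
    rw [Nat.cast_add, add_comm]
    exact this

end KSAux

theorem ks_geo [Nontrivial E] (H : Inv J a G) (hF : Fund a F) (hr : r < 1)
    (hFr : F ⊆ closedBall 0 r) (h : IsGeo G Ψ) (hd : IsDist G Ψ d) {k : ℕ} (P : E × E → Fin k)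
    (hP : Measurable P) (hPi : ∀ γ, ∀ p ∈ SB G, P (tg (a γ) p) = P p) :
    limsup (fun n : ℕ => ((ent (pr G F) (fun p (i : Fin n) => P (Ψ (i : ℕ) p)) / n : ℝ) : EReal))
      atTop ≤ ((Module.finrank ℝ E * ∫ p, nm (berg J) p ∂pr G F : ℝ) : EReal) := by
  have hc : Continuous fun s : ℝ => ((s * ∫ p, nm (berg J) p ∂pr G F : ℝ) : EReal) :=
    continuous_coe_real_ereal.comp (continuous_id.mul continuous_const)
  refine ge_of_tendsto (x := 𝓝[>] (Module.finrank ℝ E : ℝ))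
    ((hc.tendsto _).mono_left nhdsWithin_le_nhds) ?_
  exact eventually_nhdsWithin_of_forall fun s hs => KSAux.ks_s H hF hr hFr h hd P hP hPi hs

end Pool.Agent.Lib.MP_235f17_gt.K
end

-- part Pool.Agent.Lib.MP_235f17_gt.K.Mob
section

/-! Radial geodesics and transvections of the Bergman metric. -/

set_option autoImplicit false
set_option linter.unusedSectionVars false

open MeasureTheory Set Filter Topology Metric
open scoped ContDiff ENNReal RealInnerProductSpace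

namespace Pool.Agent.Lib.MP_235f17_gt.K

variable {E : Type} [NormedAddCommGroup E] [InnerProductSpace ℝ E] [FiniteDimensional ℝ E]
  {J : E →L[ℝ] E} {G G' : E → E →L[ℝ] E} {Ψ : ℝ → E × E → E × E}

namespace MobAux

theorem hasDerivAt_tanh (t : ℝ) : HasDerivAt Real.tanh (1 - Real.tanh t ^ 2) t := by
  have hc := (Real.cosh_pos t).ne'
  have h := (Real.hasDerivAt_sinh t).div (Real.hasDerivAt_cosh t) hc
  have e : Real.tanh = Real.sinh / Real.cosh := funext fun s => Real.tanh_eq_sinh_div_cosh s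
  rw [← e] at h
  refine h.congr_deriv ?_
  rw [Real.tanh_eq_sinh_div_cosh]
  field_simp

theorem tanh_mem {u : E} (hu : ‖u‖ = 1) (t : ℝ) : Real.tanh t • u ∈ ball (0 : E) 1 := by
  rw [mem_ball_zero_iff, norm_smul, hu, mul_one]
  exact Real.abs_tanh_lt_one t

theorem chr_rad (hJ : IsCx J) {u : E} (hu : ‖u‖ = 1) {r : ℝ} (hr : r • u ∈ ball (0 : E) 1)
    (b : ℝ) : chr (berg J) (r • u) (b • u) (b • u) = (2 * r * b ^ 2 * (1 - r ^ 2)⁻¹) • u := by
  have h0 := (sq_lt hr).ne'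
  have e : ‖r • u‖ ^ 2 = r ^ 2 := by rw [norm_smul, hu, mul_one, Real.norm_eq_abs, sq_abs]
  have e1 : ⟪u, u⟫ = 1 := by rw [real_inner_self_eq_norm_sq, hu, one_pow]
  refine (berg_metric hJ).ext_gm hr fun w => ?_
  rw [gm_chr (berg_metric hJ) hr, fderiv_berg J hr, fderiv_berg J hr, gm_berg]
  rw [e] at h0 ⊢
  simp only [map_smul, real_inner_smul_left, real_inner_smul_right, e1, hJ.inner_self,
    real_inner_comm u w]
  field_simp
  ring

/-- the infinitesimal transvection -/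
noncomputable def kil (J : E →L[ℝ] E) (u z : E) : E := u - ⟪u, z⟫ • z - ⟪J u, z⟫ • J z

theorem kil_smooth (u : E) : ContDiff ℝ ∞ (kil J u) :=
  (contDiff_const.sub ((contDiff_const.inner ℝ contDiff_id).smul contDiff_id)).sub
    ((contDiff_const.inner ℝ contDiff_id).smul J.contDiff)

theorem fderiv_kil (u z v : E) : fderiv ℝ (kil J u) z v =
    -(⟪u, z⟫ • v + ⟪u, v⟫ • z) - (⟪J u, z⟫ • J v + ⟪J u, v⟫ • J z) := by
  have h : HasFDerivAt (kil J u) _ z :=
    (((innerSL ℝ u).hasFDerivAt.smul (hasFDerivAt_id z)).const_sub u).sub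
      ((innerSL ℝ (J u)).hasFDerivAt.smul J.hasFDerivAt)
  rw [h.fderiv]
  simp

theorem inner_kil (hJ : IsCx J) (u z : E) : ⟪z, kil J u z⟫ = (1 - ‖z‖ ^ 2) * ⟪u, z⟫ := by
  have e : ⟪z, J z⟫ = 0 := (real_inner_comm _ _).trans (hJ.inner_self z)
  simp only [kil, inner_sub_right, real_inner_smul_right, e, real_inner_self_eq_norm_sq,
    real_inner_comm u z]
  ring

theorem killing (hJ : IsCx J) {z : E} (hz : z ∈ ball (0 : E) 1) (u v w : E) :
    ⟪fderiv ℝ (berg J) z (kil J u z) v, w⟫ + gm (berg J) z (fderiv ℝ (kil J u) z v) w +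
      gm (berg J) z v (fderiv ℝ (kil J u) z w) = 0 := by
  have h0 := (sq_lt hz).ne'
  have e1 : ⟪z, J z⟫ = 0 := (real_inner_comm _ _).trans (hJ.inner_self z)
  have e2 : ⟪z, J v⟫ = -⟪J z, v⟫ := by rw [hJ.skew, neg_neg]
  have e3 : ⟪z, J w⟫ = -⟪J z, w⟫ := by rw [hJ.skew, neg_neg]
  have e4 : ⟪v, J w⟫ = -⟪J v, w⟫ := by rw [hJ.skew, neg_neg]
  rw [fderiv_berg J hz, gm_berg, gm_berg, fderiv_kil, fderiv_kil, inner_kil hJ]
  simp only [kil, map_sub, map_smul, hJ.1, hJ.2, inner_sub_left, inner_sub_right, inner_add_left,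
    inner_add_right, inner_neg_left, inner_neg_right, real_inner_smul_left, real_inner_smul_right,
    e1, e2, e3, e4, hJ.inner_self, real_inner_self_eq_norm_sq, real_inner_comm z v,
    real_inner_comm (J z) v]
  field_simp
  ring

theorem kil_flow (hJ : IsCx J) {u : E} (hu : ‖u‖ = 1) :
    ∃ ψ, IsFlowOn (ball (0 : E) 1) (kil J u) ψ := by
  refine flow_exists isOpen_ball (kil_smooth u).contDiffOn fun p _ T => ?_
  obtain ⟨r, hr, h⟩ := pot_le_imp (E := E) (pot p + T)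
  refine ⟨closedBall 0 r, isCompact_closedBall _ _, closedBall_subset_ball hr,
    fun f t ht h0 hf => h _ (hf t right_mem_uIcc).1 ?_⟩
  have h1 : ∀ s ∈ uIcc 0 t, HasDerivWithinAt (fun s => pot (f s)) ⟪u, f s⟫ (uIcc 0 t) s :=
    fun s hs => by
      refine (((hasFDerivAt_pot (hf s hs).1).comp_hasDerivAt s (hf s hs).2).congr_deriv
        ?_).hasDerivWithinAt
      have := (sq_lt (hf s hs).1).ne'
      simp only [smul_apply, innerSL_apply_apply, inner_kil hJ, smul_eq_mul]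
      field_simp
  have h2 := (convex_uIcc 0 t).norm_image_sub_le_of_norm_hasDerivWithin_le (C := 1) h1
    (fun s hs => (norm_inner_le_norm _ _).trans (by
      rw [hu, one_mul]; exact (mem_ball_zero_iff.1 (hf s hs).1).le)) left_mem_uIcc right_mem_uIcc
  rw [h0, sub_zero, one_mul, Real.norm_eq_abs, Real.norm_eq_abs] at h2
  linarith [le_abs_self (pot (f t) - pot p)]

theorem kil_pres (hJ : IsCx J) {u : E} {ψ : ℝ → E → E}
    (h : IsFlowOn (ball (0 : E) 1) (kil J u) ψ) (t : ℝ) : Preserves (berg J) (ψ t) := by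
  intro x hx v w
  have hv := fun s => h.var isOpen_ball (kil_smooth u).contDiffOn hx s
  have hd : ∀ s, HasDerivAt (fun s => gm (berg J) (ψ s x) (fderiv ℝ (ψ s) x v)
      (fderiv ℝ (ψ s) x w)) 0 s := fun s => by
    have h0 : HasDerivAt (fun s => berg J (ψ s x)) (fderiv ℝ (berg J) (ψ s x) (kil J u (ψ s x))) s :=
      HasFDerivAt.comp_hasDerivAt (f := fun s => ψ s x) s
        ((berg_metric hJ).diffAt (h.mem x hx s)).hasFDerivAt (h.ode x hx s)
    have h1 := h0.clm_apply ((hv s).clm_apply (hasDerivAt_const s v))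
    refine (h1.inner ℝ ((hv s).clm_apply (hasDerivAt_const s w))).congr_deriv ?_
    rw [← killing hJ (h.mem x hx s) u (fderiv ℝ (ψ s) x v) (fderiv ℝ (ψ s) x w)]
    simp only [gm, map_zero, add_zero, inner_add_left, ContinuousLinearMap.comp_apply]
    ring
  have := is_const_of_deriv_eq_zero (fun s => (hd s).differentiableAt) (fun s => (hd s).deriv) t 0
  rw [this, h.fderiv_zero, h.zero]
  rfl

end MobAux

open MobAux

theorem radial (hJ : IsCx J) (h : IsGeo (berg J) Ψ) {u : E} (hu : ‖u‖ = 1) (t : ℝ) :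
    (Ψ t (0, u)).1 = Real.tanh t • u := by
  have := h.unique isOpen_UU (fld_smooth (berg_metric hJ))
    (f := fun s => (Real.tanh s • u, (1 - Real.tanh s ^ 2) • u)) (fun s =>
      ⟨mem_UU.2 (tanh_mem hu s), by
        have h1 := hasDerivAt_tanh s
        refine ((h1.smul_const u).prodMk (((h1.pow 2).const_sub 1).smul_const u)).congr_deriv ?_
        have h2 : 1 - Real.tanh s ^ 2 ≠ 0 := (sub_pos.2 (Real.tanh_sq_lt_one s)).ne'
        simp only [fld, chr_rad hJ hu (tanh_mem hu s), ← neg_smul]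
        congr 2
        field_simp
        simp [mul_comm]⟩) t
  simpa using congrArg Prod.fst this

theorem exists_mob (hJ : IsCx J) {x : E} (hx : x ∈ ball (0 : E) 1) :
    ∃ φ, Iso (berg J) φ ∧ InjOn φ (ball 0 1) ∧ φ 0 = x := by
  by_cases h0 : x = 0
  · exact ⟨id, ⟨contDiffOn_id, mapsTo_id _, fun y _ v w => by simp⟩, injOn_id _, h0.symm⟩
  have hn := norm_ne_zero_iff.2 h0
  have hu : ‖‖x‖⁻¹ • x‖ = 1 := norm_smul_inv_norm h0
  obtain ⟨ψ, h⟩ := kil_flow hJ hu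
  have hs := (kil_smooth (J := J) (‖x‖⁻¹ • x)).contDiffOn (s := ball 0 1)
  refine ⟨ψ (Real.artanh ‖x‖), ⟨h.smooth_at isOpen_ball hs _, fun y hy => h.mem y hy _,
    kil_pres hJ h _⟩, fun y _ z _ e => ?_, ?_⟩
  · have := congrArg (ψ (-Real.artanh ‖x‖)) e
    rwa [← h.add isOpen_ball hs, ← h.add isOpen_ball hs, neg_add_cancel, h.zero, h.zero] at this
  · generalize hy : ‖x‖⁻¹ • x = u at *
    have := h.unique isOpen_ball hs (f := fun s => Real.tanh s • u) (fun s =>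
      ⟨tanh_mem hu s, ((hasDerivAt_tanh s).smul_const u).congr_deriv (by
        simp only [kil, real_inner_smul_right, real_inner_self_eq_norm_sq, hu, hJ.inner_self]
        module)⟩) (Real.artanh ‖x‖)
    simp only [Real.tanh_zero, zero_smul] at this
    rw [this, Real.tanh_artanh ⟨by linarith [norm_nonneg x], mem_ball_zero_iff.1 hx⟩, ← hy,
      smul_inv_smul₀ hn]

end Pool.Agent.Lib.MP_235f17_gt.K
end

-- part Pool.Agent.Lib.MP_235f17_gt.K.Grow
section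

/-! Volume growth. -/

set_option autoImplicit false
set_option linter.unusedSectionVars false

open MeasureTheory Set Filter Topology Metric
open scoped ContDiff ENNReal RealInnerProductSpace

namespace Pool.Agent.Lib.MP_235f17_gt.K

variable {E : Type} [NormedAddCommGroup E] [InnerProductSpace ℝ E] [FiniteDimensional ℝ E]
  [MeasurableSpace E] [BorelSpace E] {J : E →L[ℝ] E} {G G' : E → E →L[ℝ] E}
  {Ψ : ℝ → E × E → E × E} {Γ : Type} [Group Γ] {a : Γ → E → E} {F F' : Set E} {r : ℝ}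
  {d : E → E → ℝ}

namespace GrowAux

/-- Markov's inequality for the complement -/
theorem markov {X : Type} [MeasurableSpace X] {μ : Measure X} [IsProbabilityMeasure μ] {l : X → ℝ}
    (h0 : ∀ p, 0 ≤ l p) (hi : Integrable l μ) {m ε : ℝ} (hm : 0 < m) (hε : 0 < ε)
    (he : ∫ p, l p ∂μ = m) {S : Set X} (hS : MeasurableSet S)
    (h : ∀ᵐ p ∂μ, p ∉ S → (1 + ε) * m ≤ l p) : ENNReal.ofReal (ε / (1 + ε)) ≤ μ S := by
  have h1 := mul_meas_ge_le_integral_of_nonneg (ae_of_all μ h0) hi ((1 + ε) * m)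
  have h2 : μ.real Sᶜ ≤ μ.real {p | (1 + ε) * m ≤ l p} :=
    ENNReal.toReal_mono (measure_ne_top _ _) (measure_mono_ae h)
  rw [probReal_compl_eq_one_sub hS] at h2
  refine ENNReal.ofReal_le_of_le_toReal ?_
  rw [div_le_iff₀ (by positivity)]
  have h3 := mul_le_mul_of_nonneg_left h2 (show 0 ≤ (1 + ε) * m by positivity)
  rw [he] at h1
  refine le_of_mul_le_mul_left ?_ hm
  change m * ε ≤ m * (μ.real S * (1 + ε))
  linarith

/-- transfer of the fibre inequality to the origin -/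
theorem fibre {P : E → E →L[ℝ] E} {x : E} {A : E →L[ℝ] E}
    (hA : ∀ u v, gm P x (A u) (A v) = ⟪u, v⟫) (hi : Function.Injective A) {S : Set (E × E)}
    {k : ℝ≥0∞} (h : k * volume {v : E | gm P x v v < 1} ≤
      volume {v : E | gm P x v v < 1 ∧ nrm P (x, v) ∈ S}) :
    k * volume (ball (0 : E) 1) ≤
      volume {v : E | v ∈ ball (0 : E) 1 ∧ ‖v‖⁻¹ • v ∈ {u | (x, A u) ∈ S}} := by
  have h1 : ∀ u, gm P x (A u) (A u) < 1 ↔ u ∈ ball (0 : E) 1 := fun u => by
    rw [hA, real_inner_self_eq_norm_sq, mem_ball_zero_iff, sq_lt_one_iff₀ (norm_nonneg u)]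
  have h2 : A '' ball 0 1 ⊆ {v : E | gm P x v v < 1} := by
    rintro _ ⟨u, hu, rfl⟩
    exact (h1 u).2 hu
  have h3 : {v : E | gm P x v v < 1 ∧ nrm P (x, v) ∈ S} ⊆
      A '' {v : E | v ∈ ball (0 : E) 1 ∧ ‖v‖⁻¹ • v ∈ {u | (x, A u) ∈ S}} := by
    rintro v ⟨b1, b2⟩
    obtain ⟨u, rfl⟩ := (isInv_of_inj hi).surjective v
    refine ⟨u, ⟨(h1 u).1 b1, ?_⟩, rfl⟩
    simp only [nrm, nm, hA, ← norm_eq_sqrt_real_inner] at b2
    simpa only [mem_ofPred_eq, map_smul] using b2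
  have h4 := ((mul_le_mul_right (measure_mono h2) k).trans h).trans (measure_mono h3)
  rw [Measure.addHaar_image_continuousLinearMap, Measure.addHaar_image_continuousLinearMap,
    mul_left_comm] at h4
  exact (ENNReal.mul_le_mul_iff_right
    (ENNReal.ofReal_pos.2 (abs_pos.2 (det_ne_of_inj hi))).ne' ENNReal.ofReal_ne_top).1 h4

/-- the length of a geodesic of another metric bounds the distance -/
theorem dist_le (hG : IsMetric G) (hd : IsDist0 G Ψ d) {Ψ' : ℝ → E × E → E × E}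
    (h : IsGeo G' Ψ') {p : E × E} (hp : p ∈ UU E) {t T : ℝ} (ht : t ∈ Icc 0 T) :
    d p.1 (Ψ' t p).1 ≤ ∫ s in (0 : ℝ)..T, nm G (Ψ' s p) := by
  have hc : Continuous fun s => nm G (Ψ' s p) :=
    hG.nm_cont.comp_continuous (continuous_iff_continuousAt.2 fun s => (h.ode p hp s).continuousAt)
      (h.mem p hp)
  have h1 := hd.len p.1 (mem_UU.1 hp) (fun s => (Ψ' s p).1) (fun s => (Ψ' s p).2)
    (fun s => nm G (Ψ' s p)) 0 t ht.1 hc.continuousOn
    fun s _ => ⟨h.base hp s, h.pos hp s, le_rfl⟩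
  rw [h.zero, hd.self _ (mem_UU.1 hp), zero_add] at h1
  exact h1.trans (intervalIntegral.integral_mono_interval le_rfl ht.1 ht.2
    (ae_of_all _ fun s => nm_nonneg _) (hc.intervalIntegrable _ _))

end GrowAux

theorem grow [Nontrivial E] (H : Inv J a G) (hF : Fund a F) (hr : r < 1)
    (hFr : F ⊆ closedBall 0 r) (hd : IsDist0 G Ψ d) {ε : ℝ} (hε : 0 < ε)
    (hpos : 0 < ∫ p, nm G p ∂pr (berg J) F) : ∃ c > (0 : ℝ), ∀ T ≥ (1 : ℝ),
      ∃ x ∈ ball (0 : E) 1, ENNReal.ofReal (c * Real.exp (Module.finrank ℝ E * T)) ≤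
        vol (berg J) {y | y ∈ ball (0 : E) 1 ∧
          d x y ≤ (1 + ε) * (∫ p, nm G p ∂pr (berg J) F) * T} := by
  obtain ⟨Ψ0, h0⟩ := geo_exists (met_berg H.cx)
  obtain ⟨c, hc, hcone⟩ := cone_vol H.cx
  have hB := berg_metric H.cx
  have hprob := H.toBerg.pr_prob hF hr hFr
  have hV : volume (ball (0 : E) 1) ≠ ⊤ := measure_ball_lt_top.ne
  have hV0 : 0 < (volume (ball (0 : E) 1)).toReal :=
    ENNReal.toReal_pos (measure_ball_pos _ _ one_pos).ne' hV
  set a1 := ∫ p, nm G p ∂pr (berg J) F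
  refine ⟨c * (ε / (1 + ε) / 2 * (volume (ball (0 : E) 1)).toReal), by positivity, fun T hT => ?_⟩
  have hT0 : 0 < T := by linarith
  have hl := len_cont hB H.met h0 T
  let l : E × E → ℝ := fun p => ∫ t in (0 : ℝ)..T, nm G (Ψ0 t p)
  let S := UU E \ (UU E ∩ l ⁻¹' Ioi ((1 + ε) * (T * a1)))
  have hS : MeasurableSet S := isOpen_UU.measurableSet.diff
    (hl.isOpen_inter_preimage isOpen_UU isOpen_Ioi).measurableSet
  have h1 : ENNReal.ofReal (ε / (1 + ε)) ≤ pr (berg J) F S := by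
    refine GrowAux.markov (l := l)
      (fun p => intervalIntegral.integral_nonneg hT0.le fun t _ => nm_nonneg _)
      (H.toBerg.integrable_pr hF hr hFr hl) (mul_pos hT0 hpos) hε
      (H.toBerg.len_avg H h0 hF hr hFr hT0.le) hS ?_
    filter_upwards [ae_pr hB hF.meas] with p hp hpS
    by_contra h
    exact hpS ⟨SB_sub hp.1, fun h' => h (le_of_lt h'.2)⟩
  obtain ⟨x, hx, h2⟩ := H.toBerg.exists_base hF hr hFr hS (by positivity) h1
  obtain ⟨φ, hφ, hinj, rfl⟩ := exists_mob H.cx (hF.sub hx)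
  have hz : (0 : E) ∈ ball (0 : E) 1 := mem_ball_self one_pos
  have h3 := GrowAux.fibre (A := fderiv ℝ φ 0) (fun u v => by
    rw [hφ.pres 0 hz, gm, berg_zero]
    rfl) (hφ.fderiv_inj hB hz) h2
  obtain ⟨Z, hZ, hZ1, hZ2⟩ := hcone T hT {u | (φ 0, fderiv ℝ φ 0 u) ∈ S}
    ((measurable_const.prodMk (fderiv ℝ φ 0).continuous.measurable) hS)
  have hZ3 : ∀ z ∈ Z, z ∈ ball (0 : E) 1 ∧ d (φ 0) (φ z) ≤ (1 + ε) * a1 * T := by
    intro z hzZ
    obtain ⟨t, ht, u, hu, hu1, rfl⟩ := hZ1 z hzZ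
    have hp : ((0, u) : E × E) ∈ UU E := mem_UU.2 hz
    have h4 := GrowAux.dist_le H.met hd h0 (hφ.tg_mem hp) ht
    rw [h0.equiv hB hφ hp] at h4
    rw [← radial H.cx h0 hu1]
    refine ⟨h0.base hp t, h4.trans ?_⟩
    rw [mul_assoc, mul_comm a1]
    exact not_lt.1 fun h => hu.2 ⟨hu.1, h⟩
  refine ⟨φ 0, hF.sub hx, le_trans ?_ (hZ2.trans ?_)⟩
  · refine le_trans (le_of_eq ?_) (mul_le_mul_right h3 _)
    rw [mul_right_comm, ENNReal.ofReal_mul (by positivity), ENNReal.ofReal_mul (p := ε / (1 + ε) / 2)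
      (by positivity), ENNReal.ofReal_toReal hV]
  · rw [← hφ.vol_image hB hinj hZ fun z hz => (hZ3 z hz).1]
    refine measure_mono ?_
    rintro _ ⟨z, hz, rfl⟩
    exact ⟨hφ.maps (hZ3 z hz).1, (hZ3 z hz).2⟩

end Pool.Agent.Lib.MP_235f17_gt.K
end

-- part Pool.Agent.Lib.MP_235f17_gt.K.Quo
section

/-! The quotient. -/

set_option autoImplicit false
set_option linter.unusedSectionVars false

open MeasureTheory Set Filter Topology Metric
open scoped ContDiff ENNReal RealInnerProductSpace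

namespace Pool.Agent.Lib.MP_235f17_gt.K

variable {E : Type} [NormedAddCommGroup E] [InnerProductSpace ℝ E] [FiniteDimensional ℝ E]
  [MeasurableSpace E] [BorelSpace E] {J : E →L[ℝ] E} {G G' : E → E →L[ℝ] E}
  {Ψ : ℝ → E × E → E × E} {Γ : Type} [Group Γ] {a : Γ → E → E} {F F' : Set E} {r : ℝ}
  {d : E → E → ℝ}

theorem continuous_prj : Continuous (prj a G) := continuous_quot_mk

theorem Inv.prj_eq_iff (H : Inv J a G) (p q : SB G) :
    prj a G p = prj a G q ↔ ∃ γ, q.1 = tg (a γ) p.1 := by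
  have hE : Equivalence fun p q : SB G => ∃ γ, q.1 = tg (a γ) p.1 := by
    refine ⟨fun p => ⟨1, (H.lat.tg_one (SB_sub p.2)).symm⟩, ?_, ?_⟩
    · rintro p q ⟨γ, hγ⟩
      refine ⟨γ⁻¹, ?_⟩
      rw [hγ, ← H.lat.tg_mul _ _ (SB_sub p.2), inv_mul_cancel, H.lat.tg_one (SB_sub p.2)]
    · rintro p q z ⟨γ, hγ⟩ ⟨δ, hδ⟩
      refine ⟨δ * γ, ?_⟩
      rw [hδ, hγ, H.lat.tg_mul _ _ (SB_sub p.2)]
  exact hE.quot_mk_eq_iff p q

theorem Inv.isOpenMap_prj (H : Inv J a G) : IsOpenMap (prj a G) := by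
  intro U hU
  have hq : IsQuotientMap (prj a G) := isQuotientMap_quot_mk
  rw [← hq.isOpen_preimage]
  have hc : ∀ γ, Continuous fun p : SB G =>
      (⟨tg (a γ) p.1, (H.iso γ).tg_SB p.2⟩ : SB G) := fun γ =>
    ((H.iso γ).tg_smooth.continuousOn.comp_continuous continuous_subtype_val
      fun p => SB_sub p.2).subtype_mk _
  have e : prj a G ⁻¹' (prj a G '' U) = ⋃ γ, (fun p : SB G =>
      (⟨tg (a γ) p.1, (H.iso γ).tg_SB p.2⟩ : SB G)) ⁻¹' U := by
    ext p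
    simp only [mem_preimage, mem_image, mem_iUnion]
    constructor
    · rintro ⟨q, hqU, hqp⟩
      obtain ⟨γ, hγ⟩ := (H.prj_eq_iff p q).1 hqp.symm
      refine ⟨γ, ?_⟩
      have : (⟨tg (a γ) p.1, (H.iso γ).tg_SB p.2⟩ : SB G) = q := Subtype.ext hγ.symm
      rwa [this]
    · rintro ⟨γ, hγ⟩
      exact ⟨_, hγ, ((H.prj_eq_iff p _).2 ⟨γ, rfl⟩).symm⟩
  rw [e]
  exact isOpen_iUnion fun γ => hU.preimage (hc γ)

theorem Inv.ent_liouQ [Nontrivial E] (H : Inv J a G) (h : IsGeo G Ψ) (hF : Fund a F)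
    (hF' : Fund a F') {T : SM a G → SM a G}
    (hT : ∀ p : SB G, T (prj a G p) = prj a G ⟨Ψ 1 p.1, h.mem_SB H.met p.2 1⟩) {k : ℕ}
    {P : SM a G → Fin k} (hP : Measurable P) : ∃ P' : E × E → Fin k, Measurable P' ∧
      (∀ γ, ∀ p ∈ SB G, P' (tg (a γ) p) = P' p) ∧ ∀ n : ℕ,
        ent (liouQ a G F) (fun x (i : Fin n) => P (T^[i] x)) =
          ent (pr G F') (fun p (i : Fin n) => P' (Ψ (i : ℕ) p)) := by
  classical
  have : BorelSpace (SM a G) := ⟨rfl⟩
  have hm := h.measurable_at isOpen_UU (fld_smooth H.met)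
  have hadd := h.add isOpen_UU (fld_smooth H.met)
  have hprj : Measurable (prj a G) := continuous_prj.measurable
  obtain ⟨v, hv⟩ := exists_ne (0 : E)
  have hx0 : nrm G ((0 : E), v) ∈ SB G := H.met.nrm_mem (mem_UU.2 (mem_ball_self one_pos)) hv
  let P' : E × E → Fin k := fun p =>
    if hp : p ∈ SB G then P (prj a G ⟨p, hp⟩) else P (prj a G ⟨_, hx0⟩)
  have hP'm : Measurable P' :=
    Measurable.dite (s := SB G) (f := fun p => P (prj a G p))
      (g := fun _ => P (prj a G ⟨_, hx0⟩)) (hP.comp hprj) measurable_const H.met.meas_SB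
  have hP'e : ∀ p (hp : p ∈ SB G), P' p = P (prj a G ⟨p, hp⟩) := fun p hp => dif_pos hp
  have hP'i : ∀ γ, ∀ p ∈ SB G, P' (tg (a γ) p) = P' p := by
    intro γ p hp
    rw [hP'e _ ((H.iso γ).tg_SB hp), hP'e p hp]
    exact congrArg P ((H.prj_eq_iff _ _).2 ⟨γ, rfl⟩).symm
  have hTc : Continuous T := by
    have hq : IsQuotientMap (prj a G) := isQuotientMap_quot_mk
    rw [hq.continuous_iff]
    have e : T ∘ prj a G = fun p : SB G => prj a G ⟨Ψ 1 p.1, h.mem_SB H.met p.2 1⟩ := funext hT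
    rw [e]
    exact continuous_prj.comp
      (((h.smooth_at isOpen_UU (fld_smooth H.met) 1).continuousOn.comp_continuous
        continuous_subtype_val fun p => SB_sub p.2).subtype_mk _)
  have hit : ∀ (i : ℕ) (p : SB G),
      T^[i] (prj a G p) = prj a G ⟨Ψ i p.1, h.mem_SB H.met p.2 i⟩ := by
    intro i p
    induction i with
    | zero =>
      rw [Function.iterate_zero_apply]
      congr 1
      exact Subtype.ext (by simp [h.zero])
    | succ i ih =>
      rw [Function.iterate_succ_apply', ih, hT]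
      congr 1
      refine Subtype.ext ?_
      show Ψ 1 (Ψ i p.1) = Ψ ((i + 1 : ℕ) : ℝ) p.1
      rw [← hadd, Nat.cast_succ, add_comm]
  refine ⟨P', hP'm, hP'i, fun n => ?_⟩
  refine Finset.sum_congr rfl fun w _ => ?_
  congr 1
  simp only [Measure.real]
  congr 1
  have hA : MeasurableSet ((fun x (i : Fin n) => P (T^[i] x)) ⁻¹' {w}) :=
    measurable_pi_lambda _ (fun i => hP.comp (hTc.measurable.iterate _))
      (measurableSet_singleton w)
  have hS : MeasurableSet ((fun p (i : Fin n) => P' (Ψ (i : ℕ) p)) ⁻¹' {w}) :=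
    measurable_pi_lambda _ (fun i => hP'm.comp (hm _)) (measurableSet_singleton w)
  have e1 : Subtype.val '' (prj a G ⁻¹' ((fun x (i : Fin n) => P (T^[i] x)) ⁻¹' {w})) =
      SB G ∩ (fun p (i : Fin n) => P' (Ψ (i : ℕ) p)) ⁻¹' {w} := by
    ext p
    simp only [mem_image, mem_preimage, mem_singleton_iff, mem_inter_iff, Subtype.exists,
      exists_and_right, exists_eq_right, hit]
    constructor
    · rintro ⟨hp, hw⟩
      refine ⟨hp, ?_⟩
      rw [← hw]
      exact funext fun i => hP'e _ _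
    · rintro ⟨hp, hw⟩
      refine ⟨hp, ?_⟩
      rw [← hw]
      exact funext fun i => (hP'e _ _).symm
  have e2 : pr G F (SB G ∩ (fun p (i : Fin n) => P' (Ψ (i : ℕ) p)) ⁻¹' {w}) =
      pr G F ((fun p (i : Fin n) => P' (Ψ (i : ℕ) p)) ⁻¹' {w}) := by
    refine measure_congr ?_
    filter_upwards [ae_pr (F := F) H.met hF.meas] with p hp
    exact propext ⟨fun h' => h'.2, fun h' => ⟨hp.1, h'⟩⟩
  have e3 := H.pr_inv h hF hF' hS (fun γ p hp => by
    simp only [mem_preimage, mem_singleton_iff]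
    have : (fun i : Fin n => P' (Ψ (i : ℕ) (tg (a γ) p))) = fun i : Fin n => P' (Ψ (i : ℕ) p) :=
      funext fun i => by
        rw [h.equiv H.met (H.iso γ) (SB_sub hp), hP'i γ _ (h.mem_SB H.met hp _)]
    rw [this]) 0
  have e4 : Ψ 0 = id := funext h.zero
  rw [e4, preimage_id] at e3
  rw [← e3, ← e2, ← e1, liouQ, Measure.smul_apply, Measure.map_apply hprj hA,
    (MeasurableEmbedding.subtype_coe H.met.meas_SB).comap_apply]
  rfl

end Pool.Agent.Lib.MP_235f17_gt.K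
end

-- part Pool.Agent.Lib.MP_235f17_gt.K.Top
section

/-! The lower bound for the topological entropy. -/

set_option autoImplicit false
set_option linter.unusedSectionVars false

open MeasureTheory Set Filter Topology Metric
open scoped ContDiff ENNReal RealInnerProductSpace

namespace Pool.Agent.Lib.MP_235f17_gt.K

variable {E : Type} [NormedAddCommGroup E] [InnerProductSpace ℝ E] [FiniteDimensional ℝ E]
  [MeasurableSpace E] [BorelSpace E] {J : E →L[ℝ] E} {G G' : E → E →L[ℝ] E}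
  {Ψ : ℝ → E × E → E × E} {Γ : Type} [Group Γ] {a : Γ → E → E} {F F' : Set E} {r : ℝ}
  {d : E → E → ℝ}

namespace TopAux

theorem exp_big {c η : ℝ} (K : ℝ) (hc : 0 < c) (hη : 0 < η) :
    ∀ᶠ n : ℕ in atTop, ((n : ℝ) + 1) * K < c * Real.exp (η * n) := by
  filter_upwards [tendsto_natCast_atTop_atTop.eventually_gt_atTop (4 * |K| / (c * η ^ 2)),
    eventually_ge_atTop 1] with n h1 h2
  have h3 : (1 : ℝ) ≤ n := by exact_mod_cast h2
  have h0 : 0 ≤ η * n := by positivity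
  have h4 := Real.quadratic_le_exp_of_nonneg h0
  rw [div_lt_iff₀ (by positivity)] at h1
  have h5 : c * ((η * n) ^ 2 / 2) ≤ c * Real.exp (η * n) :=
    mul_le_mul_of_nonneg_left (by linarith) hc.le
  have h6 : ((n : ℝ) + 1) * K ≤ 2 * n * |K| := by
    nlinarith [le_abs_self K, abs_nonneg K]
  have h7 : 4 * |K| * n < n * (c * η ^ 2) * n := mul_lt_mul_of_pos_right h1 (by linarith)
  nlinarith

/-- every point is reached by a unit speed geodesic -/
theorem reach [Nontrivial E] (hG : IsMetric G) (h : IsGeo G Ψ) (hd : IsDist0 G Ψ d) {x y : E}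
    (hx : x ∈ ball (0 : E) 1) (hy : y ∈ ball (0 : E) 1) :
    ∃ p ∈ SB G, p.1 = x ∧ (Ψ (d x y) p).1 = y := by
  obtain ⟨v, hv⟩ := hd.surj x hx y hy
  have h1 : d x y = nm G (x, v) := by
    have := hd.geo (x, v) (mem_UU.2 hx) 1
    rwa [hv, abs_one, one_mul] at this
  have h2 : ∃ w, (x, w) ∈ SB G ∧ v = nm G (x, v) • w := by
    by_cases h0 : v = 0
    · obtain ⟨u, hu⟩ := exists_ne (0 : E)
      exact ⟨_, hG.nrm_mem (p := (x, u)) (mem_UU.2 hx) hu, by rw [h0, nm_zero, zero_smul]⟩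
    · refine ⟨_, hG.nrm_mem (p := (x, v)) (mem_UU.2 hx) h0, ?_⟩
      rw [smul_inv_smul₀ (hG.nm_pos (p := (x, v)) (mem_UU.2 hx) h0).ne']
  obtain ⟨w, hw, hvw⟩ := h2
  refine ⟨(x, w), hw, rfl, ?_⟩
  have h3 := congrArg Prod.fst (h.scale hG hx w (nm G (x, v)) 1)
  rw [← hvw, hv, mul_one] at h3
  rw [h1]
  exact h3.symm

/-- balls of a fixed radius have bounded volume -/
theorem vol_ball (H : Inv J a G) (hd : IsDist0 G Ψ d) (R : ℝ) : ∃ V : ℝ≥0∞, V ≠ ⊤ ∧
    ∀ w ∈ ball (0 : E) 1, vol (berg J) {y | y ∈ ball (0 : E) 1 ∧ d w y < R} ≤ V := by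
  obtain ⟨r, hr, hc⟩ := H.lat.cocpt
  obtain ⟨r', hr', hn⟩ := hd.near hr R
  refine ⟨_, vol_closedBall (berg_metric H.cx) hr', fun w hw => ?_⟩
  obtain ⟨γ, hγ⟩ := hc w hw
  have h1 : ContinuousOn (fun y => d w y) (ball (0 : E) 1) :=
    hd.cont.comp (f := fun y => (w, y)) (by fun_prop) fun y hy => ⟨hw, hy⟩
  have h2 : IsOpen {y | y ∈ ball (0 : E) 1 ∧ d w y < R} :=
    h1.isOpen_inter_preimage isOpen_ball (isOpen_Iio (a := R))
  rw [← (H.toBerg.iso γ).vol_image (berg_metric H.cx) (H.lat.injOn γ) h2.measurableSet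
    fun _ hy => hy.1]
  refine measure_mono ?_
  rintro _ ⟨y, hy, rfl⟩
  exact hn _ hγ _ (H.lat.maps γ hy.1) (by rw [hd.inv _ (H.iso γ) _ hw _ hy.1]; exact hy.2.le)

/-- the pairs which are close at the times `0` and `1` -/
def near (G : E → E →L[ℝ] E) (Ψ : ℝ → E × E → E × E) (d : E → E → ℝ) (δ : ℝ) :
    Set (SB G × SB G) :=
  {z | d z.1.1.1 z.2.1.1 < δ ∧ d (Ψ 1 z.1.1).1 (Ψ 1 z.2.1).1 < δ}

theorem isOpen_near (hG : IsMetric G) (h : IsGeo G Ψ) (hd : IsDist0 G Ψ d) (δ : ℝ) :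
    IsOpen (near G Ψ d δ) := by
  have h1 : Continuous fun p : SB G => (Ψ 1 p.1).1 :=
    ((h.smooth_at isOpen_UU (fld_smooth hG) 1).continuousOn.comp_continuous continuous_subtype_val
      fun p => SB_sub p.2).fst
  have h2 : Continuous fun z : SB G × SB G => d z.1.1.1 z.2.1.1 :=
    hd.cont.comp_continuous (f := fun z : SB G × SB G => (z.1.1.1, z.2.1.1)) (by fun_prop)
      fun z => ⟨z.1.2.1, z.2.2.1⟩
  have h3 : Continuous fun z : SB G × SB G => d (Ψ 1 z.1.1).1 (Ψ 1 z.2.1).1 :=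
    hd.cont.comp_continuous (f := fun z : SB G × SB G => ((Ψ 1 z.1.1).1, (Ψ 1 z.2.1).1))
      ((h1.comp continuous_fst).prodMk (h1.comp continuous_snd))
      fun z => ⟨h.base (SB_sub z.1.2) 1, h.base (SB_sub z.2.2) 1⟩
  exact (isOpen_lt h2 continuous_const).inter (isOpen_lt h3 continuous_const)

theorem lift (H : Inv J a G) (h : IsGeo G Ψ) (hd : IsDist0 G Ψ d) {δ : ℝ} {p q : SB G}
    (hm : (prj a G p, prj a G q) ∈ Prod.map (prj a G) (prj a G) '' near G Ψ d δ) :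
    ∃ γ, d p.1.1 (a γ q.1.1) < δ ∧ d (Ψ 1 p.1).1 (a γ (Ψ 1 q.1).1) < δ := by
  obtain ⟨⟨p', q'⟩, ⟨h1, h2⟩, he⟩ := hm
  obtain ⟨α, hα⟩ := (H.prj_eq_iff p' p).1 (congrArg Prod.fst he)
  obtain ⟨β, hβ⟩ := (H.prj_eq_iff q q').1 (congrArg Prod.snd he).symm
  simp only at h1 h2
  refine ⟨α * β, ?_, ?_⟩
  · rw [hβ] at h1
    rw [hα, H.lat.mul _ _ _ q.2.1]
    exact (hd.inv _ (H.iso α) _ p'.2.1 _ (H.lat.maps β q.2.1)).trans_lt h1
  · rw [hβ, h.equiv H.met (H.iso β) (SB_sub q.2)] at h2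
    rw [hα, h.equiv H.met (H.iso α) (SB_sub p'.2), H.lat.mul _ _ _ (h.base (SB_sub q.2) 1)]
    exact (hd.inv _ (H.iso α) _ (h.base (SB_sub p'.2) 1) _
      (H.lat.maps β (h.base (SB_sub q.2) 1))).trans_lt h2

theorem step (hG : IsMetric G) (h : IsGeo G Ψ) (k : ℕ) (p : E × E) :
    Ψ 1 (Ψ k p) = Ψ (k + 1 : ℕ) p := by
  rw [← h.add isOpen_UU (fld_smooth hG), add_comm, Nat.cast_succ]

theorem iter (H : Inv J a G) (h : IsGeo G Ψ) {T : SM a G → SM a G}
    (hT : ∀ p : SB G, T (prj a G p) = prj a G ⟨Ψ 1 p.1, h.mem_SB H.met p.2 1⟩) (p : SB G)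
    (k : ℕ) : T^[k] (prj a G p) = prj a G ⟨Ψ k p.1, h.mem_SB H.met p.2 k⟩ := by
  induction k with
  | zero => simp [h.zero]
  | succ k ih =>
    rw [Function.iterate_succ_apply', ih, hT]
    simp only [step H.met h]

theorem uniq (H : Inv J a G) (hd : IsDist0 G Ψ d) {δ : ℝ}
    (hs : ∀ x ∈ ball (0 : E) 1, ∀ γ γ', d (a γ x) (a γ' x) < 2 * δ → γ = γ') {x y : E}
    (hx : x ∈ ball (0 : E) 1) (hy : y ∈ ball (0 : E) 1) {γ γ' : Γ} (h1 : d x (a γ y) < δ)
    (h2 : d x (a γ' y) < δ) : γ = γ' := by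
  refine hs y hy _ _ ?_
  have h3 := hd.tri _ (H.lat.maps γ hy) _ hx _ (H.lat.maps γ' hy)
  rw [hd.symm _ (H.lat.maps γ hy) _ hx] at h3
  linarith

end TopAux

open TopAux in
theorem top_cover [Nontrivial E] (H : Inv J a G) (h : IsGeo G Ψ) (hd : IsDist0 G Ψ d)
    {T : SM a G → SM a G}
    (hT : ∀ p : SB G, T (prj a G p) = prj a G ⟨Ψ 1 p.1, h.mem_SB H.met p.2 1⟩) :
    ∃ U ∈ 𝓝ˢ (diagonal (SM a G)), ∃ V : ℝ≥0∞, V ≠ ⊤ ∧ ∀ n : ℕ, ∀ x ∈ ball (0 : E) 1,
      vol (berg J) {y | y ∈ ball (0 : E) 1 ∧ d x y ≤ n} ≤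
        (n + 1) * (Dynamics.coverMincard T univ U (n + 1) : ℝ≥0∞) * V := by
  classical
  obtain ⟨δ0, hδ0, hs0⟩ := hd.systole H
  obtain ⟨δ, hδ, rfl⟩ : ∃ δ > 0, δ0 = 2 * δ := ⟨δ0 / 2, by positivity, by ring⟩
  obtain ⟨V, hV, hvol⟩ := vol_ball H hd (δ + 1)
  refine ⟨Prod.map (prj a G) (prj a G) '' near G Ψ d δ, ?_, V + 1, by simp [hV], fun n x hx => ?_⟩
  · refine (H.isOpenMap_prj.prodMap H.isOpenMap_prj _ (isOpen_near H.met h hd δ)).mem_nhdsSet.2 ?_
    rintro ⟨z, z'⟩ hz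
    obtain rfl : z = z' := hz
    obtain ⟨p, rfl⟩ := Quot.exists_rep z
    refine ⟨(p, p), ⟨?_, ?_⟩, rfl⟩
    · exact (hd.self _ p.2.1).trans_lt hδ
    · exact (hd.self _ (h.base (SB_sub p.2) 1)).trans_lt hδ
  rcases eq_top_or_lt_top (Dynamics.coverMincard T univ
    (Prod.map (prj a G) (prj a G) '' near G Ψ d δ) (n + 1)) with ht | ht
  · rw [ht, ENat.toENNReal_top, ENNReal.mul_top (by simp), ENNReal.top_mul (by simp)]
    exact le_top
  obtain ⟨s, hc, hcard⟩ := (Dynamics.coverMincard_finite_iff _ _ _ _).1 ht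
  rw [← hcard, ENat.toENNReal_coe]
  choose q hq using fun z : SM a G => Quot.exists_rep z
  have hγ : ∀ z, ∃ γ0, ∀ γ, d x (a γ (q z).1.1) < δ → γ = γ0 := fun z => by
    by_cases h0 : ∃ γ, d x (a γ (q z).1.1) < δ
    · obtain ⟨γ0, h0⟩ := h0
      exact ⟨γ0, fun γ h1 => uniq H hd hs0 hx (q z).2.1 h1 h0⟩
    · exact ⟨1, fun γ h1 => (h0 ⟨γ, h1⟩).elim⟩
  choose g hg using hγ
  have hsub : {y | y ∈ ball (0 : E) 1 ∧ d x y ≤ n} ⊆ ⋃ z ∈ s ×ˢ Finset.range (n + 1),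
      {y | y ∈ ball (0 : E) 1 ∧ d (a (g z.1) (Ψ z.2 (q z.1).1).1) y < δ + 1} := by
    rintro y ⟨hy, hxy⟩
    obtain ⟨p, hp, rfl, hpy⟩ := reach H.met h hd hx hy
    obtain ⟨z, hz, hpz⟩ := hc (mem_univ (prj a G ⟨p, hp⟩))
    have hb : ∀ t, (Ψ t p).1 ∈ ball (0 : E) 1 := h.base (SB_sub hp)
    have hb' : ∀ t, (Ψ t (q z).1).1 ∈ ball (0 : E) 1 := h.base (SB_sub (q z).2)
    have h1 : ∀ k < n + 1, ∃ γ, d (Ψ k p).1 (a γ (Ψ k (q z).1).1) < δ ∧
        d (Ψ (k + 1 : ℕ) p).1 (a γ (Ψ (k + 1 : ℕ) (q z).1).1) < δ := fun k hk => by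
      have h2 := Dynamics.mem_dynEntourage.1 hpz k hk
      have h3 : z = prj a G (q z) := (hq z).symm
      rw [h3, iter H h hT, iter H h hT] at h2
      simpa only [step H.met h] using lift H h hd h2
    have h2 : ∀ k ≤ n + 1, d (Ψ k p).1 (a (g z) (Ψ k (q z).1).1) < δ := by
      intro k
      induction k with
      | zero =>
        intro _
        obtain ⟨γ, h3, -⟩ := h1 0 n.succ_pos
        have h4 := h3
        simp only [Nat.cast_zero, h.zero] at h4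
        rwa [hg z γ h4] at h3
      | succ k ih =>
        intro hk
        obtain ⟨γ, h3, h4⟩ := h1 k hk
        rwa [uniq H hd hs0 (hb k) (hb' k) h3 (ih (by omega))] at h4
    have hj : ⌊d p.1 y⌋₊ ≤ n := Nat.floor_le_of_le hxy
    have h3 := h2 _ (hj.trans n.le_succ)
    have h4 := hd.geo (Ψ ⌊d p.1 y⌋₊ p) (h.mem p (SB_sub hp) _) (d p.1 y - ⌊d p.1 y⌋₊)
    rw [← h.add isOpen_UU (fld_smooth H.met), sub_add_cancel, hpy, h.nm_eq H.met, nm_of_SB hp,
      mul_one, abs_of_nonneg (sub_nonneg.2 (Nat.floor_le (hd.nonneg _ _)))] at h4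
    have h5 := Nat.lt_floor_add_one (d p.1 y)
    have h6 := hd.tri _ (H.lat.maps (g z) (hb' ⌊d p.1 y⌋₊)) _ (hb ⌊d p.1 y⌋₊) _ hy
    rw [hd.symm _ (H.lat.maps (g z) (hb' _)) _ (hb _)] at h6
    refine mem_biUnion (x := (z, ⌊d p.1 y⌋₊))
      (Finset.mem_coe.2 (Finset.mem_product.2 ⟨hz, Finset.mem_range.2 (Nat.lt_succ_of_le hj)⟩))
      ⟨hy, ?_⟩
    simp only
    linarith
  refine ((measure_mono hsub).trans (measure_biUnion_finset_le _ _)).trans ?_
  refine (Finset.sum_le_card_nsmul _ _ (V + 1) fun z _ =>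
    (hvol _ (H.lat.maps _ (h.base (SB_sub (q z.1).2) _))).trans le_self_add).trans_eq ?_
  rw [Finset.card_product, Finset.card_range, nsmul_eq_mul]
  push_cast
  ring

theorem top_bound {X : Type} [TopologicalSpace X] {T : X → X} {U : Set (X × X)}
    (hU : U ∈ 𝓝ˢ (diagonal X)) {V : ℝ≥0∞} (hV : V ≠ ⊤) {s A : ℝ} (hs : 0 ≤ s) (hA : 0 < A)
    (h : ∀ ε > (0 : ℝ), ∃ c > (0 : ℝ), ∀ t ≥ (1 : ℝ), ∀ n : ℕ, (1 + ε) * A * t ≤ n →
      ENNReal.ofReal (c * Real.exp (s * t)) ≤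
        (n + 1) * (Dynamics.coverMincard T univ U (n + 1) : ℝ≥0∞) * V) :
    ((s / A : ℝ) : EReal) ≤ hTop T := by
  refine le_trans ?_ (le_iSup₂ (f := fun U (_ : U ∈ 𝓝ˢ (diagonal X)) =>
    Dynamics.coverEntropyEntourage T univ U) U hU)
  refine le_of_not_gt fun hlt => ?_
  obtain ⟨b, hb1, hb2⟩ := EReal.lt_iff_exists_real_btwn.1 hlt
  have hb3 : b < s / A := EReal.coe_lt_coe_iff.1 hb2
  have hc : ContinuousAt (fun ε : ℝ => s / ((1 + ε) * A)) 0 := by
    fun_prop (disch := simpa using hA.ne')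
  have he : ∀ᶠ ε in 𝓝[>] (0 : ℝ), b < s / ((1 + ε) * A) :=
    mem_nhdsWithin_of_mem_nhds (hc.eventually (lt_mem_nhds (by simpa using hb3)))
  obtain ⟨ε, hε1, hε⟩ := (he.and self_mem_nhdsWithin).exists
  have hε0 : 0 < ε := hε
  have hB : 0 < (1 + ε) * A := by positivity
  obtain ⟨c, hc0, hc1⟩ := h ε hε0
  have h1 := (tendsto_add_atTop_nat 1).eventually (ExpGrowth.eventually_le_exp hb1)
  obtain ⟨n, ⟨h2, h3⟩, h4⟩ := ((h1.and (TopAux.exp_big (Real.exp b * V.toReal) hc0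
    (sub_pos.2 hε1))).and (tendsto_natCast_atTop_atTop.eventually_ge_atTop ((1 + ε) * A))).exists
  have h5 := hc1 (n / ((1 + ε) * A)) ((one_le_div hB).2 h4) n (by field_simp; rfl)
  have h6 : ENNReal.ofReal (c * Real.exp (s * (n / ((1 + ε) * A)))) ≤
      ENNReal.ofReal ((n + 1) * Real.exp (b * (n + 1)) * V.toReal) := by
    refine h5.trans ?_
    rw [ENNReal.ofReal_mul (by positivity), ENNReal.ofReal_mul (by positivity),
      ENNReal.ofReal_toReal hV]
    gcongr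
    · rw [← Nat.cast_succ, ← Nat.cast_succ, ENNReal.ofReal_natCast]
    · refine h2.trans_eq ?_
      rw [← EReal.exp_coe]
      push_cast
      rfl
  rw [ENNReal.ofReal_le_ofReal_iff (by positivity)] at h6
  have h7 : Real.exp (s * (n / ((1 + ε) * A))) =
      Real.exp ((s / ((1 + ε) * A) - b) * n) * Real.exp (b * n) := by
    rw [← Real.exp_add]
    congr 1
    ring
  have h8 : Real.exp (b * (n + 1)) = Real.exp b * Real.exp (b * n) := by
    rw [← Real.exp_add]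
    congr 1
    ring
  rw [h7, h8] at h6
  have h9 := mul_lt_mul_of_pos_right h3 (Real.exp_pos (b * n))
  nlinarith

end Pool.Agent.Lib.MP_235f17_gt.K
end
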